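import Pool.Agent.Lib_helper15.AQ.UP.Facts
import Pool.Agent.Lib_helper15.UP.Facts
import Pool.Agent.Lib_helper15.PFMF.F4
import Pool.Agent.Lib_helper15.PFMF.F7
import Pool.Agent.Lib_helper15.UPAF.UA2
import Pool.Agent.Lib_helper15.AQ.PFMF.F4
import Pool.Agent.Lib_helper15.AQ.PFMF.F7


/-!
# UPA, block UA2 (helper20)
-/

set_option autoImplicit false

namespace Pool.Agent.AQ.UPA

open Finset Filter Pool.Agent.PENT Pool.Agent.AQ.NC Pool.Agent.AQ.PFM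
open Pool.Agent.PENK (PolyK Wts dl mL ich EquiF PerP prs lw L1 Rf)
open Pool.Agent.PFM (DE ph LocS Bo Un)
open Pool.Agent.UPA (tp exW feD feU vqU cs cr FamO LawO edP mem_feD mem_feU mem_vqU)
open Pool.Agent.AQ.PENK (nz)

variable [Cst]

lemma ua2_rpow {x y a : ℝ} (hx : 0 < x) (h1 : 1 / 2 * x ≤ y) (h2 : y ≤ x) :
    y ^ a ≤ max ((1 / 2 : ℝ) ^ a) 1 * x ^ a := by
  have hy : 0 < y := lt_of_lt_of_le (by positivity) h1
  have hxa : 0 ≤ x ^ a := Real.rpow_nonneg hx.le _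
  rcases le_total 0 a with ha | ha
  · calc y ^ a ≤ x ^ a := Real.rpow_le_rpow hy.le h2 ha
      _ = 1 * x ^ a := (one_mul _).symm
      _ ≤ _ := mul_le_mul_of_nonneg_right (le_max_right _ _) hxa
  · calc y ^ a ≤ (1 / 2 * x) ^ a := Real.rpow_le_rpow_of_nonpos (by positivity) h1 ha
      _ = (1 / 2 : ℝ) ^ a * x ^ a := Real.mul_rpow (by norm_num) hx.le
      _ ≤ _ := mul_le_mul_of_nonneg_right (le_max_left _ _) hxa

/-- the floor does not change the logarithm much -/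
lemma ua2_floor {L : ℝ} (hL : 2 * Real.log 2 ≤ L) :
    1 / 2 * L ≤ Real.log (⌊Real.exp L⌋₊ : ℝ) ∧ Real.log (⌊Real.exp L⌋₊ : ℝ) ≤ L := by
  have hlog2 : 0 < Real.log 2 := Real.log_pos (by norm_num)
  have h2 : 2 ≤ Real.exp L := by
    calc (2 : ℝ) = Real.exp (Real.log 2) := (Real.exp_log (by norm_num)).symm
      _ ≤ Real.exp L := Real.exp_le_exp.2 (by linarith)
  have h3 : Real.exp L / 2 ≤ (⌊Real.exp L⌋₊ : ℝ) := by
    have := Nat.lt_floor_add_one (Real.exp L)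
    linarith
  have h4 : (⌊Real.exp L⌋₊ : ℝ) ≤ Real.exp L := Nat.floor_le (Real.exp_pos _).le
  have h5 : (0 : ℝ) < ⌊Real.exp L⌋₊ := lt_of_lt_of_le (by linarith) h3
  constructor
  · calc 1 / 2 * L ≤ L - Real.log 2 := by linarith
      _ = Real.log (Real.exp L / 2) := by
          rw [Real.log_div (Real.exp_pos _).ne' (by norm_num), Real.log_exp]
      _ ≤ _ := Real.log_le_log (by linarith) h3
  · calc Real.log (⌊Real.exp L⌋₊ : ℝ) ≤ Real.log (Real.exp L) := Real.log_le_log h5 h4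
      _ = L := Real.log_exp L

/-- the conditions on `X` -/
lemma ua2_ev (ps : ℕ) (ε t e : ℝ) (hε : 0 < ε) (ht : 0 < t) : ∃ X₀ : ℕ, ∀ X ≥ X₀,
    3 ≤ X ∧ ps ≤ ⌊PP X⌋₊ ∧ 3 ≤ ⌊PP X⌋₊ ∧ PP X ≤ (X : ℝ) ^ t ∧
    2 * Real.log X ≤ (⌊PP X⌋₊ : ℝ) ∧ (X : ℝ) ^ (-(ε / 2)) ≤ Real.log X ^ e ∧
    2 * Real.log 2 ≤ t * Real.log X ∧ 2 * Real.log 2 ≤ Real.log (X : ℝ) ^ (1 / 100 : ℝ) := by
  have hL : Filter.Tendsto (fun X : ℕ => Real.log (X : ℝ)) Filter.atTop Filter.atTop :=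
    Real.tendsto_log_atTop.comp tendsto_natCast_atTop_atTop
  have hL1 : Filter.Tendsto (fun X : ℕ => Real.log (X : ℝ) ^ (1 / 100 : ℝ)) Filter.atTop
      Filter.atTop := (tendsto_rpow_atTop (by norm_num)).comp hL
  have hPP : Filter.Tendsto (fun X : ℕ => PP X) Filter.atTop Filter.atTop :=
    Real.tendsto_exp_atTop.comp hL1
  have c1 := hPP.eventually_ge_atTop (ps : ℝ)
  have c2 := hPP.eventually_ge_atTop (3 : ℝ)
  -- `PP X ≤ X ^ t`
  have c3 : ∀ᶠ X : ℕ in Filter.atTop, Real.log (X : ℝ) ^ (1 / 100 : ℝ) ≤ t * Real.log (X : ℝ) := by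
    have h := (tendsto_rpow_neg_atTop (show (0 : ℝ) < 99 / 100 by norm_num)).comp hL
    filter_upwards [h.eventually (gt_mem_nhds ht), hL.eventually_ge_atTop 1] with X hX hX1
    have hl0 : 0 < Real.log (X : ℝ) := by linarith
    have e : Real.log (X : ℝ) ^ (1 / 100 : ℝ) =
        Real.log (X : ℝ) ^ (-(99 / 100) : ℝ) * Real.log (X : ℝ) := by
      nth_rewrite 3 [← Real.rpow_one (Real.log (X : ℝ))]
      rw [← Real.rpow_add hl0]
      norm_num
    rw [e]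
    exact mul_le_mul_of_nonneg_right (le_of_lt hX) hl0.le
  have c4 : ∀ᶠ X : ℕ in Filter.atTop, 2 * Real.log (X : ℝ) + 1 ≤ PP X := by
    have h1 : Filter.Tendsto (fun X : ℕ => (Real.log (X : ℝ) ^ (1 / 100 : ℝ)) ^ (100 : ℝ) *
      Real.exp (-1 * (Real.log (X : ℝ) ^ (1 / 100 : ℝ)))) Filter.atTop (nhds 0) :=
      (tendsto_rpow_mul_exp_neg_mul_atTop_nhds_zero (100 : ℝ) 1 one_pos).comp hL1
    filter_upwards [h1.eventually (gt_mem_nhds (show (0 : ℝ) < 1 / 3 by norm_num)),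
      hL.eventually_ge_atTop 1] with X hX hX1
    rw [← Real.rpow_mul (by linarith), show (1 / 100 : ℝ) * 100 = 1 by norm_num,
      Real.rpow_one, neg_one_mul, Real.exp_neg] at hX
    have hp : 0 < Real.exp (Real.log (X : ℝ) ^ (1 / 100 : ℝ)) := Real.exp_pos _
    rw [← div_eq_mul_inv, div_lt_iff₀ hp] at hX
    rw [PP]
    linarith
  have c5 : ∀ᶠ X : ℕ in Filter.atTop, (X : ℝ) ^ (-(ε / 2)) ≤ Real.log X ^ e := by
    have h1 : Filter.Tendsto (fun X : ℕ => Real.log (X : ℝ) ^ (-e) *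
      Real.exp (-(ε / 2) * Real.log (X : ℝ))) Filter.atTop (nhds 0) :=
      (tendsto_rpow_mul_exp_neg_mul_atTop_nhds_zero (-e) (ε / 2) (by linarith)).comp hL
    filter_upwards [h1.eventually (gt_mem_nhds (show (0 : ℝ) < 1 by norm_num)),
      hL.eventually_ge_atTop 1, Filter.eventually_ge_atTop 3] with X hX hX1 hX3
    have hX0 : (0 : ℝ) < X := by
      have : 0 < X := by omega
      exact_mod_cast this
    have hl0 : 0 < Real.log (X : ℝ) := by linarith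
    have hle : 0 < Real.log (X : ℝ) ^ e := Real.rpow_pos_of_pos hl0 _
    rw [Real.rpow_neg hl0.le, inv_mul_eq_div, div_lt_one hle] at hX
    rw [Real.rpow_def_of_pos hX0, mul_comm]
    exact hX.le
  have c6 := hL.eventually_ge_atTop (2 * Real.log 2 / t)
  have c7 := hL1.eventually_ge_atTop (2 * Real.log 2)
  obtain ⟨X₀, hX₀⟩ := Filter.eventually_atTop.mp (c1.and (c2.and (c3.and (c4.and (c5.and
    (c6.and (c7.and (Filter.eventually_ge_atTop 3))))))))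
  refine ⟨X₀, fun X hX => ?_⟩
  obtain ⟨d1, d2, d3, d4, d5, d6, d7, d8⟩ := hX₀ X hX
  have hX0 : (0 : ℝ) < X := by
    have : 0 < X := by omega
    exact_mod_cast this
  refine ⟨d8, Nat.le_floor d1, Nat.le_floor (by exact_mod_cast d2), ?_, ?_, d5, ?_, d7⟩
  · rw [PP, Real.rpow_def_of_pos hX0]
    exact Real.exp_le_exp.2 (by rw [mul_comm]; exact d3)
  · have := Nat.lt_floor_add_one (PP X)
    linarith
  · rw [div_le_iff₀ ht] at d6
    linarith

/-- `bd ≤ 33` -/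
lemma ua2_bd (W : Wts 11) (hW : W.Ok) (fe vq : Finset (Fin 11)) (P0 p : ℕ) :
    bd fe vq W P0 p ≤ 33 := by
  have hf : (fe.card : ℝ) ≤ 11 := by
    have := Finset.card_le_univ fe
    simp only [Fintype.card_fin] at this
    exact_mod_cast this
  have hv : (vq.card : ℝ) ≤ 11 := by
    have := Finset.card_le_univ vq
    simp only [Fintype.card_fin] at this
    exact_mod_cast this
  have h1 : ∑ i ∈ vq, (1 - W.bo i) ≤ vq.card := by
    calc ∑ i ∈ vq, (1 - W.bo i) ≤ ∑ i ∈ vq, (1 : ℝ) :=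
          Finset.sum_le_sum fun i _ => by linarith [hW.bo0 i]
      _ = vq.card := by simp
  have h2 : ∑ i ∈ vq, (1 - W.be i) ≤ vq.card := by
    calc ∑ i ∈ vq, (1 - W.be i) ≤ ∑ i ∈ vq, (1 : ℝ) :=
          Finset.sum_le_sum fun i _ => by linarith [hW.be0 i]
      _ = vq.card := by simp
  have h3 : ∑ j ∈ fe, (1 - 2 * W.al j) ≤ fe.card := by
    calc ∑ i ∈ fe, (1 - 2 * W.al i) ≤ ∑ i ∈ fe, (1 : ℝ) :=
          Finset.sum_le_sum fun i _ => by linarith [hW.al0 i]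
      _ = fe.card := by simp
  rw [bd]
  split_ifs <;> linarith

/-- block UA2 (uses `c1_sieve` = PFMF/F4, `bd_prod` = PFMF/F7): the second sieve in a family, in terms
of `X`. `P0 = ⌊PP X⌋`, `P = ⌊X^t⌋`. The factor of `l₀` in the product of the densities is
`≥ 1/4` (`bd ≤ 33`, `ps ≥ 1100`), so removing `l₀` costs at most `4`. `P^k η ≤ X^(-ε/2)`. -/
theorem fam_sieve_pr (W : Wts 11) (hW : W.Ok) (fe vq : Finset (Fin 11)) (C0 : ℝ) (hC0 : 0 ≤ C0) :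
    ∃ (ps k : ℕ), nz 11 ≤ ps ∧ ∀ ε t : ℝ, 0 < ε → 0 < t → t ≤ 1 → t * k ≤ ε / 2 →
      ∃ C : ℝ, 0 ≤ C ∧ ∃ X₀ : ℕ, ∀ X ≥ X₀, ∀ (ι : Type) (O : Finset ι) (pol : ι → PolyK 11)
      (L : ℕ → Finset (PolyK 11)) (m l₀ : ℕ) (η : ℝ), 0 < m →
      (∀ p : ℕ, p.Prime → p ∣ m → PP X < (p : ℝ)) → Real.log m ≤ 2 * Real.log X → 0 ≤ η →
      η ≤ (X : ℝ) ^ (-ε) → ∀ S : Finset ℕ,
      S = (prs ps ⌊(X : ℝ) ^ t⌋₊).filter (fun p => ¬ p ∣ m ∧ p ≠ l₀) →
      (∀ p ∈ S, LocS fe vq p (L p) C0) →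
      EquiF O pol L S ((⌊(X : ℝ) ^ t⌋₊ : ℝ) ^ k) η →
      ∑ o ∈ O, ∏ p ∈ S, Ph W ⌊PP X⌋₊ fe vq (pol o) p ≤
        C * O.card * Real.log X ^ exW fe vq W := by
  obtain ⟨ps, k, C1, hps, hps2, hC1, hsv⟩ := c1_sieve W hW fe vq C0 hC0
  obtain ⟨C2, hC2, hbd⟩ := bd_prod W hW fe vq ps C1 hC1
  refine ⟨ps, k, by omega, ?_⟩
  intro ε t hε ht ht1 htk
  set a : ℝ := -(fe.card : ℝ) + ∑ j ∈ fe, W.al j - ∑ i ∈ vq, (1 - W.be i) with ha
  set b : ℝ := ∑ i ∈ vq, (1 - W.be i) - ∑ i ∈ vq, (1 - W.bo i) - ∑ j ∈ fe, W.al j with hb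
  have hex : exW fe vq W = a + 1 / 100 * b := by rw [exW]
  obtain ⟨X₀, hX₀⟩ := ua2_ev ps ε t (exW fe vq W) hε ht
  set Ca : ℝ := max ((1 / 2 : ℝ) ^ a) 1 * t ^ a with hCa
  set Cb : ℝ := max ((1 / 2 : ℝ) ^ b) 1 with hCb
  have hCa0 : 0 ≤ Ca := mul_nonneg (le_trans zero_le_one (le_max_right _ _))
    (Real.rpow_nonneg ht.le _)
  have hCb0 : 0 ≤ Cb := le_trans zero_le_one (le_max_right _ _)
  refine ⟨8 * (C2 * Ca * Cb) + 1, by positivity, X₀, ?_⟩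
  intro X hX ι O pol L m l₀ η hm hmp hml hη hηX S hS hLoc hE
  obtain ⟨x1, x2, x3, x4, x5, x6, x7, x8⟩ := hX₀ X hX
  have hX3 : (3 : ℝ) ≤ X := by exact_mod_cast x1
  have hX0 : (0 : ℝ) < X := by linarith
  have hX1 : (1 : ℝ) ≤ X := by linarith
  have hlX : 0 < Real.log (X : ℝ) := Real.log_pos (by linarith)
  have hPP0 : 0 < PP X := Real.exp_pos _
  set P0 : ℕ := ⌊PP X⌋₊ with hP0
  set P : ℕ := ⌊(X : ℝ) ^ t⌋₊ with hP
  have hP0P : P0 ≤ P := Nat.floor_mono x4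
  have hP1 : 1 ≤ P := by omega
  have hη1 : η ≤ 1 := hηX.trans (Real.rpow_le_one_of_one_le_of_nonpos hX1 (by linarith))
  -- the logarithms
  have hlogP : 1 / 2 * (t * Real.log X) ≤ Real.log P ∧ Real.log P ≤ t * Real.log X := by
    have := ua2_floor x7
    rwa [show Real.exp (t * Real.log X) = (X : ℝ) ^ t by
      rw [Real.rpow_def_of_pos hX0, mul_comm]] at this
  have hlogP0 : 1 / 2 * Real.log (X : ℝ) ^ (1 / 100 : ℝ) ≤ Real.log P0 ∧
      Real.log P0 ≤ Real.log (X : ℝ) ^ (1 / 100 : ℝ) := ua2_floor x8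
  -- the densities
  have hfac : ∀ p : ℕ, ps < p → 1 / 4 ≤ 1 - bd fe vq W P0 p / p + C1 / (p : ℝ) ^ 2 := by
    intro p hp
    have h1 := ua2_bd W hW fe vq P0 p
    have hp1 : (1100 : ℝ) ≤ p := by
      have h9 : 100 * 11 ≤ nz 11 := Nat.le_add_right _ _
      have : 1100 ≤ p := by omega
      exact_mod_cast this
    have hp0 : (0 : ℝ) < p := by linarith
    have h2 : bd fe vq W P0 p / p ≤ 33 / p := by gcongr
    have h3 : (33 : ℝ) / p ≤ 1 / 2 := by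
      rw [div_le_iff₀ hp0]
      linarith
    have h4 : 0 ≤ C1 / (p : ℝ) ^ 2 := by positivity
    linarith
  set F : Finset ℕ := (prs ps P).filter (fun p => ¬ p ∣ m) with hF
  have hFps : ∀ p ∈ F, ps < p := by
    intro p hp
    rw [hF, mem_filter, PENK.prs, mem_filter, mem_Ioc] at hp
    exact hp.1.1.1
  have hSF : S = F.erase l₀ := by
    rw [hS, hF]
    ext p
    simp only [mem_filter, mem_erase]
    tauto
  have hprodS : ∏ p ∈ S, (1 - bd fe vq W P0 p / p + C1 / (p : ℝ) ^ 2) ≤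
      4 * ∏ p ∈ F, (1 - bd fe vq W P0 p / p + C1 / (p : ℝ) ^ 2) := by
    have hnn : 0 ≤ ∏ p ∈ S, (1 - bd fe vq W P0 p / p + C1 / (p : ℝ) ^ 2) := by
      apply Finset.prod_nonneg
      intro p hp
      rw [hSF] at hp
      linarith [hfac p (hFps p (mem_of_mem_erase hp))]
    by_cases hl : l₀ ∈ F
    · rw [← Finset.mul_prod_erase F _ hl, ← hSF]
      have h1 := hfac l₀ (hFps l₀ hl)
      have h2 := mul_le_mul_of_nonneg_right h1 hnn
      linarith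
    · rw [hSF, Finset.erase_eq_of_notMem hl] at hnn ⊢
      linarith
  have hbdp := hbd P0 P x2 x3 hP0P m hm (fun p hp hpm => by
      exact (Nat.floor_lt hPP0.le).mpr (hmp p hp hpm)) (hml.trans x5)
      (fun p hp => hfac p (hFps p hp))
  have hsieve := (hsv ι O pol L S P0 P η hP1 hη hη1 (by
      intro p hp
      rw [hSF] at hp
      have h1 := mem_of_mem_erase hp
      rw [hF, mem_filter, PENK.prs, mem_filter, mem_Ioc] at h1
      exact ⟨h1.1.2, h1.1.1.1, h1.1.1.2⟩) hLoc hE).1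
  have hPa : Real.log P ^ a ≤ Ca * Real.log X ^ a := by
    have h1 := ua2_rpow (a := a) (mul_pos ht hlX) hlogP.1 hlogP.2
    rw [Real.mul_rpow ht.le hlX.le, ← mul_assoc] at h1
    exact h1
  have hPb : Real.log P0 ^ b ≤ Cb * Real.log X ^ (1 / 100 * b) := by
    have h1 := ua2_rpow (a := b) (Real.rpow_pos_of_pos hlX (1 / 100)) hlogP0.1 hlogP0.2
    rw [← Real.rpow_mul hlX.le] at h1
    exact h1
  have hlP0 : 0 ≤ Real.log P := by
    have := hlogP.1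
    have h2 : 0 ≤ 1 / 2 * (t * Real.log X) := by positivity
    linarith
  have hmain : ∏ p ∈ F, (1 - bd fe vq W P0 p / p + C1 / (p : ℝ) ^ 2) ≤
      C2 * Ca * Cb * Real.log X ^ exW fe vq W := by
    refine hbdp.trans ?_
    have hb0 : 0 ≤ Real.log P0 ^ b := Real.rpow_nonneg (by
      have := hlogP0.1
      have h2 : 0 ≤ 1 / 2 * Real.log (X : ℝ) ^ (1 / 100 : ℝ) := by positivity
      linarith) _
    calc C2 * Real.log P ^ a * Real.log P0 ^ b
        ≤ C2 * (Ca * Real.log X ^ a) * (Cb * Real.log X ^ (1 / 100 * b)) := by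
          apply mul_le_mul (mul_le_mul_of_nonneg_left hPa hC2) hPb hb0
          have : 0 ≤ Real.log (X : ℝ) ^ a := Real.rpow_nonneg hlX.le _
          positivity
      _ = C2 * Ca * Cb * (Real.log X ^ a * Real.log X ^ (1 / 100 * b)) := by ring
      _ = _ := by rw [← Real.rpow_add hlX, ← hex]
  have herr : (P : ℝ) ^ k * η ≤ Real.log X ^ exW fe vq W := by
    have h1 : (P : ℝ) ≤ (X : ℝ) ^ t := Nat.floor_le (Real.rpow_nonneg hX0.le _)
    calc (P : ℝ) ^ k * η ≤ ((X : ℝ) ^ t) ^ k * (X : ℝ) ^ (-ε) :=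
          mul_le_mul (pow_le_pow_left₀ (Nat.cast_nonneg _) h1 k) hηX hη (by positivity)
      _ = (X : ℝ) ^ (t * k + -ε) := by
          rw [← Real.rpow_natCast, ← Real.rpow_mul hX0.le, ← Real.rpow_add hX0]
      _ ≤ (X : ℝ) ^ (-(ε / 2)) := Real.rpow_le_rpow_of_exponent_le hX1 (by linarith)
      _ ≤ _ := x6
  calc ∑ o ∈ O, ∏ p ∈ S, Ph W P0 fe vq (pol o) p
      ≤ (O.card : ℝ) * (2 * ∏ p ∈ S, (1 - bd fe vq W P0 p / p + C1 / (p : ℝ) ^ 2) +
          (P : ℝ) ^ k * η) := hsieve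
    _ ≤ (O.card : ℝ) * (2 * (4 * (C2 * Ca * Cb * Real.log X ^ exW fe vq W)) +
          Real.log X ^ exW fe vq W) := by
        apply mul_le_mul_of_nonneg_left _ (Nat.cast_nonneg _)
        linarith
    _ = _ := by ring

alias fam_sieve := fam_sieve_pr

end Pool.Agent.AQ.UPA
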