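import Pool.Agent.Lib_helper15.AQ.UP.Facts
import Pool.Agent.Lib_helper15.PFMF.F8


/-! AQ (MP_892e4c), block UA3 (helper53, port by helper99): the local facts for the family `cD` -/

set_option autoImplicit false

namespace Pool.Agent.AQ.UPA

open Finset Filter Pool.Agent.PENT Pool.Agent.AQ.NC Pool.Agent.AQ.PFM
open Pool.Agent.PENK (PolyK Wts dl mL ich EquiF PerP prs lw L1 Rf)
open Pool.Agent.PFM (DE ph LocS Bo Un f8Z f8_card f8_zsum f8_sum_le f8_sum_ge f8_and f8_ich0 f8_ich1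
  f8_swap f8_ich f8_eq f8_div_le f8_mono)
open Pool.Agent.UPA (tp exW feD feU vqU cs cr FamO LawO edP mem_feD mem_feU mem_vqU)
open Pool.Agent.AQ.PENK (nz)

variable [Cst]

/-- the free vertices -/
def ua3F (v : Fin 11) : Prop := v ≠ 0 ∧ v ≠ 10

theorem ua3_free {v : Fin 11} (hv : ua3F v) (p : ℕ) :
    cr (cD v).1 p ×ˢ cr (cD v).2 p = L1 p := by
  unfold cD
  rw [if_neg hv.1, if_neg hv.2]
  rfl

theorem ua3_mem {p : ℕ} {u : PolyK 11} :
    u ∈ LawO cD p ↔ ∀ j, u j ∈ cr (cD j).1 p ×ˢ cr (cD j).2 p := by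
  unfold LawO
  rw [Fintype.mem_piFinset]

theorem ua3_zero {p : ℕ} {u : PolyK 11} (hu : u ∈ LawO cD p) : u 0 = (1, 0) := by
  have h := ua3_mem.1 hu 0
  have e : cr (cD 0).1 p ×ˢ cr (cD 0).2 p = ({1} : Finset ℤ) ×ˢ ({0} : Finset ℤ) := by
    unfold cD
    rw [if_pos rfl]
    rfl
  rw [e, mem_product, mem_singleton, mem_singleton] at h
  exact Prod.ext h.1 h.2

theorem ua3_ten {p : ℕ} {u : PolyK 11} (hu : u ∈ LawO cD p) : u 10 = z := by
  have h := ua3_mem.1 hu 10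
  have e : cr (cD 10).1 p ×ˢ cr (cD 10).2 p = ({z.1} : Finset ℤ) ×ˢ ({z.2} : Finset ℤ) := by
    unfold cD
    rw [if_neg (by decide), if_pos rfl]
    rfl
  rw [e, mem_product, mem_singleton, mem_singleton] at h
  exact Prod.ext h.1 h.2

omit [Cst] in
theorem ua3_one {p : ℕ} (hp : p.Prime) : ¬ (p : ℤ) ∣ 1 := by
  intro h
  have h1 := Int.natCast_dvd.1 h
  exact hp.one_lt.ne' (Nat.dvd_one.1 h1)

theorem ua3_z {p : ℕ} (hp : p.Prime) : ¬ f8Z p z := by
  intro h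
  have h3 := z_cop.isUnit_of_dvd' h.1 h.2
  rw [Int.isUnit_iff] at h3
  rcases h3 with h3 | h3
  · exact hp.one_lt.ne' (by exact_mod_cast h3)
  · have : (0 : ℤ) ≤ p := Int.natCast_nonneg p
    omega

theorem ua3_fix {p : ℕ} (hp : p.Prime) {u : PolyK 11} (hu : u ∈ LawO cD p) {w : Fin 11}
    (hw : ¬ ua3F w) : ¬ f8Z p (u w) := by
  intro hz
  by_cases h0 : w = 0
  · subst h0
    rw [ua3_zero hu] at hz
    exact ua3_one hp hz.1
  · by_cases h1 : w = 10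
    · subst h1
      rw [ua3_ten hu] at hz
      exact ua3_z hp hz
    · exact hw ⟨h0, h1⟩

/-- averaging over one free vertex -/
theorem ua3_avg {p : ℕ} {v : Fin 11} (hv : ua3F v) (f : PolyK 11 → ℝ) :
    ((L1 p).card : ℝ) * ∑ u ∈ LawO cD p, f u =
      ∑ u ∈ LawO cD p, ∑ x ∈ L1 p, f (Function.update u v x) := by
  rw [← sum_product']
  have e : ((L1 p).card : ℝ) * ∑ u ∈ LawO cD p, f u = ∑ z ∈ LawO cD p ×ˢ L1 p, f z.1 := by
    rw [sum_product]
    simp only [sum_const, nsmul_eq_mul]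
    rw [mul_sum]
  rw [e]
  refine sum_nbij' (fun z => (Function.update z.1 v z.2, z.1 v))
    (fun z => (Function.update z.1 v z.2, z.1 v)) ?_ ?_ ?_ ?_ ?_
  · intro z hz
    rw [mem_product, ua3_mem] at hz
    rw [mem_product, ua3_mem]
    refine ⟨fun i => ?_, by have := hz.1 v; rwa [ua3_free hv] at this⟩
    by_cases hi : i = v
    · subst hi
      rw [ua3_free hv]
      simpa using hz.2
    · simp only [Function.update_of_ne hi]
      exact hz.1 i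
  · intro z hz
    rw [mem_product, ua3_mem] at hz
    rw [mem_product, ua3_mem]
    refine ⟨fun i => ?_, by have := hz.1 v; rwa [ua3_free hv] at this⟩
    by_cases hi : i = v
    · subst hi
      rw [ua3_free hv]
      simpa using hz.2
    · simp only [Function.update_of_ne hi]
      exact hz.1 i
  · intro z _
    simp
  · intro z _
    simp
  · intro z _
    simp

/-- the probability that a vertex is zero -/
theorem ua3_P0 {p : ℕ} (hp : p.Prime) (w : Fin 11) :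
    (p : ℝ) ^ 2 * ∑ u ∈ LawO cD p, ich (f8Z p (u w)) ≤ (LawO cD p).card := by
  by_cases hw : ua3F w
  · have h := ua3_avg (p := p) hw (fun u => ich (f8Z p (u w)))
    rw [f8_card] at h
    push_cast at h
    rw [h]
    calc ∑ u ∈ LawO cD p, ∑ x ∈ L1 p, ich (f8Z p (Function.update u w x w))
        ≤ ∑ _u ∈ LawO cD p, (1 : ℝ) := by
          refine sum_le_sum fun u _ => ?_
          simp only [Function.update_self]
          exact f8_zsum
      _ = _ := by simp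
  · have h0 : ∑ u ∈ LawO cD p, ich (f8Z p (u w)) = 0 := by
      apply Finset.sum_eq_zero
      intro u hu
      unfold ich
      rw [if_neg (ua3_fix hp hu hw)]
    rw [h0, mul_zero]
    exact Nat.cast_nonneg _

/-- the probability that two vertices are parallel -/
theorem ua3_P1 {p : ℕ} (hp : p.Prime) {w v : Fin 11} (hwv : w ≠ v) (hv : ua3F v) :
    (p : ℝ) ^ 2 * ∑ u ∈ LawO cD p, ich ((p : ℤ) ∣ dt (u w) (u v)) ≤
        2 * p * (LawO cD p).card ∧
      (p : ℝ) * (LawO cD p).card ≤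
        (p : ℝ) ^ 2 * ∑ u ∈ LawO cD p, ich ((p : ℤ) ∣ dt (u w) (u v)) := by
  have h := ua3_avg (p := p) hv (fun u => ich ((p : ℤ) ∣ dt (u w) (u v)))
  rw [f8_card] at h
  push_cast at h
  rw [h]
  simp only [Function.update_self, Function.update_of_ne hwv]
  have hp1 : (1 : ℝ) ≤ p := by exact_mod_cast hp.one_le
  have hN : (0 : ℝ) ≤ (LawO cD p).card := Nat.cast_nonneg _
  constructor
  · calc ∑ u ∈ LawO cD p, ∑ x ∈ L1 p, ich ((p : ℤ) ∣ dt (u w) x)
        ≤ ∑ u ∈ LawO cD p, ((p : ℝ) + (p : ℝ) ^ 2 * ich (f8Z p (u w))) :=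
          sum_le_sum fun u _ => f8_sum_le hp (u w)
      _ = (LawO cD p).card * p + (p : ℝ) ^ 2 * ∑ u ∈ LawO cD p, ich (f8Z p (u w)) := by
          rw [sum_add_distrib, sum_const, nsmul_eq_mul, mul_sum]
      _ ≤ (LawO cD p).card * p + (LawO cD p).card := by linarith [ua3_P0 hp w]
      _ ≤ 2 * p * (LawO cD p).card := by nlinarith
  · calc (p : ℝ) * (LawO cD p).card = ∑ _u ∈ LawO cD p, (p : ℝ) := by
          rw [sum_const, nsmul_eq_mul]; ring
      _ ≤ _ := sum_le_sum fun u _ => f8_sum_ge hp (u w)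

theorem ua3_P1' {p : ℕ} (hp : p.Prime) {w v : Fin 11} (hwv : w ≠ v)
    (hv : ua3F w ∨ ua3F v) :
    (p : ℝ) ^ 2 * ∑ u ∈ LawO cD p, ich ((p : ℤ) ∣ dt (u w) (u v)) ≤
        2 * p * (LawO cD p).card ∧
      (p : ℝ) * (LawO cD p).card ≤
        (p : ℝ) ^ 2 * ∑ u ∈ LawO cD p, ich ((p : ℤ) ∣ dt (u w) (u v)) := by
  rcases hv with hv | hv
  · have h := ua3_P1 hp hwv.symm hv
    have e : ∑ u ∈ LawO cD p, ich ((p : ℤ) ∣ dt (u w) (u v)) =
        ∑ u ∈ LawO cD p, ich ((p : ℤ) ∣ dt (u v) (u w)) :=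
      sum_congr rfl fun u _ => f8_swap p _ _
    rw [e]
    exact h
  · exact ua3_P1 hp hwv hv

/-- two edges -/
theorem ua3_P2 {p : ℕ} (hp : p.Prime) {a b w v : Fin 11} (hv : ua3F v) (hf : ua3F a ∨ ua3F b)
    (hwv : w ≠ v) (hab : a ≠ b) (ha : a ≠ v) (hb : b ≠ v) :
    (p : ℝ) ^ 2 * ∑ u ∈ LawO cD p,
      ich ((p : ℤ) ∣ dt (u a) (u b) ∧ (p : ℤ) ∣ dt (u w) (u v)) ≤
      3 * (LawO cD p).card := by
  have h := ua3_avg (p := p) hv
    (fun u => ich ((p : ℤ) ∣ dt (u a) (u b) ∧ (p : ℤ) ∣ dt (u w) (u v)))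
  rw [f8_card] at h
  push_cast at h
  rw [h]
  simp only [Function.update_self, Function.update_of_ne hwv, Function.update_of_ne ha,
    Function.update_of_ne hb]
  have hp0 : (0 : ℝ) < p := by exact_mod_cast hp.pos
  have h1 := (ua3_P1' hp hab hf).1
  have h2 := ua3_P0 hp w
  have h3 : (p : ℝ) * ∑ u ∈ LawO cD p, ich ((p : ℤ) ∣ dt (u a) (u b)) ≤
      2 * (LawO cD p).card := by
    have e : (p : ℝ) * ((p : ℝ) * ∑ u ∈ LawO cD p, ich ((p : ℤ) ∣ dt (u a) (u b))) ≤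
        (p : ℝ) * (2 * (LawO cD p).card) := by linarith
    exact le_of_mul_le_mul_left e hp0
  calc ∑ u ∈ LawO cD p, ∑ x ∈ L1 p, ich ((p : ℤ) ∣ dt (u a) (u b) ∧ (p : ℤ) ∣ dt (u w) x)
      = ∑ u ∈ LawO cD p, ich ((p : ℤ) ∣ dt (u a) (u b)) *
          ∑ x ∈ L1 p, ich ((p : ℤ) ∣ dt (u w) x) := by
        refine sum_congr rfl fun u _ => ?_
        rw [mul_sum]
        exact sum_congr rfl fun x _ => f8_and _ _
    _ ≤ ∑ u ∈ LawO cD p, (p * ich ((p : ℤ) ∣ dt (u a) (u b)) +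
          (p : ℝ) ^ 2 * ich (f8Z p (u w))) := by
        refine sum_le_sum fun u _ => ?_
        have e1 := f8_sum_le hp (u w)
        have e2 := f8_ich0 ((p : ℤ) ∣ dt (u a) (u b))
        have e3 := f8_ich1 ((p : ℤ) ∣ dt (u a) (u b))
        have e4 := f8_ich0 (f8Z p (u w))
        have e5 : 0 ≤ (p : ℝ) ^ 2 * ich (f8Z p (u w)) := by positivity
        nlinarith
    _ = p * ∑ u ∈ LawO cD p, ich ((p : ℤ) ∣ dt (u a) (u b)) +
          (p : ℝ) ^ 2 * ∑ u ∈ LawO cD p, ich (f8Z p (u w)) := by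
        rw [sum_add_distrib, mul_sum, mul_sum]
    _ ≤ 3 * (LawO cD p).card := by linarith

theorem ua3_ne {p : ℕ} (hp : p.Prime) : (LawO cD p).Nonempty := by
  have hp0 : (0 : ℤ) < p := by exact_mod_cast hp.pos
  have hcr : ∀ o : Option ℤ, (cr o p).Nonempty := by
    intro o
    cases o with
    | none => exact ⟨0, mem_Ico.2 ⟨le_refl _, hp0⟩⟩
    | some c => exact ⟨c, mem_singleton_self c⟩
  refine ⟨fun j => ((hcr (cD j).1).choose, (hcr (cD j).2).choose), ?_⟩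
  rw [ua3_mem]
  intro j
  rw [mem_product]
  exact ⟨(hcr (cD j).1).choose_spec, (hcr (cD j).2).choose_spec⟩

omit [Cst] in
theorem ua3_dec : ∀ i j : Fin 11, i ≠ 10 → j ≠ 10 → i ≠ j →
    (((j + 1 ≠ 0 ∧ j + 1 ≠ 10) ∧ i ≠ j + 1 ∧ i + 1 ≠ j + 1) ∨
      ((j ≠ 0 ∧ j ≠ 10) ∧ i ≠ j ∧ i + 1 ≠ j)) ∨
    (((i + 1 ≠ 0 ∧ i + 1 ≠ 10) ∧ j ≠ i + 1 ∧ j + 1 ≠ i + 1) ∨
      ((i ≠ 0 ∧ i ≠ 10) ∧ j ≠ i ∧ j + 1 ≠ i)) := by decide

omit [Cst] in
theorem ua3_dec1 : ∀ i : Fin 11, i ≠ 10 →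
    (i ≠ 0 ∧ i ≠ 10) ∨ (i + 1 ≠ 0 ∧ i + 1 ≠ 10) := by decide

omit [Cst] in
theorem ua3_dec2 : ∀ j : Fin 11, j ≠ j + 1 := by decide

omit [Cst] in
theorem ua3_dec3 : ∀ i j : Fin 11, i ≠ j →
    ((i ≠ 0 ∧ i ≠ 10) ∨ (j ≠ 0 ∧ j ≠ 10)) ∨ (i = 0 ∧ j = 10) ∨ (i = 10 ∧ j = 0) := by decide

/-- one of the two edges has a free end which is not on the other edge -/
theorem ua3_two {p : ℕ} (hp : p.Prime) {i j : Fin 11} (hi : i ≠ 10) (_ : j ≠ 10)
    (h : ((j + 1 ≠ 0 ∧ j + 1 ≠ 10) ∧ i ≠ j + 1 ∧ i + 1 ≠ j + 1) ∨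
      ((j ≠ 0 ∧ j ≠ 10) ∧ i ≠ j ∧ i + 1 ≠ j)) :
    (p : ℝ) ^ 2 * ∑ u ∈ LawO cD p, ich ((p : ℤ) ∣ dl u i ∧ (p : ℤ) ∣ dl u j) ≤
      3 * (LawO cD p).card := by
  rcases h with ⟨h1, h2, h3⟩ | ⟨h1, h2, h3⟩
  · exact ua3_P2 hp h1 (ua3_dec1 i hi) (ua3_dec2 j) (ua3_dec2 i) h2 h3
  · have h := ua3_P2 hp (a := i) (b := i + 1) (w := j + 1) (v := j) h1 (ua3_dec1 i hi)
      (ua3_dec2 j).symm (ua3_dec2 i) h2 h3
    refine le_trans (le_of_eq ?_) h
    congr 1
    refine sum_congr rfl fun u _ => ?_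
    rw [f8_and, f8_and]
    congr 1
    exact f8_swap p _ _

/-- block UA3: the local facts for the family `cD` (as F8, helper67, Lib_helper15/PFMF/F8.lean):
`dl_0 = (u_1).2`, `dl_9 = (u_9).1`; every edge is `0` with probability `1/p + O(1/p²)`, two edges
with probability `O(1/p²)`, two vertices parallel and no edge `0`: `O(1/p)`. -/
theorem locD_pr : ∃ C : ℝ, 0 ≤ C ∧ ∀ p : ℕ, p.Prime → PENM.NZ < p →
    LocS feD univ p (LawO cD p) C := by
  refine ⟨3, by norm_num, ?_⟩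
  intro p hp hNZ
  have hp0 : (0 : ℝ) < p := by exact_mod_cast hp.pos
  have hN : (0 : ℝ) < (LawO cD p).card := by
    exact_mod_cast (ua3_ne hp).card_pos
  have hfe : ∀ j : Fin 11, j ∈ feD ↔ j ≠ 10 := by
    intro j
    unfold feD
    rw [mem_erase]
    exact ⟨fun h => h.1, fun h => ⟨h, mem_univ j⟩⟩
  refine ⟨ua3_ne hp, ?_, ?_, ?_, ?_, ?_⟩
  · intro j hj
    have h := (ua3_P1' hp (ua3_dec2 j) (ua3_dec1 j ((hfe j).1 hj))).2
    have h1 : 1 / (p : ℝ) ≤ mL (LawO cD p) (fun u => ich ((p : ℤ) ∣ dl u j)) := by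
      unfold mL dl
      rw [div_le_div_iff₀ hp0 hN]
      have h2 : (p : ℝ) * (1 * (LawO cD p).card) ≤
          (p : ℝ) * ((∑ u ∈ LawO cD p, ich ((p : ℤ) ∣ dt (u j) (u (j + 1)))) * p) := by
        linarith
      exact le_of_mul_le_mul_left h2 hp0
    have h3 : (0 : ℝ) ≤ 3 / (p : ℝ) ^ 2 := by positivity
    linarith
  · intro j hj
    have h := (ua3_P1' hp (ua3_dec2 j) (ua3_dec1 j ((hfe j).1 hj))).1
    have h1 := f8_div_le (K := 2) hp hN 1 (by rw [pow_one]; exact h) (by norm_num)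
    have h2 : (2 : ℝ) / (p : ℝ) ^ (2 - 1) ≤ 3 / p := by
      rw [show 2 - 1 = 1 from rfl, pow_one]
      gcongr
      norm_num
    exact h1.trans h2
  · intro i hi j hj hij
    have hi' := (hfe i).1 hi
    have hj' := (hfe j).1 hj
    rcases ua3_dec i j hi' hj' hij with h | h
    · exact f8_div_le hp hN 0 (by rw [pow_zero, mul_one]; exact ua3_two hp hi' hj' h)
        (by norm_num)
    · have h1 := ua3_two hp hj' hi' h
      have e : ∑ u ∈ LawO cD p, ich ((p : ℤ) ∣ dl u i ∧ (p : ℤ) ∣ dl u j) =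
          ∑ u ∈ LawO cD p, ich ((p : ℤ) ∣ dl u j ∧ (p : ℤ) ∣ dl u i) :=
        sum_congr rfl fun u _ => by rw [f8_and, f8_and, mul_comm]
      have h2 : (p : ℝ) ^ 2 * ∑ u ∈ LawO cD p, ich ((p : ℤ) ∣ dl u i ∧ (p : ℤ) ∣ dl u j) ≤
          3 * (p : ℝ) ^ 0 * (LawO cD p).card := by
        rw [e, pow_zero, mul_one]
        exact h1
      exact f8_div_le hp hN 0 h2 (by norm_num)
  · intro u hu h i _ hz
    by_cases hf : ua3F i
    · exact h i ((hfe i).2 hf.2) (dvd_sub (hz.1.mul_right _) (hz.2.mul_right _))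
    · exact ua3_fix hp hu hf hz
  · intro i _ j _ hij
    rcases ua3_dec3 i j hij with hf | hf
    · have h := (ua3_P1' hp hij hf).1
      have h0 : (p : ℝ) ^ 2 * ∑ u ∈ LawO cD p, ich ((∀ j ∈ feD,
          ¬ (p : ℤ) ∣ dl u j) ∧ (p : ℤ) ∣ dt (u i) (u j)) ≤
            2 * (p : ℝ) ^ 1 * (LawO cD p).card := by
        rw [pow_one]
        refine le_trans ?_ h
        gcongr with u _
        exact f8_mono fun h => h.2
      have h1 := f8_div_le (K := 2) hp hN 1 h0 (by norm_num)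
      have h2 : (2 : ℝ) / (p : ℝ) ^ (2 - 1) ≤ 3 / p := by
        rw [show 2 - 1 = 1 from rfl, pow_one]
        gcongr
        norm_num
      exact h1.trans h2
    · have h0 : mL (LawO cD p) (fun u => ich ((∀ j ∈ feD, ¬ (p : ℤ) ∣ dl u j) ∧
          (p : ℤ) ∣ dt (u i) (u j))) = 0 := by
        unfold mL
        rw [Finset.sum_eq_zero, zero_div]
        intro u hu
        unfold ich
        rw [if_neg]
        rintro ⟨_, h1⟩
        rcases hf with ⟨rfl, rfl⟩ | ⟨rfl, rfl⟩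
        · rw [ua3_zero hu, ua3_ten hu] at h1
          have h2 : dt (1, 0) z = z.2 := by unfold dt; ring
          rw [h2] at h1
          exact PENM.NZ_z hNZ h1
        · rw [ua3_zero hu, ua3_ten hu] at h1
          have h2 : dt z (1, 0) = -z.2 := by unfold dt; ring
          rw [h2, dvd_neg] at h1
          exact PENM.NZ_z hNZ h1
      rw [h0]
      positivity

end Pool.Agent.AQ.UPA

namespace Pool.Agent.AQ.UPA

theorem locD : type_of% @locD_pr := @locD_pr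

end Pool.Agent.AQ.UPA
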