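import Pool.Agent.Lib_helper15.AQ.UP.Facts
import Pool.Agent.Lib_helper15.PFMF.F11
import Pool.Agent.Lib_helper15.UPAF.UA1
import Pool.Agent.Lib_helper15.AQ.PFMF.F3
import Pool.Agent.Lib_helper15.AQ.PFMF.F6
import Pool.Agent.Lib_helper15.AQ.UPAF.UA2
import Pool.Agent.Lib_helper15.AQ.UPAF.UA3


/-! AQ (MP_892e4c_nt), UPA block UA6: the sum over the paths (helper15; port of UPAF/UA6 of helper73) -/

set_option autoImplicit false

namespace Pool.Agent.AQ.UPA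

open Finset Filter Pool.Agent.PENT Pool.Agent.AQ.NC Pool.Agent.AQ.PFM
open Pool.Agent.PENK (PolyK Wts dl mL ich EquiF PerP prs lw L1 Rf)
open Pool.Agent.PFM (DE ph LocS Bo Un)
open Pool.Agent.UPA (tp exW feD feU vqU FamO LawO edP mem_feD mem_feU mem_vqU)
open Pool.Agent.PFM (f11_ev f11_log)
open Pool.Agent.AQ.PENK (nz)

variable [Cst]

theorem ua6_gp {p : Prm 10} {X : ℕ} {u : Vec 10} (h : u ∈ GS p X) : GP p X u := by
  classical
  unfold GS at h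
  split_ifs at h with h1
  · exact (Set.Finite.mem_toFinset h1).1 h
  · exact absurd h (Finset.notMem_empty _)

/-- the numbers -/
theorem ua6_nums {p : Prm 10} {τ : ℝ} (hp : p.Ok τ) (hτ : τ ≤ 1 / 1000) :
    0 < p.e 8 ∧ p.e 8 ≤ p.em ∧ p.e 8 ≤ p.ep ∧ p.ep ≤ 1 / 1000 ∧ p.e 8 + p.e 8 ≤ p.em ∧
    (∀ j : Fin 11, 2 ≤ j.val → j.val ≤ 8 → p.e 8 ≤ p.e j ∧ p.e j + p.ew ≤ 2 * p.ep) := by
  have hτ0 : 0 < τ := lt_of_lt_of_le hp.c10 hp.c11
  have mul : ∀ a b : ℝ, a ≤ τ * b → 0 ≤ b → 1000 * a ≤ b := fun a b h hb => by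
    have h1 : τ * b ≤ 1 / 1000 * b := mul_le_mul_of_nonneg_right hτ hb
    linarith
  have pos : ∀ a b : ℝ, a ≤ τ * b → 0 < a → 0 < b := fun a b h ha => by
    by_contra hb
    push Not at hb
    have h1 : τ * b ≤ 0 := mul_nonpos_of_nonneg_of_nonpos hτ0.le hb
    linarith
  have h8v : ((8 : Fin 11) : ℕ) = 8 := rfl
  have he : ∀ j : Fin 11, 2 ≤ j.val → j.val ≤ 8 → 0 < p.e j := fun j h1 h2 =>
    pos _ _ (hp.ew1 j h1 (by omega)) hp.ew0
  have h8 : 0 < p.e 8 := he 8 (by rw [h8v]; norm_num) (by rw [h8v])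
  have h8m : p.e 8 ≤ τ * p.em :=
    hp.even (8 : Fin 11) (by rw [h8v]; norm_num) (by rw [h8v]) (by rw [h8v]; decide)
  have hem : 0 < p.em := pos _ _ h8m h8
  have hta : 0 < p.ta := pos _ _ hp.em_ta hem
  have hep : 0 < p.ep := pos _ _ hp.ta_ep hta
  have k1 : 1000 * p.em ≤ p.ta := mul _ _ hp.em_ta hta.le
  have k2 : 1000 * p.ta ≤ p.ep := mul _ _ hp.ta_ep hep.le
  have k3 := mul _ _ h8m hem.le
  have k4 := mul _ _ (hp.ew1 8 (by rw [h8v]; norm_num) (by rw [h8v])) h8.le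
  have k5 := hp.ew0
  refine ⟨h8, by linarith, by linarith, hp.ep1.trans hτ, by linarith, fun j h1 h2 => ?_⟩
  rcases Nat.eq_or_lt_of_le h2 with h3 | h3
  · have : j = (8 : Fin 11) := Fin.ext (by rw [h8v]; exact h3)
    rw [this]
    exact ⟨le_rfl, by linarith⟩
  by_cases hj : Even j.val
  · have k6 := mul _ _ (hp.low 8 j h1 (by omega) hj (by rw [h8v])) (he j h1 (by omega)).le
    have k7 := mul _ _ (hp.even j h1 (by omega) hj) hem.le
    exact ⟨by linarith, by linarith⟩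
  · rw [hp.odd j h1 (by omega) hj]
    exact ⟨by linarith, by linarith⟩

theorem ua6_u0 {p : Prm 10} {X : ℕ} {u : Vec 10} (h : GP p X u) : u (0 : Fin 11) = (1, 0) :=
  h.first

theorem ua6_u10 {p : Prm 10} {X : ℕ} {u : Vec 10} (h : GP p X u) : u (10 : Fin 11) = z :=
  h.last

theorem ua6_mid {j : Fin 11} (h0 : j ≠ 0) (h10 : j ≠ 10) : 1 ≤ j.val ∧ j.val ≤ 9 := by
  revert j; decide

theorem ua6_nn {p : Prm 10} {X : ℕ} {u : Vec 10} (h : GP p X u) (j : Fin 11) :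
    0 ≤ (u j).1 ∧ 0 ≤ (u j).2 := by
  by_cases h0 : j = 0
  · rw [h0, ua6_u0 h]; decide
  by_cases h10 : j = 10
  · rw [h10, ua6_u10 h]; exact ⟨z1_pos.le, z_two.le⟩
  obtain ⟨h1, h2⟩ := ua6_mid h0 h10
  obtain ⟨a, b⟩ := h.pos j h1 (by omega)
  exact ⟨a.le, b.le⟩

theorem ua6_dn_le {p : Prm 10} {X : ℕ} {u : Vec 10} (h : GP p X u) (j : Fin 11) :
    (dn (tp u) j : ℝ) ≤ (nm (u j) : ℝ) * (nm (u (j + 1 : Fin 11)) : ℝ) := by
  have h1 : (dn (tp u) j : ℤ) ≤ nm (u j) * nm (u (j + 1 : Fin 11)) := by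
    show ((Pool.Agent.PENK.dn (tp u) j : ℕ) : ℤ) ≤ _
    unfold Pool.Agent.PENK.dn dl dt nm tp
    rw [Int.natCast_natAbs, abs_le]
    obtain ⟨a1, a2⟩ := ua6_nn h j
    obtain ⟨a3, a4⟩ := ua6_nn h (j + 1 : Fin 11)
    constructor
    · nlinarith [mul_nonneg a1 a3, mul_nonneg a1 a4, mul_nonneg a2 a3, mul_nonneg a2 a4]
    · nlinarith [mul_nonneg a1 a3, mul_nonneg a1 a4, mul_nonneg a2 a3, mul_nonneg a2 a4]
  exact_mod_cast h1

theorem ua6_e1 {p : Prm 10} {X : ℕ} {u : Vec 10} (h : GP p X u) :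
    (X : ℝ) ^ p.em ≤ (nm (u (1 : Fin 11)) : ℝ) ∧
      p.c1 * (nm (u (1 : Fin 11)) : ℝ) ≤ (X : ℝ) ^ p.ep := by
  have hu0 := ua6_u0 h
  obtain ⟨p1, p2⟩ := h.pos (1 : Fin 11) (by decide) (by decide)
  have e1 : dt (u (0 : Fin 11)) (u (1 : Fin 11)) = (u (1 : Fin 11)).2 := by
    rw [hu0]; simp only [dt]; ring
  have e2 : (u (1 : Fin 11)).2 = (dE u 1 : ℤ) := by
    unfold dE
    rw [dif_pos (by omega : 1 ≤ 1 ∧ 1 ≤ 10)]
    change (u (1 : Fin 11)).2 = (((dt (u (0 : Fin 11)) (u (1 : Fin 11))).natAbs : ℕ) : ℤ)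
    rw [e1, Int.natAbs_of_nonneg p2.le]
  have e3 := h.sep (0 : Fin 11) (1 : Fin 11) (by decide)
  have hs : sgn (0 : Fin 11).val (1 : Fin 11).val = 1 := by
    unfold sgn
    rw [if_neg (by rintro ⟨h, -⟩; exact h (by decide))]
  rw [e1, e2, hu0, hs, one_mul] at e3
  have e4 : (nm ((1, 0) : ℤ × ℤ) : ℝ) = 1 := by norm_num [nm]
  rw [e4, one_mul] at e3
  have e5 : ((dE u 1 : ℤ) : ℝ) = (dE u 1 : ℝ) := by norm_num
  rw [e5] at e3
  have e6 : (dE u 1 : ℤ) ≤ nm (u (1 : Fin 11)) := by unfold nm; omega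
  have e7 : (dE u 1 : ℝ) ≤ (nm (u (1 : Fin 11)) : ℝ) := by exact_mod_cast e6
  exact ⟨h.e1.lo.trans e7, e3.trans h.e1.hi⟩

theorem ua6_e9 {p : Prm 10} (hc : 0 < p.c1) {X : ℕ} {u : Vec 10} (h : GP p X u) :
    (X : ℝ) ^ p.em ≤ (nm z : ℝ) * (nm (u (9 : Fin 11)) : ℝ) ∧
      p.c1 * (nm (u (9 : Fin 11)) : ℝ) ≤ (X : ℝ) ^ p.ep := by
  have hu10 := ua6_u10 h
  obtain ⟨p1, p2⟩ := h.pos (9 : Fin 11) (by decide) (by decide)
  have e2 := gp_u9 hc h
  have e3 := h.sep (9 : Fin 11) (10 : Fin 11) (by decide)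
  have hs : sgn (9 : Fin 11).val (10 : Fin 11).val = -1 := by
    unfold sgn
    rw [if_pos ⟨by decide, by decide⟩]
  have e1 : (dt (u (9 : Fin 11)) z : ℤ) = -(dE u 10 : ℤ) := by
    rw [← e2]; unfold dt; ring
  rw [hu10, hs, e1] at e3
  have e5 : (-1 : ℝ) * ((-(dE u 10 : ℤ) : ℤ) : ℝ) = (dE u 10 : ℝ) := by push_cast; ring
  rw [e5] at e3
  have e6 := nm_ge_det p1 p2
  rw [e2] at e6
  have e7 : (dE u 10 : ℝ) ≤ (nm z : ℝ) * (nm (u (9 : Fin 11)) : ℝ) := by exact_mod_cast e6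
  have hz1 : (1 : ℝ) ≤ (nm z : ℝ) := by exact_mod_cast nm_z_pos
  have hn : (0 : ℝ) ≤ (nm (u (9 : Fin 11)) : ℝ) := by
    have := nm_pos h (9 : Fin 11)
    exact_mod_cast (by omega : 0 ≤ nm (u (9 : Fin 11)))
  refine ⟨h.e2.lo.trans e7, le_trans ?_ (e3.trans h.e2.hi)⟩
  apply mul_le_mul_of_nonneg_left _ hc.le
  nlinarith

theorem ua6_cases {j : Fin 11} (h1 : 1 ≤ j.val) (h9 : j.val ≤ 9) :
    j = 1 ∨ j = 9 ∨ (2 ≤ j.val ∧ j.val ≤ 8) := by
  revert j; decide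

/-- the norms from below -/
theorem ua6_lo {p : Prm 10} {τ : ℝ} (hp : p.Ok τ) (hτ : τ ≤ 1 / 1000) {X : ℕ} (hX : 1 ≤ X)
    (hXz : (nm z : ℝ) ≤ (X : ℝ) ^ p.e 8) {u : Vec 10} (h : GP p X u) (j : Fin 11) (h1 : 1 ≤ j.val) (h9 : j.val ≤ 9) :
    (X : ℝ) ^ p.e 8 ≤ (nm (u j) : ℝ) := by
  have hX1 : (1 : ℝ) ≤ X := by exact_mod_cast hX
  obtain ⟨n1, n2, n3, n4, n6, n5⟩ := ua6_nums hp hτ
  rcases ua6_cases h1 h9 with h2 | h2 | h2
  · rw [h2]
    exact (Real.rpow_le_rpow_of_exponent_le hX1 n2).trans (ua6_e1 h).1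
  · rw [h2]
    have hX0 : (0 : ℝ) < X := by linarith
    have h3 := (ua6_e9 hp.c10 h).1
    have h4 : (X : ℝ) ^ p.e 8 * (X : ℝ) ^ p.e 8 ≤ (X : ℝ) ^ p.em := by
      rw [← Real.rpow_add hX0]
      exact Real.rpow_le_rpow_of_exponent_le hX1 n6
    have h5 : (0 : ℝ) < (X : ℝ) ^ p.e 8 := Real.rpow_pos_of_pos hX0 _
    have h6 : (0 : ℝ) ≤ (nm (u (9 : Fin 11)) : ℝ) := by
      have := nm_pos h (9 : Fin 11)
      exact_mod_cast (by omega : 0 ≤ nm (u (9 : Fin 11)))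
    have h7 : (X : ℝ) ^ p.e 8 * (X : ℝ) ^ p.e 8 ≤
        (X : ℝ) ^ p.e 8 * (nm (u (9 : Fin 11)) : ℝ) :=
      (h4.trans h3).trans (mul_le_mul_of_nonneg_right hXz h6)
    exact le_of_mul_le_mul_left h7 h5
  · exact (Real.rpow_le_rpow_of_exponent_le hX1 (n5 j h2.1 h2.2).1).trans
      (h.low j h2.1 (by omega))

/-- the norms from above -/
theorem ua6_up {p : Prm 10} {τ : ℝ} (hp : p.Ok τ) (hτ : τ ≤ 1 / 1000) {X : ℕ} (hX : 1 ≤ X)
    (hXc : 1 / p.c1 ≤ (X : ℝ) ^ p.ep)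
    (hXz : (nm z : ℝ) ≤ (X : ℝ) ^ p.e 8) {u : Vec 10} (h : GP p X u) (j : Fin 11) :
    (nm (u j) : ℝ) ≤ (X : ℝ) ^ (2 * p.ep) := by
  have hX1 : (1 : ℝ) ≤ X := by exact_mod_cast hX
  have hX0 : (0 : ℝ) < X := by linarith
  obtain ⟨n1, n2, n3, n4, n6, n5⟩ := ua6_nums hp hτ
  have hc := hp.c10
  have hone : (1 : ℝ) ≤ (X : ℝ) ^ (2 * p.ep) := Real.one_le_rpow hX1 (by linarith)
  have hsq : (X : ℝ) ^ (2 * p.ep) = (X : ℝ) ^ p.ep * (X : ℝ) ^ p.ep := by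
    rw [← Real.rpow_add hX0]; congr 1; ring
  have key : ∀ x : ℝ, p.c1 * x ≤ (X : ℝ) ^ p.ep → x ≤ (X : ℝ) ^ (2 * p.ep) := by
    intro x hx
    rw [hsq]
    have h1 : x ≤ (X : ℝ) ^ p.ep * (1 / p.c1) := by
      rw [mul_one_div, le_div_iff₀ hc]
      linarith
    exact h1.trans (mul_le_mul_of_nonneg_left hXc (by positivity))
  by_cases h0 : j = 0
  · have e4 : (nm ((1, 0) : ℤ × ℤ) : ℝ) = 1 := by norm_num [nm]
    rw [h0, ua6_u0 h, e4]
    exact hone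
  by_cases h10 : j = 10
  · rw [h10, ua6_u10 h]
    exact hXz.trans (Real.rpow_le_rpow_of_exponent_le hX1 (by linarith))
  obtain ⟨h1, h9⟩ := ua6_mid h0 h10
  rcases ua6_cases h1 h9 with h2 | h2 | h2
  · rw [h2]
    exact key _ (ua6_e1 h).2
  · rw [h2]
    exact key _ (ua6_e9 hp.c10 h).2
  · exact (h.upp j h2.1 (by omega)).trans
      (Real.rpow_le_rpow_of_exponent_le hX1 (n5 j h2.1 h2.2).2)

theorem ua6_DE_le {p : Prm 10} {τ : ℝ} (hp : p.Ok τ) (hτ : τ ≤ 1 / 1000) {X : ℕ} (hX : 1 ≤ X)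
    (hXc : 1 / p.c1 ≤ (X : ℝ) ^ p.ep)
    (hXz : (nm z : ℝ) ≤ (X : ℝ) ^ p.e 8) {u : Vec 10} (h : GP p X u) :
    (DE feD (tp u) : ℝ) ≤ X := by
  have hX1 : (1 : ℝ) ≤ X := by exact_mod_cast hX
  have hX0 : (0 : ℝ) < X := by linarith
  obtain ⟨n1, n2, n3, n4, n6, n5⟩ := ua6_nums hp hτ
  have h1 : ∀ j, (dn (tp u) j : ℝ) ≤ (X : ℝ) ^ (4 * p.ep) := by
    intro j
    have h2 := ua6_dn_le h j
    have h3 := ua6_up hp hτ hX hXc hXz h j
    have h4 := ua6_up hp hτ hX hXc hXz h (j + 1 : Fin 11)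
    have a1 : (0 : ℝ) ≤ nm (u (j + 1 : Fin 11)) := by
      have := nm_pos h (j + 1 : Fin 11); exact_mod_cast (by omega : 0 ≤ nm (u (j + 1 : Fin 11)))
    calc (dn (tp u) j : ℝ) ≤ _ := h2
      _ ≤ (X : ℝ) ^ (2 * p.ep) * (X : ℝ) ^ (2 * p.ep) :=
          mul_le_mul h3 h4 a1 (by positivity)
      _ = _ := by rw [← Real.rpow_add hX0]; congr 1; ring
  have hc : feD.card = 10 := by decide
  unfold DE
  rw [Nat.cast_prod]
  calc ∏ j ∈ feD, (dn (tp u) j : ℝ) ≤ ∏ _j ∈ feD, (X : ℝ) ^ (4 * p.ep) :=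
        Finset.prod_le_prod (fun j _ => Nat.cast_nonneg _) (fun j _ => h1 j)
    _ = (X : ℝ) ^ (40 * p.ep) := by
        rw [Finset.prod_const, hc, ← Real.rpow_natCast, ← Real.rpow_mul hX0.le]
        congr 1
        push_cast
        ring
    _ ≤ (X : ℝ) ^ (1 : ℝ) := Real.rpow_le_rpow_of_exponent_le hX1 (by linarith)
    _ = X := Real.rpow_one _

/-- the dyadic sizes -/
def ua6_sz (u : Vec 10) (j : Fin 11) : ℕ := if j = 10 then 0 else Nat.log 2 (nm (u j)).toNat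

theorem ua6_sz_lo {p : Prm 10} {X : ℕ} {u : Vec 10} (h : GP p X u) (j : Fin 11) :
    (2 : ℝ) ^ ua6_sz u j ≤ (nm (u j) : ℝ) := by
  have h1 := nm_pos h j
  have h2 : 2 ^ ua6_sz u j ≤ (nm (u j)).toNat := by
    unfold ua6_sz
    split_ifs
    · rw [pow_zero]; omega
    · apply Nat.pow_log_le_self
      omega
  have h3 : ((2 ^ ua6_sz u j : ℕ) : ℤ) ≤ nm (u j) := by omega
  exact_mod_cast h3

theorem ua6_sz_hi {p : Prm 10} {X : ℕ} {u : Vec 10} (h : GP p X u) (j : Fin 11)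
    (hj : j ≠ 10) : nm (u j) < (2 ^ (ua6_sz u j + 1) : ℕ) := by
  have h1 := nm_pos h j
  have h2 : (nm (u j)).toNat < 2 ^ (ua6_sz u j + 1) := by
    unfold ua6_sz
    rw [if_neg hj]
    exact Nat.lt_pow_succ_log_self (by norm_num) _
  omega

theorem ua6_sz_end {p : Prm 10} {X : ℕ} {u : Vec 10} (h : GP p X u) (j : Fin 11)
    (hj : j = 0 ∨ j = 10) : ua6_sz u j = 0 := by
  unfold ua6_sz
  rcases hj with hj | hj
  · rw [hj, ua6_u0 h]; decide
  · rw [hj, if_pos rfl]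

theorem ua6_prod (f : Fin 11 → ℝ) (h0 : f 0 = 1) (h10 : f 10 = 1) :
    ∏ j ∈ feD, f j * f (j + 1) = ∏ j, f j ^ 2 := by
  have h1 : ∏ j ∈ feD, f j * f (j + 1) = ∏ j, f j * f (j + 1) := by
    unfold feD
    rw [← Finset.mul_prod_erase univ (fun j => f j * f (j + 1)) (Finset.mem_univ (10 : Fin 11))]
    have h2 : (10 : Fin 11) + 1 = 0 := by decide
    rw [h2, h0, h10, one_mul, one_mul]
  rw [h1, Finset.prod_mul_distrib]
  have h3 : ∏ j : Fin 11, f (j + 1) = ∏ j, f j :=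
    Fintype.prod_equiv (Equiv.addRight (1 : Fin 11)) _ _ (fun _ => rfl)
  rw [h3, ← sq, Finset.prod_pow]

theorem ua6_DE_ge {p : Prm 10} {τ : ℝ} (hp : p.Ok τ) {X : ℕ} {u : Vec 10}
    (h : GP p X u) : p.c1 ^ 10 * ∏ j, (4 : ℝ) ^ ua6_sz u j ≤ (DE feD (tp u) : ℝ) := by
  have hpos : ∀ j : Fin 11, (0 : ℝ) < nm (u j) := by
    intro j
    have := nm_pos h j; exact_mod_cast (by omega : 0 < nm (u j))
  obtain ⟨g, hg⟩ : ∃ g : Fin 11 → ℝ, g = fun j => if j = 10 then 1 else (nm (u j) : ℝ) := ⟨_, rfl⟩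
  have hg1 : ∀ j, 1 ≤ g j := by
    intro j
    rw [hg]
    dsimp only
    split_ifs
    · exact le_rfl
    · have := nm_pos h j; exact_mod_cast this
  have hg2 : ∀ j, g j ≤ (nm (u j) : ℝ) := by
    intro j
    rw [hg]
    dsimp only
    split_ifs
    · have := nm_pos h j; exact_mod_cast this
    · exact le_rfl
  have h1 : ∏ j, (4 : ℝ) ^ ua6_sz u j ≤ ∏ j : Fin 11, g j ^ 2 := by
    apply Finset.prod_le_prod
    · intro j _; positivity
    · intro j _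
      have h2 : (2 : ℝ) ^ ua6_sz u j ≤ g j := by
        by_cases h10 : j = 10
        · rw [ua6_sz_end h j (Or.inr h10), pow_zero]
          exact hg1 j
        · rw [hg]
          dsimp only
          rw [if_neg h10]
          exact ua6_sz_lo h j
      calc (4 : ℝ) ^ ua6_sz u j = ((2 : ℝ) ^ ua6_sz u j) ^ 2 := by
            rw [← pow_mul, mul_comm, pow_mul]; norm_num
        _ ≤ _ := pow_le_pow_left₀ (by positivity) h2 2
  have h3 : ∏ j ∈ feD, (p.c1 * (g j * g (j + 1))) ≤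
      (DE feD (tp u) : ℝ) := by
    unfold DE
    rw [Nat.cast_prod]
    apply Finset.prod_le_prod
    · intro j _
      have a1 := hg1 j
      have a2 := hg1 (j + 1)
      have a3 := hp.c10
      positivity
    · intro j hj
      refine le_trans ?_ (gp_dn_ge h j (mem_feD.1 hj))
      apply mul_le_mul_of_nonneg_left _ hp.c10.le
      exact mul_le_mul (hg2 j) (hg2 (j + 1)) (zero_le_one.trans (hg1 _)) (hpos j).le
  refine le_trans ?_ h3
  have hc : feD.card = 10 := by decide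
  rw [Finset.prod_mul_distrib, Finset.prod_const, hc]
  have g0 : g 0 = 1 := by
    rw [hg]
    dsimp only
    rw [if_neg (by decide), ua6_u0 h]
    norm_num [nm]
  have g10 : g 10 = 1 := by
    rw [hg]
    dsimp only
    rw [if_pos rfl]
  rw [ua6_prod g g0 g10]
  exact mul_le_mul_of_nonneg_left h1 (pow_nonneg hp.c10.le _)

theorem ua6_cD0 {j : Fin 11} (hj : j ≠ 0) (hj2 : j ≠ 10) : cD j = (none, none) := by
  unfold cD
  rw [if_neg hj, if_neg hj2]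

theorem ua6_card (i : Fin 11 → ℕ) (h0 : i 0 = 0) (h10 : i 10 = 0) :
    ((FamO cD (fun j => 2 ^ (i j + 1)) : Finset (PolyK 11)).card : ℝ) =
      4 ^ 9 * ∏ j, (4 : ℝ) ^ i j := by
  unfold FamO
  rw [Fintype.card_piFinset, Nat.cast_prod]
  have hg : ∀ j : Fin 11, (((Pool.Agent.UPA.cs (cD j).1 (2 ^ (i j + 1)) ×ˢ Pool.Agent.UPA.cs (cD j).2 (2 ^ (i j + 1)) :
      Finset (ℤ × ℤ)).card : ℕ) : ℝ) = (if j = 0 ∨ j = 10 then 1 else 4) * (4 : ℝ) ^ i j := by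
    intro j
    rw [Finset.card_product]
    by_cases hj : j = 0
    · subst hj
      have e1 : (cD 0) = (some 1, some 0) := by simp [cD]
      rw [e1, h0]
      simp [Pool.Agent.UPA.cs]
    by_cases hj2 : j = 10
    · subst hj2
      have e1 : (cD 10) = (some z.1, some z.2) := by simp [cD]
      rw [e1, h10]
      simp [Pool.Agent.UPA.cs]
    rw [ua6_cD0 hj hj2, if_neg (by tauto)]
    have h1 : ((Pool.Agent.UPA.cs none (2 ^ (i j + 1)) : Finset ℤ).card : ℝ) = 2 ^ (i j + 1) := by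
      unfold Pool.Agent.UPA.cs
      rw [Int.card_Icc, add_sub_cancel_right, Int.toNat_natCast]
      push_cast
      ring
    rw [Nat.cast_mul, h1, ← mul_pow, pow_succ]
    norm_num
    ring
  simp only [hg]
  rw [Finset.prod_mul_distrib]
  congr 1
  have hc : (Finset.univ.filter (fun j : Fin 11 => ¬ (j = 0 ∨ j = 10))).card = 9 := by decide
  rw [Finset.prod_ite, Finset.prod_const, Finset.prod_const, hc, one_pow, one_mul]

theorem ua6_mem {p : Prm 10} {X : ℕ} {u : Vec 10} (h : GP p X u) :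
    tp u ∈ FamO cD (fun j => 2 ^ (ua6_sz u j + 1)) := by
  unfold FamO
  rw [Fintype.mem_piFinset]
  intro j
  unfold tp
  by_cases hj : j = 0
  · subst hj
    have e1 : (cD 0) = (some 1, some 0) := by simp [cD]
    rw [e1, ua6_u0 h]
    simp [Pool.Agent.UPA.cs]
  by_cases hj2 : j = 10
  · subst hj2
    have e1 : (cD 10) = (some z.1, some z.2) := by simp [cD]
    rw [e1, ua6_u10 h]
    simp [Pool.Agent.UPA.cs]
  rw [ua6_cD0 hj hj2]
  obtain ⟨m1, m2⟩ := ua6_mid hj hj2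
  obtain ⟨p1, p2⟩ := h.pos j m1 (by omega)
  have h3 := ua6_sz_hi h j hj2
  unfold nm at h3
  unfold Pool.Agent.UPA.cs
  rw [mem_product, mem_Icc, mem_Icc]
  refine ⟨⟨by omega, ?_⟩, ⟨by omega, ?_⟩⟩ <;> push_cast at h3 ⊢ <;> omega

/-- one tuple of sizes -/
theorem ua6_one {τ : ℝ} {W : Wts 11} (hW : W.Ok) {p : Prm 10} (hp : p.Ok τ)
    {X P0 P ps : ℕ} {C2 B : ℝ} (hC2 : 0 ≤ C2)
    (i : Fin 11 → ℕ) (h0 : i 0 = 0) (h10 : i 10 = 0)
    (G : Finset (Vec 10)) (hG : ∀ u ∈ G, GP p X u ∧ ua6_sz u = i)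
    (hps : nz 11 ≤ ps) (F : Vec 10 → ℝ)
    (hF : ∀ u ∈ G, F u ≤ C2 / (DE feD (tp u) : ℝ) *
      ∏ q ∈ (prs ps P).filter (fun q => ¬ q ∣ 1), Ph W P0 feD univ (tp u) q)
    (hs : ∑ o ∈ FamO cD (fun j => 2 ^ (i j + 1)), ∏ q ∈ (prs ps P).filter (fun q => ¬ q ∣ 1),
      Ph W P0 feD univ o q ≤
        ((FamO cD (fun j => 2 ^ (i j + 1)) : Finset (PolyK 11)).card : ℝ) * B) :
    ∑ u ∈ G, F u ≤ C2 * 4 ^ 9 / p.c1 ^ 10 * B := by
  have hc := hp.c10
  have hpi : (0 : ℝ) < ∏ j, (4 : ℝ) ^ i j := Finset.prod_pos (fun j _ => by positivity)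
  have hPh : ∀ u : PolyK 11, 0 ≤ ∏ q ∈ (prs ps P).filter (fun q => ¬ q ∣ 1),
      Ph W P0 feD univ u q := by
    intro u
    apply Finset.prod_nonneg
    intro q hq
    rw [mem_filter, prs, mem_filter, mem_Ioc] at hq
    exact (Ph_mem W hW P0 feD univ hq.1.2
      (Pool.Agent.AQ.PENK.nz_N (K := 11) (lt_of_le_of_lt hps hq.1.1.1)) u).1
  have hsub : G ⊆ FamO cD (fun j => 2 ^ (i j + 1)) := by
    intro u hu
    obtain ⟨h1, h2⟩ := hG u hu
    have h3 := ua6_mem h1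
    rw [h2] at h3
    exact h3
  calc ∑ u ∈ G, F u ≤ ∑ u ∈ G, C2 / (p.c1 ^ 10 * ∏ j, (4 : ℝ) ^ i j) *
        ∏ q ∈ (prs ps P).filter (fun q => ¬ q ∣ 1), Ph W P0 feD univ (tp u) q := by
        apply Finset.sum_le_sum
        intro u hu
        obtain ⟨h1, h2⟩ := hG u hu
        refine (hF u hu).trans (mul_le_mul_of_nonneg_right ?_ (hPh _))
        have h3 := ua6_DE_ge hp h1
        rw [h2] at h3
        exact div_le_div_of_nonneg_left hC2 (by positivity) h3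
    _ = C2 / (p.c1 ^ 10 * ∏ j, (4 : ℝ) ^ i j) *
        ∑ u ∈ G, ∏ q ∈ (prs ps P).filter (fun q => ¬ q ∣ 1), Ph W P0 feD univ (tp u) q := by
        rw [Finset.mul_sum]
    _ ≤ C2 / (p.c1 ^ 10 * ∏ j, (4 : ℝ) ^ i j) *
        (((FamO cD (fun j => 2 ^ (i j + 1)) : Finset (PolyK 11)).card : ℝ) * B) := by
        apply mul_le_mul_of_nonneg_left _ (by positivity)
        exact (Finset.sum_le_sum_of_subset_of_nonneg hsub (fun u _ _ => hPh u)).trans hs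
    _ = C2 * 4 ^ 9 / p.c1 ^ 10 * B := by
        rw [ua6_card i h0 h10]
        field_simp

open Classical in
/-- all tuples of sizes -/
theorem ua6_all {τ : ℝ} {p : Prm 10} (hp : p.Ok τ) (hτ : τ ≤ 1 / 1000) {X : ℕ}
    (hX : 3 ≤ X) (hXc : 1 / p.c1 ≤ (X : ℝ) ^ p.ep)
    (hXz : (nm z : ℝ) ≤ (X : ℝ) ^ p.e 8)
    (G : Finset (Vec 10)) (hG : ∀ u ∈ G, GP p X u) (F : Vec 10 → ℝ) {B : ℝ}
    (hB : 0 ≤ B) (h : ∀ i : Fin 11 → ℕ, ∑ u ∈ G.filter (fun u => ua6_sz u = i), F u ≤ B) :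
    ∑ u ∈ G, F u ≤ (3 * Real.log X) ^ 9 * B := by
  have hX1 : (1 : ℝ) ≤ X := by
    have : 1 ≤ X := by omega
    exact_mod_cast this
  obtain ⟨n1, n2, n3, n4, n6, n5⟩ := ua6_nums hp hτ
  have hmaps : ∀ u ∈ G, ua6_sz u ∈ Fintype.piFinset
      (fun j : Fin 11 => if j = 0 ∨ j = 10 then {0} else range (Nat.log 2 X + 1)) := by
    intro u hu
    rw [Fintype.mem_piFinset]
    intro j
    by_cases hj : j = 0 ∨ j = 10
    · rw [if_pos hj, mem_singleton]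
      exact ua6_sz_end (hG u hu) j hj
    rw [if_neg hj, mem_range]
    have h1 := ua6_up hp hτ (by omega) hXc hXz (hG u hu) j
    have h2 : (nm (u j) : ℝ) ≤ X := h1.trans (by
      calc (X : ℝ) ^ (2 * p.ep) ≤ (X : ℝ) ^ (1 : ℝ) :=
            Real.rpow_le_rpow_of_exponent_le hX1 (by linarith)
        _ = X := Real.rpow_one _)
    have h3 : nm (u j) ≤ X := by exact_mod_cast h2
    have h4 : ua6_sz u j ≤ Nat.log 2 X := by
      unfold ua6_sz
      rw [if_neg (fun h => hj (Or.inr h))]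
      exact Nat.log_mono_right (by omega)
    omega
  rw [← Finset.sum_fiberwise_of_maps_to hmaps]
  refine (Finset.sum_le_sum (fun i _ => h i)).trans ?_
  rw [Finset.sum_const, Fintype.card_piFinset, nsmul_eq_mul]
  have h1 := f11_log hX
  have hc : (Finset.univ.filter (fun j : Fin 11 => ¬ (j = 0 ∨ j = 10))).card = 9 := by decide
  have h5 : ∏ j : Fin 11, (if j = 0 ∨ j = 10 then ({0} : Finset ℕ)
      else range (Nat.log 2 X + 1)).card = (Nat.log 2 X + 1) ^ 9 := by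
    have h6 : ∀ j : Fin 11, (if j = 0 ∨ j = 10 then ({0} : Finset ℕ)
      else range (Nat.log 2 X + 1)).card = if j = 0 ∨ j = 10 then 1 else Nat.log 2 X + 1 := by
      intro j
      split_ifs
      · rfl
      · rw [Finset.card_range]
    simp only [h6]
    rw [Finset.prod_ite, Finset.prod_const, Finset.prod_const, hc, one_pow, one_mul]
  rw [h5]
  have h2 : (((Nat.log 2 X + 1) ^ 9 : ℕ) : ℝ) ≤ (3 * Real.log X) ^ 9 := by
    push_cast at h1 ⊢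
    exact pow_le_pow_left₀ (by positivity) h1 9
  exact mul_le_mul_of_nonneg_right h2 hB

open Classical in
theorem usum_D_pr (W : Wts 11) (hW : W.Ok) : ∃ τ₀ : ℝ, 0 < τ₀ ∧ ∀ p : Prm 10, p.Ok τ₀ →
    ∃ t₁ : ℝ, 0 < t₁ ∧ ∀ t : ℝ, 0 < t → t ≤ t₁ → ∃ C : ℝ, 0 ≤ C ∧ ∃ X₀ : ℕ, ∀ X ≥ X₀,
      ∑ u ∈ GS p X, edP W feD ⌊(X : ℝ) ^ t⌋₊ (tp u) *
        vxP W feD univ ⌊PP X⌋₊ ⌊(X : ℝ) ^ t⌋₊ (tp u) ≤
      C * Real.log X ^ (9 + exW feD univ W) := by
  refine ⟨1 / 1000, by norm_num, fun p hp => ?_⟩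
  obtain ⟨C0, hC0, hLoc⟩ := locD
  obtain ⟨ps, k, hps, hsv⟩ := fam_sieve W hW feD univ C0 hC0
  obtain ⟨Cb, hCb, hequi⟩ := Pool.Agent.UPA.fam_equi_pr
  obtain ⟨n1, n2, n3, n4, n6, n5⟩ := ua6_nums hp le_rfl
  obtain ⟨ε, hε⟩ : ∃ ε : ℝ, ε = p.e 8 / 4 := ⟨_, rfl⟩
  have hε0 : 0 < ε := by rw [hε]; linarith
  refine ⟨ε / (2 * (k + 1)), by positivity, fun t ht ht1 => ?_⟩
  have ht2 : t * (2 * (k + 1)) ≤ ε := by
    rwa [le_div_iff₀ (by positivity)] at ht1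
  have ht3 : t * k ≤ ε / 2 := by linarith
  have ht4 : t ≤ 1 := by
    have : (0 : ℝ) ≤ k := Nat.cast_nonneg k
    nlinarith
  obtain ⟨C2, x0, hC2, hx0, hw1⟩ := w1_le W hW feD univ (show 0 < t / 2 by positivity)
  obtain ⟨C3, hC3, X₁, hs3⟩ := hsv ε t hε0 ht ht4 ht3
  obtain ⟨X₀, hX₀⟩ := f11_ev ps hε0 ht (max (max Cb (1 / p.c1)) (nm z)) x0 0
  have hc := hp.c10
  obtain ⟨D, hD⟩ : ∃ D : ℝ, D = C2 * 4 ^ 9 / p.c1 ^ 10 := ⟨_, rfl⟩
  have hD0 : 0 ≤ D := by rw [hD]; positivity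
  refine ⟨3 ^ 9 * (D * C3), by positivity, max X₀ X₁, fun X hX => ?_⟩
  obtain ⟨a1, a2, a3, a4, a5, a6, a7, a8, a9⟩ := hX₀ X (le_trans (le_max_left _ _) hX)
  have hs4 := hs3 X (le_trans (le_max_right _ _) hX)
  obtain ⟨P, hPdef⟩ : ∃ P : ℕ, P = ⌊(X : ℝ) ^ t⌋₊ := ⟨_, rfl⟩
  obtain ⟨P0, hP0def⟩ : ∃ P0 : ℕ, P0 = ⌊PP X⌋₊ := ⟨_, rfl⟩
  rw [← hPdef, ← hP0def] at hs4
  rw [← hP0def] at a3 a4 a5 a7
  rw [← hPdef] at a5 a6
  rw [← hPdef, ← hP0def]
  have hXpos : (0 : ℝ) < X := by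
    have : 0 < X := by omega
    exact_mod_cast this
  have hX1 : (1 : ℝ) ≤ X := by
    have : 1 ≤ X := by omega
    exact_mod_cast this
  have hL : 1 ≤ Real.log X := by
    rw [Real.le_log_iff_exp_le hXpos]
    have h6 := Real.exp_one_lt_d9
    have h7 : (3 : ℝ) ≤ X := by exact_mod_cast a1
    linarith
  have hL0 : 0 < Real.log X := by linarith
  have hP1 : 1 ≤ P := by omega
  have hPX : (P : ℝ) ≤ (X : ℝ) ^ t := by rw [hPdef]; exact Nat.floor_le (by positivity)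
  have hXc : 1 / p.c1 ≤ (X : ℝ) ^ p.ep := ((le_max_right _ _).trans (le_max_left _ _)).trans
    (a8.trans (Real.rpow_le_rpow_of_exponent_le hX1 (by rw [hε]; linarith)))
  have hXb : Cb ≤ (X : ℝ) ^ ε := ((le_max_left _ _).trans (le_max_left _ _)).trans a8
  have hXz : (nm z : ℝ) ≤ (X : ℝ) ^ p.e 8 := (le_max_right _ _).trans
    (a8.trans (Real.rpow_le_rpow_of_exponent_le hX1 (by rw [hε]; linarith)))
  obtain ⟨S, hS⟩ : ∃ S : Finset ℕ, S = (prs ps P).filter (fun q => ¬ q ∣ 1) := ⟨_, rfl⟩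
  have hSm : ∀ q ∈ S, q.Prime ∧ ps < q ∧ q ≤ P := by
    intro q hq
    rw [hS, mem_filter, prs, mem_filter, mem_Ioc] at hq
    exact ⟨hq.1.2, hq.1.1.1, hq.1.1.2⟩
  have hS2 : S = (prs ps P).filter (fun q => ¬ q ∣ 1 ∧ q ≠ 0) := by
    rw [hS]
    apply Finset.filter_congr
    intro q hq
    rw [prs, mem_filter] at hq
    exact ⟨fun h => ⟨h, hq.2.ne_zero⟩, fun h => h.1⟩
  obtain ⟨η, hη⟩ : ∃ η : ℝ, η = (X : ℝ) ^ (-ε) := ⟨_, rfl⟩
  have hη0 : 0 ≤ η := by rw [hη]; positivity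
  have hPk : (P : ℝ) ^ k ≤ (X : ℝ) ^ (ε / 2) := by
    calc (P : ℝ) ^ k ≤ ((X : ℝ) ^ t) ^ k := pow_le_pow_left₀ (Nat.cast_nonneg _) hPX k
      _ = (X : ℝ) ^ (t * k) := by rw [← Real.rpow_natCast, ← Real.rpow_mul hXpos.le]
      _ ≤ _ := Real.rpow_le_rpow_of_exponent_le hX1 ht3
  -- one tuple
  have hone : ∀ i : Fin 11 → ℕ, ∑ u ∈ (GS p X).filter (fun u => ua6_sz u = i),
      edP W feD P (tp u) * vxP W feD univ P0 P (tp u) ≤
      D * (C3 * Real.log X ^ exW feD univ W) := by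
    intro i
    have hr0 : 0 < Real.log X ^ exW feD univ W := Real.rpow_pos_of_pos hL0 _
    rcases ((GS p X).filter (fun u => ua6_sz u = i)).eq_empty_or_nonempty with he | ⟨u0, hu0⟩
    · rw [he, Finset.sum_empty]
      positivity
    rw [mem_filter] at hu0
    have hg0 := ua6_gp hu0.1
    have hi0 : i 0 = 0 := by rw [← hu0.2]; exact ua6_sz_end hg0 _ (Or.inl rfl)
    have hi10 : i 10 = 0 := by rw [← hu0.2]; exact ua6_sz_end hg0 _ (Or.inr rfl)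
    have hAi : ∀ j : Fin 11, 1 ≤ j.val → j.val ≤ 9 →
        (X : ℝ) ^ (4 * ε) ≤ ((2 ^ (i j + 1) : ℕ) : ℝ) := by
      intro j j1 j9
      have h1 := ua6_sz_hi hg0 j (fun h => by rw [h] at j9; exact absurd j9 (by decide))
      rw [hu0.2] at h1
      have h2 : (nm (u0 j) : ℝ) < ((2 ^ (i j + 1) : ℕ) : ℝ) := by exact_mod_cast h1
      have h3 := ua6_lo hp le_rfl (by omega) hXz hg0 j j1 j9
      have h4 : 4 * ε = p.e 8 := by rw [hε]; ring
      rw [h4]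
      exact h3.trans h2.le
    have hQ2 : (((P ^ k) ^ 2 : ℕ) : ℝ) ≤ (X : ℝ) ^ ε := by
      push_cast
      calc ((P : ℝ) ^ k) ^ 2 ≤ ((X : ℝ) ^ (ε / 2)) ^ 2 := pow_le_pow_left₀ (by positivity) hPk 2
        _ = (X : ℝ) ^ ε := by
            rw [← Real.rpow_natCast, ← Real.rpow_mul hXpos.le]
            congr 1
            push_cast
            ring
    have hfree : ∀ j : Fin 11, ((cD j).1 = none ∨ (cD j).2 = none) → 1 ≤ j.val ∧ j.val ≤ 9 := by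
      intro j hj
      refine ua6_mid (fun h => ?_) (fun h => ?_)
      · subst h
        simp [cD] at hj
      · subst h
        simp [cD] at hj
    have hE : EquiF (FamO cD (fun j => 2 ^ (i j + 1))) (fun u => u) (LawO cD) S
        ((P : ℝ) ^ k) η := by
      have h1 := hequi cD (fun j => 2 ^ (i j + 1)) (P ^ k) η S (fun q hq => (hSm q hq).1)
        (Nat.one_le_pow _ _ hP1) hη0 ?_
      · rw [Nat.cast_pow] at h1
        exact h1
      · intro j hj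
        obtain ⟨j1, j9⟩ := hfree j hj
        have h2 : (X : ℝ) ^ ε ≤ (X : ℝ) ^ (4 * ε) :=
          Real.rpow_le_rpow_of_exponent_le hX1 (by linarith)
        constructor
        · have h3 := (hQ2.trans h2).trans (hAi j j1 j9)
          exact_mod_cast h3
        · calc Cb * ((P ^ k : ℕ) : ℝ) ^ 2 ≤ (X : ℝ) ^ ε * (X : ℝ) ^ ε := by
                apply mul_le_mul hXb _ (by positivity) (by positivity)
                push_cast at hQ2 ⊢
                exact hQ2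
            _ ≤ (X : ℝ) ^ (-ε) * (X : ℝ) ^ (4 * ε) := by
                rw [← Real.rpow_add hXpos, ← Real.rpow_add hXpos]
                exact Real.rpow_le_rpow_of_exponent_le hX1 (by linarith)
            _ ≤ η * ((2 ^ (i j + 1) : ℕ) : ℝ) := by
                rw [← hη]
                exact mul_le_mul_of_nonneg_left (hAi j j1 j9) hη0
    have s1 := hs4 (PolyK 11) (FamO cD (fun j => 2 ^ (i j + 1))) (fun u => u) (LawO cD) 1 0 η
      one_pos (fun q hq h1 => absurd (Nat.dvd_one.1 h1) hq.one_lt.ne')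
      (by rw [Nat.cast_one, Real.log_one]; positivity) hη0 (le_of_eq hη) S hS2
      (fun q hq => hLoc q (hSm q hq).1
        (Pool.Agent.AQ.PENK.nz_N (K := 11) (lt_of_le_of_lt hps (hSm q hq).2.1))) hE
    have hfin := ua6_one hW hp (X := X) (P0 := P0) (P := P) (ps := ps) (C2 := C2)
      (B := C3 * Real.log X ^ exW feD univ W)
      hC2 i hi0 hi10 ((GS p X).filter (fun u => ua6_sz u = i))
      (fun u hu => ⟨ua6_gp (mem_filter.1 hu).1, (mem_filter.1 hu).2⟩) hps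
      (fun u => edP W feD P (tp u) * vxP W feD univ P0 P (tp u)) ?_ ?_
    · rw [← hD] at hfin
      exact hfin
    · intro u hu
      have hg := ua6_gp (mem_filter.1 hu).1
      have hnz : PENM.NZ ≤ nz 11 := by
        show Pool.Agent.AQ.PENK.FD.N0 ≤ nz 11
        unfold Pool.Agent.AQ.PENK.nz
        omega
      have hps2 : 2 ≤ ps := by
        unfold Pool.Agent.AQ.PENK.nz at hps
        omega
      have h5 := hw1 X a2 P0 P ps hps hps2 a3 a6 (tp u)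
        (by rw [hP0def]; exact gp_isP (hnz.trans (hps.trans (by rw [← hP0def]; exact a3))) hg subset_rfl)
        (ua6_DE_le hp le_rfl (by omega) hXc hXz hg) 1 (Nat.coprime_one_left _)
      exact h5
    · rw [← hS]
      refine s1.trans (le_of_eq ?_)
      ring
  -- all tuples
  have hr0 : 0 < Real.log X ^ exW feD univ W := Real.rpow_pos_of_pos hL0 _
  refine (ua6_all hp le_rfl a1 hXc hXz (GS p X) (fun u hu => ua6_gp hu) _ (by positivity)
    hone).trans (le_of_eq ?_)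
  have e3 : Real.log X ^ (9 + exW feD univ W) =
      Real.log X ^ 9 * Real.log X ^ exW feD univ W := by
    rw [← Real.rpow_natCast, ← Real.rpow_add hL0]
    norm_num
  rw [e3]
  ring

alias usum_D := usum_D_pr

end Pool.Agent.AQ.UPA
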