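import Pool.Agent.Lib_helper15.AQ.UP.Facts
import Pool.Agent.Lib_helper15.UP.Facts
import Pool.Agent.Lib_helper15.UPAF.UB2
import Pool.Agent.Lib_helper88.AQN.Bas


/-!
# UPA, block UB2: the weight of a path, pointwise (and the common core of UB2 and UB3)
-/

set_option autoImplicit false

namespace Pool.Agent.AQ.UPA

open Finset Filter Pool.Agent.PENT Pool.Agent.AQ.NC Pool.Agent.AQ.PFM
open Pool.Agent.PENK (PolyK Wts dl mL ich EquiF PerP prs lw L1 Rf)
open Pool.Agent.PFM (DE ph LocS Bo Un)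
open Pool.Agent.UPA (tp exW feD feU vqU cs cr FamO LawO edP mem_feD mem_feU mem_vqU)
open Pool.Agent.AQ.PENK (nz)

variable [Cst]

/-- `x (x / s)^η` -/
noncomputable def ub2_f (η x s : ℝ) : ℝ := x * (x / s) ^ η

theorem ub2_f_mul {η x y s t : ℝ} (hx : 0 ≤ x) (hy : 0 ≤ y) (hs : 0 < s) (ht : 0 < t) :
    ub2_f η (x * y) (s * t) = ub2_f η x s * ub2_f η y t := by
  unfold ub2_f
  rw [mul_div_mul_comm, Real.mul_rpow (div_nonneg hx hs.le) (div_nonneg hy ht.le)]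
  ring

theorem ub2_f_one (η : ℝ) : ub2_f η 1 1 = 1 := by
  unfold ub2_f
  rw [div_one, Real.one_rpow, mul_one]

theorem ub2_f_prod {ι : Type} (η : ℝ) (T : Finset ι) (x s : ι → ℝ) (hx : ∀ i ∈ T, 0 ≤ x i)
    (hs : ∀ i ∈ T, 0 < s i) :
    ub2_f η (∏ i ∈ T, x i) (∏ i ∈ T, s i) = ∏ i ∈ T, ub2_f η (x i) (s i) := by
  classical
  induction T using Finset.induction_on with
  | empty => simpa using ub2_f_one η
  | insert a T ha ih =>
    rw [Finset.prod_insert ha, Finset.prod_insert ha, Finset.prod_insert ha,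
      ub2_f_mul (hx a (Finset.mem_insert_self _ _))
        (Finset.prod_nonneg fun i hi => hx i (Finset.mem_insert_of_mem hi))
        (hs a (Finset.mem_insert_self _ _))
        (Finset.prod_pos fun i hi => hs i (Finset.mem_insert_of_mem hi)),
      ih (fun i hi => hx i (Finset.mem_insert_of_mem hi))
        (fun i hi => hs i (Finset.mem_insert_of_mem hi))]

theorem ub2_f_pow {η x s : ℝ} (hx : 0 ≤ x) (hs : 0 < s) (n : ℕ) :
    ub2_f η (x ^ n) (s ^ n) = ub2_f η x s ^ n := by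
  induction n with
  | zero => simpa using ub2_f_one η
  | succ n ih =>
    rw [pow_succ, pow_succ, pow_succ, ub2_f_mul (pow_nonneg hx n) hx (pow_pos hs n) hs, ih]

theorem ub2_f_nonneg {η x s : ℝ} (hx : 0 ≤ x) (hs : 0 < s) : 0 ≤ ub2_f η x s :=
  mul_nonneg hx (Real.rpow_nonneg (div_nonneg hx hs.le) _)

theorem ub2_f_le {η x s : ℝ} (hη : 0 ≤ η) (hx : 0 ≤ x) (hs : 0 < s) (hxs : x ≤ s) :
    ub2_f η x s ≤ x :=
  mul_le_of_le_one_right hx (Real.rpow_le_one (div_nonneg hx hs.le) ((div_le_one hs).2 hxs) hη)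

theorem ub2_cm (g : ℕ → ℝ) {m N : ℕ} (hm : m ≤ N) :
    cm g m = ∏ l ∈ (range (N + 1)).filter Nat.Prime, g l ^ (m.factorization l) := by
  unfold cm
  refine Finsupp.prod_of_support_subset _ ?_ _ (fun i _ => pow_zero _)
  intro l hl
  rw [Nat.support_factorization, Nat.mem_primeFactors] at hl
  rw [mem_filter, mem_range]
  have := Nat.le_of_dvd (Nat.pos_of_ne_zero hl.2.2) hl.2.1
  exact ⟨by omega, hl.1⟩

theorem ub2_al (j : ℕ) : 0 < alE 10 j ∧ alE 10 j ≤ 1 := by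
  unfold alE
  split_ifs <;> norm_num

theorem ub2_be (j : ℕ) : 0 < beV 10 j ∧ beV 10 j ≤ 1 := by
  unfold beV
  split_ifs <;> norm_num

theorem ub2_bo (j : ℕ) : 0 ≤ boV j ∧ boV j ≤ 1 := by
  unfold boV
  split_ifs <;> norm_num

theorem ub2_bo_f (η : ℝ) (j : ℕ) : ub2_f η (boV j) 1 = boV j := by
  unfold boV ub2_f
  split_ifs <;> simp

theorem ub2_wd (Y : ℝ) (j l : ℕ) : 0 ≤ wdE 10 Y j l ∧ wdE 10 Y j l ≤ 1 := by
  have h := ub2_al j
  unfold wdE
  split_ifs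
  · exact ⟨h.1.le, h.2⟩
  · norm_num

theorem ub2_wy (P Y : ℝ) (j l : ℕ) : 0 ≤ wyV 10 P Y j l ∧ wyV 10 P Y j l ≤ 1 := by
  have h := ub2_be j
  have h' := ub2_bo j
  unfold wyV
  split_ifs
  · norm_num
  · exact h'
  · exact ⟨h.1.le, h.2⟩
  · norm_num

theorem ub2_dE_zero (u : Vec 10) : dE u 0 = 1 := by
  unfold dE
  rw [dif_neg (by omega)]

theorem ub2_dE_top (u : Vec 10) : dE u 11 = 1 := by
  unfold dE
  rw [dif_neg (by omega)]

theorem ub2_dE_dp {p : Prm 10} {X : ℕ} {u : Vec 10} (hu : GP p X u) (i : ℕ) :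
    DP (PP X) (dE u i) := by
  by_cases h : 1 ≤ i ∧ i ≤ 10
  · exact hu.dp i h.1 h.2
  · have : dE u i = 1 := by
      unfold dE
      rw [dif_neg h]
    rw [this]
    exact ⟨squarefree_one, fun q hq hd => absurd (Nat.dvd_one.1 hd) hq.one_lt.ne'⟩

theorem ub2_dE_ne {p : Prm 10} {X : ℕ} {u : Vec 10} (hu : GP p X u) (i : ℕ) : dE u i ≠ 0 :=
  (ub2_dE_dp hu i).1.ne_zero

/-- the form has no primitive zero -/
theorem ub2_fv_ne {C1 : ℝ} {X : ℕ} {q : ℤ × ℤ × ℤ} (hq : q ∈ AW C1 X) {p : Prm 10} {u : Vec 10}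
    (hu : GP p X u) (k : Fin 11) : fv q (u k) ≠ 0 := by
  unfold AW at hq
  rw [mem_filter] at hq
  refine bas_fv_ne hq.2.1 ?_
  rw [Int.isCoprime_iff_gcd_eq_one]
  by_contra hne
  obtain ⟨l, hl, hd⟩ := Nat.exists_prime_and_dvd hne
  exact gp_prim hu k hl ⟨(Int.natCast_dvd_natCast.2 hd).trans (Int.gcd_dvd_left _ _),
    (Int.natCast_dvd_natCast.2 hd).trans (Int.gcd_dvd_right _ _)⟩

theorem ub2_feD (f : Fin 11 → ℝ) : ∏ j ∈ feD, f j = ∏ j : Fin 10, f j.castSucc := by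
  have h : (feD : Finset (Fin 11)) = Finset.univ.map Fin.castSuccEmb := by decide
  rw [h, Finset.prod_map]
  rfl

/-- `|Q(u_k)| = y_k d_(k-1) d_k` -/
theorem ub2_yv {q : ℤ × ℤ × ℤ} {p : Prm 10} {X : ℕ} {u : Vec 10} (hu : GP p X u) (hG : GD q u)
    (k : Fin 11) : (fv q (u k)).natAbs = yv q u k * (dE u k.val * dE u (k.val + 1)) := by
  have hk := k.isLt
  have h1 : dE u k.val ∣ (fv q (u k)).natAbs := by
    by_cases h0 : k.val = 0
    · rw [h0, ub2_dE_zero]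
      exact one_dvd _
    · have h2 := (hG ⟨k.val - 1, by omega⟩).2
      have e1 : (⟨k.val - 1, by omega⟩ : Fin 10).succ = k := Fin.ext (by
        rw [Fin.val_succ]; show k.val - 1 + 1 = k.val; omega)
      have e2 : (⟨k.val - 1, by omega⟩ : Fin 10).val + 1 = k.val := by
        show k.val - 1 + 1 = k.val; omega
      rw [e1, e2] at h2
      exact Int.natCast_dvd.1 h2
  have h2 : dE u (k.val + 1) ∣ (fv q (u k)).natAbs := by
    by_cases h0 : k.val = 10
    · rw [h0, ub2_dE_top]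
      exact one_dvd _
    · have h2 := (hG ⟨k.val, by omega⟩).1
      have e1 : (⟨k.val, by omega⟩ : Fin 10).castSucc = k := Fin.ext rfl
      rw [e1] at h2
      exact Int.natCast_dvd.1 h2
  have h3 : Nat.Coprime (dE u k.val) (dE u (k.val + 1)) := by
    by_cases h0 : k.val = 0
    · rw [h0, ub2_dE_zero]
      exact Nat.coprime_one_left _
    · by_cases h10 : k.val = 10
      · rw [h10, ub2_dE_top]
        exact Nat.coprime_one_right _
      · exact hu.cop _ _ (by omega) (by omega) (by omega)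
  unfold yv
  exact (Nat.div_mul_cancel (h3.mul_dvd_of_dvd_of_dvd h1 h2)).symm

theorem ub2_yv_ne {C1 : ℝ} {X : ℕ} {q : ℤ × ℤ × ℤ} (hq : q ∈ AW C1 X) {p : Prm 10} {u : Vec 10}
    (hu : GP p X u) (hG : GD q u) (k : Fin 11) : yv q u k ≠ 0 := by
  intro h0
  have h1 := ub2_yv hu hG k
  rw [h0, zero_mul] at h1
  exact ub2_fv_ne hq hu k (Int.natAbs_eq_zero.1 h1)

/-- the primes with the second weights -/
def ub2_R (P Y : ℝ) (l : ℕ) : Prop := ¬ l ∣ R ∧ ¬ (l : ℝ) ≤ P ∧ (l : ℝ) ≤ Y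

open Classical in
/-- the local factor of the denominator -/
noncomputable def ub2_n (SE : Fin 10 → ℝ) (SV : Fin 11 → ℝ) (P Y : ℝ) (q : ℤ × ℤ × ℤ) (u : Vec 10)
    (l : ℕ) : ℝ :=
  (∏ j : Fin 10, (if ub2_R P Y l then SE j else 1) ^ ((dE u (j.val + 1)).factorization l)) *
    ∏ k : Fin 11, (if ub2_R P Y l then SV k else 1) ^ ((yv q u k).factorization l)

/-- the local factor of `W` -/
noncomputable def ub2_t (P Y : ℝ) (q : ℤ × ℤ × ℤ) (u : Vec 10) (l : ℕ) : ℝ :=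
  (∏ j : Fin 10, wdE 10 Y j.val l ^ ((dE u (j.val + 1)).factorization l)) *
    ∏ k : Fin 11, wyV 10 P Y k.val l ^ ((yv q u k).factorization l)

theorem ub2_t_nonneg (P Y : ℝ) (q : ℤ × ℤ × ℤ) (u : Vec 10) (l : ℕ) : 0 ≤ ub2_t P Y q u l := by
  unfold ub2_t
  exact mul_nonneg (Finset.prod_nonneg fun j _ => pow_nonneg (ub2_wd _ _ _).1 _)
    (Finset.prod_nonneg fun j _ => pow_nonneg (ub2_wy _ _ _ _).1 _)

theorem ub2_n_pos {SE : Fin 10 → ℝ} {SV : Fin 11 → ℝ} (hSE : ∀ j, 0 < SE j) (hSV : ∀ k, 0 < SV k)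
    (P Y : ℝ) (q : ℤ × ℤ × ℤ) (u : Vec 10) (l : ℕ) : 0 < ub2_n SE SV P Y q u l := by
  unfold ub2_n
  refine mul_pos (Finset.prod_pos fun j _ => pow_pos ?_ _) (Finset.prod_pos fun j _ => pow_pos ?_ _)
  · split_ifs
    · exact hSE j
    · exact one_pos
  · split_ifs
    · exact hSV j
    · exact one_pos

/-- the local inequality -/
theorem ub2_loc {p : Prm 10} {X : ℕ} {C1 : ℝ} {q : ℤ × ℤ × ℤ} (hq : q ∈ AW C1 X) {u : Vec 10}
    (hu : GP p X u) {η : ℝ} (hη : 0 ≤ η) (hG : GD q u) {SE : Fin 10 → ℝ} {SV : Fin 11 → ℝ}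
    (hSE : ∀ j, alE 10 j.val ≤ SE j) (hSV : ∀ k, beV 10 k.val ≤ SV k) (W' : Wts 11)
    (hal : ∀ j : Fin 10, W'.al j.castSucc = ub2_f η (alE 10 j.val) (SE j))
    (hbe : ∀ k : Fin 11, W'.be k = ub2_f η (beV 10 k.val) (SV k))
    (hbo : ∀ k : Fin 11, W'.bo k = boV k.val) {P : ℕ} (hP : (P : ℝ) ≤ p.Y X ∨ P = 0) {l : ℕ}
    (hl : l.Prime) :
    ub2_f η (ub2_t (PP X) (p.Y X) q u l) (ub2_n SE SV (PP X) (p.Y X) q u l) ≤
      if l ∈ prs PENM.NZ P then
        (if l ∣ DE feD (tp u) then ∏ j ∈ feD, (if l ∣ dn (tp u) j then W'.al j else 1)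
          else ph W' ⌊PP X⌋₊ univ (tp u) l q) else 1 := by
  classical
  have hSE0 : ∀ j, 0 < SE j := fun j => lt_of_lt_of_le (ub2_al _).1 (hSE j)
  have hSV0 : ∀ k, 0 < SV k := fun k => lt_of_lt_of_le (ub2_be _).1 (hSV k)
  obtain ⟨a, ha⟩ : ∃ a : Fin 10 → ℝ, a = fun j => wdE 10 (p.Y X) j.val l := ⟨_, rfl⟩
  obtain ⟨b, hb⟩ : ∃ b : Fin 11 → ℝ, b = fun k => wyV 10 (PP X) (p.Y X) k.val l := ⟨_, rfl⟩
  obtain ⟨sE, hsE⟩ : ∃ s : Fin 10 → ℝ, s = fun j => if ub2_R (PP X) (p.Y X) l then SE j else 1 :=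
    ⟨_, rfl⟩
  obtain ⟨sV, hsV⟩ : ∃ s : Fin 11 → ℝ, s = fun k => if ub2_R (PP X) (p.Y X) l then SV k else 1 :=
    ⟨_, rfl⟩
  obtain ⟨e, he⟩ : ∃ e : Fin 10 → ℕ, e = fun j => (dE u (j.val + 1)).factorization l := ⟨_, rfl⟩
  obtain ⟨v, hv⟩ : ∃ v : Fin 11 → ℕ, v = fun k => (yv q u k).factorization l := ⟨_, rfl⟩
  have ha0 : ∀ j, 0 ≤ a j ∧ a j ≤ 1 := fun j => by rw [ha]; exact ub2_wd _ _ _
  have hb0 : ∀ k, 0 ≤ b k ∧ b k ≤ 1 := fun k => by rw [hb]; exact ub2_wy _ _ _ _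
  have hsE0 : ∀ j, 0 < sE j := fun j => by
    rw [hsE]; dsimp only; split_ifs
    · exact hSE0 j
    · exact one_pos
  have hsV0 : ∀ k, 0 < sV k := fun k => by
    rw [hsV]; dsimp only; split_ifs
    · exact hSV0 k
    · exact one_pos
  have haR : ub2_R (PP X) (p.Y X) l → ∀ j, a j = alE 10 j.val ∧ sE j = SE j := by
    intro h j
    rw [ha, hsE]
    dsimp only
    unfold wdE
    rw [if_pos h.2.2, if_pos h]
    exact ⟨rfl, rfl⟩
  have hbR : ub2_R (PP X) (p.Y X) l → ∀ k, b k = beV 10 k.val ∧ sV k = SV k := by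
    intro h k
    rw [hb, hsV]
    dsimp only
    unfold wyV
    rw [if_neg h.1, if_neg h.2.1, if_pos h.2.2, if_pos h]
    exact ⟨rfl, rfl⟩
  have haN : ¬ ub2_R (PP X) (p.Y X) l → ∀ j, sE j = 1 := by
    intro h j; rw [hsE]; dsimp only; rw [if_neg h]
  have hbN : ¬ ub2_R (PP X) (p.Y X) l → ∀ k, sV k = 1 := by
    intro h k; rw [hsV]; dsimp only; rw [if_neg h]
  have has : ∀ j, a j ≤ sE j := by
    intro j
    by_cases h : ub2_R (PP X) (p.Y X) l
    · rw [(haR h j).1, (haR h j).2]; exact hSE j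
    · rw [haN h j]; exact (ha0 j).2
  have hbs : ∀ k, b k ≤ sV k := by
    intro k
    by_cases h : ub2_R (PP X) (p.Y X) l
    · rw [(hbR h k).1, (hbR h k).2]; exact hSV k
    · rw [hbN h k]; exact (hb0 k).2
  have hfa : ∀ j, 0 ≤ ub2_f η (a j) (sE j) ∧ ub2_f η (a j) (sE j) ≤ 1 := fun j =>
    ⟨ub2_f_nonneg (ha0 j).1 (hsE0 j),
      (ub2_f_le hη (ha0 j).1 (hsE0 j) (has j)).trans (ha0 j).2⟩
  have hfb : ∀ k, 0 ≤ ub2_f η (b k) (sV k) ∧ ub2_f η (b k) (sV k) ≤ 1 := fun k =>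
    ⟨ub2_f_nonneg (hb0 k).1 (hsV0 k),
      (ub2_f_le hη (hb0 k).1 (hsV0 k) (hbs k)).trans (hb0 k).2⟩
  have hL : ub2_f η (ub2_t (PP X) (p.Y X) q u l) (ub2_n SE SV (PP X) (p.Y X) q u l) =
      (∏ j, ub2_f η (a j) (sE j) ^ (e j)) * ∏ k, ub2_f η (b k) (sV k) ^ (v k) := by
    have h1 : ub2_t (PP X) (p.Y X) q u l = (∏ j, a j ^ (e j)) * ∏ k, b k ^ (v k) := by
      rw [ha, hb, he, hv]; rfl
    have h2 : ub2_n SE SV (PP X) (p.Y X) q u l = (∏ j, sE j ^ (e j)) * ∏ k, sV k ^ (v k) := by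
      rw [hsE, hsV, he, hv]; unfold ub2_n; rfl
    rw [h1, h2, ub2_f_mul (Finset.prod_nonneg fun j _ => pow_nonneg (ha0 j).1 _)
      (Finset.prod_nonneg fun j _ => pow_nonneg (hb0 j).1 _)
      (Finset.prod_pos fun j _ => pow_pos (hsE0 j) _)
      (Finset.prod_pos fun j _ => pow_pos (hsV0 j) _),
      ub2_f_prod η univ _ _ (fun j _ => pow_nonneg (ha0 j).1 _) (fun j _ => pow_pos (hsE0 j) _),
      ub2_f_prod η univ _ _ (fun j _ => pow_nonneg (hb0 j).1 _) (fun j _ => pow_pos (hsV0 j) _)]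
    congr 1
    · exact Finset.prod_congr rfl fun j _ => ub2_f_pow (ha0 j).1 (hsE0 j) _
    · exact Finset.prod_congr rfl fun j _ => ub2_f_pow (hb0 j).1 (hsV0 j) _
  rw [hL]
  have hE0 : 0 ≤ ∏ j, ub2_f η (a j) (sE j) ^ (e j) :=
    Finset.prod_nonneg fun j _ => pow_nonneg (hfa j).1 _
  have hE1 : ∏ j, ub2_f η (a j) (sE j) ^ (e j) ≤ 1 :=
    Finset.prod_le_one (fun j _ => pow_nonneg (hfa j).1 _)
      (fun j _ => pow_le_one₀ (hfa j).1 (hfa j).2)
  have hV0 : 0 ≤ ∏ k, ub2_f η (b k) (sV k) ^ (v k) :=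
    Finset.prod_nonneg fun j _ => pow_nonneg (hfb j).1 _
  have hV1 : ∏ k, ub2_f η (b k) (sV k) ^ (v k) ≤ 1 :=
    Finset.prod_le_one (fun j _ => pow_nonneg (hfb j).1 _)
      (fun j _ => pow_le_one₀ (hfb j).1 (hfb j).2)
  by_cases hm : l ∈ prs PENM.NZ P
  swap
  · rw [if_neg hm]
    exact mul_le_one₀ hE1 hV0 hV1
  rw [if_pos hm]
  have hm' := hm
  unfold prs at hm'
  rw [mem_filter, mem_Ioc] at hm'
  have hlY : (l : ℝ) ≤ p.Y X := by
    rcases hP with hP | hP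
    · exact le_trans (by exact_mod_cast hm'.1.2) hP
    · exfalso; omega
  have hl2 : ¬ l ∣ R := PENM.NZ_R hm'.1.1
  by_cases hD : l ∣ DE feD (tp u)
  · rw [if_pos hD]
    have hsp : ∏ j ∈ feD, (if l ∣ dn (tp u) j then W'.al j else 1) =
        ∏ j : Fin 10, (if l ∣ dE u (j.val + 1) then W'.al j.castSucc else 1) := by
      rw [ub2_feD]
      refine Finset.prod_congr rfl fun j _ => ?_
      have : dn (tp u) j.castSucc = dE u (j.val + 1) := dn_dE u j.castSucc (by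
        intro h
        have h4 : j.val = 10 := congrArg Fin.val h
        have h2 := j.isLt
        omega)
      rw [this]
    rw [hsp]
    refine (mul_le_of_le_one_right hE0 hV1).trans ?_
    refine Finset.prod_le_prod (fun j _ => pow_nonneg (hfa j).1 _) fun j _ => ?_
    by_cases hj : l ∣ dE u (j.val + 1)
    · rw [if_pos hj]
      have h1 : e j ≠ 0 := by
        rw [he]
        exact (hl.factorization_pos_of_dvd (ub2_dE_ne hu _) hj).ne'
      refine (pow_le_of_le_one (hfa j).1 (hfa j).2 h1).trans ?_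
      have h2 := ((ub2_dE_dp hu (j.val + 1)).2 l hl hj).2
      have hR : ub2_R (PP X) (p.Y X) l := ⟨hl2, not_le.2 h2, hlY⟩
      rw [(haR hR j).1, (haR hR j).2, hal]
    · rw [if_neg hj]
      exact pow_le_one₀ (hfa j).1 (hfa j).2
  · rw [if_neg hD]
    refine (mul_le_of_le_one_left hV0 hE1).trans ?_
    unfold ph
    refine Finset.prod_le_prod (fun j _ => pow_nonneg (hfb j).1 _) fun k _ => ?_
    unfold Pool.Agent.PENK.ind
    by_cases hk : (l : ℤ) ∣ Rf q (tp u k)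
    · rw [if_pos hk]
      have hnd : ∀ i, ¬ l ∣ dE u i := by
        intro i hi
        by_cases h : 1 ≤ i ∧ i ≤ 10
        · apply hD
          have h10 : (⟨i - 1, by omega⟩ : Fin 11) ≠ 10 := by
            intro h2
            have := congrArg Fin.val h2
            have h3 : ((10 : Fin 11) : ℕ) = 10 := rfl
            rw [h3] at this
            have h4 : i - 1 = 10 := this
            omega
          have h1 : dn (tp u) (⟨i - 1, by omega⟩ : Fin 11) = dE u i := by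
            rw [dn_dE u _ h10]
            congr 1
            show i - 1 + 1 = i
            omega
          rw [← h1] at hi
          exact hi.trans (Finset.dvd_prod_of_mem _ (mem_feD.2 h10))
        · have : dE u i = 1 := by
            unfold dE
            rw [dif_neg h]
          rw [this] at hi
          exact hl.one_lt.ne' (Nat.dvd_one.1 hi)
      have h1 : l ∣ yv q u k := by
        have h2 : l ∣ (fv q (u k)).natAbs := Int.natCast_dvd.1 hk
        rw [ub2_yv hu hG k] at h2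
        rcases hl.dvd_mul.1 h2 with h | h
        · exact h
        · rcases hl.dvd_mul.1 h with h | h
          · exact absurd h (hnd _)
          · exact absurd h (hnd _)
      have h2 : v k ≠ 0 := by
        rw [hv]
        exact (hl.factorization_pos_of_dvd (ub2_yv_ne hq hu hG k) h1).ne'
      refine (pow_le_of_le_one (hfb k).1 (hfb k).2 h2).trans ?_
      unfold Wts.gi
      have hP0 : (0 : ℝ) ≤ PP X := (Real.exp_pos _).le
      by_cases hPl : (l : ℝ) ≤ PP X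
      · rw [if_pos ((Nat.le_floor_iff hP0).2 hPl), hbN (fun h => h.2.1 hPl) k, hbo]
        have : b k = boV k.val := by
          rw [hb]
          dsimp only
          unfold wyV
          rw [if_neg hl2, if_pos hPl]
        rw [this, ub2_bo_f]
      · rw [if_neg (fun h => hPl ((Nat.le_floor_iff hP0).1 h))]
        have hR : ub2_R (PP X) (p.Y X) l := ⟨hl2, hPl, hlY⟩
        rw [(hbR hR k).1, (hbR hR k).2, hbe]
    · rw [if_neg hk]
      exact pow_le_one₀ (hfb k).1 (hfb k).2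

/-- the product over the primes -/
theorem ub2_W {p : Prm 10} {X : ℕ} {q : ℤ × ℤ × ℤ} {u : Vec 10} (hG : GD q u) {N : ℕ}
    (hN : ∀ j : Fin 10, dE u (j.val + 1) ≤ N) (hN' : ∀ k : Fin 11, yv q u k ≤ N) :
    W p X q u = ∏ l ∈ (range (N + 1)).filter Nat.Prime, ub2_t (PP X) (p.Y X) q u l := by
  unfold W ub2_t alw yw
  rw [if_pos hG, Finset.prod_mul_distrib, Finset.prod_comm (s := (range (N + 1)).filter Nat.Prime)
    (t := (univ : Finset (Fin 10))), Finset.prod_comm (s := (range (N + 1)).filter Nat.Prime)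
    (t := (univ : Finset (Fin 11)))]
  congr 1
  · exact Finset.prod_congr rfl fun j _ => ub2_cm _ (hN j)
  · exact Finset.prod_congr rfl fun k _ => ub2_cm _ (hN' k)

/-- the core of UB2 and UB3 -/
theorem ub2_core {p : Prm 10} {t : ℝ} (ht : t ≤ p.ta)
    {X : ℕ} (hX : 2 ≤ X) {C1 : ℝ} {q : ℤ × ℤ × ℤ} (hq : q ∈ AW C1 X) {u : Vec 10}
    (hu : GP p X u) {η : ℝ} (hη : 0 ≤ η) (hG : GD q u) {SE : Fin 10 → ℝ} {SV : Fin 11 → ℝ}
    (hSE : ∀ j, alE 10 j.val ≤ SE j) (hSV : ∀ k, beV 10 k.val ≤ SV k) (W' : Wts 11)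
    (hal : ∀ j : Fin 10, W'.al j.castSucc = ub2_f η (alE 10 j.val) (SE j))
    (hbe : ∀ k : Fin 11, W'.be k = ub2_f η (beV 10 k.val) (SV k))
    (hbo : ∀ k : Fin 11, W'.bo k = boV k.val) (n : ℝ) (N₀ : ℕ)
    (hn : ∀ N ≥ N₀, n = ∏ l ∈ (range (N + 1)).filter Nat.Prime,
      ub2_n SE SV (PP X) (p.Y X) q u l) :
    ub2_f η (W p X q u) n ≤ W1 W' ⌊PP X⌋₊ ⌊(X : ℝ) ^ t⌋₊ feD univ (tp u) q := by
  classical
  have hSE0 : ∀ j, 0 < SE j := fun j => lt_of_lt_of_le (ub2_al _).1 (hSE j)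
  have hSV0 : ∀ k, 0 < SV k := fun k => lt_of_lt_of_le (ub2_be _).1 (hSV k)
  obtain ⟨N, hN⟩ : ∃ N : ℕ, N = N₀ + (∑ j : Fin 10, dE u (j.val + 1)) + (∑ k : Fin 11, yv q u k) +
      ⌊(X : ℝ) ^ t⌋₊ := ⟨_, rfl⟩
  have hNd : ∀ j : Fin 10, dE u (j.val + 1) ≤ N := by
    intro j
    have := Finset.single_le_sum (f := fun j : Fin 10 => dE u (j.val + 1))
      (fun j _ => Nat.zero_le _) (mem_univ j)
    beta_reduce at this
    omega
  have hNy : ∀ k : Fin 11, yv q u k ≤ N := by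
    intro k
    have := Finset.single_le_sum (f := fun k : Fin 11 => yv q u k) (fun j _ => Nat.zero_le _)
      (mem_univ k)
    beta_reduce at this
    omega
  have hX1 : (1 : ℝ) ≤ X := by exact_mod_cast (by omega : 1 ≤ X)
  have hP : ((⌊(X : ℝ) ^ t⌋₊ : ℕ) : ℝ) ≤ p.Y X := by
    refine (Nat.floor_le (Real.rpow_nonneg (by linarith) _)).trans ?_
    unfold Prm.Y
    exact Real.rpow_le_rpow_of_exponent_le hX1 ht
  rw [ub2_W hG hNd hNy, hn N (by omega), ub2_f_prod η _ _ _ (fun l _ => ub2_t_nonneg _ _ _ _ _)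
    (fun l _ => ub2_n_pos hSE0 hSV0 _ _ _ _ _)]
  have e3 : W1 W' ⌊PP X⌋₊ ⌊(X : ℝ) ^ t⌋₊ feD univ (tp u) q =
      ∏ l ∈ (range (N + 1)).filter Nat.Prime, if l ∈ prs PENM.NZ ⌊(X : ℝ) ^ t⌋₊ then
        (if l ∣ DE feD (tp u) then ∏ j ∈ feD, (if l ∣ dn (tp u) j then W'.al j else 1)
          else ph W' ⌊PP X⌋₊ univ (tp u) l q) else 1 := by
    unfold W1
    rw [Finset.prod_ite_mem]
    refine Finset.prod_congr ?_ (fun _ _ => rfl)
    symm
    apply Finset.inter_eq_right.2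
    intro l hl
    unfold prs at hl
    rw [mem_filter, mem_Ioc] at hl
    rw [mem_filter, mem_range]
    exact ⟨by omega, hl.2⟩
  rw [e3]
  refine Finset.prod_le_prod (fun l _ => ub2_f_nonneg (ub2_t_nonneg _ _ _ _ _)
    (ub2_n_pos hSE0 hSV0 _ _ _ _ _)) fun l hl => ?_
  exact ub2_loc hq hu hη hG hSE hSV W' hal hbe hbo (Or.inl hP) (mem_filter.1 hl).2

theorem ub2_W1_nonneg (W' : Wts 11) (hal : ∀ j, 0 ≤ W'.al j) (hbe : ∀ k, 0 ≤ W'.be k)
    (hbo : ∀ k, 0 ≤ W'.bo k) (P0 P : ℕ) (E vq : Finset (Fin 11)) (u : PolyK 11)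
    (R : ℤ × ℤ × ℤ) : 0 ≤ W1 W' P0 P E vq u R := by
  unfold W1
  refine Finset.prod_nonneg fun l _ => ?_
  split_ifs
  · refine Finset.prod_nonneg fun j _ => ?_
    split_ifs
    · exact hal j
    · exact zero_le_one
  · unfold ph
    refine Finset.prod_nonneg fun k _ => ?_
    unfold Pool.Agent.PENK.ind Wts.gi
    split_ifs
    · exact hbo k
    · exact hbe k
    · exact zero_le_one

theorem ub2_castSucc_ne (j : Fin 10) : j.castSucc ≠ (10 : Fin 11) := by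
  intro h
  have h4 : j.val = 10 := congrArg Fin.val h
  have h2 := j.isLt
  omega

/-- block UB2 (as F10, `diag_ptw`, helper41, Lib_helper15/PFMF/F10.lean): pointwise; both sides are
products over the primes; factors `≤ 1` of the primes `> P` and of the `y_j` at the primes of `D` are
dropped -/
theorem ptw_D_pr {p : Prm 10} {τ : ℝ} (hp : p.Ok τ) (hτ : τ ≤ 1 / 200) {t : ℝ} (ht : t ≤ p.ta)
    {X : ℕ} (hX : 2 ≤ X) (hX0 : PENM.NZ ≤ ⌊PP X⌋₊) {C1 : ℝ} {q : ℤ × ℤ × ℤ} (hq : q ∈ AW C1 X)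
    {u : Vec 10} (hu : GP p X u) {η : ℝ} (hη : 0 ≤ η) : W p X q u ^ (1 + η) ≤
      W1 (WD η) ⌊PP X⌋₊ ⌊(X : ℝ) ^ t⌋₊ feD univ (tp u) q := by
  classical
  by_cases hG : GD q u
  · have h0 : 0 ≤ W p X q u := by
      obtain ⟨N, hN⟩ : ∃ N : ℕ, N = (∑ j : Fin 10, dE u (j.val + 1)) + ∑ k : Fin 11, yv q u k :=
        ⟨_, rfl⟩
      rw [ub2_W (p := p) (X := X) (N := N) hG]
      · exact Finset.prod_nonneg fun l _ => ub2_t_nonneg _ _ _ _ _
      · intro j
        have := Finset.single_le_sum (f := fun j : Fin 10 => dE u (j.val + 1))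
          (fun j _ => Nat.zero_le _) (mem_univ j)
        beta_reduce at this
        omega
      · intro k
        have := Finset.single_le_sum (f := fun k : Fin 11 => yv q u k) (fun j _ => Nat.zero_le _)
          (mem_univ k)
        beta_reduce at this
        omega
    have h1 : W p X q u ^ (1 + η) = ub2_f η (W p X q u) 1 := by
      unfold ub2_f
      rw [Real.rpow_one_add' h0 (by linarith), div_one]
    rw [h1]
    refine ub2_core (SE := fun _ => 1) (SV := fun _ => 1) ht hX hq hu hη hG (fun j => (ub2_al _).2)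
      (fun k => (ub2_be _).2) (WD η) (fun j => ?_) (fun k => ?_) (fun k => rfl) 1 0 (fun N _ => ?_)
    · unfold WD ub2_f
      dsimp only
      rw [if_neg (ub2_castSucc_ne j), div_one, Fin.val_castSucc,
        Real.rpow_one_add' (ub2_al _).1.le (by linarith)]
    · unfold WD ub2_f
      dsimp only
      rw [div_one, Real.rpow_one_add' (ub2_be _).1.le (by linarith)]
    · symm
      refine Finset.prod_eq_one fun l _ => ?_
      unfold ub2_n
      simp
  · have h0 : W p X q u = 0 := by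
      unfold W
      rw [if_neg hG]
    rw [h0, Real.zero_rpow (by linarith)]
    refine ub2_W1_nonneg _ (fun j => ?_) (fun k => ?_) (fun k => (ub2_bo _).1) _ _ _ _ _ _
    · unfold WD
      dsimp only
      split_ifs
      · exact le_rfl
      · exact Real.rpow_nonneg (ub2_al _).1.le _
    · unfold WD
      dsimp only
      exact Real.rpow_nonneg (ub2_be _).1.le _

alias ptw_D := ptw_D_pr

end Pool.Agent.AQ.UPA
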