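import Pool.Agent.Lib_helper15.AQ.UP.Facts
import Pool.Agent.Lib_helper15.UPAF.UB2
import Pool.Agent.Lib_helper15.AQ.UPAF.UB2


/-!
# UPA, block UB3: the weight of the diagonal of the marginals, pointwise
-/

set_option autoImplicit false

namespace Pool.Agent.AQ.UPA

open Finset Filter Pool.Agent.PENT Pool.Agent.AQ.NC Pool.Agent.AQ.PFM
open Pool.Agent.PENK (PolyK Wts dl mL ich EquiF PerP prs lw L1 Rf)
open Pool.Agent.PFM (DE ph LocS Bo Un)
open Pool.Agent.UPA (tp exW feD feU vqU cs cr FamO LawO edP mem_feD mem_feU mem_vqU)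
open Pool.Agent.AQ.PENK (nz)

variable [Cst]

/-- the weights of the edges in the denominator -/
noncomputable def ub3_SE (j i : Fin 10) : ℝ :=
  if i.val + 1 = j.val then PENM.wS0 j.val else if i.val = j.val + 1 then PENM.wS1 j.val else 1

/-- the weights of the vertices in the denominator -/
noncomputable def ub3_SV (j : Fin 10) (k : Fin 11) : ℝ :=
  if k.val = j.val then PENM.wS0 j.val else if k.val = j.val + 1 then PENM.wS1 j.val else 1

theorem ub3_SE_le (j i : Fin 10) : alE 10 i.val ≤ ub3_SE j i := by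
  have hi := i.isLt
  unfold ub3_SE
  split_ifs with h1 h2
  · unfold PENM.wS0
    rw [if_neg (by omega)]
    have : j.val - 1 = i.val := by omega
    rw [this]
    linarith [(ub2_be j.val).1]
  · unfold PENM.wS1
    rw [if_neg (by omega), ← h2]
    linarith [(ub2_be i.val).1]
  · exact (ub2_al _).2

theorem ub3_SV_le (j : Fin 10) (k : Fin 11) : beV 10 k.val ≤ ub3_SV j k := by
  unfold ub3_SV
  split_ifs with h1 h2
  · unfold PENM.wS0
    rw [h1]
    have h3 : (0 : ℝ) ≤ if j.val = 0 then 0 else alE 10 (j.val - 1) := by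
      split_ifs
      · exact le_rfl
      · exact (ub2_al _).1.le
    linarith
  · unfold PENM.wS1
    rw [h2]
    have h3 : (0 : ℝ) ≤ if j.val = 9 then 0 else alE 10 (j.val + 1) := by
      split_ifs
      · exact le_rfl
      · exact (ub2_al _).1.le
    linarith
  · exact (ub2_be _).2

theorem ub3_f {η x s : ℝ} (hη : 0 ≤ η) (hx : 0 ≤ x) (hs : 0 < s) :
    x ^ (1 + η) * s ^ (-η) = ub2_f η x s := by
  unfold ub2_f
  rw [Real.rpow_one_add' hx (by linarith), Real.div_rpow hx hs.le, Real.rpow_neg hs.le,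
    div_eq_mul_inv]
  ring

/-- the product over the edges -/
theorem ub3_edges (j : Fin 10) (a b : ℝ) (E : ℕ → ℕ) (h0 : E 0 = 0) (h11 : E 11 = 0) :
    ∏ i : Fin 10, (if i.val + 1 = j.val then a else if i.val = j.val + 1 then b else 1) ^
      (E (i.val + 1)) = a ^ (E j.val) * b ^ (E (j.val + 2)) := by
  have hj := j.isLt
  have h1 : ∀ i : Fin 10, (if i.val + 1 = j.val then a else if i.val = j.val + 1 then b else 1) ^
      (E (i.val + 1)) = (if i.val + 1 = j.val then a else 1) ^ (E (i.val + 1)) *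
        (if i.val = j.val + 1 then b else 1) ^ (E (i.val + 1)) := by
    intro i
    by_cases c1 : i.val + 1 = j.val
    · rw [if_pos c1, if_pos c1, if_neg (by omega), one_pow, mul_one]
    · rw [if_neg c1, if_neg c1, one_pow, one_mul]
  rw [Finset.prod_congr rfl fun i _ => h1 i, Finset.prod_mul_distrib]
  congr 1
  · by_cases hj0 : j.val = 0
    · rw [hj0, h0, pow_zero]
      refine Finset.prod_eq_one fun i _ => ?_
      rw [if_neg (by omega), one_pow]
    · rw [Finset.prod_eq_single (⟨j.val - 1, by omega⟩ : Fin 10)]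
      · have e : j.val - 1 + 1 = j.val := by omega
        dsimp only
        rw [if_pos e, e]
      · intro i _ hi
        rw [if_neg (fun h => hi (Fin.ext (by show i.val = j.val - 1; omega))), one_pow]
      · intro h
        exact absurd (Finset.mem_univ _) h
  · by_cases hj9 : j.val = 9
    · rw [hj9, h11, pow_zero]
      refine Finset.prod_eq_one fun i _ => ?_
      have := i.isLt
      rw [if_neg (by omega), one_pow]
    · rw [Finset.prod_eq_single (⟨j.val + 1, by omega⟩ : Fin 10)]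
      · dsimp only
        rw [if_pos rfl]
      · intro i _ hi
        rw [if_neg (fun h => hi (Fin.ext h)), one_pow]
      · intro h
        exact absurd (Finset.mem_univ _) h

/-- the product over the vertices -/
theorem ub3_vertices (j : Fin 10) (a b : ℝ) (V : Fin 11 → ℕ) :
    ∏ k : Fin 11, (if k.val = j.val then a else if k.val = j.val + 1 then b else 1) ^ (V k) =
      a ^ (V j.castSucc) * b ^ (V j.succ) := by
  have hj := j.isLt
  have h1 : ∀ k : Fin 11, (if k.val = j.val then a else if k.val = j.val + 1 then b else 1) ^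
      (V k) = (if k.val = j.val then a else 1) ^ (V k) *
        (if k.val = j.val + 1 then b else 1) ^ (V k) := by
    intro k
    by_cases c1 : k.val = j.val
    · rw [if_pos c1, if_pos c1, if_neg (by omega), one_pow, mul_one]
    · rw [if_neg c1, if_neg c1, one_pow, one_mul]
  rw [Finset.prod_congr rfl fun i _ => h1 i, Finset.prod_mul_distrib]
  congr 1
  · rw [Finset.prod_eq_single (j.castSucc : Fin 11)]
    · rw [if_pos (Fin.val_castSucc j)]
    · intro k _ hk
      rw [if_neg (fun h => hk (Fin.ext (by rw [Fin.val_castSucc]; exact h))), one_pow]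
    · intro h
      exact absurd (Finset.mem_univ _) h
  · rw [Finset.prod_eq_single (j.succ : Fin 11)]
    · rw [if_pos (Fin.val_succ j)]
    · intro k _ hk
      rw [if_neg (fun h => hk (Fin.ext (by rw [Fin.val_succ]; exact h))), one_pow]
    · intro h
      exact absurd (Finset.mem_univ _) h

open Classical in
theorem ub3_ws (P Y s : ℝ) (l : ℕ) : PENM.ws P Y s l = if ub2_R P Y l then s else 1 := by
  unfold PENM.ws ub2_R
  by_cases h1 : l ∣ R
  · rw [if_pos h1, if_neg (fun h => h.1 h1)]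
  · rw [if_neg h1]
    by_cases h2 : (l : ℝ) ≤ P
    · rw [if_pos h2, if_neg (fun h => h.2.1 h2)]
    · rw [if_neg h2]
      by_cases h3 : (l : ℝ) ≤ Y
      · rw [if_pos h3, if_pos ⟨h1, h2, h3⟩]
      · rw [if_neg h3, if_neg (fun h => h3 h.2.2)]

/-- the local factor of `nuN` -/
theorem ub3_loc {p : Prm 10} {X : ℕ} {q : ℤ × ℤ × ℤ} {u : Vec 10} (j : Fin 10) (l : ℕ) :
    PENM.ws (PP X) (p.Y X) (PENM.wS0 j.val) l ^ ((yv q u j.castSucc).factorization l +
        (dE u j.val).factorization l) *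
      PENM.ws (PP X) (p.Y X) (PENM.wS1 j.val) l ^ ((yv q u j.succ).factorization l +
        (dE u (j.val + 2)).factorization l) =
      ub2_n (ub3_SE j) (ub3_SV j) (PP X) (p.Y X) q u l := by
  classical
  rw [ub3_ws, ub3_ws]
  unfold ub2_n
  by_cases hR : ub2_R (PP X) (p.Y X) l
  · simp only [if_pos hR]
    have h1 := ub3_edges j (PENM.wS0 j.val) (PENM.wS1 j.val) (fun m => (dE u m).factorization l)
      (by rw [ub2_dE_zero, Nat.factorization_one]; rfl)
      (by rw [ub2_dE_top, Nat.factorization_one]; rfl)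
    have h2 := ub3_vertices j (PENM.wS0 j.val) (PENM.wS1 j.val)
      (fun k => (yv q u k).factorization l)
    have e1 : ∏ i : Fin 10, ub3_SE j i ^ ((dE u (i.val + 1)).factorization l) = _ := h1
    have e2 : ∏ k : Fin 11, ub3_SV j k ^ ((yv q u k).factorization l) = _ := h2
    rw [e1, e2, pow_add, pow_add]
    ring
  · simp only [if_neg hR, one_pow, Finset.prod_const_one, mul_one]

theorem ub3_m0 {p : Prm 10} {X : ℕ} {q : ℤ × ℤ × ℤ} {u : Vec 10} (hu : GP p X u) (hG : GD q u)
    (j : Fin 10) : (fv q (u j.castSucc)).natAbs / dE u (j.val + 1) =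
      yv q u j.castSucc * dE u j.val := by
  have h1 := ub2_yv hu hG j.castSucc
  have h2 : (j.castSucc : Fin 11).val = j.val := Fin.val_castSucc j
  rw [h2] at h1
  rw [h1, ← mul_assoc]
  exact Nat.mul_div_cancel _ (Nat.pos_of_ne_zero (ub2_dE_ne hu _))

theorem ub3_m1 {p : Prm 10} {X : ℕ} {q : ℤ × ℤ × ℤ} {u : Vec 10} (hu : GP p X u) (hG : GD q u)
    (j : Fin 10) : (fv q (u j.succ)).natAbs / dE u (j.val + 1) =
      yv q u j.succ * dE u (j.val + 2) := by
  have h1 := ub2_yv hu hG j.succ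
  have h2 : (j.succ : Fin 11).val = j.val + 1 := Fin.val_succ j
  rw [h2] at h1
  rw [h1, mul_comm (dE u (j.val + 1)), ← mul_assoc]
  exact Nat.mul_div_cancel _ (Nat.pos_of_ne_zero (ub2_dE_ne hu _))

theorem ub3_nu {C1 : ℝ} {p : Prm 10} {X : ℕ} {q : ℤ × ℤ × ℤ} (hq : q ∈ AW C1 X) {u : Vec 10}
    (hu : GP p X u) (hG : GD q u) (j : Fin 10) {N : ℕ}
    (hN : yv q u j.castSucc * dE u j.val + yv q u j.succ * dE u (j.val + 2) ≤ N) :
    PENM.nuN p X q u j = ∏ l ∈ (range (N + 1)).filter Nat.Prime,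
      ub2_n (ub3_SE j) (ub3_SV j) (PP X) (p.Y X) q u l := by
  unfold PENM.nuN
  rw [ub3_m0 hu hG j, ub3_m1 hu hG j, ub2_cm _ (by omega : yv q u j.castSucc * dE u j.val ≤ N),
    ub2_cm _ (by omega : yv q u j.succ * dE u (j.val + 2) ≤ N), ← Finset.prod_mul_distrib]
  refine Finset.prod_congr rfl fun l _ => ?_
  rw [Nat.factorization_mul (ub2_yv_ne hq hu hG _) (ub2_dE_ne hu _),
    Nat.factorization_mul (ub2_yv_ne hq hu hG _) (ub2_dE_ne hu _), Finsupp.add_apply,
    Finsupp.add_apply]
  exact ub3_loc j l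

/-- block UB3 (as UB2): `nuN` = `∏ s_0 ^ v_l(y_j d_(j-1)) s_1 ^ v_l(y_(j+1) d_(j+1))` over the
primes `P < l ≤ Y`, since `Q(u_j)/d_j = y_j d_(j-1)`, `Q(u_(j+1))/d_j = y_(j+1) d_(j+1)` -/
theorem ptw_N_pr {p : Prm 10} {τ : ℝ} (hp : p.Ok τ) (hτ : τ ≤ 1 / 200) {t : ℝ} (ht : t ≤ p.ta)
    {X : ℕ} (hX : 2 ≤ X) (hX0 : PENM.NZ ≤ ⌊PP X⌋₊) {C1 : ℝ} {q : ℤ × ℤ × ℤ} (hq : q ∈ AW C1 X)
    {u : Vec 10} (hu : GP p X u) (j : Fin 10) {η : ℝ} (hη : 0 ≤ η) (hη1 : η ≤ 1) :
    W p X q u * (W p X q u / PENM.nuN p X q u j) ^ η ≤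
      W1 (WN j η) ⌊PP X⌋₊ ⌊(X : ℝ) ^ t⌋₊ feD univ (tp u) q := by
  classical
  have hs0 : 0 < PENM.wS0 j.val := by
    have := ub3_SV_le j j.castSucc
    unfold ub3_SV at this
    rw [if_pos (Fin.val_castSucc j)] at this
    exact lt_of_lt_of_le (ub2_be _).1 this
  have hs1 : 0 < PENM.wS1 j.val := by
    have := ub3_SV_le j j.succ
    unfold ub3_SV at this
    rw [if_neg (by rw [Fin.val_succ]; omega), if_pos (Fin.val_succ j)] at this
    exact lt_of_lt_of_le (ub2_be _).1 this
  by_cases hG : GD q u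
  · show ub2_f η (W p X q u) (PENM.nuN p X q u j) ≤ _
    refine ub2_core (SE := ub3_SE j) (SV := ub3_SV j) ht hX hq hu hη hG (ub3_SE_le j)
      (ub3_SV_le j) (WN j η) (fun i => ?_) (fun k => ?_) (fun k => rfl) _
      (yv q u j.castSucc * dE u j.val + yv q u j.succ * dE u (j.val + 2))
      (fun N hN => ub3_nu hq hu hG j hN)
    · unfold WN ub3_SE
      dsimp only
      rw [if_neg (ub2_castSucc_ne i), Fin.val_castSucc]
      split_ifs
      · exact ub3_f hη (ub2_al _).1.le hs0
      · exact ub3_f hη (ub2_al _).1.le hs1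
      · have := ub3_f (x := alE 10 i.val) hη (ub2_al _).1.le one_pos
        rw [Real.one_rpow] at this
        exact this
    · unfold WN ub3_SV
      dsimp only
      split_ifs
      · exact ub3_f hη (ub2_be _).1.le hs0
      · exact ub3_f hη (ub2_be _).1.le hs1
      · have := ub3_f (x := beV 10 k.val) hη (ub2_be _).1.le one_pos
        rw [Real.one_rpow] at this
        exact this
  · have h0 : W p X q u = 0 := by
      unfold W
      rw [if_neg hG]
    rw [h0, zero_mul]
    refine ub2_W1_nonneg _ (fun i => ?_) (fun k => ?_) (fun k => (ub2_bo _).1) _ _ _ _ _ _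
    · unfold WN
      dsimp only
      split_ifs
      · exact le_rfl
      · exact mul_nonneg (Real.rpow_nonneg (ub2_al _).1.le _) (Real.rpow_nonneg hs0.le _)
      · exact mul_nonneg (Real.rpow_nonneg (ub2_al _).1.le _) (Real.rpow_nonneg hs1.le _)
      · exact mul_nonneg (Real.rpow_nonneg (ub2_al _).1.le _) zero_le_one
    · unfold WN
      dsimp only
      refine mul_nonneg (Real.rpow_nonneg (ub2_be _).1.le _) ?_
      split_ifs
      · exact Real.rpow_nonneg hs0.le _
      · exact Real.rpow_nonneg hs1.le _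
      · exact zero_le_one


end Pool.Agent.AQ.UPA

namespace Pool.Agent.AQ.UPA

theorem ptw_N : type_of% @ptw_N_pr := @ptw_N_pr

end Pool.Agent.AQ.UPA
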