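import Pool.Agent.Lib_helper15.AQ.UP.Facts
import Pool.Agent.Lib_helper15.UPAF.UB1
import Pool.Agent.Lib_helper15.PFMF.F1
import Pool.Agent.Lib_helper15.UPAF.UB4
import Pool.Agent.Lib_helper15.AQ.PFM.Poly
import Pool.Agent.Lib_helper88.EQQ.EQQ
import Pool.Agent.Lib_helper88.AQN.NA1
import Pool.Agent.Lib_helper88.AQN.Ok
import Pool.Agent.Lib_helper15.AQ.PFMF.F1
import Pool.Agent.Lib_helper15.AQ.PFMF.F5
import Pool.Agent.Lib_helper15.AQ.UPAF.UA6
import Pool.Agent.Lib_helper15.AQ.UPAF.UB2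
import Pool.Agent.Lib_helper15.AQ.UPAF.UB3


/-!
# AQ (MP_892e4c_nt): the inputs (DG), (DGN), (UB) (helper15, helper18)
-/

set_option autoImplicit false

namespace Pool.Agent.AQ.UPA

open Finset Filter Pool.Agent.PENT Pool.Agent.AQ.NC Pool.Agent.AQ.PFM
open Pool.Agent.PENK (PolyK Wts dl mL ich EquiF PerP prs lw L1 Rf Bas)
open Pool.Agent.PFM (DE ph LocS Bo Un)
open Pool.Agent.UPA (tp exW feD feU vqU cs cr FamO LawO edP mem_feD mem_feU mem_vqU)
open Pool.Agent.AQ.PENK (nz)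

variable [Cst]

/-- products over the primes of `D(u)` of `2/(p+1)` and the edge weights -/
theorem edge_prod11 {P0 P : ℕ} {u : PolyK 11} (h : IsP feD P0 u) (W : Wts 11) (hW : W.Ok) :
    (∏ j ∈ feD, ∏ l ∈ (dn u j).primeFactors, lw P l (W.al j)) *
      (∏ p ∈ (DE feD u).primeFactors, 2 / ((p : ℝ) + 1)) ≤
      ∏ j ∈ feD, ∏ l ∈ (dn u j).primeFactors, 2 * lw P l (W.al j) / (l : ℝ) := by
  rw [prod_DE h, ← Finset.prod_mul_distrib]
  have lw0 : ∀ (l : ℕ) (j : Fin 11), 0 ≤ lw P l (W.al j) := by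
    intro l j
    unfold lw
    split_ifs
    · exact hW.al0 j
    · exact zero_le_one
  apply Finset.prod_le_prod
  · intro j _
    apply mul_nonneg
    · exact Finset.prod_nonneg (fun l _ => lw0 l j)
    · exact Finset.prod_nonneg (fun l _ => by positivity)
  · intro j _
    rw [← Finset.prod_mul_distrib]
    apply Finset.prod_le_prod
    · intro l _
      exact mul_nonneg (lw0 l j) (by positivity)
    · intro l hl
      have hl0 : (0 : ℝ) < l := by
        exact_mod_cast (Nat.prime_of_mem_primeFactors hl).pos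
      rw [mul_div_assoc', mul_comm (lw P l (W.al j)) 2]
      apply div_le_div_of_nonneg_left _ hl0 (by linarith)
      exact mul_nonneg (by norm_num) (lw0 l j)

/-- the exponents -/
theorem e_le {p : Prm 10} {τ : ℝ} (hp : p.Ok τ) (hτ0 : 0 < τ) (hτ : τ ≤ 1 / 200) (j : Fin 11)
    (h2 : 2 ≤ j.val) (h8 : j.val + 2 ≤ 10) : p.e j + p.ew ≤ 3 / 2 * τ := by
  have hew := hp.ew0
  have h1 := hp.ew1 j h2 h8
  have he : 0 < p.e j := by
    by_contra hne
    push Not at hne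
    nlinarith
  have hep := hp.ep1
  have h3 : p.e j ≤ τ := by
    by_cases hev : Even j.val
    · have h4 := hp.even j h2 h8 hev
      have hem0 : 0 < p.em := by
        by_contra hne
        push Not at hne
        nlinarith
      have hta := hp.em_ta
      have hta0 : 0 < p.ta := by
        by_contra hne
        push Not at hne
        nlinarith
      have hep' := hp.ta_ep
      have hep0 : 0 < p.ep := by
        by_contra hne
        push Not at hne
        nlinarith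
      have h5 : p.ta ≤ 1 := by nlinarith
      have h6 : p.em ≤ 1 := by nlinarith
      nlinarith
    · rw [hp.odd j h2 h8 hev]; exact hep
  nlinarith

/-- sizes of the paths of the family -/
theorem gp_sz {p : Prm 10} {τ : ℝ} (hp : p.Ok τ) (hτ0 : 0 < τ) (hτ : τ ≤ 1 / 200) :
    ∃ X₀ : ℕ, ∀ X ≥ X₀, 3 ≤ (X : ℝ) ^ τ ∧ ∀ u : Vec 10, GP p X u →
      (∀ j, |((u j).1 : ℝ)| ≤ (X : ℝ) ^ (2 * τ) ∧ |((u j).2 : ℝ)| ≤ (X : ℝ) ^ (2 * τ)) ∧
      (DE feD (tp u) : ℝ) ≤ (X : ℝ) ^ (55 * τ) := by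
  have t1 : Tendsto (fun X : ℕ => (X : ℝ) ^ τ) atTop atTop :=
    (tendsto_rpow_atTop hτ0).comp tendsto_natCast_atTop_atTop
  obtain ⟨X₀, h⟩ := eventually_atTop.1 ((t1.eventually_ge_atTop (3 + (nm z : ℝ))).and
    (t1.eventually_ge_atTop (1 / p.c1)))
  refine ⟨X₀ + 1, fun X hX => ?_⟩
  obtain ⟨a1', a2⟩ := h X (by omega)
  have hz1 : (1 : ℝ) ≤ (nm z : ℝ) := by exact_mod_cast nm_z_pos
  have a1 : 3 ≤ (X : ℝ) ^ τ := by linarith
  refine ⟨a1, fun u hu => ?_⟩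
  have hX1 : (1 : ℝ) ≤ X := by exact_mod_cast (by omega : 1 ≤ X)
  have hX0 : (0 : ℝ) < X := by linarith
  have hc := hp.c10
  have hco : ∀ j, |((u j).1 : ℝ)| ≤ (X : ℝ) ^ (2 * τ) ∧ |((u j).2 : ℝ)| ≤ (X : ℝ) ^ (2 * τ) := by
    intro j
    refine na1_coord hu hc _ (Real.one_le_rpow hX1 (by positivity)) ?_ ?_ ?_ j
    · have h5 : (X : ℝ) ^ τ ≤ (X : ℝ) ^ (2 * τ) :=
        Real.rpow_le_rpow_of_exponent_le hX1 (by linarith)
      linarith
    · have e : (X : ℝ) ^ (2 * τ) = (X : ℝ) ^ τ * (X : ℝ) ^ τ := by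
        rw [← Real.rpow_add hX0]; congr 1; ring
      rw [e, div_eq_mul_one_div]
      exact mul_le_mul (Real.rpow_le_rpow_of_exponent_le hX1 hp.ep1) a2 (by positivity)
        (by positivity)
    · intro i h2 h8
      apply Real.rpow_le_rpow_of_exponent_le hX1
      have := e_le hp hτ0 hτ i h2 h8
      linarith
  refine ⟨hco, ?_⟩
  have hdn : ∀ j, (dn (tp u) j : ℝ) ≤ (X : ℝ) ^ (5 * τ) := by
    intro j
    unfold dn Pool.Agent.PENK.dn dl dt tp
    rw [Nat.cast_natAbs]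
    push_cast
    obtain ⟨a, b⟩ := hco j
    obtain ⟨c, d⟩ := hco (j + 1 : Fin 11)
    have e : (X : ℝ) ^ (5 * τ) = (X : ℝ) ^ τ * ((X : ℝ) ^ (2 * τ) * (X : ℝ) ^ (2 * τ)) := by
      rw [← Real.rpow_add hX0, ← Real.rpow_add hX0]; congr 1; ring
    have hpos : 0 ≤ (X : ℝ) ^ (2 * τ) := by positivity
    rw [e]
    calc |((u j).1 : ℝ) * ((u (j + 1 : Fin 11)).2 : ℝ) - ((u j).2 : ℝ) * ((u (j + 1 : Fin 11)).1 : ℝ)|
        ≤ |((u j).1 : ℝ) * ((u (j + 1 : Fin 11)).2 : ℝ)| +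
          |((u j).2 : ℝ) * ((u (j + 1 : Fin 11)).1 : ℝ)| := abs_sub _ _
      _ ≤ (X : ℝ) ^ (2 * τ) * (X : ℝ) ^ (2 * τ) + (X : ℝ) ^ (2 * τ) * (X : ℝ) ^ (2 * τ) := by
          rw [abs_mul, abs_mul]
          exact add_le_add (mul_le_mul a d (abs_nonneg _) hpos)
            (mul_le_mul b c (abs_nonneg _) hpos)
      _ ≤ (X : ℝ) ^ τ * ((X : ℝ) ^ (2 * τ) * (X : ℝ) ^ (2 * τ)) := by
          have : 0 ≤ (X : ℝ) ^ (2 * τ) * (X : ℝ) ^ (2 * τ) := by positivity
          nlinarith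
  unfold DE
  rw [Nat.cast_prod]
  calc ∏ j ∈ feD, (dn (tp u) j : ℝ) ≤ ∏ _j ∈ feD, (X : ℝ) ^ (5 * τ) :=
        Finset.prod_le_prod (fun j _ => Nat.cast_nonneg _) (fun j _ => hdn j)
    _ = (X : ℝ) ^ (50 * τ) := by
        rw [Finset.prod_const, show feD.card = 10 by decide, ← Real.rpow_natCast,
          ← Real.rpow_mul hX0.le]
        congr 1; push_cast; ring
    _ ≤ _ := Real.rpow_le_rpow_of_exponent_le hX1 (by linarith)

/-- the number of paths -/
theorem gs_card {p : Prm 10} {τ : ℝ} (hp : p.Ok τ) (hτ0 : 0 < τ) (hτ : τ ≤ 1 / 200) :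
    ∃ X₀ : ℕ, ∀ X ≥ X₀, ((GS p X).card : ℝ) ≤ (X : ℝ) ^ (66 * τ) := by
  classical
  obtain ⟨X₀, h⟩ := gp_sz hp hτ0 hτ
  refine ⟨X₀ + 1, fun X hX => ?_⟩
  obtain ⟨h3, h⟩ := h X (by omega)
  have hX1 : (1 : ℝ) ≤ X := by exact_mod_cast (by omega : 1 ≤ X)
  have hX0 : (0 : ℝ) < X := by linarith
  set N : ℤ := ⌊(X : ℝ) ^ (2 * τ)⌋ with hN
  have hsub : GS p X ⊆ Fintype.piFinset (fun _ : Fin 11 => (Icc (-N) N) ×ˢ (Icc (-N) N)) := by
    intro u hu
    have hg := (mem_GS hp.c10).1 hu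
    rw [Fintype.mem_piFinset]
    intro j
    obtain ⟨a, b⟩ := (h u hg).1 j
    have key : ∀ z : ℤ, |(z : ℝ)| ≤ (X : ℝ) ^ (2 * τ) → -N ≤ z ∧ z ≤ N := by
      intro z hz
      have h1 : |z| ≤ N := by
        rw [hN]
        apply Int.le_floor.2
        push_cast
        exact hz
      exact abs_le.1 h1
    rw [Finset.mem_product, Finset.mem_Icc, Finset.mem_Icc]
    exact ⟨key _ a, key _ b⟩
  have h1 := Finset.card_le_card hsub
  rw [Fintype.card_piFinset] at h1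
  simp only [Finset.card_product, Int.card_Icc, Finset.prod_const, Finset.card_univ,
    Fintype.card_fin] at h1
  have hN0 : 0 ≤ N := Int.floor_nonneg.2 (by positivity)
  have h2 : (((N + 1 - -N).toNat : ℕ) : ℝ) ≤ (X : ℝ) ^ (3 * τ) := by
    have e : (((N + 1 - -N).toNat : ℕ) : ℤ) = N + 1 - -N := Int.toNat_of_nonneg (by omega)
    have e' : (((N + 1 - -N).toNat : ℕ) : ℝ) = ((N + 1 - -N : ℤ) : ℝ) := by
      exact_mod_cast congrArg (Int.cast (R := ℝ)) e
    rw [e']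
    push_cast
    have h4 : (N : ℝ) ≤ (X : ℝ) ^ (2 * τ) := Int.floor_le _
    have h5 : 1 ≤ (X : ℝ) ^ (2 * τ) := Real.one_le_rpow hX1 (by positivity)
    have e2 : (X : ℝ) ^ (3 * τ) = (X : ℝ) ^ τ * (X : ℝ) ^ (2 * τ) := by
      rw [← Real.rpow_add hX0]; congr 1; ring
    rw [e2]
    nlinarith
  calc ((GS p X).card : ℝ) ≤ (((N + 1 - -N).toNat * (N + 1 - -N).toNat) ^ 11 : ℕ) := by
        exact_mod_cast h1
    _ = ((((N + 1 - -N).toNat : ℕ) : ℝ)) ^ 22 := by push_cast; ring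
    _ ≤ ((X : ℝ) ^ (3 * τ)) ^ 22 := pow_le_pow_left₀ (Nat.cast_nonneg _) h2 22
    _ = (X : ℝ) ^ (66 * τ) := by
        rw [← Real.rpow_natCast, ← Real.rpow_mul hX0.le]; congr 1; push_cast; ring

/-- first moments -/
theorem fmom (W : Wts 11) (hW : W.Ok) {e : ℝ} (he : 9 + exW feD univ W ≤ e) (he7 : -7 ≤ e)
    {C1 : ℝ} (hC1 : 1 ≤ C1) : ∃ τ₀ : ℝ, 0 < τ₀ ∧ ∀ p : Prm 10, p.Ok τ₀ →
    ∃ t₁ : ℝ, 0 < t₁ ∧ ∀ t : ℝ, 0 < t → t ≤ t₁ → ∃ C : ℝ, 0 ≤ C ∧ ∃ X₀ : ℕ, ∀ X ≥ X₀,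
      ∀ F : ℤ × ℤ × ℤ → Vec 10 → ℝ,
      (∀ q ∈ AW C1 X, ∀ u ∈ GS p X, GD q u →
        F q u ≤ W1 W ⌊PP X⌋₊ ⌊(X : ℝ) ^ t⌋₊ feD univ (tp u) q) →
      (∀ q ∈ AW C1 X, ∀ u ∈ GS p X, ¬ GD q u → F q u ≤ 0) →
      ∑ q ∈ AW C1 X, ∑ u ∈ GS p X, F q u ≤ C * X * Real.log X ^ e := by
  classical
  obtain ⟨δ, hδ0, hδ1, hE⟩ := Pool.Agent.AQ.PENK.exists_EQQ fdI (PENM.DJ_ns 0)
  obtain ⟨n, hn⟩ := pow_unbounded_of_one_lt C1 (one_lt_two)
  obtain ⟨τ₂, hτ₂, H2⟩ := usum_D W hW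
  refine ⟨min τ₂ (δ / 1000), lt_min hτ₂ (by positivity), fun p hp => ?_⟩
  have hσ0 : 0 < min τ₂ (δ / 1000) := lt_min hτ₂ (by positivity)
  set σ : ℝ := min τ₂ (δ / 1000) with hσ
  have hσδ : σ ≤ δ / 1000 := min_le_right _ _
  have hσ1 : σ ≤ 1 / 200 := by linarith
  have hp2 : p.Ok τ₂ := hp.mono hσ0 (by norm_num) (min_le_left _ _)
  obtain ⟨τ₀, hτ₀, Ca, x₀, hCa, hx₀, H1⟩ :=
    rsum1 (K := 11) feD univ W hW hδ0 hδ1 hE (|ρ₂| * C1 + 1)
      (by have : 0 ≤ |ρ₂| * C1 := by positivity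
          linarith)
  obtain ⟨t₂, ht₂, H2⟩ := H2 p hp2
  refine ⟨min τ₀ t₂, lt_min hτ₀ ht₂, fun t ht ht' => ?_⟩
  obtain ⟨Cb, hCb, X₂, H3⟩ := H2 t ht (ht'.trans (min_le_right _ _))
  obtain ⟨XS, HS⟩ := gp_sz hp hσ0 hσ1
  obtain ⟨XC, HC⟩ := gs_card hp hσ0 hσ1
  -- conditions for large `X`
  have hlog : Tendsto (fun X : ℕ => Real.log (X : ℝ)) atTop atTop :=
    Real.tendsto_log_atTop.comp tendsto_natCast_atTop_atTop
  have ev1 : ∀ᶠ X : ℕ in atTop, 3 + (PENM.NZ : ℝ) ≤ PP X := by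
    have t4 : Tendsto (fun X : ℕ => Real.exp (Real.log (X : ℝ) ^ (1 / 100 : ℝ))) atTop atTop :=
      Real.tendsto_exp_atTop.comp ((tendsto_rpow_atTop (by norm_num)).comp hlog)
    exact t4.eventually_ge_atTop _
  have ev2 : ∀ᶠ X : ℕ in atTop, Real.log (X : ℝ) ^ 7 ≤ (X : ℝ) ^ (δ / 4) := by
    have h1 := (isLittleO_log_rpow_atTop (r := δ / 28) (by positivity)).bound (c := 1) one_pos
    have h2 := tendsto_natCast_atTop_atTop (R := ℝ) |>.eventually h1
    filter_upwards [h2, hlog.eventually_ge_atTop 1,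
      (tendsto_natCast_atTop_atTop (R := ℝ)).eventually_ge_atTop 1] with X h3 h4 h5
    rw [one_mul, Real.norm_of_nonneg (by linarith),
      Real.norm_of_nonneg (Real.rpow_nonneg (by linarith) _)] at h3
    calc Real.log (X : ℝ) ^ 7 ≤ ((X : ℝ) ^ (δ / 28)) ^ 7 := pow_le_pow_left₀ (by linarith) h3 7
      _ = (X : ℝ) ^ (δ / 4) := by
          rw [← Real.rpow_natCast, ← Real.rpow_mul (by linarith)]; congr 1; push_cast; ring
  obtain ⟨X₃, hX₃⟩ := eventually_atTop.1 (ev1.and (ev2.and ((hlog.eventually_ge_atTop 1).and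
    (((tendsto_natCast_atTop_atTop (R := ℝ)).eventually_ge_atTop x₀).and
      ((tendsto_rpow_atTop ht).comp (tendsto_natCast_atTop_atTop (R := ℝ))
        |>.eventually_ge_atTop 1)))))
  refine ⟨2 ^ n * (Ca * Cb + 1), by positivity, X₂ + X₃ + XS + XC + 3,
    fun X hX F hF1 hF0 => ?_⟩
  obtain ⟨a1, a2, a3, a4, a5⟩ := hX₃ X (by omega)
  have hX2 : 2 ≤ X := by omega
  have hXr : (2 : ℝ) ≤ X := by exact_mod_cast hX2
  have hX0 : (0 : ℝ) < X := by linarith
  have hX1 : (1 : ℝ) ≤ X := by linarith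
  set P0 : ℕ := ⌊PP X⌋₊ with hP0
  set P : ℕ := ⌊(X : ℝ) ^ t⌋₊ with hP
  have hNZ0 : (0 : ℝ) ≤ (PENM.NZ : ℝ) := Nat.cast_nonneg _
  have hP02 : 2 ≤ P0 := by
    rw [hP0]; exact Nat.le_floor (by push_cast; linarith)
  have hPN : PENM.NZ ≤ P0 := by
    rw [hP0]; exact Nat.le_floor (by linarith)
  have hP1 : 1 ≤ P := Nat.le_floor (by push_cast; exact a5)
  have hPX : (P : ℝ) ≤ (X : ℝ) ^ τ₀ :=
    (Nat.floor_le (by positivity)).trans
      (Real.rpow_le_rpow_of_exponent_le hX1 (ht'.trans (min_le_left _ _)))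
  rw [Finset.sum_comm]
  -- one path
  have s3 : ∀ u ∈ GS p X, ∑ q ∈ AW C1 X, F q u ≤
      2 ^ n * (Ca * X * (edP W feD P (tp u) * vxP W feD univ P0 P (tp u)) +
        (X : ℝ) ^ (1 - δ / 2)) := by
    intro u hu
    have hgp : GP p X u := (mem_GS hp.c10).1 hu
    have hisP := gp_isP hPN hgp (Finset.Subset.refl feD)
    obtain ⟨_, hsz⟩ := (HS X (by omega)).2 u hgp
    set S : Finset Bas := (AW C1 X).filter (fun q => GD q u) with hS
    have e1 : ∑ q ∈ AW C1 X, F q u ≤ ∑ R ∈ S, W1 W P0 P feD univ (tp u) R := by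
      rw [← Finset.sum_filter_add_sum_filter_not (AW C1 X) (fun q => GD q u)]
      have z : ∑ q ∈ (AW C1 X).filter (fun q => ¬ GD q u), F q u ≤ 0 :=
        Finset.sum_nonpos (fun q hq => by
          obtain ⟨h1, h2⟩ := Finset.mem_filter.1 hq
          exact hF0 q h1 u hu h2)
      have z2 : ∑ q ∈ (AW C1 X).filter (fun q => GD q u), F q u ≤
          ∑ R ∈ S, W1 W P0 P feD univ (tp u) R :=
        Finset.sum_le_sum (fun q hq => by
          obtain ⟨h1, h2⟩ := Finset.mem_filter.1 hq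
          exact hF1 q h1 u hu h2)
      linarith
    refine e1.trans ?_
    have e2 : ∑ R ∈ S, W1 W P0 P feD univ (tp u) R =
        (∏ j ∈ feD, ∏ l ∈ (dn (tp u) j).primeFactors, lw P l (W.al j)) *
          ∑ R ∈ S, ∏ p ∈ (prs Pool.Agent.AQ.PENK.FD.N0 P).filter (fun p => ¬ p ∣ DE feD (tp u)),
            ph W P0 univ (tp u) p R := by
      rw [Finset.mul_sum]
      apply Finset.sum_congr rfl
      intro R _
      exact W1_split hisP W R
    rw [e2]
    have hDE : (DE feD (tp u) : ℝ) ≤ (X : ℝ) ^ (δ / 2) :=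
      hsz.trans (Real.rpow_le_rpow_of_exponent_le hX1 (by linarith))
    set M : ℝ := (∏ p ∈ (DE feD (tp u)).primeFactors, 2 / ((p : ℝ) + 1)) *
      ∏ p ∈ (prs (nz 11) P).filter (fun p => ¬ p ∣ DE feD (tp u)),
        (1 - v1 W P0 univ (tp u) p) with hM
    have hV0 : 0 ≤ ∏ l ∈ (prs (nz 11) P).filter (fun l => ¬ l ∣ DE feD (tp u)),
        (1 - v1 W P0 univ (tp u) l) := by
      apply Finset.prod_nonneg
      intro l hl
      have hl1 := (Finset.mem_filter.1 hl).1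
      simp only [prs, Finset.mem_filter, Finset.mem_Ioc] at hl1
      have := v1_mem W hW P0 univ (tp u) hl1.2 (Pool.Agent.AQ.PENK.nz_N hl1.1.1)
      linarith [this.2]
    have hM0 : 0 ≤ M := mul_nonneg (Finset.prod_nonneg fun l _ => by positivity) hV0
    set g : Bas → ℝ := fun R => ∏ p ∈ (prs Pool.Agent.AQ.PENK.FD.N0 P).filter
      (fun p => ¬ p ∣ DE feD (tp u)), ph W P0 univ (tp u) p R with hg
    have hg0 : ∀ R, 0 ≤ g R := fun R =>
      Finset.prod_nonneg fun l _ => (Pool.Agent.PFM.ph_mem W hW P0 univ (tp u) l R).1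
    -- the data of the members of `S`
    have hSd : ∀ q ∈ S, q.1 * q.2.2 - q.2.1 ^ 2 = Pool.Agent.AQ.PENK.FD.D ∧
        (X : ℝ) < (q.1 : ℝ) ∧ (q.1 : ℝ) ≤ 2 ^ n * X ∧ |(q.2.1 : ℝ)| ≤ (|ρ₂| * C1 + 1) * X ∧
        ∀ j ∈ feD, dl (tp u) j ∣ Rf q (tp u j) := by
      intro q hq
      obtain ⟨hq1, hq2⟩ := Finset.mem_filter.1 hq
      unfold AW at hq1
      rw [Finset.mem_filter, Finset.mem_product, Finset.mem_product, Finset.mem_Ioc,
        Finset.mem_Icc, Finset.mem_Icc] at hq1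
      obtain ⟨⟨⟨b1, b2⟩, ⟨b3, b4⟩, ⟨b5, b6⟩⟩, b7, b8⟩ := hq1
      refine ⟨b7.trans fd_D.symm, ?_, ?_, ?_, ?_⟩
      · exact_mod_cast b1
      · have c1 : (q.1 : ℝ) ≤ C1 * X := (Int.cast_le.2 b2).trans (Int.floor_le _)
        have c2 : C1 * (X : ℝ) ≤ 2 ^ n * X := mul_le_mul_of_nonneg_right hn.le hX0.le
        linarith
      · have c1 : (q.2.1 : ℝ) ≤ 0 := by exact_mod_cast (by omega : q.2.1 ≤ 0)
        rw [abs_of_nonpos c1]
        have c2 : -(q.2.1 : ℝ) ≤ ((⌊ρ₂ * C1 * X⌋ : ℤ) : ℝ) := by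
          have : -q.2.1 ≤ ⌊ρ₂ * C1 * X⌋ := by omega
          exact_mod_cast this
        have c3 := Int.floor_le (ρ₂ * C1 * (X : ℝ))
        have c4 : ρ₂ * C1 * (X : ℝ) ≤ |ρ₂| * C1 * X := by
          have := le_abs_self ρ₂
          have h5 : 0 ≤ C1 * (X : ℝ) := by positivity
          nlinarith
        nlinarith
      · intro j hj
        have hj10 : j.val ≠ 10 := fun h => mem_feD.1 hj (Fin.ext h)
        have hlt := j.isLt
        have h6 := (hq2 ⟨j.val, by omega⟩).1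
        have h7 : dE u (j.val + 1) = dn (tp u) j := (dn_dE u j (mem_feD.1 hj)).symm
        have h8 : (⟨j.val, by omega⟩ : Fin 10).castSucc = j := Fin.ext rfl
        rw [h8] at h6
        simp only at h6
        rw [h7] at h6
        unfold dn Pool.Agent.PENK.dn at h6
        exact (Int.natAbs_dvd.1 h6)
    -- one dyadic block
    have hblk : ∀ k ∈ range n, ∑ R ∈ S.filter (fun R => 2 ^ k * (X : ℝ) < (R.1 : ℝ) ∧
        (R.1 : ℝ) ≤ 2 ^ (k + 1) * X), g R ≤ 2 ^ k * (Ca * X * M + (X : ℝ) ^ (1 - δ / 2)) := by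
      intro k _
      have hk1 : (1 : ℝ) ≤ 2 ^ k := one_le_pow₀ one_le_two
      set x : ℝ := 2 ^ k * (X : ℝ) with hx
      have hxX : (X : ℝ) ≤ x := by rw [hx]; nlinarith
      have h5 := H1 x (a4.trans hxX) P0 P hP02 hP1
        (hPX.trans (Real.rpow_le_rpow hX0.le hxX hτ₀.le)) (tp u) hisP
        (hDE.trans (Real.rpow_le_rpow hX0.le hxX (by positivity)))
        (S.filter (fun R => x < (R.1 : ℝ) ∧ (R.1 : ℝ) ≤ 2 ^ (k + 1) * X)) (by
          intro R hR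
          obtain ⟨hR1, hR2, hR3⟩ := Finset.mem_filter.1 hR
          obtain ⟨c1, c2, c3, c4, c5⟩ := hSd R hR1
          refine ⟨c1, hR2, ?_, c4.trans ?_, c5⟩
          · rw [pow_succ] at hR3
            rw [hx]
            linarith
          · exact mul_le_mul_of_nonneg_left hxX (by positivity))
      refine h5.trans ?_
      have h6 : x ^ (1 - δ / 2) ≤ 2 ^ k * (X : ℝ) ^ (1 - δ / 2) := by
        rw [hx, Real.mul_rpow (by positivity) hX0.le]
        apply mul_le_mul_of_nonneg_right _ (Real.rpow_nonneg hX0.le _)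
        calc ((2 : ℝ) ^ k) ^ (1 - δ / 2) ≤ ((2 : ℝ) ^ k) ^ (1 : ℝ) :=
              Real.rpow_le_rpow_of_exponent_le hk1 (by linarith)
          _ = 2 ^ k := Real.rpow_one _
      calc Ca * x * M + x ^ (1 - δ / 2) ≤ Ca * x * M + 2 ^ k * (X : ℝ) ^ (1 - δ / 2) := by
            linarith
        _ = _ := by rw [hx]; ring
    have hsum : ∑ R ∈ S, g R ≤ 2 ^ n * (Ca * X * M + (X : ℝ) ^ (1 - δ / 2)) := by
      have c0 : 0 ≤ Ca * X * M + (X : ℝ) ^ (1 - δ / 2) := by positivity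
      have c1 : ∑ R ∈ S, g R ≤ ∑ k ∈ range n, ∑ R ∈ S.filter (fun R =>
          2 ^ k * (X : ℝ) < (R.1 : ℝ) ∧ (R.1 : ℝ) ≤ 2 ^ (k + 1) * X), g R := by
        have c2 : ∀ R ∈ S, ∃ k ∈ range n, 2 ^ k * (X : ℝ) < (R.1 : ℝ) ∧
            (R.1 : ℝ) ≤ 2 ^ (k + 1) * X := by
          intro R hR
          obtain ⟨_, d2, d3, _⟩ := hSd R hR
          by_contra hne
          push Not at hne
          have d4 : ∀ k : ℕ, k ≤ n → 2 ^ k * (X : ℝ) < (R.1 : ℝ) := by
            intro k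
            induction k with
            | zero => intro _; simpa using d2
            | succ k ih =>
              intro hk
              exact hne k (Finset.mem_range.2 (by omega)) (ih (by omega))
          linarith [d4 n le_rfl]
        calc ∑ R ∈ S, g R ≤ ∑ R ∈ S, ∑ k ∈ range n,
              (if 2 ^ k * (X : ℝ) < (R.1 : ℝ) ∧ (R.1 : ℝ) ≤ 2 ^ (k + 1) * X then g R else 0) := by
              apply Finset.sum_le_sum
              intro R hR
              obtain ⟨k, hk, hk2⟩ := c2 R hR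
              calc g R = (if 2 ^ k * (X : ℝ) < (R.1 : ℝ) ∧
                    (R.1 : ℝ) ≤ 2 ^ (k + 1) * X then g R else 0) := by rw [if_pos hk2]
                _ ≤ _ := Finset.single_le_sum (f := fun k => if 2 ^ k * (X : ℝ) < (R.1 : ℝ) ∧
                    (R.1 : ℝ) ≤ 2 ^ (k + 1) * X then g R else 0) (fun i _ => by
                      split_ifs
                      · exact hg0 R
                      · exact le_rfl) hk
          _ = _ := by
              rw [Finset.sum_comm]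
              apply Finset.sum_congr rfl
              intro k _
              exact (Finset.sum_filter _ _).symm
      refine c1.trans ((Finset.sum_le_sum hblk).trans ?_)
      rw [← Finset.sum_mul]
      apply mul_le_mul_of_nonneg_right _ c0
      have c3 : ∑ k ∈ range n, (2 : ℝ) ^ k = 2 ^ n - 1 := by
        have := geom_sum_eq (by norm_num : (2 : ℝ) ≠ 1) n
        rw [this]; norm_num
      rw [c3]
      linarith
    have hlw0 : 0 ≤ ∏ j ∈ feD, ∏ l ∈ (dn (tp u) j).primeFactors, lw P l (W.al j) := by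
      apply Finset.prod_nonneg; intro j _
      apply Finset.prod_nonneg; intro l _
      unfold lw; split_ifs
      · exact hW.al0 j
      · exact zero_le_one
    have hlw1 : ∏ j ∈ feD, ∏ l ∈ (dn (tp u) j).primeFactors, lw P l (W.al j) ≤ 1 := by
      apply Finset.prod_le_one
      · intro j _
        apply Finset.prod_nonneg; intro l _
        unfold lw; split_ifs
        · exact hW.al0 j
        · exact zero_le_one
      · intro j _
        apply Finset.prod_le_one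
        · intro l _
          unfold lw; split_ifs
          · exact hW.al0 j
          · exact zero_le_one
        · intro l _
          unfold lw; split_ifs
          · have := hW.al1 j; linarith
          · exact le_rfl
    have hvx : vxP W feD univ P0 P (tp u) =
        ∏ l ∈ (prs (nz 11) P).filter (fun l => ¬ l ∣ DE feD (tp u)),
          (1 - v1 W P0 univ (tp u) l) := rfl
    have h2n : (0 : ℝ) ≤ 2 ^ n := by positivity
    calc _ ≤ (∏ j ∈ feD, ∏ l ∈ (dn (tp u) j).primeFactors, lw P l (W.al j)) *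
          (2 ^ n * (Ca * X * M + (X : ℝ) ^ (1 - δ / 2))) :=
          mul_le_mul_of_nonneg_left hsum hlw0
      _ = 2 ^ n * (Ca * X * (((∏ j ∈ feD, ∏ l ∈ (dn (tp u) j).primeFactors, lw P l (W.al j)) *
            (∏ p ∈ (DE feD (tp u)).primeFactors, 2 / ((p : ℝ) + 1))) *
          ∏ p ∈ (prs (nz 11) P).filter (fun p => ¬ p ∣ DE feD (tp u)),
            (1 - v1 W P0 univ (tp u) p)) +
          (∏ j ∈ feD, ∏ l ∈ (dn (tp u) j).primeFactors, lw P l (W.al j)) *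
            (X : ℝ) ^ (1 - δ / 2)) := by
          rw [hM]; ring
      _ ≤ 2 ^ n * (Ca * X * ((∏ j ∈ feD, ∏ l ∈ (dn (tp u) j).primeFactors,
            2 * lw P l (W.al j) / (l : ℝ)) *
          ∏ l ∈ (prs (nz 11) P).filter (fun l => ¬ l ∣ DE feD (tp u)),
            (1 - v1 W P0 univ (tp u) l)) +
          1 * (X : ℝ) ^ (1 - δ / 2)) := by
          have hCX : 0 ≤ Ca * (X : ℝ) := mul_nonneg hCa hX0.le
          exact mul_le_mul_of_nonneg_left (add_le_add (mul_le_mul_of_nonneg_left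
            (mul_le_mul_of_nonneg_right (edge_prod11 hisP W hW) hV0) hCX)
            (mul_le_mul_of_nonneg_right hlw1 (Real.rpow_nonneg hX0.le (1 - δ / 2)))) h2n
      _ = _ := by rw [one_mul, hvx]; rfl
  refine (Finset.sum_le_sum s3).trans ?_
  rw [← Finset.mul_sum, Finset.sum_add_distrib, Finset.sum_const, nsmul_eq_mul, ← Finset.mul_sum]
  have h6 := H3 X (by omega)
  have h7 := HC X (by omega)
  have hL1 : 1 ≤ Real.log X := a3
  have hL0 : 0 < Real.log X := by linarith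
  have h8 : Real.log X ^ (9 + exW feD univ W) ≤ Real.log X ^ e :=
    Real.rpow_le_rpow_of_exponent_le hL1 he
  have h9 : (X : ℝ) ^ (66 * σ) * (X : ℝ) ^ (1 - δ / 2) ≤ 1 * X * Real.log X ^ e := by
    have e1 : (X : ℝ) ^ (66 * σ) * (X : ℝ) ^ (1 - δ / 2) =
        X * (X : ℝ) ^ (66 * σ - δ / 2) := by
      rw [← Real.rpow_add hX0]
      conv_rhs => rw [← Real.rpow_one_add' hX0.le (by intro h; linarith)]
      congr 1; ring
    rw [e1, one_mul]
    apply mul_le_mul_of_nonneg_left _ hX0.le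
    have e2 : (X : ℝ) ^ (66 * σ - δ / 2) ≤ ((X : ℝ) ^ (δ / 4))⁻¹ := by
      rw [← Real.rpow_neg hX0.le]
      exact Real.rpow_le_rpow_of_exponent_le hX1 (by linarith)
    refine e2.trans ?_
    have e3 : Real.log X ^ (-7 : ℝ) ≤ Real.log X ^ e :=
      Real.rpow_le_rpow_of_exponent_le hL1 he7
    refine le_trans ?_ e3
    rw [Real.rpow_neg hL0.le]
    apply inv_anti₀ (Real.rpow_pos_of_pos hL0 _)
    rw [show (7 : ℝ) = ((7 : ℕ) : ℝ) by norm_num, Real.rpow_natCast]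
    exact a2
  have h10 : 0 ≤ (X : ℝ) ^ (1 - δ / 2) := Real.rpow_nonneg hX0.le _
  calc _ ≤ 2 ^ n * (Ca * X * (Cb * Real.log X ^ (9 + exW feD univ W)) +
        (X : ℝ) ^ (66 * σ) * (X : ℝ) ^ (1 - δ / 2)) := by
        apply mul_le_mul_of_nonneg_left _ (by positivity)
        apply add_le_add
        · exact mul_le_mul_of_nonneg_left h6 (by positivity)
        · exact mul_le_mul_of_nonneg_right h7 h10
    _ ≤ 2 ^ n * (Ca * X * (Cb * Real.log X ^ e) + 1 * X * Real.log X ^ e) := by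
        apply mul_le_mul_of_nonneg_left _ (by positivity)
        apply add_le_add _ h9
        exact mul_le_mul_of_nonneg_left (mul_le_mul_of_nonneg_left h8 hCb) (by positivity)
    _ = _ := by ring

theorem WD_ok {η : ℝ} (hη : 0 ≤ η) : (WD η).Ok := Pool.Agent.UPA.WD_ok hη

theorem WN_ok (j : Fin 10) {η : ℝ} (hη : 0 ≤ η) (hη1 : η ≤ 1) : (WN j η).Ok :=
  Pool.Agent.UPA.WN_ok j hη hη1

theorem num_D0 : 9 + exW feD univ (WD 0) = -6 := Pool.Agent.UPA.num_D0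

theorem num_U : 7 + exW feU vqU (WD 0) = -6 := Pool.Agent.UPA.num_U

theorem num_D : 9 + exW feD univ (WD (1 / 100)) ≤ -6 * (1 + 1 / 100) - 3 / 4 * (1 / 100) :=
  Pool.Agent.UPA.num_D

theorem num_N (j : Fin 10) : 9 + exW feD univ (WN j (1 / 100)) ≤ -6 * (1 + 1 / 100) :=
  Pool.Agent.UPA.num_N j

/-- `NZ ≤ P` for large `X` -/
theorem ev_NZ : ∃ X₀ : ℕ, ∀ X ≥ X₀, PENM.NZ ≤ ⌊PP X⌋₊ := by
  have hlog : Tendsto (fun X : ℕ => Real.log (X : ℝ)) atTop atTop :=
    Real.tendsto_log_atTop.comp tendsto_natCast_atTop_atTop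
  have t4 : Tendsto (fun X : ℕ => Real.exp (Real.log (X : ℝ) ^ (1 / 100 : ℝ))) atTop atTop :=
    Real.tendsto_exp_atTop.comp ((tendsto_rpow_atTop (by norm_num)).comp hlog)
  obtain ⟨X₀, h⟩ := eventually_atTop.1 (t4.eventually_ge_atTop (PENM.NZ : ℝ))
  exact ⟨X₀, fun X hX => Nat.le_floor (h X hX)⟩

theorem W_zero {p : Prm 10} {X : ℕ} {q : ℤ × ℤ × ℤ} {u : Vec 10} (h : ¬ GD q u) :
    W p X q u = 0 := by
  unfold Pool.Agent.AQ.NC.W
  rw [if_neg h]

theorem mE10 : mE 10 = 6 := by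
  unfold mE; norm_num

/-- **(DG)** -/
theorem DG_all (C1 : ℝ) (hC1 : 1 ≤ C1) : ∃ τ₀ : ℝ, 0 < τ₀ ∧ ∀ p : Prm 10, p.Ok τ₀ → DG p C1 := by
  classical
  obtain ⟨τa, hτa, Ha⟩ := fmom (WD 0) (WD_ok le_rfl) (e := -6) num_D0.le (by norm_num) hC1
  obtain ⟨τb, hτb, Hb⟩ := fmom (WD (1 / 100)) (WD_ok (by norm_num))
    (e := -6 * (1 + 1 / 100) - 3 / 4 * (1 / 100)) num_D (by norm_num) hC1
  have h0 : 0 < min (min τa τb) (1 / 200) := lt_min (lt_min hτa hτb) (by norm_num)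
  refine ⟨min (min τa τb) (1 / 200), h0, fun p hp => ?_⟩
  have hpa : p.Ok τa := hp.mono h0 (by norm_num) ((min_le_left _ _).trans (min_le_left _ _))
  have hpb : p.Ok τb := hp.mono h0 (by norm_num) ((min_le_left _ _).trans (min_le_right _ _))
  have h2 : min (min τa τb) (1 / 200) ≤ 1 / 200 := min_le_right _ _
  obtain ⟨ta, hta, Ha⟩ := Ha p hpa
  obtain ⟨tb, htb, Hb⟩ := Hb p hpb
  have hpt : 0 < p.ta := hp.ta_pos h0 (by norm_num)
  have ht0 : 0 < min (min ta tb) p.ta := lt_min (lt_min hta htb) hpt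
  set t : ℝ := min (min ta tb) p.ta with ht
  obtain ⟨Ca, hCa, Xa, Ha⟩ := Ha t ht0 ((min_le_left _ _).trans (min_le_left _ _))
  obtain ⟨Cb, hCb, Xb, Hb⟩ := Hb t ht0 ((min_le_left _ _).trans (min_le_right _ _))
  obtain ⟨Xn, Hn⟩ := ev_NZ
  refine ⟨Ca + Cb, 1 / 100, by norm_num, by norm_num, Xa + Xb + Xn + 2, fun X hX => ⟨?_, ?_⟩⟩
  · have h := Ha X (by omega) (fun q u => W p X q u) (fun q hq u hu _ => by
      have h3 := ptw_D hp h2 (t := t) (min_le_right _ _) (by omega : 2 ≤ X)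
        (Hn X (by omega)) hq ((mem_GS hp.c10).1 hu) (η := 0) le_rfl
      rwa [add_zero, Real.rpow_one] at h3) (fun q hq u hu hn => (W_zero hn).le)
    refine h.trans ?_
    rw [mE10]
    have hL : 0 ≤ Real.log X ^ (-6 : ℝ) := Real.rpow_nonneg (Real.log_natCast_nonneg X) _
    have : 0 ≤ Cb * X * Real.log X ^ (-6 : ℝ) := by positivity
    calc _ ≤ Ca * X * Real.log X ^ (-6 : ℝ) + Cb * X * Real.log X ^ (-6 : ℝ) := by linarith
      _ = _ := by ring
  · have h := Hb X (by omega) (fun q u => W p X q u ^ (1 + 1 / 100 : ℝ)) (fun q hq u hu _ =>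
      ptw_D hp h2 (t := t) (min_le_right _ _) (by omega : 2 ≤ X) (Hn X (by omega)) hq
        ((mem_GS hp.c10).1 hu) (η := 1 / 100) (by norm_num)) (fun q hq u hu hn => by
        rw [W_zero hn, Real.zero_rpow (by norm_num)])
    refine h.trans ?_
    rw [mE10]
    have hL : 0 ≤ Real.log X ^ (-6 * (1 + 1 / 100) - 3 / 4 * (1 / 100) : ℝ) :=
      Real.rpow_nonneg (Real.log_natCast_nonneg X) _
    have : 0 ≤ Ca * X * Real.log X ^ (-6 * (1 + 1 / 100) - 3 / 4 * (1 / 100) : ℝ) := by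
      positivity
    calc _ ≤ Cb * X * Real.log X ^ (-6 * (1 + 1 / 100) - 3 / 4 * (1 / 100) : ℝ) +
          Ca * X * Real.log X ^ (-6 * (1 + 1 / 100) - 3 / 4 * (1 / 100) : ℝ) := by linarith
      _ = _ := by ring

theorem ex_min {n : ℕ} (hn : 0 < n) (f : Fin n → ℝ) (hf : ∀ j, 0 < f j) :
    ∃ a : ℝ, 0 < a ∧ ∀ j, a ≤ f j := by
  classical
  have hne : (univ : Finset (Fin n)).Nonempty := ⟨⟨0, hn⟩, Finset.mem_univ _⟩
  refine ⟨univ.inf' hne f, ?_, fun j => Finset.inf'_le _ (Finset.mem_univ j)⟩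
  rw [Finset.lt_inf'_iff]
  exact fun j _ => hf j

/-- **(DGN)** -/
theorem DGN_all (C1 : ℝ) (hC1 : 1 ≤ C1) :
    ∃ τ₀ : ℝ, 0 < τ₀ ∧ ∀ p : Prm 10, p.Ok τ₀ → PENM.DGN p C1 := by
  classical
  have H := fun j : Fin 10 => fmom (WN j (1 / 100)) (WN_ok j (by norm_num) (by norm_num))
    (e := -6 * (1 + 1 / 100)) (num_N j) (by norm_num) hC1
  choose τj hτj Hj using H
  obtain ⟨τm, hτm, hτm'⟩ := ex_min (by norm_num) τj hτj
  have h0 : 0 < min τm (1 / 200) := lt_min hτm (by norm_num)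
  refine ⟨min τm (1 / 200), h0, fun p hp => ?_⟩
  have hpj : ∀ j, p.Ok (τj j) := fun j =>
    hp.mono h0 (by norm_num) ((min_le_left _ _).trans (hτm' j))
  have h2 : min τm (1 / 200) ≤ 1 / 200 := min_le_right _ _
  have H2 := fun j : Fin 10 => Hj j p (hpj j)
  choose tj htj Hj2 using H2
  obtain ⟨tm, htm, htm'⟩ := ex_min (by norm_num) tj htj
  have hpt : 0 < p.ta := hp.ta_pos h0 (by norm_num)
  have ht0 : 0 < min tm p.ta := lt_min htm hpt
  set t : ℝ := min tm p.ta with ht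
  have H3 := fun j : Fin 10 => Hj2 j t ht0 ((min_le_left _ _).trans (htm' j))
  choose Cj hCj Xj Hj3 using H3
  obtain ⟨Xn, Hn⟩ := ev_NZ
  refine ⟨∑ j, Cj j, 1 / 100, by norm_num, by norm_num, ∑ j, Xj j + Xn + 2, fun X hX j => ?_⟩
  have hXj : Xj j ≤ X := by
    have := Finset.single_le_sum (f := Xj) (fun i _ => Nat.zero_le _) (Finset.mem_univ j)
    omega
  have h := Hj3 j X hXj (fun q u => W p X q u * (W p X q u / PENM.nuN p X q u j) ^ (1 / 100 : ℝ))
    (fun q hq u hu _ => ptw_N hp h2 (t := t) (min_le_right _ _) (by omega : 2 ≤ X)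
        (Hn X (by omega)) hq
        ((mem_GS hp.c10).1 hu) j (η := 1 / 100) (by norm_num) (by norm_num))
    (fun q hq u hu hn => by
        rw [W_zero hn, zero_mul])
  refine h.trans ?_
  rw [mE10]
  have hL : 0 ≤ Real.log X ^ (-6 * (1 + 1 / 100) : ℝ) :=
      Real.rpow_nonneg (Real.log_natCast_nonneg X) _
  apply mul_le_mul_of_nonneg_right _ hL
  apply mul_le_mul_of_nonneg_right _ (Nat.cast_nonneg _)
  exact Finset.single_le_sum (f := Cj) (fun i _ => hCj i) (Finset.mem_univ j)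

end Pool.Agent.AQ.UPA
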