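import Pool.Agent.Lib_helper15.AQ.UP.Facts
import Pool.Agent.Lib_helper15.PFMF.F8


/-! AQ (MP_892e4c_nt), block UA4 (helper67, port by helper8): the local facts for the family `cU d0 d9` -/

set_option autoImplicit false

namespace Pool.Agent.AQ.UPA

open Finset Pool.Agent.PENT Pool.Agent.AQ.NC Pool.Agent.AQ.PFM
open Pool.Agent.PENK (PolyK Wts dl mL ich EquiF PerP prs lw L1 Rf)
open Pool.Agent.PFM (DE ph LocS Bo Un f8Z f8_card f8_zsum f8_sum_le f8_sum_ge f8_and f8_ich0 f8_ich1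
  f8_swap f8_ich f8_eq f8_div_le f8_mono)
open Pool.Agent.UPA (tp exW feD feU vqU cs cr FamO LawO edP mem_feD mem_feU mem_vqU)
open Pool.Agent.AQ.PENK (nz)

/-- averaging over one vertex -/
theorem ua4_avg (F : Fin 11 → Finset (ℤ × ℤ)) (v : Fin 11) (f : PolyK 11 → ℝ) :
    ((F v).card : ℝ) * ∑ u ∈ Fintype.piFinset F, f u =
      ∑ u ∈ Fintype.piFinset F, ∑ x ∈ F v, f (Function.update u v x) := by
  rw [← sum_product']
  have e : ((F v).card : ℝ) * ∑ u ∈ Fintype.piFinset F, f u =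
      ∑ z ∈ Fintype.piFinset F ×ˢ F v, f z.1 := by
    rw [sum_product]
    simp only [sum_const, nsmul_eq_mul]
    rw [mul_sum]
  rw [e]
  refine sum_nbij' (fun z => (Function.update z.1 v z.2, z.1 v))
    (fun z => (Function.update z.1 v z.2, z.1 v)) ?_ ?_ ?_ ?_ ?_
  · intro z hz
    rw [mem_product, Fintype.mem_piFinset] at hz
    rw [mem_product, Fintype.mem_piFinset]
    refine ⟨fun i => ?_, hz.1 v⟩
    by_cases hi : i = v
    · subst hi
      simpa using hz.2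
    · simp only [Function.update_of_ne hi]
      exact hz.1 i
  · intro z hz
    rw [mem_product, Fintype.mem_piFinset] at hz
    rw [mem_product, Fintype.mem_piFinset]
    refine ⟨fun i => ?_, hz.1 v⟩
    by_cases hi : i = v
    · subst hi
      simpa using hz.2
    · simp only [Function.update_of_ne hi]
      exact hz.1 i
  · intro z _
    simp
  · intro z _
    simp
  · intro z _
    simp

/-- the probability that a free vertex is zero -/
theorem ua4_P0 {F : Fin 11 → Finset (ℤ × ℤ)} {p : ℕ} {w : Fin 11} (hw : F w = L1 p) :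
    (p : ℝ) ^ 2 * ∑ u ∈ Fintype.piFinset F, ich (f8Z p (u w)) ≤ (Fintype.piFinset F).card := by
  have h := ua4_avg F w (fun u => ich (f8Z p (u w)))
  rw [hw, f8_card] at h
  push_cast at h
  rw [h]
  calc ∑ u ∈ Fintype.piFinset F, ∑ x ∈ L1 p, ich (f8Z p (Function.update u w x w))
      ≤ ∑ _u ∈ Fintype.piFinset F, (1 : ℝ) := by
        refine sum_le_sum fun u _ => ?_
        simp only [Function.update_self]
        exact f8_zsum
    _ = _ := by simp

/-- the probability that two vertices are parallel, `v` free -/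
theorem ua4_P1 {F : Fin 11 → Finset (ℤ × ℤ)} {p : ℕ} (hp : p.Prime) {w v : Fin 11} (hwv : w ≠ v)
    (hv : F v = L1 p)
    (hZ : (p : ℝ) ^ 2 * ∑ u ∈ Fintype.piFinset F, ich (f8Z p (u w)) ≤
      (Fintype.piFinset F).card) :
    (p : ℝ) ^ 2 * ∑ u ∈ Fintype.piFinset F, ich ((p : ℤ) ∣ dt (u w) (u v)) ≤
        2 * p * (Fintype.piFinset F).card ∧
      (p : ℝ) * (Fintype.piFinset F).card ≤
        (p : ℝ) ^ 2 * ∑ u ∈ Fintype.piFinset F, ich ((p : ℤ) ∣ dt (u w) (u v)) := by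
  have h := ua4_avg F v (fun u => ich ((p : ℤ) ∣ dt (u w) (u v)))
  rw [hv, f8_card] at h
  push_cast at h
  rw [h]
  simp only [Function.update_self, Function.update_of_ne hwv]
  have hp1 : (1 : ℝ) ≤ p := by exact_mod_cast hp.one_le
  have hN : (0 : ℝ) ≤ (Fintype.piFinset F).card := Nat.cast_nonneg _
  constructor
  · calc ∑ u ∈ Fintype.piFinset F, ∑ x ∈ L1 p, ich ((p : ℤ) ∣ dt (u w) x)
        ≤ ∑ u ∈ Fintype.piFinset F, ((p : ℝ) + (p : ℝ) ^ 2 * ich (f8Z p (u w))) :=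
          sum_le_sum fun u _ => f8_sum_le hp (u w)
      _ = (Fintype.piFinset F).card * p +
          (p : ℝ) ^ 2 * ∑ u ∈ Fintype.piFinset F, ich (f8Z p (u w)) := by
          rw [sum_add_distrib, sum_const, nsmul_eq_mul, mul_sum]
      _ ≤ (Fintype.piFinset F).card * p + (Fintype.piFinset F).card := by linarith
      _ ≤ 2 * p * (Fintype.piFinset F).card := by nlinarith
  · calc (p : ℝ) * (Fintype.piFinset F).card = ∑ _u ∈ Fintype.piFinset F, (p : ℝ) := by
          rw [sum_const, nsmul_eq_mul]; ring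
      _ ≤ _ := sum_le_sum fun u _ => f8_sum_ge hp (u w)

/-- two edges -/
theorem ua4_P2 {F : Fin 11 → Finset (ℤ × ℤ)} {p : ℕ} (hp : p.Prime) {a b w v : Fin 11}
    (hwv : w ≠ v) (ha : a ≠ v) (hb : b ≠ v) (hv : F v = L1 p)
    (hZ : (p : ℝ) ^ 2 * ∑ u ∈ Fintype.piFinset F, ich (f8Z p (u w)) ≤
      (Fintype.piFinset F).card)
    (h1 : (p : ℝ) ^ 2 * ∑ u ∈ Fintype.piFinset F, ich ((p : ℤ) ∣ dt (u a) (u b)) ≤
        2 * p * (Fintype.piFinset F).card) :
    (p : ℝ) ^ 2 * ∑ u ∈ Fintype.piFinset F,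
        ich ((p : ℤ) ∣ dt (u a) (u b) ∧ (p : ℤ) ∣ dt (u w) (u v)) ≤
      3 * (Fintype.piFinset F).card := by
  have h := ua4_avg F v
    (fun u => ich ((p : ℤ) ∣ dt (u a) (u b) ∧ (p : ℤ) ∣ dt (u w) (u v)))
  rw [hv, f8_card] at h
  push_cast at h
  rw [h]
  simp only [Function.update_self, Function.update_of_ne hwv, Function.update_of_ne ha,
    Function.update_of_ne hb]
  have hp0 : (0 : ℝ) < p := by exact_mod_cast hp.pos
  have h3 : (p : ℝ) * ∑ u ∈ Fintype.piFinset F, ich ((p : ℤ) ∣ dt (u a) (u b)) ≤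
      2 * (Fintype.piFinset F).card := by
    have e : (p : ℝ) * ((p : ℝ) * ∑ u ∈ Fintype.piFinset F, ich ((p : ℤ) ∣ dt (u a) (u b))) ≤
        (p : ℝ) * (2 * (Fintype.piFinset F).card) := by linarith
    exact le_of_mul_le_mul_left e hp0
  calc ∑ u ∈ Fintype.piFinset F, ∑ x ∈ L1 p, ich ((p : ℤ) ∣ dt (u a) (u b) ∧ (p : ℤ) ∣ dt (u w) x)
      = ∑ u ∈ Fintype.piFinset F,
          ich ((p : ℤ) ∣ dt (u a) (u b)) * ∑ x ∈ L1 p, ich ((p : ℤ) ∣ dt (u w) x) := by
        refine sum_congr rfl fun u _ => ?_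
        rw [mul_sum]
        exact sum_congr rfl fun x _ => f8_and _ _
    _ ≤ ∑ u ∈ Fintype.piFinset F,
          (p * ich ((p : ℤ) ∣ dt (u a) (u b)) + (p : ℝ) ^ 2 * ich (f8Z p (u w))) := by
        refine sum_le_sum fun u _ => ?_
        have e1 := f8_sum_le hp (u w)
        have e2 := f8_ich0 ((p : ℤ) ∣ dt (u a) (u b))
        have e3 := f8_ich1 ((p : ℤ) ∣ dt (u a) (u b))
        have e4 := f8_ich0 (f8Z p (u w))
        have e5 : 0 ≤ (p : ℝ) ^ 2 * ich (f8Z p (u w)) := by positivity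
        nlinarith
    _ = p * ∑ u ∈ Fintype.piFinset F, ich ((p : ℤ) ∣ dt (u a) (u b)) +
          (p : ℝ) ^ 2 * ∑ u ∈ Fintype.piFinset F, ich (f8Z p (u w)) := by
        rw [sum_add_distrib, mul_sum, mul_sum]
    _ ≤ 3 * (Fintype.piFinset F).card := by linarith

variable [Cst]

/-- the last vertex -/
noncomputable def ua4m (w : ℤ × ℤ) : ℤ × ℤ := (w.1 * z.1 + w.2 * ws.1, w.1 * z.2 + w.2 * ws.2)

theorem ua4m_inj : Function.Injective ua4m := by
  intro a b h
  unfold ua4m at h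
  rw [Prod.mk.injEq] at h
  obtain ⟨h1, h2⟩ := h
  have hw := ws_det
  unfold dt at hw
  ext
  · linear_combination ws.2 * h1 - ws.1 * h2 - (a.1 - b.1) * hw
  · linear_combination (-z.2) * h1 + z.1 * h2 - (a.2 - b.2) * hw

/-- the components of the law -/
noncomputable def ua4F (d0 d9 p : ℕ) (j : Fin 11) : Finset (ℤ × ℤ) :=
  if j = 9 then (cr (cU d0 d9 j).1 p ×ˢ cr (cU d0 d9 j).2 p).image ua4m
  else cr (cU d0 d9 j).1 p ×ˢ cr (cU d0 d9 j).2 p

theorem ua4_law (d0 d9 p : ℕ) : LawU d0 d9 p = Fintype.piFinset (ua4F d0 d9 p) := by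
  ext u
  unfold LawU LawO
  rw [Finset.mem_image, Fintype.mem_piFinset]
  constructor
  · rintro ⟨w, hw, rfl⟩ j
    rw [Fintype.mem_piFinset] at hw
    unfold ua4F
    by_cases hj : j = 9
    · subst hj
      rw [if_pos rfl, Finset.mem_image]
      exact ⟨w 9, hw 9, by rw [pol9_nine]; rfl⟩
    · rw [if_neg hj, pol9_ne hj]
      exact hw j
  · intro hu
    have h9 := hu 9
    unfold ua4F at h9
    rw [if_pos rfl, Finset.mem_image] at h9
    obtain ⟨w9, hw9, he⟩ := h9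
    refine ⟨Function.update u 9 w9, ?_, ?_⟩
    · rw [Fintype.mem_piFinset]
      intro j
      by_cases hj : j = 9
      · subst hj
        rw [Function.update_self]
        exact hw9
      · rw [Function.update_of_ne hj]
        have := hu j
        unfold ua4F at this
        rwa [if_neg hj] at this
    · funext j
      by_cases hj : j = 9
      · subst hj
        rw [pol9_nine, Function.update_self]
        exact he
      · rw [pol9_ne hj, Function.update_of_ne hj]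

theorem ua4_free {d0 d9 p : ℕ} {v : Fin 11} (h0 : v ≠ 0) (h10 : v ≠ 10) (h1 : v ≠ 1)
    (h9 : v ≠ 9) : ua4F d0 d9 p v = L1 p := by
  unfold ua4F cU
  rw [if_neg h9, if_neg h0, if_neg h10, if_neg h1, if_neg h9]
  rfl

theorem ua4_F1 {d0 d9 p : ℕ} : ua4F d0 d9 p 1 = Ico 0 (p : ℤ) ×ˢ {(d0 : ℤ)} := by
  unfold ua4F cU
  rfl

theorem ua4_F9 {d0 d9 p : ℕ} : ua4F d0 d9 p 9 = (Ico 0 (p : ℤ) ×ˢ {(d9 : ℤ)}).image ua4m := by
  unfold ua4F cU
  rfl

/-- `x = t z + d9 ws` -/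
theorem ua4_mem9 {d0 d9 p : ℕ} {x : ℤ × ℤ} (hx : x ∈ ua4F d0 d9 p 9) :
    ∃ t ∈ Ico 0 (p : ℤ), x = (t * z.1 + (d9 : ℤ) * ws.1, t * z.2 + (d9 : ℤ) * ws.2) := by
  rw [ua4_F9, Finset.mem_image] at hx
  obtain ⟨⟨t, c⟩, h1, rfl⟩ := hx
  rw [mem_product, mem_singleton] at h1
  obtain ⟨h2, h3⟩ := h1
  simp only at h2 h3
  subst h3
  exact ⟨t, h2, rfl⟩

theorem ua4_det9 {d0 d9 p : ℕ} {x : ℤ × ℤ} (hx : x ∈ ua4F d0 d9 p 9) : dt z x = d9 := by
  obtain ⟨t, -, rfl⟩ := ua4_mem9 hx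
  have hw := ws_det
  unfold dt at hw ⊢
  simp only
  linear_combination (d9 : ℤ) * hw

/-- the last vertex is not zero -/
theorem ua4_nz9 {d0 d9 p : ℕ} (h9 : ¬ p ∣ d9) {x : ℤ × ℤ} (hx : x ∈ ua4F d0 d9 p 9) :
    ¬ ((p : ℤ) ∣ x.1 ∧ (p : ℤ) ∣ x.2) := by
  rintro ⟨h1, h2⟩
  have h3 : (p : ℤ) ∣ dt z x := by
    unfold dt
    exact dvd_sub (h2.mul_left _) (h1.mul_left _)
  rw [ua4_det9 hx] at h3
  exact h9 (by exact_mod_cast h3)

theorem ua4_ne {d0 d9 p : ℕ} (hp : p.Prime) : (LawU d0 d9 p).Nonempty := by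
  rw [ua4_law]
  apply Fintype.piFinset_nonempty.2
  intro j
  have hp0 : (0 : ℤ) < p := by exact_mod_cast hp.pos
  have hc : ∀ o : Option ℤ, (cr o p).Nonempty := by
    intro o
    cases o with
    | none => exact ⟨0, mem_Ico.2 ⟨le_rfl, hp0⟩⟩
    | some c => exact ⟨c, mem_singleton_self c⟩
  unfold ua4F
  split_ifs
  · exact ((hc _).product (hc _)).image _
  · exact (hc _).product (hc _)

/-- the vertices `1, …, 9` are rarely zero -/
theorem ua4_Z {d0 d9 p : ℕ} (h0 : ¬ p ∣ d0) (h9 : ¬ p ∣ d9) {w : Fin 11}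
    (hw : w ∈ vqU) :
    (p : ℝ) ^ 2 * ∑ u ∈ Fintype.piFinset (ua4F d0 d9 p), ich (f8Z p (u w)) ≤
      (Fintype.piFinset (ua4F d0 d9 p)).card := by
  have hw' : w ≠ 0 ∧ w ≠ 10 := by
    unfold vqU at hw
    rw [mem_erase, mem_erase] at hw
    exact ⟨hw.1, hw.2.1⟩
  have hN : (0 : ℝ) ≤ (Fintype.piFinset (ua4F d0 d9 p)).card := Nat.cast_nonneg _
  by_cases w1 : w = 1
  · subst w1
    have e : ∑ u ∈ Fintype.piFinset (ua4F d0 d9 p), ich (f8Z p (u 1)) = 0 := by
      apply sum_eq_zero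
      intro u hu
      rw [Fintype.mem_piFinset] at hu
      have h := hu 1
      rw [ua4_F1, mem_product, mem_singleton] at h
      unfold Pool.Agent.PENK.ich
      rw [if_neg]
      rintro ⟨_, hd⟩
      rw [h.2] at hd
      exact h0 (by exact_mod_cast hd)
    rw [e]
    simpa using hN
  · by_cases w9 : w = 9
    · subst w9
      have e : ∑ u ∈ Fintype.piFinset (ua4F d0 d9 p), ich (f8Z p (u 9)) = 0 := by
        apply sum_eq_zero
        intro u hu
        rw [Fintype.mem_piFinset] at hu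
        have h := hu 9
        unfold Pool.Agent.PENK.ich
        rw [if_neg]
        exact ua4_nz9 h9 h
      rw [e]
      simpa using hN
    · exact ua4_P0 (ua4_free hw'.1 hw'.2 w1 w9)

/-- the edges `1, …, 8`: one end is free -/
theorem ua4_edge {d0 d9 p : ℕ} (hp : p.Prime) (h0 : ¬ p ∣ d0) (h9 : ¬ p ∣ d9) {j : Fin 11}
    (hj : j ∈ feU) :
    (p : ℝ) ^ 2 * ∑ u ∈ Fintype.piFinset (ua4F d0 d9 p), ich ((p : ℤ) ∣ dt (u j) (u (j + 1))) ≤
        2 * p * (Fintype.piFinset (ua4F d0 d9 p)).card ∧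
      (p : ℝ) * (Fintype.piFinset (ua4F d0 d9 p)).card ≤ (p : ℝ) ^ 2 *
        ∑ u ∈ Fintype.piFinset (ua4F d0 d9 p), ich ((p : ℤ) ∣ dt (u j) (u (j + 1))) := by
  have hj' : j ≠ 9 ∧ j ≠ 0 ∧ j ≠ 10 := by
    unfold feU at hj
    rw [mem_erase, mem_erase, mem_erase] at hj
    exact ⟨hj.1, hj.2.1, hj.2.2.1⟩
  have hne : ∀ j : Fin 11, j ≠ j + 1 := by decide
  by_cases h8 : j = 8
  · subst h8
    have hv : ua4F d0 d9 p 8 = L1 p := ua4_free (by decide) (by decide) (by decide) (by decide)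
    have hz := ua4_Z (p := p) h0 h9 (w := 9) (by decide)
    have h := ua4_P1 hp (w := 9) (v := 8) (by decide) hv hz
    have e : ∑ u ∈ Fintype.piFinset (ua4F d0 d9 p), ich ((p : ℤ) ∣ dt (u 8) (u (8 + 1))) =
        ∑ u ∈ Fintype.piFinset (ua4F d0 d9 p), ich ((p : ℤ) ∣ dt (u 9) (u 8)) :=
      sum_congr rfl fun u _ => f8_swap p _ _
    rw [e]
    exact h
  · have hd : ∀ j : Fin 11, j ≠ 9 → j ≠ 0 → j ≠ 10 → j ≠ 8 →
        j ∈ vqU ∧ j + 1 ≠ 0 ∧ j + 1 ≠ 10 ∧ j + 1 ≠ 1 ∧ j + 1 ≠ 9 := by decide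
    obtain ⟨a1, a2, a3, a4, a5⟩ := hd j hj'.1 hj'.2.1 hj'.2.2 h8
    exact ua4_P1 hp (hne j) (ua4_free a2 a3 a4 a5) (ua4_Z h0 h9 a1)

theorem ua4_two {d0 d9 p : ℕ} (hp : p.Prime) (h0 : ¬ p ∣ d0) (h9 : ¬ p ∣ d9) {i j : Fin 11}
    (hi : i ∈ feU) (hj : j ∈ feU) (hij : i.val < j.val) :
    (p : ℝ) ^ 2 * ∑ u ∈ Fintype.piFinset (ua4F d0 d9 p),
      ich ((p : ℤ) ∣ dt (u i) (u (i + 1)) ∧ (p : ℤ) ∣ dt (u j) (u (j + 1))) ≤
        3 * (Fintype.piFinset (ua4F d0 d9 p)).card := by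
  by_cases h8 : j = 8
  · subst h8
    have hv8 : ua4F d0 d9 p 8 = L1 p := ua4_free (by decide) (by decide) (by decide) (by decide)
    have hv7 : ua4F d0 d9 p 7 = L1 p := ua4_free (by decide) (by decide) (by decide) (by decide)
    by_cases h7 : i = 7
    · subst h7
      -- the vertex `7` is free and not on the edge `8`
      have h := ua4_P2 hp (a := 8) (b := 9) (w := 8) (v := 7) (by decide) (by decide)
        (by decide) hv7 (ua4_Z (p := p) h0 h9 (w := 8) (by decide)) (ua4_edge hp h0 h9 (j := 8)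
        (by decide)).1
      refine le_trans (le_of_eq ?_) h
      congr 1
      refine sum_congr rfl fun u _ => ?_
      rw [f8_and, f8_and, mul_comm]
      congr 1
      exact f8_swap p _ _
    · have hd : ∀ i : Fin 11, i ∈ feU → i.val < (8 : Fin 11).val → i ≠ 7 → i ≠ 8 ∧ i + 1 ≠ 8 := by
        decide
      obtain ⟨a1, a2⟩ := hd i hi hij h7
      have h := ua4_P2 hp (a := i) (b := i + 1) (w := 9) (v := 8) (by decide) a1 a2 hv8
        (ua4_Z (p := p) h0 h9 (w := 9) (by decide)) (ua4_edge hp h0 h9 hi).1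
      refine le_trans (le_of_eq ?_) h
      congr 1
      refine sum_congr rfl fun u _ => ?_
      rw [f8_and, f8_and]
      congr 1
      exact f8_swap p _ _
  · have hd : ∀ i j : Fin 11, i ∈ feU → j ∈ feU → i.val < j.val → j ≠ 8 →
        j ∈ vqU ∧ j + 1 ≠ 0 ∧ j + 1 ≠ 10 ∧ j + 1 ≠ 1 ∧ j + 1 ≠ 9 ∧ j ≠ j + 1 ∧ i ≠ j + 1 ∧
          i + 1 ≠ j + 1 := by decide
    obtain ⟨a1, a2, a3, a4, a5, a6, a7, a8⟩ := hd i j hi hj hij h8
    exact ua4_P2 hp a6 a7 a8 (ua4_free a2 a3 a4 a5) (ua4_Z h0 h9 a1) (ua4_edge hp h0 h9 hi).1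

/-- the vertices `1` and `9` -/
theorem ua4_19 {d0 d9 p : ℕ} (hp : p.Prime) (h0 : ¬ p ∣ d0) (h9 : ¬ p ∣ d9) :
    (p : ℝ) * ∑ u ∈ Fintype.piFinset (ua4F d0 d9 p), ich ((p : ℤ) ∣ dt (u 1) (u 9)) ≤
      (Fintype.piFinset (ua4F d0 d9 p)).card := by
  classical
  have hpp : Prime (p : ℤ) := Nat.prime_iff_prime_int.mp hp
  have h := ua4_avg (ua4F d0 d9 p) 9 (fun u => ich ((p : ℤ) ∣ dt (u 1) (u 9)))
  have hc : (ua4F d0 d9 p 9).card = p := by
    rw [ua4_F9, card_image_of_injective _ ua4m_inj, card_product, card_singleton, Int.card_Ico]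
    simp
  rw [hc] at h
  rw [h]
  have hne : (1 : Fin 11) ≠ 9 := by decide
  simp only [Function.update_self, Function.update_of_ne hne]
  calc ∑ u ∈ Fintype.piFinset (ua4F d0 d9 p), ∑ x ∈ ua4F d0 d9 p 9, ich ((p : ℤ) ∣ dt (u 1) x)
      ≤ ∑ _u ∈ Fintype.piFinset (ua4F d0 d9 p), (1 : ℝ) := by
        refine sum_le_sum fun u hu => ?_
        rw [f8_ich]
        have hc1 : ((ua4F d0 d9 p 9).filter (fun x => (p : ℤ) ∣ dt (u 1) x)).card ≤ 1 := by
          rw [card_le_one]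
          intro x hx y hy
          rw [mem_filter] at hx hy
          rw [Fintype.mem_piFinset] at hu
          have hu1 := hu 1
          rw [ua4_F1, mem_product, mem_singleton] at hu1
          obtain ⟨t, ht, hxt⟩ := ua4_mem9 hx.1
          obtain ⟨t', ht', hyt⟩ := ua4_mem9 hy.1
          have e2 : (p : ℤ) ∣ dt (u 1) z * (t - t') := by
            have : dt (u 1) z * (t - t') = dt (u 1) x - dt (u 1) y := by
              rw [hxt, hyt]
              unfold dt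
              ring
            rw [this]
            exact dvd_sub hx.2 hy.2
          have e3 : ¬ (p : ℤ) ∣ dt (u 1) z := by
            intro hd
            have e4 : (p : ℤ) ∣ (d9 : ℤ) * dt (u 1) ws := by
              have : (d9 : ℤ) * dt (u 1) ws = dt (u 1) x - t * dt (u 1) z := by
                rw [hxt]
                unfold dt
                ring
              rw [this]
              exact dvd_sub hx.2 (hd.mul_left _)
            rcases hpp.dvd_or_dvd e4 with h' | h'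
            · exact h9 (by exact_mod_cast h')
            · have hv := congrArg Prod.snd (vec_ws (u 1))
              simp only at hv
              have e5 : (p : ℤ) ∣ (u 1).2 := by
                rw [hv]
                refine dvd_add (h'.mul_right _) (Dvd.dvd.mul_right ?_ _)
                have : dt z (u 1) = - dt (u 1) z := by unfold dt; ring
                rw [this]
                exact (dvd_neg).2 hd
              rw [hu1.2] at e5
              exact h0 (by exact_mod_cast e5)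
          have e5 := (hpp.dvd_or_dvd e2).resolve_left e3
          have e6 := f8_eq (mem_Ico.1 ht) (mem_Ico.1 ht') e5
          rw [hxt, hyt, e6]
        exact_mod_cast hc1
    _ = _ := by simp

/-- block UA4: the local facts for the family `LawU d0 d9`: `u_1 = (x, d0)`, `u_9 = t z + d9 ws`,
`p ∤ d0 d9` -/
theorem locU_pr : ∃ C : ℝ, 0 ≤ C ∧ ∀ p d0 d9 : ℕ, p.Prime → PENM.NZ < p → ¬ p ∣ d0 → ¬ p ∣ d9 →
    LocS feU vqU p (LawU d0 d9 p) C := by
  refine ⟨3, by norm_num, ?_⟩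
  intro p d0 d9 hp _ h0 h9
  have hp0 : (0 : ℝ) < p := by exact_mod_cast hp.pos
  have hne := ua4_ne (d0 := d0) (d9 := d9) hp
  rw [ua4_law] at hne ⊢
  have hN : (0 : ℝ) < (Fintype.piFinset (ua4F d0 d9 p)).card := by
    exact_mod_cast hne.card_pos
  have hpar : ∀ w v : Fin 11, w ≠ v → w ∈ vqU → v ≠ 0 → v ≠ 10 → v ≠ 1 → v ≠ 9 →
      (p : ℝ) ^ 2 * ∑ u ∈ Fintype.piFinset (ua4F d0 d9 p), ich ((p : ℤ) ∣ dt (u w) (u v)) ≤
        2 * p * (Fintype.piFinset (ua4F d0 d9 p)).card := fun w v hwv hw a b c d =>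
    (ua4_P1 hp hwv (ua4_free a b c d) (ua4_Z h0 h9 hw)).1
  refine ⟨hne, ?_, ?_, ?_, ?_, ?_⟩
  · intro j hj
    have h := (ua4_edge hp h0 h9 hj).2
    have h1 : 1 / (p : ℝ) ≤ mL (Fintype.piFinset (ua4F d0 d9 p)) (fun u => ich ((p : ℤ) ∣ dl u j)) := by
      unfold Pool.Agent.PENK.mL Pool.Agent.PENK.dl
      rw [div_le_div_iff₀ hp0 hN]
      have h2 : (p : ℝ) * (1 * (Fintype.piFinset (ua4F d0 d9 p)).card) ≤
          (p : ℝ) * ((∑ u ∈ Fintype.piFinset (ua4F d0 d9 p),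
            ich ((p : ℤ) ∣ dt (u j) (u (j + 1)))) * p) := by
        linarith
      exact le_of_mul_le_mul_left h2 hp0
    have h3 : (0 : ℝ) ≤ 3 / (p : ℝ) ^ 2 := by positivity
    linarith
  · intro j hj
    have h := (ua4_edge hp h0 h9 hj).1
    have h1 := f8_div_le (K := 2) hp hN 1 (by rw [pow_one]; exact h) (by norm_num)
    have h2 : (2 : ℝ) / (p : ℝ) ^ (2 - 1) ≤ 3 / p := by
      rw [show 2 - 1 = 1 from rfl, pow_one]
      gcongr
      norm_num
    exact h1.trans h2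
  · intro i hi j hj hij
    rcases Nat.lt_or_ge i.val j.val with hlt | hge
    · exact f8_div_le hp hN 0 (by rw [pow_zero, mul_one]; exact ua4_two hp h0 h9 hi hj hlt)
        (by norm_num)
    · have hlt : j.val < i.val := lt_of_le_of_ne hge fun h => hij (Fin.ext h.symm)
      have h := ua4_two hp h0 h9 hj hi hlt
      have h' : (p : ℝ) ^ 2 * ∑ u ∈ Fintype.piFinset (ua4F d0 d9 p),
          ich ((p : ℤ) ∣ dl u i ∧ (p : ℤ) ∣ dl u j) ≤
          3 * (p : ℝ) ^ 0 * (Fintype.piFinset (ua4F d0 d9 p)).card := by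
        rw [pow_zero, mul_one]
        refine le_trans (le_of_eq ?_) h
        congr 1
        refine sum_congr rfl fun u _ => ?_
        rw [f8_and, f8_and, mul_comm]
        rfl
      exact f8_div_le hp hN 0 h' (by norm_num)
  · intro u hu h i hi hz
    have hd : ∀ i : Fin 11, i ∈ vqU → i ∈ feU ∨ i = 9 := by decide
    rcases hd i hi with hi' | hi'
    · exact h i hi' (dvd_sub (hz.1.mul_right _) (hz.2.mul_right _))
    · subst hi'
      rw [Fintype.mem_piFinset] at hu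
      exact ua4_nz9 h9 (hu 9) hz
  · intro i hi j hj hij
    have h0' : (p : ℝ) ^ 2 * ∑ u ∈ Fintype.piFinset (ua4F d0 d9 p),
        ich ((p : ℤ) ∣ dt (u i) (u j)) ≤ 2 * p * (Fintype.piFinset (ua4F d0 d9 p)).card := by
      have hsw : ∀ a b : Fin 11, ∑ u ∈ Fintype.piFinset (ua4F d0 d9 p),
          ich ((p : ℤ) ∣ dt (u a) (u b)) = ∑ u ∈ Fintype.piFinset (ua4F d0 d9 p),
          ich ((p : ℤ) ∣ dt (u b) (u a)) := fun a b =>
        sum_congr rfl fun u _ => f8_swap p _ _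
      have h19 : (p : ℝ) ^ 2 * ∑ u ∈ Fintype.piFinset (ua4F d0 d9 p),
          ich ((p : ℤ) ∣ dt (u 1) (u 9)) ≤ 2 * p * (Fintype.piFinset (ua4F d0 d9 p)).card := by
        have h := ua4_19 hp h0 h9
        have h2 := mul_le_mul_of_nonneg_left h hp0.le
        have h3 : (p : ℝ) * (Fintype.piFinset (ua4F d0 d9 p)).card ≤
            2 * p * (Fintype.piFinset (ua4F d0 d9 p)).card := by
          have : 0 ≤ (p : ℝ) * (Fintype.piFinset (ua4F d0 d9 p)).card := by positivity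
          linarith
        calc _ = (p : ℝ) * ((p : ℝ) * ∑ u ∈ Fintype.piFinset (ua4F d0 d9 p),
              ich ((p : ℤ) ∣ dt (u 1) (u 9))) := by ring
          _ ≤ _ := h2
          _ ≤ _ := h3
      have hd : ∀ i j : Fin 11, i ∈ vqU → j ∈ vqU → i ≠ j →
          (j ≠ 0 ∧ j ≠ 10 ∧ j ≠ 1 ∧ j ≠ 9) ∨ (i ≠ 0 ∧ i ≠ 10 ∧ i ≠ 1 ∧ i ≠ 9) ∨
            (i = 1 ∧ j = 9) ∨ (i = 9 ∧ j = 1) := by decide
      rcases hd i j hi hj hij with h | h | h | h
      · exact hpar i j hij hi h.1 h.2.1 h.2.2.1 h.2.2.2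
      · rw [hsw]
        exact hpar j i hij.symm hj h.1 h.2.1 h.2.2.1 h.2.2.2
      · rw [h.1, h.2]
        exact h19
      · rw [h.1, h.2, hsw]
        exact h19
    have h2 : (p : ℝ) ^ 2 * ∑ u ∈ Fintype.piFinset (ua4F d0 d9 p), ich ((∀ j ∈ feU,
        ¬ (p : ℤ) ∣ dl u j) ∧ (p : ℤ) ∣ dt (u i) (u j)) ≤
        2 * (p : ℝ) ^ 1 * (Fintype.piFinset (ua4F d0 d9 p)).card := by
      rw [pow_one]
      refine le_trans ?_ h0'
      gcongr with u _
      exact f8_mono fun h => h.2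
    have h1 := f8_div_le (K := 2) hp hN 1 h2 (by norm_num)
    have h3 : (2 : ℝ) / (p : ℝ) ^ (2 - 1) ≤ 3 / p := by
      rw [show 2 - 1 = 1 from rfl, pow_one]
      gcongr
      norm_num
    exact h1.trans h3

end Pool.Agent.AQ.UPA

namespace Pool.Agent.AQ.UPA

theorem locU : type_of% @locU_pr := @locU_pr

end Pool.Agent.AQ.UPA
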