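import Pool.Agent.Lib_helper15.AQ.UP.Facts
import Pool.Agent.Lib_helper15.PFMF.F11
import Pool.Agent.Lib_helper15.UPAF.UA1
import Pool.Agent.Lib_helper15.UPAF.UA5
import Pool.Agent.Lib_helper15.AQ.PFMF.F3
import Pool.Agent.Lib_helper15.AQ.PFMF.F6
import Pool.Agent.Lib_helper15.AQ.UPAF.UA2
import Pool.Agent.Lib_helper15.AQ.UPAF.UA4


/-!
# AQ (MP_892e4c_nt), first moments for the paths: block UA7 (helper98, port by helper8)
-/

set_option autoImplicit false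

namespace Pool.Agent.AQ.UPA

open Finset Pool.Agent.PENT Pool.Agent.AQ.NC Pool.Agent.AQ.PFM
open Pool.Agent.PENK (PolyK Wts dl mL ich EquiF PerP prs lw L1 Rf)
open Pool.Agent.PFM (DE ph LocS Bo Un f11_ev f11_log)
open Pool.Agent.UPA (tp exW feD feU vqU cs cr FamO LawO edP mem_feD mem_feU mem_vqU fam_equi_pr
  equi_filter_pr)
open Pool.Agent.AQ.PENK (nz)

variable [Cst]

/-! ### counting modulo `l` -/

theorem ua7_one {l : ℕ} (hl : l.Prime) {a : ℤ} (ha : ¬ (l : ℤ) ∣ a) (b : ℤ) :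
    ((Ico 0 (l : ℤ)).filter (fun x => (l : ℤ) ∣ a * x - b)).card = 1 := by
  have hl0 : (0 : ℤ) < l := by exact_mod_cast hl.pos
  have hco : IsCoprime (l : ℤ) a :=
    (Prime.coprime_iff_not_dvd (Nat.prime_iff_prime_int.1 hl)).2 ha
  obtain ⟨y, z, hyz⟩ := hco
  rw [Finset.card_eq_one]
  refine ⟨(z * b) % l, ?_⟩
  ext x
  rw [mem_filter, mem_Ico, mem_singleton]
  constructor
  · rintro ⟨⟨h1, h2⟩, h3⟩
    have h4 : x % l = (z * b) % l := by
      apply Int.emod_eq_emod_iff_emod_sub_eq_zero.2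
      apply Int.emod_eq_zero_of_dvd
      have : x - z * b = (y * x) * l + z * (a * x - b) := by linear_combination (-x) * hyz
      rw [this]
      exact dvd_add (dvd_mul_left _ _) (h3.mul_left z)
    rwa [Int.emod_eq_of_lt h1 h2] at h4
  · rintro rfl
    refine ⟨⟨Int.emod_nonneg _ hl0.ne', Int.emod_lt_of_pos _ hl0⟩, ?_⟩
    have h1 : (l : ℤ) ∣ z * b - (z * b) % l :=
      ⟨(z * b) / l, by linarith [Int.emod_add_mul_ediv (z * b) l]⟩
    have h2 : a * ((z * b) % l) - b = -(a * (z * b - (z * b) % l)) - (y * b) * l := by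
      linear_combination b * hyz
    rw [h2]
    exact dvd_sub ((h1.mul_left a).neg_right) (dvd_mul_left _ _)

theorem ua7_two {l : ℕ} (hl : l.Prime) {v : ℤ × ℤ} (hv : ¬ ((l : ℤ) ∣ v.1 ∧ (l : ℤ) ∣ v.2)) :
    ((Ico 0 (l : ℤ) ×ˢ Ico 0 (l : ℤ)).filter (fun w : ℤ × ℤ => (l : ℤ) ∣ dt v w)).card = l := by
  have hc : (Ico 0 (l : ℤ)).card = l := by simp
  rw [Finset.card_filter, Finset.sum_product]
  by_cases h1 : (l : ℤ) ∣ v.1
  · have h2 : ¬ (l : ℤ) ∣ v.2 := fun h => hv ⟨h1, h⟩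
    rw [Finset.sum_comm]
    have h3 : ∀ y ∈ Ico 0 (l : ℤ), (∑ x ∈ Ico 0 (l : ℤ), if (l : ℤ) ∣ dt v (x, y) then 1 else 0) = 1 := by
      intro y _
      rw [← Finset.card_filter]
      rw [← ua7_one hl h2 (v.1 * y)]
      congr 1
      apply Finset.filter_congr
      intro x _
      show (l : ℤ) ∣ v.1 * y - v.2 * x ↔ _
      exact dvd_sub_comm
    rw [Finset.sum_congr rfl h3, Finset.sum_const, hc, smul_eq_mul, mul_one]
  · have h3 : ∀ x ∈ Ico 0 (l : ℤ), (∑ y ∈ Ico 0 (l : ℤ), if (l : ℤ) ∣ dt v (x, y) then 1 else 0) = 1 := by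
      intro x _
      rw [← Finset.card_filter]
      rw [← ua7_one hl h1 (v.2 * x)]
      rfl
    rw [Finset.sum_congr rfl h3, Finset.sum_const, hc, smul_eq_mul, mul_one]

theorem ua7_sum {ι α : Type} [Fintype ι] [DecidableEq ι] (box : ι → Finset α) (i : ι)
    (h : α → ℝ) : ∑ u ∈ Fintype.piFinset box, h (u i) =
      (∑ x ∈ box i, h x) * ∏ j ∈ univ.erase i, ((box j).card : ℝ) := by
  have h1 := Finset.prod_univ_sum box (fun j x => if j = i then h x else 1)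
  have h2 : ∀ u : ι → α, (∏ j, if j = i then h (u j) else 1) = h (u i) := by
    intro u
    rw [Finset.prod_ite_eq' univ i (fun j => h (u j)), if_pos (mem_univ i)]
  simp only [h2] at h1
  rw [← h1, ← Finset.mul_prod_erase univ _ (mem_univ i)]
  simp only [if_true]
  congr 1
  apply Finset.prod_congr rfl
  intro j hj
  rw [Finset.mem_erase] at hj
  simp only [if_neg hj.1, Finset.sum_const, nsmul_eq_mul, mul_one]

theorem ua7_mean {ι α : Type} [Fintype ι] [DecidableEq ι] (box : ι → Finset α) (i : ι)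
    (h : α → ℝ) (hne : ∀ j, (box j).Nonempty) : (∑ u ∈ Fintype.piFinset box, h (u i)) /
      ((Fintype.piFinset box).card : ℝ) = (∑ x ∈ box i, h x) / (box i).card := by
  rw [ua7_sum, Fintype.card_piFinset, Nat.cast_prod,
    ← Finset.mul_prod_erase univ (fun j => ((box j).card : ℝ)) (mem_univ i)]
  apply mul_div_mul_right
  apply Finset.prod_ne_zero_iff.2
  intro j _
  exact_mod_cast (Finset.card_pos.2 (hne j)).ne'

theorem ua7_ich {α : Type} (s : Finset α) (q : α → Prop) [DecidablePred q] :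
    ∑ x ∈ s, ich (q x) = ((s.filter q).card : ℝ) := by
  rw [Finset.card_filter, Nat.cast_sum]
  apply Finset.sum_congr rfl
  intro x _
  unfold Pool.Agent.PENK.ich
  split_ifs <;> simp

theorem ua7_cr_ne (o : Option ℤ) {l : ℕ} (hl : 0 < l) : (cr o l).Nonempty := by
  cases o with
  | none => exact ⟨0, by unfold cr; rw [mem_Ico]; exact ⟨le_refl _, by exact_mod_cast hl⟩⟩
  | some c => exact ⟨c, by unfold cr; exact mem_singleton_self c⟩

theorem ua7_dvd_mul_sub {l : ℕ} {a b x : ℤ} : ((l : ℤ) ∣ x * a + b) ↔ (l : ℤ) ∣ a * x - (-b) := by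
  rw [show a * x - (-b) = x * a + b by ring]

theorem ua7_mu {l : ℕ} (hl : l.Prime) {d0 d9 : ℕ} {i : Fin 11} (hi1 : 1 ≤ i.val)
    (hi9 : i.val ≤ 9) {v : ℤ × ℤ} (hv : ¬ ((l : ℤ) ∣ v.1 ∧ (l : ℤ) ∣ v.2))
    (h1 : i.val = 1 → ¬ (l : ℤ) ∣ v.2) (h9 : i.val = 9 → ¬ (l : ℤ) ∣ dt v z) :
    mL (LawU d0 d9 l) (fun u => ich ((l : ℤ) ∣ dt v (u i))) = 1 / (l : ℝ) := by
  classical
  have hl0 : (l : ℝ) ≠ 0 := by exact_mod_cast hl.pos.ne'
  have hc : (Ico 0 (l : ℤ)).card = l := by simp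
  rw [mL_LawU]
  by_cases e9 : i.val = 9
  · have hi : i = 9 := Fin.ext e9
    subst hi
    have hpt : (fun u : PolyK 11 => ich ((l : ℤ) ∣ dt v (pol9 u 9))) =
        fun u : PolyK 11 => ich ((l : ℤ) ∣ (u 9).1 * dt v z + (u 9).2 * dt v ws) := by
      funext u
      have e : dt v (pol9 u 9) = (u 9).1 * dt v z + (u 9).2 * dt v ws := by
        rw [pol9_nine]; unfold dt; simp only; ring
      simp only [e]
    rw [hpt]
    unfold Pool.Agent.PENK.mL LawO
    rw [ua7_mean _ 9 (fun w : ℤ × ℤ => ich ((l : ℤ) ∣ w.1 * dt v z + w.2 * dt v ws)) (fun j =>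
      (ua7_cr_ne _ hl.pos).product (ua7_cr_ne _ hl.pos)), ua7_ich, Finset.card_product]
    have hb : cU d0 d9 9 = (none, some (d9 : ℤ)) := by unfold cU; simp [Fin.ext_iff]
    rw [hb]
    show ((((Ico 0 (l : ℤ)) ×ˢ ({(d9 : ℤ)} : Finset ℤ)).filter
      (fun w : ℤ × ℤ => (l : ℤ) ∣ w.1 * dt v z + w.2 * dt v ws)).card : ℝ) /
        (((Ico 0 (l : ℤ)).card * ({(d9 : ℤ)} : Finset ℤ).card : ℕ) : ℝ) = _
    rw [hc, Finset.card_singleton, mul_one, Finset.card_filter, Finset.sum_product]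
    simp only [Finset.sum_singleton]
    rw [← Finset.card_filter]
    have h2 := ua7_one hl (h9 e9) (-((d9 : ℤ) * dt v ws))
    have h3 : (Ico 0 (l : ℤ)).filter (fun x => (l : ℤ) ∣ x * dt v z + (d9 : ℤ) * dt v ws) =
        (Ico 0 (l : ℤ)).filter (fun x => (l : ℤ) ∣ dt v z * x - (-((d9 : ℤ) * dt v ws))) := by
      apply Finset.filter_congr
      intro x _
      exact ua7_dvd_mul_sub
    rw [h3, h2, Nat.cast_one]
  · have hi : i ≠ 9 := fun h => e9 (by rw [h]; rfl)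
    have hpt : (fun u : PolyK 11 => ich ((l : ℤ) ∣ dt v (pol9 u i))) =
        fun u : PolyK 11 => ich ((l : ℤ) ∣ dt v (u i)) := by
      funext u
      rw [pol9_ne hi]
    rw [hpt]
    unfold Pool.Agent.PENK.mL LawO
    rw [ua7_mean _ i (fun w => ich ((l : ℤ) ∣ dt v w)) (fun j =>
      (ua7_cr_ne _ hl.pos).product (ua7_cr_ne _ hl.pos)), ua7_ich, Finset.card_product]
    by_cases e1 : i.val = 1
    · have hi : i = 1 := Fin.ext e1
      subst hi
      have hb : cU d0 d9 1 = (none, some (d0 : ℤ)) := by unfold cU; simp [Fin.ext_iff]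
      rw [hb]
      show ((((Ico 0 (l : ℤ)) ×ˢ ({(d0 : ℤ)} : Finset ℤ)).filter
        (fun w : ℤ × ℤ => (l : ℤ) ∣ dt v w)).card : ℝ) /
          (((Ico 0 (l : ℤ)).card * ({(d0 : ℤ)} : Finset ℤ).card : ℕ) : ℝ) = _
      rw [hc, Finset.card_singleton, mul_one, Finset.card_filter, Finset.sum_product]
      simp only [Finset.sum_singleton]
      rw [← Finset.card_filter]
      have h2 := ua7_one hl (h1 e1) (v.1 * d0)
      have h3 : (Ico 0 (l : ℤ)).filter (fun x => (l : ℤ) ∣ dt v (x, (d0 : ℤ))) =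
          (Ico 0 (l : ℤ)).filter (fun x => (l : ℤ) ∣ v.2 * x - v.1 * d0) := by
        apply Finset.filter_congr
        intro x _
        exact dvd_sub_comm
      rw [h3, h2, Nat.cast_one]
    · have hb : cU d0 d9 i = (none, none) := by
        unfold cU
        have a0 : i ≠ 0 := fun h => by rw [h] at hi1; exact absurd hi1 (by decide)
        have a1 : i ≠ 1 := fun h => e1 (by rw [h]; rfl)
        have a9 : i ≠ 9 := fun h => e9 (by rw [h]; rfl)
        have a10 : i ≠ 10 := fun h => by rw [h] at hi9; exact absurd hi9 (by decide)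
        rw [if_neg a0, if_neg a10, if_neg a1, if_neg a9]
      rw [hb]
      show ((((Ico 0 (l : ℤ)) ×ˢ (Ico 0 (l : ℤ))).filter
        (fun w : ℤ × ℤ => (l : ℤ) ∣ dt v w)).card : ℝ) /
          (((Ico 0 (l : ℤ)).card * (Ico 0 (l : ℤ)).card : ℕ) : ℝ) = _
      rw [ua7_two hl hv, hc]
      push_cast
      field_simp

/-! ### the paths -/

theorem ua7_u1 {p : Prm 10} {X : ℕ} {u : Vec 10} (h : GP p X u) :
    (u (1 : Fin 11)).2 = ((fE u).1 : ℤ) := (gp_u1 h).1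

theorem ua7_u9 {p : Prm 10} {X : ℕ} (hc : 0 < p.c1) {u : Vec 10} (h : GP p X u) :
    dt z (u (9 : Fin 11)) = ((fE u).2 : ℤ) := gp_u9 hc h

theorem ua7_nmz : (1 : ℝ) ≤ (nm z : ℝ) := by exact_mod_cast nm_z_pos

theorem ua7_up1 {p : Prm 10} {X : ℕ} {u : Vec 10} (h : GP p X u) :
    p.c1 * (nm (u (1 : Fin 11)) : ℝ) ≤ ((fE u).1 : ℝ) := by
  have h0 : u (0 : Fin 11) = (1, 0) := h.first
  have h1 := gp_dn_ge h (0 : Fin 11) (by decide)
  rw [dn_dE u 0 (by decide)] at h1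
  have h3 : nm (1, 0) = 1 := by unfold nm; norm_num
  rw [h0, h3, Int.cast_one, one_mul] at h1
  exact h1

theorem ua7_up9 {p : Prm 10} {X : ℕ} (hc : 0 < p.c1) {u : Vec 10} (h : GP p X u) :
    p.c1 * (nm (u (9 : Fin 11)) : ℝ) ≤ ((fE u).2 : ℝ) := by
  have h0 : u (10 : Fin 11) = z := h.last
  have h1 := gp_dn_ge h (9 : Fin 11) (by decide)
  rw [dn_dE u 9 (by decide)] at h1
  have e : ((9 : Fin 11) + 1 : Fin 11) = 10 := by decide
  rw [e, h0] at h1
  have h2 : (1 : ℝ) ≤ (nm (u (9 : Fin 11)) : ℝ) := by exact_mod_cast nm_pos h (9 : Fin 11)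
  have h3 := ua7_nmz
  have h4 : (nm (u (9 : Fin 11)) : ℝ) ≤ (nm (u (9 : Fin 11)) : ℝ) * (nm z : ℝ) := by nlinarith
  exact (mul_le_mul_of_nonneg_left h4 hc.le).trans h1

theorem ua7_pos {p : Prm 10} {X : ℕ} {u : Vec 10} (h : GP p X u) {j : Fin 11}
    (h1 : 1 ≤ j.val) (h9 : j.val ≤ 9) : 0 < (u j).1 ∧ 0 < (u j).2 :=
  h.pos j h1 (by omega)

/-- the dyadic sizes -/
def ua7_sz (u : Vec 10) (j : Fin 11) : ℕ :=
  if 2 ≤ j.val ∧ j.val ≤ 8 then Nat.log 2 (nm (u j)).toNat else 0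

theorem ua7_sz_lo {p : Prm 10} {X : ℕ} {u : Vec 10} (h : GP p X u) {j : Fin 11}
    (h2 : 2 ≤ j.val) (h8 : j.val ≤ 8) : (2 : ℝ) ^ ua7_sz u j ≤ (nm (u j) : ℝ) := by
  obtain ⟨a, b⟩ := ua7_pos h (j := j) (by omega) (by omega)
  unfold ua7_sz
  rw [if_pos ⟨h2, h8⟩]
  have h3 : 2 ^ Nat.log 2 (nm (u j)).toNat ≤ (nm (u j)).toNat := by
    apply Nat.pow_log_le_self
    unfold nm
    omega
  have h4 : ((2 ^ Nat.log 2 (nm (u j)).toNat : ℕ) : ℤ) ≤ nm (u j) := by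
    have : 0 ≤ nm (u j) := by unfold nm; omega
    omega
  exact_mod_cast h4

theorem ua7_sz_hi {p : Prm 10} {X : ℕ} {u : Vec 10} (h : GP p X u) {j : Fin 11}
    (h2 : 2 ≤ j.val) (h8 : j.val ≤ 8) : nm (u j) < (2 ^ (ua7_sz u j + 1) : ℕ) := by
  obtain ⟨a, b⟩ := ua7_pos h (j := j) (by omega) (by omega)
  unfold ua7_sz
  rw [if_pos ⟨h2, h8⟩]
  have h3 : (nm (u j)).toNat < 2 ^ (Nat.log 2 (nm (u j)).toNat + 1) :=
    Nat.lt_pow_succ_log_self (by norm_num) _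
  have : 0 ≤ nm (u j) := by unfold nm; omega
  omega

/-- lower bounds for the norms -/
noncomputable def ua7_r (f : ℕ × ℕ) (s : Fin 11 → ℕ) (j : Fin 11) : ℝ :=
  if j = 1 then (f.1 : ℝ) else if j = 9 then (f.2 : ℝ) / (nm z : ℝ) else 2 ^ s j

theorem ua7_r_nn (f : ℕ × ℕ) (s : Fin 11 → ℕ) (j : Fin 11) : 0 ≤ ua7_r f s j := by
  have h := ua7_nmz
  unfold ua7_r
  split_ifs
  · positivity
  · exact div_nonneg (Nat.cast_nonneg _) (by linarith)
  · positivity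

theorem ua7_r_le {p : Prm 10} {X : ℕ} (hc : 0 < p.c1) {u : Vec 10} (h : GP p X u) {f : ℕ × ℕ} (hf : fE u = f)
    {s : Fin 11 → ℕ} (hs : ua7_sz u = s) {j : Fin 11} (h1 : 1 ≤ j.val) (h9 : j.val ≤ 9) :
    ua7_r f s j ≤ (nm (u j) : ℝ) := by
  obtain ⟨a, b⟩ := ua7_pos h h1 h9
  unfold ua7_r
  split_ifs with e1 e9
  · subst e1
    have h2 := ua7_u1 h
    rw [hf] at h2
    have h3 : ((f.1 : ℕ) : ℤ) ≤ nm (u (1 : Fin 11)) := by
      rw [← h2]; unfold nm; omega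
    exact_mod_cast h3
  · subst e9
    have h2 := ua7_u9 hc h
    rw [hf] at h2
    have h3 : ((f.2 : ℕ) : ℤ) ≤ nm z * nm (u (9 : Fin 11)) := by
      rw [← h2]; exact nm_ge_det a b
    have h4 : ((f.2 : ℕ) : ℝ) ≤ (nm z : ℝ) * (nm (u (9 : Fin 11)) : ℝ) := by exact_mod_cast h3
    have h5 := ua7_nmz
    rw [div_le_iff₀ (by linarith)]
    linarith
  · rw [← hs]
    refine ua7_sz_lo h ?_ ?_
    · have : j.val ≠ 1 := fun h => e1 (Fin.ext h)
      omega
    · have : j.val ≠ 9 := fun h => e9 (Fin.ext h)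
      omega

theorem ua7_w (r : Fin 11 → ℝ) :
    ∏ j : Fin 11, ((if j ∈ feU then r j else 1) * (if j - 1 ∈ feU then r j else 1)) =
      ∏ j ∈ feU, (r j * r (j + 1)) := by
  rw [Finset.prod_mul_distrib, Finset.prod_mul_distrib]
  congr 1
  · rw [Finset.prod_ite_mem, Finset.univ_inter]
  · rw [← Equiv.prod_comp (Equiv.addRight (1 : Fin 11))]
    simp only [Equiv.coe_addRight, add_sub_cancel_right]
    rw [Finset.prod_ite_mem, Finset.univ_inter]

theorem ua7_succ {j : Fin 11} (hj : j ∈ feU) : (j + 1 : Fin 11).val = j.val + 1 := by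
  rw [mem_feU] at hj
  rw [Fin.val_add]
  show (j.val + 1) % 11 = j.val + 1
  exact Nat.mod_eq_of_lt (by omega)

theorem ua7_DE_ge {p : Prm 10} {τ : ℝ} (hp : p.Ok τ) {X : ℕ} {u : Vec 10} (h : GP p X u)
    {f : ℕ × ℕ} (hf : fE u = f) {s : Fin 11 → ℕ} (hs : ua7_sz u = s) :
    p.c1 ^ 8 * ∏ j ∈ feU, (ua7_r f s j * ua7_r f s (j + 1)) ≤ (DE feU (tp u) : ℝ) := by
  have hc := hp.c10
  have h1 : ∏ j ∈ feU, (p.c1 * (ua7_r f s j * ua7_r f s (j + 1))) ≤ (DE feU (tp u) : ℝ) := by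
    unfold DE
    rw [Nat.cast_prod]
    apply Finset.prod_le_prod
    · intro j _
      exact mul_nonneg hc.le (mul_nonneg (ua7_r_nn _ _ _) (ua7_r_nn _ _ _))
    · intro j hj
      have hj' := mem_feU.1 hj
      have hj2 := ua7_succ hj
      refine le_trans ?_ (gp_dn_ge h j (fun h => by rw [h] at hj'; exact absurd hj'.2 (by decide)))
      apply mul_le_mul_of_nonneg_left _ hc.le
      have h2 := ua7_r_le hc h hf hs (j := j) (by omega) (by omega)
      have h3 := ua7_r_le hc h hf hs (j := j + 1) (by omega) (by omega)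
      exact mul_le_mul h2 h3 (ua7_r_nn _ _ _) ((ua7_r_nn _ _ _).trans h2)
  rw [Finset.prod_mul_distrib, Finset.prod_const] at h1
  have h2 : feU.card = 8 := by decide
  rwa [h2] at h1

/-- the constant of the last vertex -/
noncomputable def ua7_K : ℝ := 1 + |(ws.1 : ℝ)|

theorem ua7_K1 : 1 ≤ ua7_K := by
  unfold ua7_K
  linarith [abs_nonneg (ws.1 : ℝ)]

/-- the sizes of the box -/
noncomputable def ua7_A (c : ℝ) (f : ℕ × ℕ) (s : Fin 11 → ℕ) (j : Fin 11) : ℕ :=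
  if j = 1 then ⌊(f.1 : ℝ) / c⌋₊ else if j = 9 then ⌊ua7_K * (f.2 : ℝ) / c⌋₊ else 2 ^ (s j + 1)

/-- the constant for the number of elements of the box -/
noncomputable def ua7_B (c : ℝ) : ℝ := 4 * ua7_K * (nm z : ℝ) / c

theorem ua7_m : ∀ j : Fin 11, j ≠ 0 → j ≠ 10 → j ≠ 1 → j ≠ 9 → j ∈ feU ∧ j - 1 ∈ feU := by
  decide

theorem ua7_card {c : ℝ} (hc : 0 < c) (hc1 : c ≤ 1) (f : ℕ × ℕ) (s : Fin 11 → ℕ) :
    ((FamO (cU f.1 f.2) (ua7_A c f s)).card : ℝ) ≤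
      (ua7_B c) ^ 11 * ∏ j ∈ feU, (ua7_r f s j * ua7_r f s (j + 1)) := by
  have hK := ua7_K1
  have hz := ua7_nmz
  have hKz : 1 ≤ ua7_K * (nm z : ℝ) := by nlinarith
  have h4cc : 4 / c ≤ ua7_B c := by
    unfold ua7_B
    apply div_le_div_of_nonneg_right _ hc.le
    nlinarith
  have h4c0 : 4 ≤ 4 / c := by
    rw [le_div_iff₀ hc]
    linarith
  have h4c : 4 ≤ ua7_B c := h4c0.trans h4cc
  have hcN : ∀ A : ℕ, (((Icc (1 : ℤ) (A : ℤ)).card : ℕ) : ℝ) = A := by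
    intro A
    simp
  unfold FamO
  rw [Fintype.card_piFinset, Nat.cast_prod, ← ua7_w]
  have h1 : ∏ j : Fin 11, (((cs (cU f.1 f.2 j).1 (ua7_A c f s j) ×ˢ
      cs (cU f.1 f.2 j).2 (ua7_A c f s j)).card : ℕ) : ℝ) ≤
      ∏ j : Fin 11, (ua7_B c * ((if j ∈ feU then ua7_r f s j else 1) *
        (if j - 1 ∈ feU then ua7_r f s j else 1))) := by
    apply Finset.prod_le_prod
    · intro j _
      exact Nat.cast_nonneg _
    · intro j _
      rw [Finset.card_product, Nat.cast_mul]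
      by_cases j0 : j = 0
      · subst j0
        have e1 : cU f.1 f.2 0 = (some 1, some 0) := by unfold cU; simp
        rw [e1, if_neg (by decide), if_neg (by decide)]
        show (((({1} : Finset ℤ).card : ℕ) : ℝ) * ((({0} : Finset ℤ).card : ℕ) : ℝ)) ≤ _
        rw [Finset.card_singleton, Finset.card_singleton]
        push_cast
        linarith
      by_cases j10 : j = 10
      · subst j10
        have e1 : cU f.1 f.2 10 = (some z.1, some z.2) := by unfold cU; simp [Fin.ext_iff]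
        rw [e1, if_neg (by decide), if_neg (by decide)]
        show (((({z.1} : Finset ℤ).card : ℕ) : ℝ) * ((({z.2} : Finset ℤ).card : ℕ) : ℝ)) ≤ _
        rw [Finset.card_singleton, Finset.card_singleton]
        push_cast
        linarith
      by_cases j1 : j = 1
      · subst j1
        have e1 : cU f.1 f.2 1 = (none, some (f.1 : ℤ)) := by unfold cU; simp
        have e2 : ua7_A c f s 1 = ⌊(f.1 : ℝ) / c⌋₊ := by unfold ua7_A; simp
        have e3 : ua7_r f s 1 = (f.1 : ℝ) := by unfold ua7_r; simp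
        rw [e1, e2, e3, if_pos (by decide), if_neg (by decide)]
        show ((((Icc (1 : ℤ) ((⌊(f.1 : ℝ) / c⌋₊ : ℕ) : ℤ)).card : ℕ) : ℝ) *
          ((({(f.1 : ℤ)} : Finset ℤ).card : ℕ) : ℝ)) ≤ _
        rw [Finset.card_singleton, hcN]
        have h2 : ((⌊(f.1 : ℝ) / c⌋₊ : ℕ) : ℝ) ≤ (f.1 : ℝ) / c := Nat.floor_le (by positivity)
        have h3 : (0 : ℝ) ≤ (f.1 : ℝ) / c := by positivity
        have h4 : 4 / c * ((f.1 : ℝ) * 1) = 4 * ((f.1 : ℝ) / c) := by ring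
        refine le_trans ?_ (mul_le_mul_of_nonneg_right h4cc (by positivity))
        rw [h4]
        push_cast
        linarith
      by_cases j9 : j = 9
      · subst j9
        have e1 : cU f.1 f.2 9 = (none, some (f.2 : ℤ)) := by unfold cU; simp [Fin.ext_iff]
        have e2 : ua7_A c f s 9 = ⌊ua7_K * (f.2 : ℝ) / c⌋₊ := by unfold ua7_A; simp [Fin.ext_iff]
        have e3 : ua7_r f s 9 = (f.2 : ℝ) / (nm z : ℝ) := by unfold ua7_r; simp [Fin.ext_iff]
        rw [e1, e2, e3, if_neg (by decide), if_pos (by decide)]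
        show ((((Icc (1 : ℤ) ((⌊ua7_K * (f.2 : ℝ) / c⌋₊ : ℕ) : ℤ)).card : ℕ) : ℝ) *
          ((({(f.2 : ℤ)} : Finset ℤ).card : ℕ) : ℝ)) ≤ _
        rw [Finset.card_singleton, hcN]
        have h2 : ((⌊ua7_K * (f.2 : ℝ) / c⌋₊ : ℕ) : ℝ) ≤ ua7_K * (f.2 : ℝ) / c :=
          Nat.floor_le (by positivity)
        have h3 : (0 : ℝ) ≤ ua7_K * (f.2 : ℝ) / c := by positivity
        have h4 : ua7_B c * (1 * ((f.2 : ℝ) / (nm z : ℝ))) = 4 * (ua7_K * (f.2 : ℝ) / c) := by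
          unfold ua7_B
          have : (nm z : ℝ) ≠ 0 := by linarith
          field_simp
        rw [h4]
        push_cast
        linarith
      · have e1 : cU f.1 f.2 j = (none, none) := by
          unfold cU
          rw [if_neg j0, if_neg j10, if_neg j1, if_neg j9]
        have e2 : ua7_A c f s j = 2 ^ (s j + 1) := by
          unfold ua7_A
          rw [if_neg j1, if_neg j9]
        have e3 : ua7_r f s j = 2 ^ s j := by
          unfold ua7_r
          rw [if_neg j1, if_neg j9]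
        obtain ⟨m1, m2⟩ := ua7_m j j0 j10 j1 j9
        rw [e1, e2, e3, if_pos m1, if_pos m2]
        show ((((Icc (1 : ℤ) ((2 ^ (s j + 1) : ℕ) : ℤ)).card : ℕ) : ℝ) *
          (((Icc (1 : ℤ) ((2 ^ (s j + 1) : ℕ) : ℤ)).card : ℕ) : ℝ)) ≤ _
        rw [hcN]
        push_cast
        have h5 : (0 : ℝ) < 2 ^ s j * 2 ^ s j := by positivity
        have h6 : (2 : ℝ) ^ (s j + 1) * 2 ^ (s j + 1) = 4 * (2 ^ s j * 2 ^ s j) := by ring
        rw [h6]
        exact mul_le_mul_of_nonneg_right h4c h5.le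
  refine h1.trans (le_of_eq ?_)
  rw [Finset.prod_mul_distrib, Finset.prod_const, Finset.card_univ, Fintype.card_fin]

/-- the coordinates of a path -/
noncomputable def ua7_inv (u : Vec 10) : PolyK 11 := fun j =>
  if j = 9 then (dt (u (9 : Fin 11)) ws, dt z (u (9 : Fin 11))) else u j

theorem ua7_inv_ne (u : Vec 10) {j : Fin 11} (hj : j ≠ 9) : ua7_inv u j = u j := by
  unfold ua7_inv; rw [if_neg hj]

theorem ua7_inv_nine (u : Vec 10) :
    ua7_inv u 9 = (dt (u (9 : Fin 11)) ws, dt z (u (9 : Fin 11))) := by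
  unfold ua7_inv; rw [if_pos rfl]

theorem ua7_pol (u : Vec 10) : pol9 (ua7_inv u) = tp u := by
  funext j
  by_cases hj : j = 9
  · subst hj
    rw [pol9_nine, ua7_inv_nine]
    exact (vec_ws (u (9 : Fin 11))).symm
  · rw [pol9_ne hj, ua7_inv_ne u hj]
    rfl

theorem ua7_inv_inj : Function.Injective ua7_inv := by
  intro u v h
  have h1 := congrArg pol9 h
  rw [ua7_pol, ua7_pol] at h1
  exact h1

/-- the paths of a cell are in the box -/
theorem ua7_mem {p : Prm 10} {τ : ℝ} (hp : p.Ok τ) (hc1 : p.c1 ≤ 1) {X : ℕ} {u : Vec 10} (h : GP p X u)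
    {f : ℕ × ℕ} (hf : fE u = f) {s : Fin 11 → ℕ} (hs : ua7_sz u = s) :
    ua7_inv u ∈ FamO (cU f.1 f.2) (ua7_A p.c1 f s) := by
  have hc := hp.c10
  have h0 : u (0 : Fin 11) = (1, 0) := h.first
  have h10 : u (10 : Fin 11) = z := h.last
  unfold FamO
  rw [Fintype.mem_piFinset]
  intro j
  rw [mem_product]
  show (ua7_inv u j).1 ∈ cs (cU f.1 f.2 j).1 (ua7_A p.c1 f s j) ∧
    (ua7_inv u j).2 ∈ cs (cU f.1 f.2 j).2 (ua7_A p.c1 f s j)
  by_cases j9 : j = 9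
  · subst j9
    have e1 : cU f.1 f.2 9 = (none, some (f.2 : ℤ)) := by unfold cU; simp [Fin.ext_iff]
    have e2 : ua7_A p.c1 f s 9 = ⌊ua7_K * (f.2 : ℝ) / p.c1⌋₊ := by
      unfold ua7_A; simp [Fin.ext_iff]
    rw [e1, e2, ua7_inv_nine]
    obtain ⟨a, b⟩ := ua7_pos h (j := 9) (by decide) (by decide)
    have h2 := ua7_u9 hc h
    rw [hf] at h2
    refine ⟨?_, by rw [h2]; exact mem_singleton_self _⟩
    show dt (u (9 : Fin 11)) ws ∈ Icc (1 : ℤ) ((⌊ua7_K * (f.2 : ℝ) / p.c1⌋₊ : ℕ) : ℤ)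
    rw [mem_Icc]
    have hd0 : 0 ≤ dt z (u (9 : Fin 11)) := by rw [h2]; exact Int.natCast_nonneg _
    have ht1 := t_pos a hd0
    refine ⟨ht1, ?_⟩
    have ht2 := t_le a b hd0
    have h3 := ua7_up9 hc h
    rw [hf] at h3
    have h4 : ((dt (u (9 : Fin 11)) ws).toNat : ℝ) ≤ ua7_K * (f.2 : ℝ) / p.c1 := by
      rw [le_div_iff₀ hc]
      have h5 : ((dt (u (9 : Fin 11)) ws).toNat : ℝ) ≤
          (nm (u (9 : Fin 11)) : ℝ) + |(ws.1 : ℝ)| * (f.2 : ℝ) := by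
        have h6 : ((dt (u (9 : Fin 11)) ws).toNat : ℤ) ≤
            nm (u (9 : Fin 11)) + |ws.1| * (f.2 : ℤ) := by
          rw [Int.toNat_of_nonneg (by omega), ← h2]
          exact ht2
        exact_mod_cast h6
      have h7 : (0 : ℝ) ≤ |(ws.1 : ℝ)| * (f.2 : ℝ) := by positivity
      have h8 : ((dt (u (9 : Fin 11)) ws).toNat : ℝ) * p.c1 ≤
          ((nm (u (9 : Fin 11)) : ℝ) + |(ws.1 : ℝ)| * (f.2 : ℝ)) * p.c1 :=
        mul_le_mul_of_nonneg_right h5 hc.le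
      unfold ua7_K
      nlinarith
    have h5 := Nat.le_floor h4
    omega
  rw [ua7_inv_ne u j9]
  by_cases j0 : j = 0
  · subst j0
    have e1 : cU f.1 f.2 0 = (some 1, some 0) := by unfold cU; simp
    rw [e1, h0]
    exact ⟨mem_singleton_self _, mem_singleton_self _⟩
  by_cases j10 : j = 10
  · subst j10
    have e1 : cU f.1 f.2 10 = (some z.1, some z.2) := by unfold cU; simp [Fin.ext_iff]
    rw [e1, h10]
    exact ⟨mem_singleton_self _, mem_singleton_self _⟩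
  by_cases j1 : j = 1
  · subst j1
    have e1 : cU f.1 f.2 1 = (none, some (f.1 : ℤ)) := by unfold cU; simp
    have e2 : ua7_A p.c1 f s 1 = ⌊(f.1 : ℝ) / p.c1⌋₊ := by unfold ua7_A; simp
    rw [e1, e2]
    obtain ⟨a, b⟩ := ua7_pos h (j := 1) (by decide) (by decide)
    have h2 := ua7_u1 h
    rw [hf] at h2
    refine ⟨?_, by rw [h2]; exact mem_singleton_self _⟩
    show (u (1 : Fin 11)).1 ∈ Icc (1 : ℤ) ((⌊(f.1 : ℝ) / p.c1⌋₊ : ℕ) : ℤ)
    rw [mem_Icc]
    refine ⟨by omega, ?_⟩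
    have h3 := ua7_up1 h
    rw [hf] at h3
    have h4 : ((u (1 : Fin 11)).1.toNat : ℝ) ≤ (f.1 : ℝ) / p.c1 := by
      rw [le_div_iff₀ hc]
      have h5 : ((u (1 : Fin 11)).1.toNat : ℝ) ≤ (nm (u (1 : Fin 11)) : ℝ) := by
        have h6 : ((u (1 : Fin 11)).1.toNat : ℤ) ≤ nm (u (1 : Fin 11)) := by unfold nm; omega
        exact_mod_cast h6
      nlinarith
    have h5 := Nat.le_floor h4
    omega
  · have e1 : cU f.1 f.2 j = (none, none) := by
      unfold cU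
      rw [if_neg j0, if_neg j10, if_neg j1, if_neg j9]
    have e2 : ua7_A p.c1 f s j = 2 ^ (s j + 1) := by
      unfold ua7_A
      rw [if_neg j1, if_neg j9]
    rw [e1, e2]
    have hj := ua7_m j j0 j10 j1 j9
    have a1 := mem_feU.1 hj.1
    have a2 : j.val ≠ 1 := fun h => j1 (Fin.ext h)
    obtain ⟨a, b⟩ := ua7_pos h (j := j) (by omega) (by omega)
    have h3 := ua7_sz_hi h (j := j) (by omega) (by omega)
    rw [hs] at h3
    unfold nm at h3
    show (u j).1 ∈ Icc (1 : ℤ) ((2 ^ (s j + 1) : ℕ) : ℤ) ∧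
      (u j).2 ∈ Icc (1 : ℤ) ((2 ^ (s j + 1) : ℕ) : ℤ)
    rw [mem_Icc, mem_Icc]
    refine ⟨⟨by omega, ?_⟩, ⟨by omega, ?_⟩⟩ <;> omega

/-! ### sizes -/

theorem ua7_e {p : Prm 10} (hp : p.Ok (1 / 100)) {j : Fin 11} (h2 : 2 ≤ j.val) (h8 : j.val ≤ 8) :
    p.ew ≤ p.e j ∧ p.e j + p.ew ≤ 1 / 50 := by
  have w0 := hp.ew0
  have w1 := hp.ew1 j h2 (by omega)
  have a1 := hp.em_ta
  have a2 := hp.ta_ep
  have a3 := hp.ep1
  by_cases hj : Even j.val
  · have w2 := hp.even j h2 (by omega) hj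
    constructor <;> linarith
  · have w2 := hp.odd j h2 (by omega) hj
    constructor <;> linarith

theorem ua7_em {p : Prm 10} (hp : p.Ok (1 / 100)) : p.ew ≤ p.em ∧ 0 < p.ep := by
  have w0 := hp.ew0
  obtain ⟨h1, -⟩ := ua7_e hp (j := (2 : Fin 11)) (by decide) (by decide)
  have w2 := hp.even (2 : Fin 11) (by decide) (by decide) (by decide)
  have a1 := hp.em_ta
  have a2 := hp.ta_ep
  constructor <;> linarith

theorem ua7_nm_le {p : Prm 10} (hp : p.Ok (1 / 100)) {X : ℕ} (hX : 1 ≤ X)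
    (hc : 1 / p.c1 ≤ (X : ℝ) ^ (1 / 100 : ℝ)) {u : Vec 10} (h : GP p X u) {j : Fin 11}
    (h1 : 1 ≤ j.val) (h9 : j.val ≤ 9) : (nm (u j) : ℝ) ≤ (X : ℝ) ^ (1 / 50 : ℝ) := by
  have hX1 : (1 : ℝ) ≤ X := by exact_mod_cast hX
  have hX0 : (0 : ℝ) < X := by linarith
  have hc0 := hp.c10
  have key : ∀ d : ℕ, EF p X d → ∀ y : ℝ, p.c1 * y ≤ (d : ℝ) → y ≤ (X : ℝ) ^ (1 / 50 : ℝ) := by
    intro d hd y hy
    have h2 : (d : ℝ) ≤ (X : ℝ) ^ (1 / 100 : ℝ) :=
      hd.hi.trans (Real.rpow_le_rpow_of_exponent_le hX1 hp.ep1)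
    calc y = (p.c1 * y) * (1 / p.c1) := by field_simp
      _ ≤ (X : ℝ) ^ (1 / 100 : ℝ) * (X : ℝ) ^ (1 / 100 : ℝ) :=
          mul_le_mul (hy.trans h2) hc (by positivity) (by positivity)
      _ = (X : ℝ) ^ (1 / 50 : ℝ) := by rw [← Real.rpow_add hX0]; norm_num
  by_cases j1 : j = 1
  · subst j1
    exact key _ h.e1 _ (ua7_up1 h)
  by_cases j9 : j = 9
  · subst j9
    exact key _ h.e2 _ (ua7_up9 hc0 h)
  have b1 : j.val ≠ 1 := fun h => j1 (Fin.ext h)
  have b9 : j.val ≠ 9 := fun h => j9 (Fin.ext h)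
  exact (h.upp j (by omega) (by omega)).trans (Real.rpow_le_rpow_of_exponent_le hX1
    (ua7_e hp (j := j) (by omega) (by omega)).2)

theorem ua7_dn_le {p : Prm 10} {X : ℕ} {u : Vec 10} (h : GP p X u) {j : Fin 11} (hj : j ∈ feU) :
    (dn (tp u) j : ℝ) ≤ (nm (u j) : ℝ) * (nm (u (j + 1 : Fin 11)) : ℝ) := by
  have hj' := mem_feU.1 hj
  have hj2 := ua7_succ hj
  have h1 : (dn (tp u) j : ℤ) ≤ nm (u j) * nm (u (j + 1 : Fin 11)) := by
    show ((Pool.Agent.PENK.dn (tp u) j : ℕ) : ℤ) ≤ _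
    unfold Pool.Agent.PENK.dn dl dt nm tp
    rw [Int.natCast_natAbs, abs_le]
    obtain ⟨a1, a2⟩ := ua7_pos h (j := j) (by omega) (by omega)
    obtain ⟨a3, a4⟩ := ua7_pos h (j := (j + 1 : Fin 11)) (by omega) (by omega)
    constructor
    · nlinarith [mul_pos a1 a3, mul_pos a1 a4, mul_pos a2 a3, mul_pos a2 a4]
    · nlinarith [mul_pos a1 a3, mul_pos a1 a4, mul_pos a2 a3, mul_pos a2 a4]
  exact_mod_cast h1

theorem ua7_DE_le {p : Prm 10} (hp : p.Ok (1 / 100)) {X : ℕ} (hX : 1 ≤ X)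
    (hc : 1 / p.c1 ≤ (X : ℝ) ^ (1 / 100 : ℝ)) {u : Vec 10} (h : GP p X u) :
    (DE feU (tp u) : ℝ) ≤ X := by
  have hX1 : (1 : ℝ) ≤ X := by exact_mod_cast hX
  have hX0 : (0 : ℝ) < X := by linarith
  have h1 : ∀ j ∈ feU, (dn (tp u) j : ℝ) ≤ (X : ℝ) ^ (1 / 25 : ℝ) := by
    intro j hj
    have hj' := mem_feU.1 hj
    have hj2 := ua7_succ hj
    have h2 := ua7_dn_le h hj
    have h3 := ua7_nm_le hp hX hc h (j := j) (by omega) (by omega)
    have h4 := ua7_nm_le hp hX hc h (j := (j + 1 : Fin 11)) (by omega) (by omega)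
    obtain ⟨a3, a4⟩ := ua7_pos h (j := (j + 1 : Fin 11)) (by omega) (by omega)
    have a1 : (0 : ℝ) ≤ nm (u (j + 1 : Fin 11)) := by
      exact_mod_cast (show 0 ≤ nm (u (j + 1 : Fin 11)) by unfold nm; omega)
    calc (dn (tp u) j : ℝ) ≤ _ := h2
      _ ≤ (X : ℝ) ^ (1 / 50 : ℝ) * (X : ℝ) ^ (1 / 50 : ℝ) :=
          mul_le_mul h3 h4 a1 (by positivity)
      _ = _ := by rw [← Real.rpow_add hX0]; norm_num
  unfold DE
  rw [Nat.cast_prod]
  calc ∏ j ∈ feU, (dn (tp u) j : ℝ) ≤ ∏ _j ∈ feU, (X : ℝ) ^ (1 / 25 : ℝ) :=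
        Finset.prod_le_prod (fun j _ => Nat.cast_nonneg _) h1
    _ = (X : ℝ) ^ (8 / 25 : ℝ) := by
        rw [Finset.prod_const, show feU.card = 8 by decide, ← Real.rpow_natCast,
          ← Real.rpow_mul hX0.le]
        norm_num
    _ ≤ (X : ℝ) ^ (1 : ℝ) := Real.rpow_le_rpow_of_exponent_le hX1 (by norm_num)
    _ = X := Real.rpow_one _

open Filter in
theorem ua7_ev {a : ℝ} (ha : 0 < a) (c : ℝ) : ∃ X₀ : ℕ, ∀ X ≥ X₀, Real.log X ^ 2 < PP X ∧
    4 * Real.log X ^ 2 ≤ (X : ℝ) ^ a ∧ c ≤ (X : ℝ) ^ a := by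
  have hc : Tendsto (fun X : ℕ => (X : ℝ)) atTop atTop := tendsto_natCast_atTop_atTop
  have hl : Tendsto (fun X : ℕ => Real.log (X : ℝ)) atTop atTop := Real.tendsto_log_atTop.comp hc
  have hl1 : Tendsto (fun X : ℕ => Real.log (X : ℝ) ^ (1 / 100 : ℝ)) atTop atTop :=
    (tendsto_rpow_atTop (by norm_num)).comp hl
  have hep2 : Tendsto (fun X : ℕ => (X : ℝ) ^ a) atTop atTop :=
    (tendsto_rpow_atTop ha).comp hc
  have h1 := ((isLittleO_log_rpow_rpow_atTop 2 ha).comp_tendsto hc).bound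
    (show (0 : ℝ) < 1 / 4 by norm_num)
  have h2 := ((Real.isLittleO_pow_exp_atTop (n := 200)).comp_tendsto hl1).bound
    (show (0 : ℝ) < 1 / 2 by norm_num)
  have hall := (hl.eventually_ge_atTop 1).and <| (hep2.eventually_ge_atTop c).and <| h1.and h2
  obtain ⟨X₀, hX₀⟩ := eventually_atTop.1 hall
  refine ⟨X₀, fun X hX => ?_⟩
  obtain ⟨a1, a2, a3, a4⟩ := hX₀ X hX
  have hL : 0 < Real.log (X : ℝ) := by linarith
  refine ⟨?_, ?_, a2⟩
  · simp only [Function.comp, Real.norm_eq_abs] at a4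
    have h5 : (Real.log (X : ℝ) ^ (1 / 100 : ℝ)) ^ 200 = Real.log (X : ℝ) ^ 2 := by
      rw [← Real.rpow_natCast, ← Real.rpow_mul hL.le, ← Real.rpow_natCast]
      norm_num
    rw [h5, abs_of_nonneg (by positivity), abs_of_nonneg (Real.exp_pos _).le] at a4
    have h6 : PP X = Real.exp (Real.log (X : ℝ) ^ (1 / 100 : ℝ)) := rfl
    rw [h6]
    have := Real.exp_pos (Real.log (X : ℝ) ^ (1 / 100 : ℝ))
    linarith
  · simp only [Function.comp, Real.norm_eq_abs] at a3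
    rw [abs_of_nonneg (Real.rpow_nonneg hL.le _),
      abs_of_nonneg (Real.rpow_nonneg (Nat.cast_nonneg _) _), Real.rpow_ofNat] at a3
    linarith

/-- all tuples of sizes -/
theorem ua7_all {p : Prm 10} (hp : p.Ok (1 / 100)) {X : ℕ} (hX : 3 ≤ X)
    (hc : 1 / p.c1 ≤ (X : ℝ) ^ (1 / 100 : ℝ)) (G : Finset (Vec 10)) (hG : ∀ u ∈ G, GP p X u)
    (F : Vec 10 → ℝ) {B : ℝ} (hB : 0 ≤ B)
    (h : ∀ s : Fin 11 → ℕ, ∑ u ∈ G.filter (fun u => ua7_sz u = s), F u ≤ B) :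
    ∑ u ∈ G, F u ≤ (3 * Real.log X) ^ 7 * B := by
  have hX1 : (1 : ℝ) ≤ X := by
    have : 1 ≤ X := by omega
    exact_mod_cast this
  have hmaps : ∀ u ∈ G, ua7_sz u ∈ Fintype.piFinset (fun j : Fin 11 =>
      if 2 ≤ j.val ∧ j.val ≤ 8 then range (Nat.log 2 X + 1) else {0}) := by
    intro u hu
    rw [Fintype.mem_piFinset]
    intro j
    unfold ua7_sz
    split_ifs with h1
    · rw [mem_range]
      have h2 := ua7_nm_le hp (by omega) hc (hG u hu) (j := j) (by omega) (by omega)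
      have h3 : (nm (u j) : ℝ) ≤ X := h2.trans (by
        calc (X : ℝ) ^ (1 / 50 : ℝ) ≤ (X : ℝ) ^ (1 : ℝ) :=
              Real.rpow_le_rpow_of_exponent_le hX1 (by norm_num)
          _ = X := Real.rpow_one _)
      have h4 : nm (u j) ≤ X := by exact_mod_cast h3
      have h5 : Nat.log 2 (nm (u j)).toNat ≤ Nat.log 2 X := Nat.log_mono_right (by omega)
      omega
    · exact mem_singleton_self _
  rw [← Finset.sum_fiberwise_of_maps_to hmaps]
  refine (Finset.sum_le_sum (fun s _ => h s)).trans ?_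
  rw [Finset.sum_const, nsmul_eq_mul, Fintype.card_piFinset]
  have h0 : ∏ j : Fin 11, (if 2 ≤ j.val ∧ j.val ≤ 8 then range (Nat.log 2 X + 1)
      else ({0} : Finset ℕ)).card = (Nat.log 2 X + 1) ^ 7 := by
    have e : ∀ j : Fin 11, (if 2 ≤ j.val ∧ j.val ≤ 8 then range (Nat.log 2 X + 1)
      else ({0} : Finset ℕ)).card = if 2 ≤ j.val ∧ j.val ≤ 8 then Nat.log 2 X + 1 else 1 := by
      intro j
      split_ifs
      · rw [card_range]
      · rw [card_singleton]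
    simp only [e]
    rw [Finset.prod_ite, Finset.prod_const, Finset.prod_const_one, mul_one]
    congr 1
  rw [h0]
  have h1 := f11_log hX
  have h2 : (((Nat.log 2 X + 1) ^ 7 : ℕ) : ℝ) ≤ (3 * Real.log X) ^ 7 := by
    push_cast at h1 ⊢
    exact pow_le_pow_left₀ (by positivity) h1 7
  exact mul_le_mul_of_nonneg_right h2 hB

/-- the coprimality of `f.1 f.2 l` and the interior determinants -/
theorem ua7_cop {p : Prm 10} {X : ℕ} {u : Vec 10} (h : GP p X u) {f : ℕ × ℕ} (hf : fE u = f)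
    {l : ℕ} (hl : l.Prime) (hlP : (l : ℝ) < PP X) :
    Nat.Coprime (f.1 * f.2 * l) (DE feU (tp u)) := by
  rw [DE_feU]
  unfold Dint
  apply Nat.Coprime.prod_right
  intro i hi
  rw [Finset.mem_Icc] at hi
  have hi2 : i ≤ 9 := hi.2
  have h1 : f.1 = dE u 1 := by rw [← hf]; rfl
  have h2 : f.2 = dE u 10 := by rw [← hf]; rfl
  refine Nat.Coprime.mul_left (Nat.Coprime.mul_left ?_ ?_) ?_
  · rw [h1]
    exact h.cop 1 i (le_refl _) (by omega) (by omega)
  · rw [h2]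
    exact (h.cop i 10 (by omega) (by omega) (by omega)).symm
  · rw [Nat.Prime.coprime_iff_not_dvd hl]
    intro hd
    have h3 := ((h.dp i (by omega) (by omega)).2 l hl hd).2
    linarith

/-- the condition at the line is periodic -/
theorem ua7_per (l : ℕ) (v : ℤ × ℤ) (i : Fin 11) :
    PerP l (fun u : PolyK 11 => ich ((l : ℤ) ∣ dt v (u i))) := by
  intro u u' h
  obtain ⟨h1, h2⟩ := h i
  have h3 : ((l : ℤ) ∣ dt v (u i)) = ((l : ℤ) ∣ dt v (u' i)) := by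
    apply propext
    have h4 : dt v (u i) = dt v (u' i) + (v.1 * ((u i).2 - (u' i).2) -
      v.2 * ((u i).1 - (u' i).1)) := by unfold dt; ring
    rw [h4]
    exact (dvd_add_left (dvd_sub (h2.mul_left _) (h1.mul_left _)))
  show ich ((l : ℤ) ∣ dt v (u i)) = ich ((l : ℤ) ∣ dt v (u' i))
  rw [h3]

theorem ua7_GS {p : Prm 10} {X : ℕ} {u : Vec 10} (hu : u ∈ GS p X) : GP p X u := by
  unfold GS at hu
  split_ifs at hu with h
  · exact (h.mem_toFinset).1 hu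
  · exact absurd hu (Finset.notMem_empty u)

/-- the size of the box -/
theorem ua7_A_ge {p : Prm 10} (hp : p.Ok (1 / 100)) {X : ℕ} (hX : 1 ≤ X) {f : ℕ × ℕ}
    (hf1 : EF p X f.1) (hf2 : EF p X f.2) {u : Vec 10} (h : GP p X u)
    {s : Fin 11 → ℕ} (hs : ua7_sz u = s) {j : Fin 11}
    (hj : (cU f.1 f.2 j).1 = none ∨ (cU f.1 f.2 j).2 = none) :
    (X : ℝ) ^ p.ew ≤ (ua7_A p.c1 f s j : ℝ) := by
  have hX1 : (1 : ℝ) ≤ X := by exact_mod_cast hX
  have hc := hp.c10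
  have hc1 : p.c1 ≤ 1 := hp.c11.trans (by norm_num)
  have key : ∀ d : ℕ, ∀ K : ℝ, 1 ≤ K → EF p X d →
      (X : ℝ) ^ p.ew ≤ ((⌊K * (d : ℝ) / p.c1⌋₊ : ℕ) : ℝ) := by
    intro d K hK hd
    have h1 : d ≤ ⌊K * (d : ℝ) / p.c1⌋₊ := by
      apply Nat.le_floor
      rw [le_div_iff₀ hc]
      have : (0 : ℝ) ≤ d := Nat.cast_nonneg d
      nlinarith
    calc (X : ℝ) ^ p.ew ≤ (X : ℝ) ^ p.em :=
          Real.rpow_le_rpow_of_exponent_le hX1 (ua7_em hp).1
      _ ≤ d := hd.lo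
      _ ≤ _ := by exact_mod_cast h1
  by_cases j0 : j = 0
  · subst j0
    have e1 : cU f.1 f.2 0 = (some 1, some 0) := by unfold cU; simp
    rw [e1] at hj
    simp at hj
  by_cases j10 : j = 10
  · subst j10
    have e1 : cU f.1 f.2 10 = (some z.1, some z.2) := by unfold cU; simp [Fin.ext_iff]
    rw [e1] at hj
    simp at hj
  by_cases j1 : j = 1
  · subst j1
    have e2 : ua7_A p.c1 f s 1 = ⌊(f.1 : ℝ) / p.c1⌋₊ := by unfold ua7_A; simp
    rw [e2]
    have := key _ 1 le_rfl hf1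
    rwa [one_mul] at this
  by_cases j9 : j = 9
  · subst j9
    have e2 : ua7_A p.c1 f s 9 = ⌊ua7_K * (f.2 : ℝ) / p.c1⌋₊ := by
      unfold ua7_A; simp [Fin.ext_iff]
    rw [e2]
    exact key _ _ ua7_K1 hf2
  · have e2 : ua7_A p.c1 f s j = 2 ^ (s j + 1) := by
      unfold ua7_A
      rw [if_neg j1, if_neg j9]
    have a1 := mem_feU.1 (ua7_m j j0 j10 j1 j9).1
    have a2 : j.val ≠ 1 := fun h => j1 (Fin.ext h)
    have h3 := ua7_sz_hi h (j := j) (by omega) (by omega)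
    rw [hs] at h3
    have h4 : (nm (u j) : ℝ) < ((2 ^ (s j + 1) : ℕ) : ℝ) := by exact_mod_cast h3
    rw [e2]
    calc (X : ℝ) ^ p.ew ≤ (X : ℝ) ^ p.e j :=
          Real.rpow_le_rpow_of_exponent_le hX1 (ua7_e hp (j := j) (by omega) (by omega)).1
      _ ≤ (nm (u j) : ℝ) := h.low j (by omega) (by omega)
      _ ≤ _ := h4.le

open Classical in
theorem usum_U_pr (W : Wts 11) (hW : W.Ok) : ∃ τ₀ : ℝ, 0 < τ₀ ∧ ∀ p : Prm 10, p.Ok τ₀ →
    ∃ t₁ : ℝ, 0 < t₁ ∧ ∀ t : ℝ, 0 < t → t ≤ t₁ → ∃ C : ℝ, 0 ≤ C ∧ ∃ X₀ : ℕ, ∀ X ≥ X₀,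
      ∀ f ∈ Fac p X, ∀ l : ℕ, l.Prime → PENM.NZ < l → (l : ℝ) ≤ Real.log X ^ 2 → ∀ i : Fin 11,
      1 ≤ i.val → i.val ≤ 9 → ∀ v : ℤ × ℤ, ¬ ((l : ℤ) ∣ v.1 ∧ (l : ℤ) ∣ v.2) →
      ∑ u ∈ (GS p X).filter (fun u => fE u = f ∧ (l : ℤ) ∣ dt v (u i)),
        edP W feU ⌊(X : ℝ) ^ t⌋₊ (tp u) * vxP W feU vqU ⌊PP X⌋₊ ⌊(X : ℝ) ^ t⌋₊ (tp u) ≤
      C / l * Real.log X ^ (7 + exW feU vqU W) := by
  obtain ⟨C0, hC0, hLoc⟩ := locU
  obtain ⟨ps, k, hps, hsv⟩ := fam_sieve W hW feU vqU C0 hC0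
  obtain ⟨Cb, hCb, hequi⟩ := fam_equi_pr
  have hnz : PENM.NZ + 1100 ≤ ps := by
    have h := hps
    unfold nz at h
    rw [fd_N0] at h
    omega
  refine ⟨1 / 100, by norm_num, fun p hp => ?_⟩
  have hw0 := hp.ew0
  have hc := hp.c10
  have hc1 : p.c1 ≤ 1 := hp.c11.trans (by norm_num)
  obtain ⟨a, ha⟩ : ∃ a : ℝ, a = p.ew / 4 := ⟨_, rfl⟩
  have ha0 : 0 < a := by rw [ha]; positivity
  have hk0 : (0 : ℝ) ≤ k := Nat.cast_nonneg k
  refine ⟨min 1 (a / (4 * (k + 1))), lt_min one_pos (by positivity), fun t ht ht1 => ?_⟩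
  have ht4 : t ≤ 1 := ht1.trans (min_le_left _ _)
  have ht3 : t * k ≤ a / 4 := by
    have h1 := ht1.trans (min_le_right _ _)
    rw [le_div_iff₀ (by positivity)] at h1
    nlinarith
  obtain ⟨C3, hC3, X3, hX3⟩ := hsv a t ha0 ht ht4 (by linarith)
  obtain ⟨C2, x0, hC2, hx0, hw1⟩ := w1_le W hW feU vqU (show 0 < t / 2 by positivity)
  obtain ⟨X1, hX1⟩ := f11_ev ps ha0 ht Cb x0 0
  obtain ⟨X2, hX2⟩ := ua7_ev (show 0 < a / 4 by positivity) 0
  obtain ⟨X4, hX4⟩ := ua7_ev (show (0 : ℝ) < 1 / 100 by norm_num) (1 / p.c1)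
  obtain ⟨D, hD⟩ : ∃ D : ℝ, D = C2 / p.c1 ^ 8 * (C3 * (2 * (ua7_B p.c1) ^ 11)) := ⟨_, rfl⟩
  have hB0 : 0 ≤ ua7_B p.c1 := by
    have h1 := ua7_K1
    have h2 := ua7_nmz
    unfold ua7_B
    positivity
  have hD0 : 0 ≤ D := by rw [hD]; positivity
  refine ⟨3 ^ 7 * D, by positivity, max (max X1 X2) (max X3 X4),
    fun X hX f hf l hl hl3 hlX i hi1 hi9 v hv => ?_⟩
  have hXm := max_le_iff.1 hX
  have hXa := max_le_iff.1 hXm.1
  have hXb := max_le_iff.1 hXm.2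
  obtain ⟨a1, a2, a3, a4, a5, a6, a7, a8, -⟩ := hX1 X hXa.1
  obtain ⟨b1, b2, -⟩ := hX2 X hXa.2
  obtain ⟨-, -, c3⟩ := hX4 X hXb.2
  have hX3' := hX3 X hXb.1
  have hXpos : (0 : ℝ) < X := by
    have : 0 < X := by omega
    exact_mod_cast this
  have hX1r : (1 : ℝ) ≤ X := by
    have : 1 ≤ X := by omega
    exact_mod_cast this
  have hL0 : 0 ≤ Real.log X := Real.log_nonneg hX1r
  have hL1 : 0 < Real.log X := Real.log_pos (by
    have : 3 ≤ X := a1
    have h2 : (3 : ℝ) ≤ X := by exact_mod_cast this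
    linarith)
  have hl0 : (0 : ℝ) < l := by exact_mod_cast hl.pos
  have hl1 : (1 : ℝ) ≤ l := by exact_mod_cast hl.one_lt.le
  have hlP : (l : ℝ) < PP X := hlX.trans_lt b1
  unfold Fac at hf
  rw [mem_filter, mem_product, mem_Icc, mem_Icc] at hf
  obtain ⟨⟨⟨f1, -⟩, ⟨f2, -⟩⟩, ef1, ef2, -⟩ := hf
  have hlf1 : ¬ l ∣ f.1 := fun hd => by
    have := (ef1.dp.2 l hl hd).2
    linarith
  have hlf2 : ¬ l ∣ f.2 := fun hd => by
    have := (ef2.dp.2 l hl hd).2
    linarith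
  have hlprime : Prime (l : ℤ) := Nat.prime_iff_prime_int.1 hl
  by_cases hE : (i.val = 1 → ¬ (l : ℤ) ∣ v.2) ∧ (i.val = 9 → ¬ (l : ℤ) ∣ dt v z)
  swap
  · have hemp : (GS p X).filter (fun u => fE u = f ∧ (l : ℤ) ∣ dt v (u i)) = ∅ := by
      rw [Finset.filter_eq_empty_iff]
      rintro u hu ⟨hfu, hd⟩
      have h := ua7_GS hu
      apply hE
      constructor
      · intro e1 hd2
        have hi : i = (1 : Fin 11) := Fin.ext e1
        subst hi
        have h1 := ua7_u1 h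
        rw [hfu] at h1
        have h2 : (l : ℤ) ∣ v.1 * (f.1 : ℤ) := by
          have h3 : v.1 * (f.1 : ℤ) = dt v (u (1 : Fin 11)) + v.2 * (u (1 : Fin 11)).1 := by
            rw [← h1]; unfold dt; ring
          rw [h3]
          exact dvd_add hd (hd2.mul_right _)
        rcases hlprime.dvd_or_dvd h2 with h3 | h3
        · exact hv ⟨h3, hd2⟩
        · exact hlf1 (by exact_mod_cast h3)
      · intro e1 hd2
        have hi : i = (9 : Fin 11) := Fin.ext e1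
        subst hi
        have h1 := ua7_u9 hc h
        rw [hfu] at h1
        have h2 : (l : ℤ) ∣ (f.2 : ℤ) * dt v ws := by
          have h3 : (f.2 : ℤ) * dt v ws =
              dt v (u (9 : Fin 11)) - dt (u (9 : Fin 11)) ws * dt v z := by
            rw [← h1]
            have hw := ws_det
            unfold dt at hw ⊢
            linear_combination (v.1 * (u (9 : Fin 11)).2 - v.2 * (u (9 : Fin 11)).1) * hw
          rw [h3]
          exact dvd_sub hd (hd2.mul_left _)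
        rcases hlprime.dvd_or_dvd h2 with h3 | h3
        · exact hlf2 (by exact_mod_cast h3)
        · apply hv
          have hvv := vec_ws v
          have hzv : (l : ℤ) ∣ dt z v := by
            have : dt z v = - dt v z := by unfold dt; ring
            rw [this]
            exact (dvd_neg).2 hd2
          constructor
          · have := congrArg Prod.fst hvv
            rw [this]
            exact dvd_add (h3.mul_right _) (hzv.mul_right _)
          · have := congrArg Prod.snd hvv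
            rw [this]
            exact dvd_add (h3.mul_right _) (hzv.mul_right _)
    rw [hemp, Finset.sum_empty]
    positivity
  -- the parameters
  have hlm : ∀ q : ℕ, q.Prime → q ∣ f.1 * f.2 → PP X < (q : ℝ) := by
    intro q hq hd
    rcases (Nat.Prime.dvd_mul hq).1 hd with h | h
    · exact (ef1.dp.2 q hq h).2
    · exact (ef2.dp.2 q hq h).2
  have hm0 : 0 < f.1 * f.2 := Nat.mul_pos f1 f2
  have hfX : ∀ d : ℕ, EF p X d → (d : ℝ) ≤ X := by
    intro d hd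
    calc (d : ℝ) ≤ (X : ℝ) ^ p.ep := hd.hi
      _ ≤ (X : ℝ) ^ (1 : ℝ) :=
          Real.rpow_le_rpow_of_exponent_le hX1r (hp.ep1.trans (by norm_num))
      _ = X := Real.rpow_one _
  have hf1r : (1 : ℝ) ≤ f.1 := by exact_mod_cast f1
  have hf2r : (1 : ℝ) ≤ f.2 := by exact_mod_cast f2
  have hlogm : Real.log ((f.1 * f.2 : ℕ) : ℝ) ≤ 2 * Real.log X := by
    rw [Nat.cast_mul, Real.log_mul (by linarith) (by linarith)]
    have h1 := Real.log_le_log (by linarith) (hfX _ ef1)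
    have h2 := Real.log_le_log (by linarith) (hfX _ ef2)
    linarith
  obtain ⟨P, hP⟩ : ∃ P : ℕ, P = ⌊(X : ℝ) ^ t⌋₊ := ⟨_, rfl⟩
  obtain ⟨P0, hP0⟩ : ∃ P0 : ℕ, P0 = ⌊PP X⌋₊ := ⟨_, rfl⟩
  have hP1 : 1 ≤ P := by omega
  have hPX : (P : ℝ) ≤ (X : ℝ) ^ t := by rw [hP]; exact Nat.floor_le (by positivity)
  have hPk1 : (1 : ℝ) ≤ (P : ℝ) ^ k := one_le_pow₀ (by exact_mod_cast hP1)
  have hPk : (P : ℝ) ^ k ≤ (X : ℝ) ^ (a / 4) := by
    calc (P : ℝ) ^ k ≤ ((X : ℝ) ^ t) ^ k := pow_le_pow_left₀ (Nat.cast_nonneg _) hPX k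
      _ = (X : ℝ) ^ (t * k) := by rw [← Real.rpow_natCast, ← Real.rpow_mul hXpos.le]
      _ ≤ _ := Real.rpow_le_rpow_of_exponent_le hX1r ht3
  have hl4 : 4 * (l : ℝ) ≤ (X : ℝ) ^ (a / 4) := by linarith
  obtain ⟨S, hS⟩ : ∃ S : Finset ℕ,
    S = (prs ps P).filter (fun q => ¬ q ∣ f.1 * f.2 ∧ q ≠ l) := ⟨_, rfl⟩
  have hSm : ∀ q ∈ S, q.Prime ∧ ps < q ∧ q ≤ P ∧ ¬ q ∣ f.1 * f.2 ∧ q ≠ l := by
    intro q hq
    rw [hS, mem_filter, prs, mem_filter, mem_Ioc] at hq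
    exact ⟨hq.1.2, hq.1.1.1, hq.1.1.2, hq.2⟩
  have hlS : l ∉ S := fun h => (hSm l h).2.2.2.2 rfl
  have hSS : (prs ps P).filter (fun q => ¬ q ∣ f.1 * f.2 * l) = S := by
    rw [hS]
    apply Finset.filter_congr
    intro q hq
    rw [prs, mem_filter] at hq
    rw [Nat.Prime.dvd_mul hq.2, Nat.prime_dvd_prime_iff_eq hq.2 hl]
    tauto
  have hloc : ∀ q ∈ S, LocS feU vqU q (LawU f.1 f.2 q) C0 := by
    intro q hq
    obtain ⟨h1, h2, -, h4, -⟩ := hSm q hq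
    exact hLoc q f.1 f.2 h1 (by omega) (fun h => h4 (h.mul_right _)) (fun h => h4 (h.mul_left _))
  obtain ⟨η, hη⟩ : ∃ η : ℝ, η = (X : ℝ) ^ (-(2 * a)) := ⟨_, rfl⟩
  have hη0 : 0 ≤ η := by rw [hη]; positivity
  have hlη : 4 * (l : ℝ) * η ≤ (X : ℝ) ^ (-a) := by
    calc 4 * (l : ℝ) * η ≤ (X : ℝ) ^ (a / 4) * η := mul_le_mul_of_nonneg_right hl4 hη0
      _ = (X : ℝ) ^ (-(7 / 4 * a)) := by rw [hη, ← Real.rpow_add hXpos]; congr 1; ring
      _ ≤ _ := Real.rpow_le_rpow_of_exponent_le hX1r (by linarith)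
  have hQ2 : (((P ^ k * l) ^ 2 : ℕ) : ℝ) ≤ (X : ℝ) ^ a := by
    push_cast
    have h1 : (P : ℝ) ^ k * l ≤ (X : ℝ) ^ (a / 2) := by
      calc (P : ℝ) ^ k * l ≤ (X : ℝ) ^ (a / 4) * (X : ℝ) ^ (a / 4) :=
            mul_le_mul hPk (by linarith) hl0.le (by positivity)
        _ = _ := by rw [← Real.rpow_add hXpos]; congr 1; ring
    calc ((P : ℝ) ^ k * l) ^ 2 ≤ ((X : ℝ) ^ (a / 2)) ^ 2 := pow_le_pow_left₀ (by positivity) h1 2
      _ = (X : ℝ) ^ a := by
          rw [← Real.rpow_natCast, ← Real.rpow_mul hXpos.le]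
          congr 1
          push_cast
          ring
  have hPhS : ∀ u : PolyK 11, 0 ≤ ∏ q ∈ S, Ph W P0 feU vqU u q := by
    intro u
    apply Finset.prod_nonneg
    intro q hq
    exact (Ph_mem W hW P0 feU vqU (hSm q hq).1
      (by rw [fd_N0]; have := (hSm q hq).2.1; omega) u).1
  have hex : 0 ≤ Real.log X ^ exW feU vqU W := Real.rpow_nonneg hL0 _
  rw [← hP, ← hP0]
  -- one cell
  have hone : ∀ s : Fin 11 → ℕ, ∑ u ∈ ((GS p X).filter
      (fun u => fE u = f ∧ (l : ℤ) ∣ dt v (u i))).filter (fun u => ua7_sz u = s),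
      edP W feU P (tp u) * vxP W feU vqU P0 P (tp u) ≤
      D / l * Real.log X ^ exW feU vqU W := by
    intro s
    obtain ⟨G, hG⟩ : ∃ G : Finset (Vec 10), G = ((GS p X).filter
      (fun u => fE u = f ∧ (l : ℤ) ∣ dt v (u i))).filter (fun u => ua7_sz u = s) := ⟨_, rfl⟩
    rw [← hG]
    have hGm : ∀ u ∈ G, GP p X u ∧ fE u = f ∧ (l : ℤ) ∣ dt v (u i) ∧ ua7_sz u = s := by
      intro u hu
      rw [hG, mem_filter, mem_filter] at hu
      exact ⟨ua7_GS hu.1.1, hu.1.2.1, hu.1.2.2, hu.2⟩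
    rcases G.eq_empty_or_nonempty with he | ⟨u0, hu0⟩
    · rw [he, Finset.sum_empty]
      positivity
    obtain ⟨g1, g2, g3, g4⟩ := hGm u0 hu0
    have hEq : EquiF (FamO (cU f.1 f.2) (ua7_A p.c1 f s)) pol9 (LawU f.1 f.2)
        (insert l S) ((P ^ k * l : ℕ) : ℝ) η := by
      refine equi_LawU (hequi (cU f.1 f.2) (ua7_A p.c1 f s) (P ^ k * l) η (insert l S) ?_ ?_ hη0 ?_)
      · intro q hq
        rcases Finset.mem_insert.1 hq with h | h
        · rw [h]; exact hl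
        · exact (hSm q h).1
      · exact Nat.mul_pos (Nat.pow_pos hP1) hl.pos
      · intro j hj
        have h1 := ua7_A_ge hp (by omega) ef1 ef2 g1 g4 hj
        have h2 : (X : ℝ) ^ a ≤ (X : ℝ) ^ p.ew :=
          Real.rpow_le_rpow_of_exponent_le hX1r (by linarith)
        constructor
        · exact_mod_cast (hQ2.trans h2).trans h1
        · calc Cb * ((P ^ k * l : ℕ) : ℝ) ^ 2 ≤ (X : ℝ) ^ a * (X : ℝ) ^ a := by
                apply mul_le_mul a8 _ (by positivity) (by positivity)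
                exact_mod_cast hQ2
            _ = (X : ℝ) ^ (-(2 * a)) * (X : ℝ) ^ p.ew := by
                rw [← Real.rpow_add hXpos, ← Real.rpow_add hXpos]; congr 1; rw [ha]; ring
            _ ≤ η * (ua7_A p.c1 f s j : ℝ) := by
                rw [hη]
                exact mul_le_mul_of_nonneg_left h1 (by positivity)
    have hμ := ua7_mu (d0 := f.1) (d9 := f.2) hl hi1 hi9 hv hE.1 hE.2
    obtain ⟨A, hA⟩ : ∃ A : PolyK 11 → Prop, ∀ u, A u = ((l : ℤ) ∣ dt v (u i)) :=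
      ⟨fun u => (l : ℤ) ∣ dt v (u i), fun _ => rfl⟩
    obtain ⟨hE1, hE2⟩ := equi_filter_pr (A := A)
      (μ := 1 / (l : ℝ)) hl.one_lt.le hlS (by simp only [hA]; exact ua7_per l v i) hEq
      (by simp only [hA]; exact hμ.symm) (by positivity) hη0
      (by
        have h1 : (X : ℝ) ^ (-a) ≤ 1 := Real.rpow_le_one_of_one_le_of_nonpos hX1r (by linarith)
        rw [div_div, le_div_iff₀ (by positivity)]
        nlinarith)
      (by
        push_cast
        nlinarith)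
      (fun q hq => (hloc q hq).ne)
    obtain ⟨O', hO', hE1, hE2⟩ : ∃ O' : Finset (PolyK 11),
        (∀ o, o ∈ O' ↔ o ∈ FamO (cU f.1 f.2) (ua7_A p.c1 f s) ∧ (l : ℤ) ∣ dt v (pol9 o i)) ∧
        EquiF O' pol9 (LawU f.1 f.2) S (((P ^ k * l : ℕ) : ℝ) / (l : ℝ))
          (4 * η / (1 / (l : ℝ))) ∧ (O'.card : ℝ) ≤ 2 * (1 / (l : ℝ)) *
            ((FamO (cU f.1 f.2) (ua7_A p.c1 f s)).card : ℝ) := by
      refine ⟨_, ?_, hE1, hE2⟩
      intro o
      rw [mem_filter, hA]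
    have e1 : ((P ^ k * l : ℕ) : ℝ) / (l : ℝ) = (P : ℝ) ^ k := by
      push_cast
      field_simp
    rw [e1] at hE1
    have hη2 : 4 * η / (1 / (l : ℝ)) ≤ (X : ℝ) ^ (-a) := by
      have : 4 * η / (1 / (l : ℝ)) = 4 * (l : ℝ) * η := by field_simp
      rw [this]
      exact hlη
    have hsum := hX3' (PolyK 11) O' pol9 (LawU f.1 f.2) (f.1 * f.2) l
      (4 * η / (1 / (l : ℝ))) hm0 hlm hlogm (by positivity) hη2 S (by rw [hS, hP]) hloc
      (by rw [← hP]; exact hE1)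
    rw [← hP0] at hsum
    obtain ⟨R, hR⟩ : ∃ R : ℝ, R = ∏ j ∈ feU, (ua7_r f s j * ua7_r f s (j + 1)) := ⟨_, rfl⟩
    have hrp : ∀ j, 0 < ua7_r f s j := by
      intro j
      have hz := ua7_nmz
      unfold ua7_r
      split_ifs
      · linarith
      · exact div_pos (by linarith) (by linarith)
      · positivity
    have hR0 : 0 < R := by
      rw [hR]
      exact Finset.prod_pos (fun j _ => mul_pos (hrp _) (hrp _))
    have hcardF := ua7_card hc hc1 f s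
    rw [← hR] at hcardF
    have hsub : G.image ua7_inv ⊆ O' := by
      intro o ho
      rw [Finset.mem_image] at ho
      obtain ⟨u, hu, rfl⟩ := ho
      obtain ⟨h1, h2, h3, h4⟩ := hGm u hu
      rw [hO', ua7_pol]
      exact ⟨ua7_mem hp hc1 h1 h2 h4, h3⟩
    have himg : ∑ u ∈ G, ∏ q ∈ S, Ph W P0 feU vqU (tp u) q =
        ∑ o ∈ G.image ua7_inv, ∏ q ∈ S, Ph W P0 feU vqU (pol9 o) q := by
      rw [Finset.sum_image (fun a _ b _ h => ua7_inv_inj h)]
      refine Finset.sum_congr rfl (fun u _ => ?_)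
      rw [ua7_pol]
    calc ∑ u ∈ G, edP W feU P (tp u) * vxP W feU vqU P0 P (tp u)
        ≤ ∑ u ∈ G, C2 / (p.c1 ^ 8 * R) * ∏ q ∈ S, Ph W P0 feU vqU (tp u) q := by
          apply Finset.sum_le_sum
          intro u hu
          obtain ⟨h1, h2, h3, h4⟩ := hGm u hu
          have h5 := hw1 X a2 P0 P ps hps (by omega) (by rw [hP0]; exact a3)
            (by rw [hP]; exact a6) (tp u) (by rw [hP0]; exact gp_isP (by omega) h1 feU_sub)
            (ua7_DE_le hp (by omega) c3 h1) (f.1 * f.2 * l) (ua7_cop h1 h2 hl hlP)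
          rw [hSS] at h5
          have h7 : edP W feU P (tp u) * vxP W feU vqU P0 P (tp u) ≤
            C2 / (DE feU (tp u) : ℝ) * ∏ q ∈ S, Ph W P0 feU vqU (tp u) q := h5
          refine h7.trans (mul_le_mul_of_nonneg_right ?_ (hPhS _))
          have h6 := ua7_DE_ge hp h1 h2 h4
          rw [← hR] at h6
          exact div_le_div_of_nonneg_left hC2 (by positivity) h6
      _ = C2 / (p.c1 ^ 8 * R) * ∑ u ∈ G, ∏ q ∈ S, Ph W P0 feU vqU (tp u) q := by
          rw [Finset.mul_sum]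
      _ ≤ C2 / (p.c1 ^ 8 * R) * (C3 * (2 * (1 / (l : ℝ)) * ((ua7_B p.c1) ^ 11 * R)) *
            Real.log X ^ exW feU vqU W) := by
          apply mul_le_mul_of_nonneg_left _ (by positivity)
          rw [himg]
          refine (Finset.sum_le_sum_of_subset_of_nonneg hsub (fun u _ _ => hPhS (pol9 u))).trans ?_
          refine hsum.trans ?_
          apply mul_le_mul_of_nonneg_right _ hex
          apply mul_le_mul_of_nonneg_left _ hC3
          refine hE2.trans ?_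
          exact mul_le_mul_of_nonneg_left hcardF (by positivity)
      _ = D / l * Real.log X ^ exW feU vqU W := by
          rw [hD]
          have h8 := hR0.ne'
          have h9 := hc.ne'
          field_simp
  refine (ua7_all hp a1 c3 _ (fun u hu => ua7_GS (mem_filter.1 hu).1) _ (by positivity)
    hone).trans (le_of_eq ?_)
  rw [Real.rpow_add hL1, show (7 : ℝ) = ((7 : ℕ) : ℝ) by norm_num, Real.rpow_natCast]
  ring

end Pool.Agent.AQ.UPA

namespace Pool.Agent.AQ.UPA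

theorem usum_U : type_of% @usum_U_pr := @usum_U_pr

end Pool.Agent.AQ.UPA
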