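import Pool.Agent.Lib_helper15.AQ.UP.Facts
import Pool.Agent.Lib_helper15.UP.Facts
import Pool.Agent.Lib_helper15.PFMF.F1
import Pool.Agent.Lib_helper15.PENT.TSum
import Pool.Agent.Lib_helper18.AQ.KF.PA4
import Pool.Agent.Lib_helper18.PENKF.PA4
import Pool.Agent.Lib_helper68.LEV.MRT
import Pool.Agent.Lib_helper15.UPAF.UC1
import Pool.Agent.Lib_helper15.AQ.PFMF.F1


/-! Block UC1 -/

set_option autoImplicit false

namespace Pool.Agent.AQ.UPA

open Finset Filter Pool.Agent.PENT Pool.Agent.AQ.NC Pool.Agent.AQ.PFM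
open Pool.Agent.PENK (PolyK Wts dl mL ich EquiF PerP prs lw L1 Rf)
open Pool.Agent.PFM (DE ph LocS Bo Un)
open Pool.Agent.UPA (tp exW feD feU vqU cs cr FamO LawO edP mem_feD mem_feU mem_vqU)
open Pool.Agent.AQ.PENK (nz)

variable [Cst]

theorem uc1_al {j : Fin 11} (hj : j ∈ feU) : (WD 0).al j = 1 / 4 := by
  rw [mem_feU] at hj
  have h10 : j ≠ 10 := by
    rintro rfl
    exact absurd hj.2 (by decide)
  show (if j = 10 then (0 : ℝ) else alE 10 j.val ^ ((1 : ℝ) + 0)) = 1 / 4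
  rw [if_neg h10, add_zero, Real.rpow_one]
  unfold alE
  rw [if_neg (by omega)]

theorem uc1_be (i : Fin 11) : (WD 0).be i = beV 10 i.val := by
  show beV 10 i.val ^ ((1 : ℝ) + 0) = _
  rw [add_zero, Real.rpow_one]

theorem uc1_ok : (WD 0).Ok := by
  have hal : ∀ j : Fin 11, (WD 0).al j = if j = 10 then (0 : ℝ) else alE 10 j.val := by
    intro j
    show (if j = 10 then (0 : ℝ) else alE 10 j.val ^ ((1 : ℝ) + 0)) = _
    rw [add_zero, Real.rpow_one]
  have hbo : ∀ j : Fin 11, (WD 0).bo j = boV j.val := fun j => rfl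
  refine ⟨?_, ?_, ?_, ?_, ?_, ?_⟩
  · intro j
    rw [hal]
    unfold alE
    split_ifs <;> norm_num
  · intro j
    rw [hal]
    unfold alE
    split_ifs <;> norm_num
  · intro j
    rw [uc1_be]
    unfold beV
    split_ifs <;> norm_num
  · intro j
    rw [uc1_be]
    unfold beV
    split_ifs <;> norm_num
  · intro j
    rw [hbo]
    unfold boV
    split_ifs <;> norm_num
  · intro j
    rw [hbo]
    unfold boV
    split_ifs <;> norm_num

/-- the primes of the product of the interior edges -/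
theorem uc1_prod {p : Prm 10} {X : ℕ} {u : Vec 10} (h : GP p X u) (g : ℕ → ℝ) :
    ∏ j ∈ feU, ∏ l ∈ (dn (tp u) j).primeFactors, g l = ∏ l ∈ (Dint u).primeFactors, g l := by
  have h10 : ∀ j ∈ feU, j ≠ 10 := fun j hj => mem_feD.1 (feU_sub hj)
  have hne : ∀ j ∈ feU, dn (tp u) j ≠ 0 := fun j hj => (gp_dn_dp h j (h10 j hj)).1.ne_zero
  have e : (Dint u).primeFactors = feU.biUnion (fun j => (dn (tp u) j).primeFactors) := by
    rw [← DE_feU]
    unfold DE
    ext l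
    rw [mem_biUnion, Nat.mem_primeFactors]
    constructor
    · rintro ⟨h1, h2, _⟩
      obtain ⟨j, hj, hd⟩ := (Prime.dvd_finsetProd_iff h1.prime _).1 h2
      exact ⟨j, hj, Nat.mem_primeFactors.2 ⟨h1, hd, hne j hj⟩⟩
    · rintro ⟨j, hj, hl⟩
      rw [Nat.mem_primeFactors] at hl
      exact ⟨hl.1, hl.2.1.trans (dvd_prod_of_mem _ hj), prod_ne_zero_iff.2 hne⟩
  rw [e, prod_biUnion]
  intro i hi j hj hij
  refine Nat.Coprime.disjoint_primeFactors ?_
  have hi1 := h10 i hi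
  have hj1 := h10 j hj
  show Nat.Coprime (dn (tp u) i) (dn (tp u) j)
  rw [dn_dE u i hi1, dn_dE u j hj1]
  have h1 : i.val ≠ 10 := fun h => hi1 (Fin.ext h)
  have h2 : j.val ≠ 10 := fun h => hj1 (Fin.ext h)
  have h3 := i.isLt
  have h4 := j.isLt
  rcases Nat.lt_or_ge i.val j.val with h5 | h5
  · exact h.cop _ _ (by omega) (by omega) (by omega)
  · have h6 : i.val ≠ j.val := fun h => hij (Fin.ext h)
    exact (h.cop _ _ (by omega) (by omega) (by omega)).symm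

theorem uc1_gD {p : Prm 10} {X : ℕ} {u : Vec 10} (h : GP p X u) {P : ℕ}
    (hP : (P : ℝ) ≤ p.Y X) : gD p X u ≤ edP (WD 0) feU P (tp u) := by
  have e : edP (WD 0) feU P (tp u) =
      ∏ l ∈ (Dint u).primeFactors, 2 * lw P l (1 / 4) / (l : ℝ) := by
    rw [← uc1_prod h]
    unfold edP
    refine prod_congr rfl fun j hj => ?_
    rw [uc1_al hj]
  rw [e]
  unfold gD
  refine prod_le_prod ?_ ?_
  · intro l _
    split_ifs <;> positivity
  · intro l hl
    have hl0 : (0 : ℝ) < l := by exact_mod_cast (Nat.prime_of_mem_primeFactors hl).pos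
    have h1 : 2 / ((l : ℝ) + 1) ≤ 2 / (l : ℝ) :=
      div_le_div_of_nonneg_left (by norm_num) hl0 (by linarith)
    have h2 : (if (l : ℝ) ≤ p.Y X then (1 : ℝ) / 4 else 1) ≤ lw P l (1 / 4) := by
      unfold lw
      by_cases hlP : l ≤ P
      · have : (l : ℝ) ≤ p.Y X := le_trans (by exact_mod_cast hlP) hP
        rw [if_pos hlP, if_pos this]
      · rw [if_neg hlP]
        split_ifs <;> norm_num
    have h3 : (0 : ℝ) ≤ (if (l : ℝ) ≤ p.Y X then (1 : ℝ) / 4 else 1) := by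
      split_ifs <;> norm_num
    calc 2 / ((l : ℝ) + 1) * (if (l : ℝ) ≤ p.Y X then (1 : ℝ) / 4 else 1) ≤
          2 / (l : ℝ) * lw P l (1 / 4) := mul_le_mul h1 h2 h3 (by positivity)
      _ = 2 * lw P l (1 / 4) / (l : ℝ) := by ring

theorem uc1_edP0 (P : ℕ) (u : Vec 10) : 0 ≤ edP (WD 0) feU P (tp u) := by
  unfold edP
  refine prod_nonneg fun j hj => prod_nonneg fun l _ => ?_
  rw [uc1_al hj]
  have h3 : (0 : ℝ) ≤ lw P l (1 / 4) := by
    unfold lw
    split_ifs <;> norm_num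
  positivity

theorem uc1_gD0 (p : Prm 10) (X : ℕ) (u : Vec 10) : 0 ≤ gD p X u := by
  unfold gD
  refine prod_nonneg fun l _ => ?_
  split_ifs <;> positivity

/-- the mean of the interior local factor -/
theorem uc1_MV {p : Prm 10} {X : ℕ} (u : Vec 10) {l : ℕ} (hl : l.Prime) (h2 : PENM.NZ < l)
    (hY : (l : ℝ) ≤ p.Y X) : MV l (Iv p X u l) = 1 - v1 (WD 0) ⌊PP X⌋₊ vqU (tp u) l := by
  have e1 : Iv p X u l = ph (WD 0) ⌊PP X⌋₊ vqU (tp u) l := by
    funext q
    unfold Iv PW ph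
    have e0 : ivx 10 = vqU := by
      ext i
      rw [mem_vqU]
      unfold ivx
      rw [mem_filter]
      have : (i : ℕ) < 11 := i.isLt
      constructor
      · rintro ⟨_, a, b⟩
        exact ⟨a, by omega⟩
      · rintro ⟨a, b⟩
        exact ⟨mem_univ _, a, by omega⟩
    rw [e0]
    refine prod_congr rfl fun i _ => ?_
    unfold Pool.Agent.PENK.ind
    have e3 : fv q (u i) = Rf q (tp u i) := rfl
    rw [e3]
    have e4 : wyV 10 (PP X) (p.Y X) i.val l = (WD 0).gi ⌊PP X⌋₊ l i := by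
      unfold wyV Pool.Agent.PENK.Wts.gi
      rw [if_neg (PENM.NZ_R h2)]
      by_cases h : (l : ℝ) ≤ PP X
      · rw [if_pos h, if_pos (Nat.le_floor h)]
        rfl
      · have hPP : 0 ≤ PP X := (Real.exp_pos _).le
        rw [if_neg h, if_pos hY, if_neg (fun hc => h ((Nat.le_floor_iff hPP).1 hc)), uc1_be]
    beta_reduce
    rw [e4]
  rw [e1]
  unfold v1
  have e5 : (fun R => 1 - ph (WD 0) ⌊PP X⌋₊ vqU (tp u) l R) =
      fun R => (1 : ℝ) + (-1) * ph (WD 0) ⌊PP X⌋₊ vqU (tp u) l R := by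
    funext R
    ring
  rw [e5, PENK.mV_add (fun _ => (1 : ℝ)) (fun R => (-1) * ph (WD 0) ⌊PP X⌋₊ vqU (tp u) l R),
    PENK.mV_smul, PENK.mV_const hl h2]
  have e6 : MV l (ph (WD 0) ⌊PP X⌋₊ vqU (tp u) l) =
      PENK.mV l (ph (WD 0) ⌊PP X⌋₊ vqU (tp u) l) := by
    unfold MV PENK.mV
    have e7 : V3 l = PENK.VV l := by
      unfold V3 PENK.VV
      rw [fd_D]
    rw [e7]
  rw [e6]
  ring

theorem uc1_sum {p : ℕ} (s : Finset (Fin 11)) (h : Fin 11 → Pool.Agent.PENK.Bas → ℝ) :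
    PENK.mV p (fun r => ∑ i ∈ s, h i r) = ∑ i ∈ s, PENK.mV p (h i) := by
  unfold PENK.mV
  rw [Finset.sum_comm, Finset.sum_div]

/-- for the primes which do not split the local factor is one -/
theorem uc1_three {p : Prm 10} {X : ℕ} {u : Vec 10} (h : GP p X u) {l : ℕ} (hl : l.Prime)
    (h2 : PENM.NZ < l) (h4 : ¬ Sp l) (P0 : ℕ) : v1 (WD 0) P0 vqU (tp u) l = 0 := by
  refine le_antisymm ?_ (v1_mem (WD 0) uc1_ok P0 vqU (tp u) hl h2).1
  unfold v1
  have h1 := PENK.mV_mono (p := l) (h := fun R => 1 - ph (WD 0) P0 vqU (tp u) l R)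
    (h' := fun R => ∑ i ∈ vqU, ich ((l : ℤ) ∣ Rf R (tp u i))) 
    (Pool.Agent.PFM.f1_le (WD 0) uc1_ok P0 vqU (tp u) l)
  rw [uc1_sum vqU (fun i R => ich ((l : ℤ) ∣ Rf R (tp u i)))] at h1
  refine h1.trans (le_of_eq ?_)
  refine sum_eq_zero fun i _ => ?_
  rw [PENK.mV_one hl h2 (tp u i) (gp_prim h i hl), if_neg (fun h5 => h4 ((sp_iff hl h2).1 h5))]

open Classical in
/-- lower bound for the factor of one prime -/
theorem uc1_exp {p : Prm 10} {X : ℕ} {u : Vec 10} (h : GP p X u) {l : ℕ} (hl : l.Prime)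
    (hN : PENM.NZ < l) (h2 : 1100 < l) (P0 : ℕ) :
    Real.exp (-(44 * if Sp l then 1 / (l : ℝ) else 0)) ≤
      1 - v1 (WD 0) P0 vqU (tp u) l := by
  by_cases h4 : Sp l
  · rw [if_pos h4]
    have h3 := (v1_bounds (WD 0) uc1_ok P0 vqU (tp u) hl hN
      (fun i _ => gp_prim h i hl)).2
    have hlr : (1100 : ℝ) < l := by exact_mod_cast h2
    have h5 : 2 * ((11 : ℕ) : ℝ) / ((l : ℝ) + 1) ≤ 22 / l := by
      rw [div_le_div_iff₀ (by linarith) (by linarith)]
      push_cast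
      nlinarith
    set y : ℝ := 22 / l with hy
    have hy0 : 0 < y := by
      rw [hy]
      positivity
    have hy1 : y ≤ 1 / 2 := by
      rw [hy, div_le_iff₀ (by linarith)]
      linarith
    have h6 : Real.exp (-(44 * (1 / (l : ℝ)))) = (Real.exp (2 * y))⁻¹ := by
      rw [← Real.exp_neg]
      congr 1
      rw [hy]
      ring
    have h7 : 2 * y + 1 ≤ Real.exp (2 * y) := Real.add_one_le_exp _
    have h8 : (Real.exp (2 * y))⁻¹ ≤ (2 * y + 1)⁻¹ := inv_anti₀ (by linarith) h7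
    have h9 : (2 * y + 1)⁻¹ ≤ 1 - y := by
      rw [inv_le_iff_one_le_mul₀ (by linarith)]
      nlinarith
    rw [h6]
    have h10 := h3.trans h5
    linarith
  · rw [if_neg h4, uc1_three h hl hN h4]
    simp

/-- the primes of `Dall` which do not divide `Dint` -/
theorem uc1_ends {u : Vec 10} {l : ℕ} (hl : l.Prime) (h1 : l ∣ Dall u) (h2 : ¬ l ∣ Dint u) :
    l ∣ dE u 1 * dE u 10 := by
  unfold Dall at h1
  obtain ⟨i, hi, hd⟩ := (Prime.dvd_finsetProd_iff hl.prime _).1 h1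
  rw [mem_Icc] at hi
  have hi2 : i ≤ 10 := hi.2
  by_cases hi1 : i = 1
  · rw [hi1] at hd
    exact hd.mul_right _
  · by_cases hi10 : i = 10
    · rw [hi10] at hd
      exact hd.mul_left _
    · exfalso
      apply h2
      unfold Dint
      refine hd.trans (dvd_prod_of_mem _ ?_)
      rw [mem_Icc]
      constructor
      · omega
      · show i ≤ 9
        omega

/-- block UC1 (uses PFMF/F1 `v1_bounds`; PENKF/PA4 `mV_one`): `gk = okf (gD gS)`, `okf ≤ 1`; `gD ≤ edP`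
(`2/(l+1) ≤ 2/l`, weight `1/4` for `l ≤ Y`, `P ≤ Y`); `MV l (Iv ..) = 1 - v1 (WD 0) P0 vqU u l`
(`V3 l = VV l`, `mean (1 - h) = 1 - mean h`); primes in `gS`: `1 mod 4`, `(P00, Y]`, not dividing
`Dall`. In `vxP`: primes of `(1100, P]` not dividing `Dint`: for `l = 3 mod 4` the factor is `1`; the
primes `≤ P00` cost `∏ (1 - 22/(l+1))^(-1) ≤ C (log P00)^(C₂)`; the primes of `d_0 d_9` (all `> PP X`,
at most `2 log X`) cost at most `2`; primes in `(P, Y]` are dropped from `gS`. -/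
theorem gk_le_pr {p : Prm 10} {τ : ℝ} (hp : p.Ok τ) (hτ : τ ≤ 1 / 200) {t : ℝ} (ht : 0 < t)
    (htt : t ≤ p.ta) : ∃ C C₂ : ℝ, 0 ≤ C ∧ 0 ≤ C₂ ∧ ∀ P00 : ℕ, pB 10 ≤ P00 → ∃ X₀ : ℕ, ∀ X ≥ X₀,
    ∀ u : Vec 10, GP p X u → ∀ q : ℤ × ℤ × ℤ, gk p X P00 q u ≤
      C * Real.log P00 ^ C₂ * (edP (WD 0) feU ⌊(X : ℝ) ^ t⌋₊ (tp u) *
        vxP (WD 0) feU vqU ⌊PP X⌋₊ ⌊(X : ℝ) ^ t⌋₊ (tp u)) := by
  classical
  obtain ⟨CM, hCM⟩ := LEV.mertens_two
  obtain ⟨X1, hX1⟩ := tw_large 1 1 one_pos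
  refine ⟨Real.exp (44 * (CM + 1)), 44, (Real.exp_pos _).le, by norm_num, ?_⟩
  intro P00 hP00
  obtain ⟨X2, hX2⟩ := exists_nat_ge (Real.exp 100)
  refine ⟨max X1 X2, ?_⟩
  intro X hX u hu q
  have hXa : X1 ≤ X := (le_max_left _ _).trans hX
  have hXb : X2 ≤ X := (le_max_right _ _).trans hX
  have hXe : Real.exp 100 ≤ X := hX2.trans (by exact_mod_cast hXb)
  have hX0 : (0 : ℝ) < X := (Real.exp_pos _).trans_le hXe
  have hL : 100 ≤ Real.log X := by
    rw [Real.le_log_iff_exp_le hX0]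
    exact hXe
  have hX1' : (1 : ℝ) ≤ X := by
    have : (1 : ℝ) ≤ Real.exp 100 := Real.one_le_exp (by norm_num)
    linarith
  obtain ⟨-, -, -, -, -, hPP20, -, -⟩ := hX1 X hXa X (by rw [Real.rpow_one]) le_rfl
  set P : ℕ := ⌊(X : ℝ) ^ t⌋₊ with hP
  have hPY : (P : ℝ) ≤ p.Y X := by
    refine (Nat.floor_le (Real.rpow_nonneg hX0.le _)).trans ?_
    exact Real.rpow_le_rpow_of_exponent_le hX1' htt
  have hPP0 : 0 < PP X := Real.exp_pos _
  set f : ℕ → ℝ := fun l => 1 - v1 (WD 0) ⌊PP X⌋₊ vqU (tp u) l with hf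
  have hf01 : ∀ l : ℕ, l.Prime → PENM.NZ < l → 0 ≤ f l ∧ f l ≤ 1 := by
    intro l hl h2
    have h3 := v1_mem (WD 0) uc1_ok ⌊PP X⌋₊ vqU (tp u) hl h2
    constructor
    · show 0 ≤ 1 - v1 (WD 0) ⌊PP X⌋₊ vqU (tp u) l
      linarith
    · show 1 - v1 (WD 0) ⌊PP X⌋₊ vqU (tp u) l ≤ 1
      linarith
  set V : Finset ℕ := (prs (nz 11) P).filter (fun l => ¬ l ∣ DE feU (tp u)) with hV
  have hVm : ∀ l, l ∈ V ↔ (nz 11 < l ∧ l ≤ P) ∧ l.Prime ∧ ¬ l ∣ Dint u := by
    intro l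
    rw [hV, mem_filter, DE_feU]
    unfold prs
    rw [mem_filter, mem_Ioc]
    tauto
  set G : Finset ℕ := (Spr P00 (p.Y X)).filter (fun l => ¬ l ∣ Dall u) with hG
  have hY0 : 0 ≤ p.Y X := (Nat.cast_nonneg _).trans hPY
  have hNP : PENM.NZ ≤ P00 := by
    refine le_trans ?_ hP00
    unfold PENM.NZ pB
    omega
  have h3P : 3 ≤ P00 := by
    refine le_trans ?_ hP00
    unfold pB
    omega
  have hGm : ∀ l, l ∈ G ↔ (P00 < l ∧ (l : ℝ) ≤ p.Y X) ∧ Sp l ∧ ¬ l ∣ Dall u := by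
    intro l
    rw [hG, mem_filter]
    unfold Spr
    rw [mem_filter, mem_Ioc, Nat.le_floor_iff hY0]
    tauto
  have hgS : gS p X P00 u = ∏ l ∈ G, f l := by
    unfold gS
    refine prod_congr rfl fun l hl => ?_
    have hl' := (hGm l).1 hl
    exact uc1_MV u hl'.2.1.prime (lt_of_le_of_lt hNP hl'.1.1) hl'.1.2
  have hvx : vxP (WD 0) feU vqU ⌊PP X⌋₊ P (tp u) = ∏ l ∈ V, f l := rfl
  have hV01 : ∀ l ∈ V, 0 ≤ f l ∧ f l ≤ 1 := by
    intro l hl
    have hl' := (hVm l).1 hl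
    exact hf01 l hl'.2.1 (PENK.nz_N hl'.1.1)
  have hG01 : ∀ l ∈ G, 0 ≤ f l ∧ f l ≤ 1 := by
    intro l hl
    have hl' := (hGm l).1 hl
    exact hf01 l hl'.2.1.prime (lt_of_le_of_lt hNP hl'.1.1)
  -- upper bound of `gS`
  have hGS : ∏ l ∈ G, f l ≤ ∏ l ∈ G.filter (fun l => l ∈ V), f l := by
    rw [← prod_filter_mul_prod_filter_not G (fun l => l ∈ V)]
    refine mul_le_of_le_one_right ?_ ?_
    · exact prod_nonneg fun l hl => (hG01 l (mem_filter.1 hl).1).1
    · exact prod_le_one (fun l hl => (hG01 l (mem_filter.1 hl).1).1)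
        fun l hl => (hG01 l (mem_filter.1 hl).1).2
  -- lower bound of the other part of `vxP`
  have hB : Real.exp (-(44 * (Real.log (Real.log P00) + CM + 1))) ≤
      ∏ l ∈ V.filter (fun l => l ∉ G), f l := by
    have h1 : ∏ l ∈ V.filter (fun l => l ∉ G),
        Real.exp (-(44 * if Sp l then 1 / (l : ℝ) else 0)) ≤
        ∏ l ∈ V.filter (fun l => l ∉ G), f l := by
      refine prod_le_prod (fun l _ => (Real.exp_pos _).le) ?_
      intro l hl
      have hl' := (hVm l).1 (mem_filter.1 hl).1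
      have hn : 1100 < l := by
        have := PENK.nz_K hl'.1.1
        omega
      exact uc1_exp hu hl'.2.1 (PENK.nz_N hl'.1.1) hn _
    refine le_trans ?_ h1
    rw [← Real.exp_sum]
    refine Real.exp_le_exp.2 ?_
    rw [sum_neg_distrib, ← mul_sum]
    refine neg_le_neg (mul_le_mul_of_nonneg_left ?_ (by norm_num))
    rw [← sum_filter]
    set m := dE u 1 * dE u 10 with hm
    have hm0 : 0 < m := Nat.mul_pos (Nat.pos_of_ne_zero hu.e1.dp.1.ne_zero)
      (Nat.pos_of_ne_zero hu.e2.dp.1.ne_zero)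
    have hsub : (V.filter (fun l => l ∉ G)).filter (fun l => Sp l) ⊆
        (Icc 1 ⌊(P00 : ℝ)⌋₊).filter Nat.Prime ∪ m.primeFactors := by
      intro l hl
      rw [mem_filter, mem_filter] at hl
      obtain ⟨⟨a, b⟩, c⟩ := hl
      have a' := (hVm l).1 a
      rw [hGm] at b
      rw [mem_union, mem_filter, mem_Icc, Nat.floor_natCast]
      by_cases hlP : l ≤ P00
      · exact Or.inl ⟨⟨by omega, hlP⟩, a'.2.1⟩
      · right
        have hlY : (l : ℝ) ≤ p.Y X := le_trans (by exact_mod_cast a'.1.2) hPY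
        have hD : l ∣ Dall u := by
          by_contra hc
          exact b ⟨⟨by omega, hlY⟩, c, hc⟩
        exact Nat.mem_primeFactors.2 ⟨a'.2.1, uc1_ends a'.2.1 hD a'.2.2, hm0.ne'⟩
    have h2 : ∑ l ∈ (V.filter (fun l => l ∉ G)).filter (fun l => Sp l), 1 / (l : ℝ) ≤
        ∑ l ∈ (Icc 1 ⌊(P00 : ℝ)⌋₊).filter Nat.Prime ∪ m.primeFactors, 1 / (l : ℝ) :=
      sum_le_sum_of_subset_of_nonneg hsub (fun l _ _ => one_div_nonneg.2 (Nat.cast_nonneg l))
    have h3 : ∑ l ∈ (Icc 1 ⌊(P00 : ℝ)⌋₊).filter Nat.Prime ∪ m.primeFactors, 1 / (l : ℝ) ≤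
        ∑ l ∈ (Icc 1 ⌊(P00 : ℝ)⌋₊).filter Nat.Prime, 1 / (l : ℝ) +
          ∑ l ∈ m.primeFactors, 1 / (l : ℝ) := by
      have h4 := sum_union_inter (s₁ := (Icc 1 ⌊(P00 : ℝ)⌋₊).filter Nat.Prime)
        (s₂ := m.primeFactors) (f := fun l : ℕ => 1 / (l : ℝ))
      have h5 : 0 ≤ ∑ l ∈ (Icc 1 ⌊(P00 : ℝ)⌋₊).filter Nat.Prime ∩ m.primeFactors,
          1 / (l : ℝ) := sum_nonneg fun l _ => one_div_nonneg.2 (Nat.cast_nonneg l)
      linarith
    have h6 : ∑ l ∈ (Icc 1 ⌊(P00 : ℝ)⌋₊).filter Nat.Prime, 1 / (l : ℝ) ≤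
        Real.log (Real.log P00) + CM := by
      have h7 := hCM (P00 : ℝ) (by
        have : (3 : ℝ) ≤ P00 := by exact_mod_cast h3P
        linarith)
      have h8 := (abs_le.1 h7).2
      linarith
    have h9 : ∑ l ∈ m.primeFactors, 1 / (l : ℝ) ≤ 1 := by
      have h10 : ∀ l ∈ m.primeFactors, 1 / (l : ℝ) ≤ 1 / PP X := by
        intro l hl
        have hlp := Nat.prime_of_mem_primeFactors hl
        have hlP : PP X < (l : ℝ) := by
          rcases (Nat.Prime.dvd_mul hlp).1 (Nat.dvd_of_mem_primeFactors hl) with h11 | h11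
          · exact (hu.e1.dp.2 l hlp h11).2
          · exact (hu.e2.dp.2 l hlp h11).2
        exact one_div_le_one_div_of_le hPP0 hlP.le
      refine (sum_le_card_nsmul _ _ _ h10).trans ?_
      rw [nsmul_eq_mul]
      have h12 := card_pf_le hm0
      have h13 : (m : ℝ) ≤ X := by
        have h14 : p.ep ≤ 1 / 200 := hp.ep1.trans hτ
        have h15 : (m : ℝ) ≤ (X : ℝ) ^ p.ep * (X : ℝ) ^ p.ep := by
          rw [hm]
          push_cast
          exact mul_le_mul hu.e1.hi hu.e2.hi (Nat.cast_nonneg _) (Real.rpow_nonneg hX0.le _)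
        rw [← Real.rpow_add hX0] at h15
        refine h15.trans ?_
        calc (X : ℝ) ^ (p.ep + p.ep) ≤ (X : ℝ) ^ (1 : ℝ) :=
              Real.rpow_le_rpow_of_exponent_le hX1' (by linarith)
          _ = X := Real.rpow_one _
      have h16 : Real.log m ≤ Real.log X :=
        Real.log_le_log (by exact_mod_cast hm0) h13
      have h17 : 2 * Real.log X ≤ Real.log X ^ 20 := by
        have h18 : Real.log X ^ 2 ≤ Real.log X ^ 20 :=
          pow_le_pow_right₀ (by linarith) (by norm_num)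
        nlinarith
      rw [mul_one_div, div_le_one hPP0]
      linarith
    linarith
  have hVV : ∏ l ∈ V, f l = (∏ l ∈ G.filter (fun l => l ∈ V), f l) *
      ∏ l ∈ V.filter (fun l => l ∉ G), f l := by
    have e : G.filter (fun l => l ∈ V) = V.filter (fun l => l ∈ G) := by
      refine Finset.ext fun l => ⟨fun h => ?_, fun h => ?_⟩
      · have h' := (Finset.mem_filter (s := G)).1 h
        exact (Finset.mem_filter (s := V)).2 ⟨h'.2, h'.1⟩
      · have h' := (Finset.mem_filter (s := V)).1 h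
        exact (Finset.mem_filter (s := G)).2 ⟨h'.2, h'.1⟩
    rw [e]
    exact (prod_filter_mul_prod_filter_not V (fun l => l ∈ G) f).symm
  have hlP : 1 ≤ Real.log P00 := by
    rw [Real.le_log_iff_exp_le (by
      have : (3 : ℝ) ≤ P00 := by exact_mod_cast h3P
      linarith)]
    have h3 : (3 : ℝ) ≤ P00 := by exact_mod_cast h3P
    have := Real.exp_one_lt_d9
    linarith
  have hkey : ∏ l ∈ G, f l ≤ Real.exp (44 * (CM + 1)) * Real.log P00 ^ (44 : ℝ) *
      ∏ l ∈ V, f l := by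
    have h1 : Real.exp (44 * (CM + 1)) * Real.log P00 ^ (44 : ℝ) *
        Real.exp (-(44 * (Real.log (Real.log P00) + CM + 1))) = 1 := by
      rw [Real.rpow_def_of_pos (by linarith), ← Real.exp_add, ← Real.exp_add, Real.exp_eq_one_iff]
      ring
    have h2 : 0 ≤ Real.exp (44 * (CM + 1)) * Real.log P00 ^ (44 : ℝ) := by
      exact mul_nonneg (Real.exp_pos _).le (Real.rpow_nonneg (by linarith : 0 ≤ Real.log P00) 44)
    have h3 : 0 ≤ ∏ l ∈ G.filter (fun l => l ∈ V), f l :=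
      prod_nonneg fun l hl => (hG01 l (mem_filter.1 hl).1).1
    rw [hVV]
    calc ∏ l ∈ G, f l ≤ ∏ l ∈ G.filter (fun l => l ∈ V), f l := hGS
      _ = (∏ l ∈ G.filter (fun l => l ∈ V), f l) * 1 := (mul_one _).symm
      _ = (∏ l ∈ G.filter (fun l => l ∈ V), f l) * (Real.exp (44 * (CM + 1)) *
          Real.log P00 ^ (44 : ℝ) * Real.exp (-(44 * (Real.log (Real.log P00) + CM + 1)))) := by
            rw [h1]
      _ ≤ (∏ l ∈ G.filter (fun l => l ∈ V), f l) * (Real.exp (44 * (CM + 1)) *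
          Real.log P00 ^ (44 : ℝ) * ∏ l ∈ V.filter (fun l => l ∉ G), f l) :=
            mul_le_mul_of_nonneg_left (mul_le_mul_of_nonneg_left hB h2) h3
      _ = _ := by ring
  have hgS0 : 0 ≤ gS p X P00 u := by
    rw [hgS]
    exact prod_nonneg fun l hl => (hG01 l hl).1
  have hg1 := uc1_gD hu hPY
  have hg0 := uc1_gD0 p X u
  have hok : okf P00 u q ≤ 1 := by
    unfold okf
    split_ifs <;> norm_num
  rw [hvx]
  unfold gk
  calc okf P00 u q * (gD p X u * gS p X P00 u) ≤ 1 * (gD p X u * gS p X P00 u) :=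
        mul_le_mul_of_nonneg_right hok (mul_nonneg hg0 hgS0)
    _ = gD p X u * gS p X P00 u := one_mul _
    _ ≤ edP (WD 0) feU P (tp u) * gS p X P00 u := mul_le_mul_of_nonneg_right hg1 hgS0
    _ ≤ edP (WD 0) feU P (tp u) * (Real.exp (44 * (CM + 1)) * Real.log P00 ^ (44 : ℝ) *
        ∏ l ∈ V, f l) := by
          rw [hgS]
          exact mul_le_mul_of_nonneg_left hkey (uc1_edP0 P u)
    _ = _ := by ring

end Pool.Agent.AQ.UPA

namespace Pool.Agent.AQ.UPA

theorem gk_le : type_of% @gk_le_pr := @gk_le_pr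

end Pool.Agent.AQ.UPA
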