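import Pool.Agent.Lib_helper15.AQ.UP.Facts
import Pool.Agent.Lib_helper15.AQ.UPAF.DGM
import Pool.Agent.Lib_helper15.AQ.UPAF.UA7
import Pool.Agent.Lib_helper15.AQ.UPAF.UC1


/-!
# AQ (MP_892e4c_nt): the input (UB) (helper15, helper18)
-/

set_option autoImplicit false

namespace Pool.Agent.AQ.UPA

open Finset Filter Pool.Agent.PENT Pool.Agent.AQ.NC Pool.Agent.AQ.PFM
open Pool.Agent.PENK (PolyK Wts dl mL ich EquiF PerP prs lw L1 Rf Bas)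
open Pool.Agent.PFM (DE ph LocS Bo Un)
open Pool.Agent.UPA (tp exW feD feU vqU cs cr FamO LawO edP mem_feD mem_feU mem_vqU)
open Pool.Agent.AQ.PENK (nz)

variable [Cst]

/-- **(UB)** -/
theorem UB_all : ∃ τ₀ : ℝ, 0 < τ₀ ∧ ∀ p : Prm 10, p.Ok τ₀ → UB p := by
  classical
  obtain ⟨τa, hτa, Ha⟩ := usum_U (WD 0) (WD_ok le_rfl)
  have h0 : 0 < min τa (1 / 200) := lt_min hτa (by norm_num)
  refine ⟨min τa (1 / 200), h0, fun p hp => ?_⟩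
  have hpa : p.Ok τa := hp.mono h0 (by norm_num) (min_le_left _ _)
  have h2 : min τa (1 / 200) ≤ 1 / 200 := min_le_right _ _
  obtain ⟨ta, hta, Ha⟩ := Ha p hpa
  have hpt : 0 < p.ta := hp.ta_pos h0 (by norm_num)
  have ht0 : 0 < min ta p.ta := lt_min hta hpt
  set t : ℝ := min ta p.ta with ht
  obtain ⟨Ca, hCa, Xa, Ha⟩ := Ha t ht0 (min_le_left _ _)
  obtain ⟨Cg, C₂, hCg, hC₂, Hg⟩ := gk_le hp h2 ht0 (min_le_right _ _)
  refine ⟨Cg * Ca + 1, C₂, by positivity, hC₂, fun P00 hP00 => ?_⟩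
  obtain ⟨Xg, Hg⟩ := Hg P00 hP00
  refine ⟨Xa + Xg, fun X hX f hf q hq l hl hlP hlX i hi1 hi9 v hv => ?_⟩
  have hlogP : 0 ≤ Real.log P00 := Real.log_natCast_nonneg _
  have hP0 : 0 ≤ Real.log P00 ^ C₂ := Real.rpow_nonneg hlogP _
  have h3 := Ha X (by omega) f hf l hl (by unfold pB at hP00; unfold PENM.NZ; omega) hlX i hi1
    (by omega) v hv
  have hL : 0 ≤ Real.log X ^ (-6 : ℝ) := Real.rpow_nonneg (Real.log_natCast_nonneg X) _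
  rw [num_U] at h3
  rw [mE10]
  calc ∑ u ∈ (GS p X).filter (fun u => fE u = f ∧ (l : ℤ) ∣ dt v (u i)), gk p X P00 q u
      ≤ ∑ u ∈ (GS p X).filter (fun u => fE u = f ∧ (l : ℤ) ∣ dt v (u i)),
        Cg * Real.log P00 ^ C₂ * (edP (WD 0) feU ⌊(X : ℝ) ^ t⌋₊ (tp u) *
          vxP (WD 0) feU vqU ⌊PP X⌋₊ ⌊(X : ℝ) ^ t⌋₊ (tp u)) :=
        Finset.sum_le_sum (fun u hu => Hg X (by omega) u
          ((mem_GS hp.c10).1 (Finset.mem_filter.1 hu).1) q)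
    _ = Cg * Real.log P00 ^ C₂ *
        ∑ u ∈ (GS p X).filter (fun u => fE u = f ∧ (l : ℤ) ∣ dt v (u i)),
        (edP (WD 0) feU ⌊(X : ℝ) ^ t⌋₊ (tp u) *
          vxP (WD 0) feU vqU ⌊PP X⌋₊ ⌊(X : ℝ) ^ t⌋₊ (tp u)) := by rw [Finset.mul_sum]
    _ ≤ Cg * Real.log P00 ^ C₂ * (Ca / l * Real.log X ^ (-6 : ℝ)) :=
        mul_le_mul_of_nonneg_left h3 (mul_nonneg hCg hP0)
    _ = (Cg * Ca) * (Real.log P00 ^ C₂ / l * Real.log X ^ (-6 : ℝ)) := by ring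
    _ ≤ (Cg * Ca + 1) * (Real.log P00 ^ C₂ / l * Real.log X ^ (-6 : ℝ)) := by
        apply mul_le_mul_of_nonneg_right (by linarith)
        positivity
    _ = _ := by ring

end Pool.Agent.AQ.UPA
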