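import Pool.Agent.Lib_helper15.AQ.UP.Facts


/-! AQ (MP_892e4c_nt), first moments for the paths: block UC2 (port by helper8) -/

set_option autoImplicit false

namespace Pool.Agent.AQ.UPA

open Finset Pool.Agent.PENT Pool.Agent.AQ.NC Pool.Agent.AQ.PFM
open Pool.Agent.PENK (PolyK Wts dl mL ich EquiF PerP prs lw L1 Rf)
open Pool.Agent.PFM (DE ph LocS Bo Un)
open Pool.Agent.UPA (tp exW feD feU vqU cs cr FamO LawO edP mem_feD mem_feU mem_vqU)
open Pool.Agent.AQ.PENK (nz)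

variable [Cst]

theorem uc2_MV01 {m : ℕ} {h : ℤ × ℤ × ℤ → ℝ} (hh : ∀ v, 0 ≤ h v ∧ h v ≤ 1) :
    0 ≤ MV m h ∧ MV m h ≤ 1 := by
  unfold MV
  constructor
  · exact div_nonneg (Finset.sum_nonneg (fun v _ => (hh v).1)) (Nat.cast_nonneg _)
  · refine div_le_one_of_le₀ ?_ (Nat.cast_nonneg _)
    calc ∑ v ∈ V3 m, h v ≤ ∑ v ∈ V3 m, (1 : ℝ) :=
          Finset.sum_le_sum (fun v _ => (hh v).2)
      _ = ((V3 m).card : ℝ) := by simp

theorem uc2_wyV (P Y : ℝ) (j l : ℕ) : 0 ≤ wyV 10 P Y j l ∧ wyV 10 P Y j l ≤ 1 := by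
  unfold wyV boV beV
  split_ifs <;> norm_num

theorem uc2_PW {ι : Type} (s : Finset ι) (v : ι → ℤ × ℤ) (b : ι → ℝ) (l : ℕ) (q : ℤ × ℤ × ℤ)
    (hb : ∀ i, 0 ≤ b i ∧ b i ≤ 1) : 0 ≤ PW s v b l q ∧ PW s v b l q ≤ 1 := by
  unfold PW
  constructor
  · refine Finset.prod_nonneg (fun i _ => ?_)
    split_ifs
    · exact (hb i).1
    · norm_num
  · refine Finset.prod_le_one (fun i _ => ?_) (fun i _ => ?_)
    · split_ifs
      · exact (hb i).1
      · norm_num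
    · split_ifs
      · exact (hb i).2
      · norm_num

theorem uc2_gS (p : Prm 10) (X P00 : ℕ) (u : Vec 10) : 0 ≤ gS p X P00 u ∧ gS p X P00 u ≤ 1 := by
  unfold gS
  have h : ∀ l : ℕ, 0 ≤ MV l (Iv p X u l) ∧
      MV l (Iv p X u l) ≤ 1 := by
    intro l
    refine uc2_MV01 (fun v => ?_)
    unfold Iv
    exact uc2_PW _ _ _ _ _ (fun j => uc2_wyV _ _ _ _)
  exact ⟨Finset.prod_nonneg (fun l _ => (h l).1),
    Finset.prod_le_one (fun l _ => (h l).1) (fun l _ => (h l).2)⟩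

theorem uc2_okf (P00 : ℕ) (u : Vec 10) (q : ℤ × ℤ × ℤ) : 0 ≤ okf P00 u q ∧ okf P00 u q ≤ 1 := by
  unfold okf
  split_ifs <;> norm_num

theorem uc2_sqf {p : Prm 10} {X : ℕ} {u : Vec 10} (h : GP p X u) : Squarefree (Dint u) := by
  unfold Dint
  refine Finset.squarefree_prod_of_pairwise_isCoprime ?_ ?_
  · intro i hi j hj hij
    rw [Finset.mem_coe, Finset.mem_Icc] at hi hj
    have hi2 : i ≤ 9 := hi.2
    have hj2 : j ≤ 9 := hj.2
    show IsRelPrime (dE u i) (dE u j)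
    rw [← Nat.coprime_iff_isRelPrime]
    rcases Nat.lt_or_ge i j with h5 | h5
    · exact h.cop i j (by omega) h5 (by omega)
    · exact (h.cop j i (by omega) (by omega) (by omega)).symm
  · intro i hi
    rw [Finset.mem_Icc] at hi
    have hi2 : i ≤ 9 := hi.2
    exact (h.dp i (by omega) (by omega)).1

theorem uc2_exps {p : Prm 10} {τ : ℝ} (hp : p.Ok τ) (hτ : τ ≤ 1 / 200) :
    0 < p.ta ∧ 0 < p.ep ∧ p.ep ≤ 1 / 200 ∧ 0 < p.c1 ∧ p.c1 ≤ 1 ∧
      ∀ j : Fin 11, 2 ≤ j.val → j.val + 2 ≤ 10 → p.e j + p.ew ≤ 1 / 100 := by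
  have hc0 := hp.c10
  have hc1 := hp.c11
  have hτ0 : 0 < τ := lt_of_lt_of_le hc0 hc1
  have hw := hp.ew0
  have e8 : p.ew ≤ τ * p.e 8 := hp.ew1 (8 : Fin 11) (by decide) (by decide)
  have e3 : p.ew ≤ τ * p.e 3 := hp.ew1 (3 : Fin 11) (by decide) (by decide)
  have o3 : p.e 3 = p.ep := hp.odd (3 : Fin 11) (by decide) (by decide) (by decide)
  have ev8 : p.e 8 ≤ τ * p.em := hp.even (8 : Fin 11) (by decide) (by decide) (by decide)
  have h8 : 0 < p.e 8 := by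
    by_contra hh
    push Not at hh
    nlinarith
  have hem : 0 < p.em := by
    by_contra hh
    push Not at hh
    nlinarith
  have h1 := hp.em_ta
  have hta : 0 < p.ta := by
    by_contra hh
    push Not at hh
    nlinarith
  have h2 := hp.ta_ep
  have hep : 0 < p.ep := by
    by_contra hh
    push Not at hh
    nlinarith
  have h3 := hp.ep1
  rw [o3] at e3
  have hew : p.ew ≤ 1 / 200 * p.ep := e3.trans (mul_le_mul_of_nonneg_right hτ hep.le)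
  have htae : p.ta ≤ 1 / 200 * p.ep := h2.trans (mul_le_mul_of_nonneg_right hτ hep.le)
  have hemt : p.em ≤ 1 / 200 * p.ta := h1.trans (mul_le_mul_of_nonneg_right hτ hta.le)
  refine ⟨hta, hep, h3.trans hτ, hc0, by linarith, ?_⟩
  intro j hj1 hj2
  by_cases hev : Even j.val
  · have := hp.even j hj1 hj2 hev
    have h5 : p.e j ≤ 1 / 200 * p.em := this.trans (mul_le_mul_of_nonneg_right hτ hem.le)
    linarith
  · have := hp.odd j hj1 hj2 hev
    rw [this]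
    linarith

theorem uc2_nm {p : Prm 10} {τ : ℝ} (hp : p.Ok τ) (hτ : τ ≤ 1 / 200) {X : ℕ} (hX : 1 ≤ X)
    {u : Vec 10} (h : GP p X u) (i : Fin 11) (hi : 1 ≤ i.val) (hi2 : i.val ≤ 9) :
    (nm (u i) : ℝ) ≤ (X : ℝ) ^ (1 / 100 : ℝ) / p.c1 := by
  obtain ⟨hta, hep, hep2, hc0, hc1, he⟩ := uc2_exps hp hτ
  have hXr : (1 : ℝ) ≤ X := by exact_mod_cast hX
  have hX0 : (0 : ℝ) ≤ (X : ℝ) ^ (1 / 100 : ℝ) := by positivity
  have hep3 : (X : ℝ) ^ p.ep ≤ (X : ℝ) ^ (1 / 100 : ℝ) :=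
    Real.rpow_le_rpow_of_exponent_le hXr (by linarith)
  rw [le_div_iff₀ hc0]
  by_cases h1 : i.val = 1
  · have hi0 : i = (1 : Fin 11) := Fin.ext h1
    subst hi0
    have hd := h.e1.hi
    have h0 : u (0 : Fin 11) = (1, 0) := h.first
    have hs := gp_dn_ge h (0 : Fin 11) (by decide)
    rw [dn_dE u 0 (by decide)] at hs
    have h3 : nm (1, 0) = 1 := by unfold nm; norm_num
    rw [h0, h3, Int.cast_one, one_mul] at hs
    have h4 : p.c1 * (nm (u (1 : Fin 11)) : ℝ) ≤ (dE u 1 : ℝ) := hs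
    linarith
  · by_cases h9 : i.val = 9
    · have hi0 : i = (9 : Fin 11) := Fin.ext h9
      subst hi0
      have hd := h.e2.hi
      have h0 : u (10 : Fin 11) = z := h.last
      have hs := gp_dn_ge h (9 : Fin 11) (by decide)
      rw [dn_dE u 9 (by decide)] at hs
      have e : ((9 : Fin 11) + 1 : Fin 11) = 10 := by decide
      rw [e, h0] at hs
      have h2 : (1 : ℝ) ≤ (nm (u (9 : Fin 11)) : ℝ) := by exact_mod_cast nm_pos h (9 : Fin 11)
      have h3 : (1 : ℝ) ≤ (nm z : ℝ) := by exact_mod_cast nm_z_pos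
      have h4 : (nm (u (9 : Fin 11)) : ℝ) ≤ (nm (u (9 : Fin 11)) : ℝ) * (nm z : ℝ) := by nlinarith
      have h5 : p.c1 * (nm (u (9 : Fin 11)) : ℝ) ≤ (dE u 10 : ℝ) :=
        (mul_le_mul_of_nonneg_left h4 hc0.le).trans hs
      linarith
    · have h5 := h.upp i (by omega) (by omega)
      have h6 : (X : ℝ) ^ (p.e i + p.ew) ≤ (X : ℝ) ^ (1 / 100 : ℝ) :=
        Real.rpow_le_rpow_of_exponent_le hXr (he i (by omega) (by omega))
      have h7 : (0 : ℝ) ≤ nm (u i) := by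
        have := nm_pos h i
        exact_mod_cast (by omega : (0 : ℤ) ≤ nm (u i))
      nlinarith

theorem uc2_dt {v w : ℤ × ℤ} (h1 : 0 < v.1) (h2 : 0 < v.2) (h3 : 0 < w.1) (h4 : 0 < w.2) :
    ((dt v w).natAbs : ℝ) ≤ (nm v : ℝ) * (nm w : ℝ) := by
  rw [Nat.cast_natAbs]
  have : |dt v w| ≤ nm v * nm w := by
    unfold dt nm
    rw [abs_le]
    constructor
    · nlinarith [mul_pos h1 h3, mul_pos h1 h4, mul_pos h2 h3, mul_pos h2 h4]
    · nlinarith [mul_pos h1 h3, mul_pos h1 h4, mul_pos h2 h3, mul_pos h2 h4]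
  exact_mod_cast this

theorem uc2_Dint {p : Prm 10} {τ : ℝ} (hp : p.Ok τ) (hτ : τ ≤ 1 / 200) {X : ℕ} (hX : 1 ≤ X)
    (hX2 : 1 / p.c1 ^ 32 ≤ (X : ℝ)) {u : Vec 10} (h : GP p X u) : (Dint u : ℝ) ≤ X := by
  obtain ⟨hta, hep, hep2, hc0, hc1, he⟩ := uc2_exps hp hτ
  have hXr : (1 : ℝ) ≤ X := by exact_mod_cast hX
  have hXp : (0 : ℝ) < X := by linarith
  set B : ℝ := (X : ℝ) ^ (1 / 100 : ℝ) / p.c1 with hB
  have hB0 : 0 < B := by positivity
  have key : ∀ i ∈ Icc 2 (10 - 1), (dE u i : ℝ) ≤ B * B := by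
    intro i hi
    rw [Finset.mem_Icc] at hi
    have hi2 : i ≤ 9 := hi.2
    unfold dE
    rw [dif_pos (by omega : 1 ≤ i ∧ i ≤ 10)]
    have a1 : 1 ≤ i - 1 := by omega
    have a2 : i - 1 < 11 := by omega
    have a3 : i < 11 := by omega
    obtain ⟨p1, p2⟩ := h.pos ⟨i - 1, a2⟩ a1 (by show i - 1 + 1 ≤ 10; omega)
    obtain ⟨p3, p4⟩ := h.pos ⟨i, a3⟩ (by show 1 ≤ i; omega) (by show i + 1 ≤ 10; omega)
    refine (uc2_dt p1 p2 p3 p4).trans ?_
    have n1 := uc2_nm hp hτ hX h ⟨i - 1, a2⟩ a1 (by show i - 1 ≤ 9; omega)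
    have n2 := uc2_nm hp hτ hX h ⟨i, a3⟩ (by show 1 ≤ i; omega) (by show i ≤ 9; omega)
    have z2 : (0 : ℝ) ≤ nm (u (⟨i, a3⟩ : Fin 11)) := by
      have := nm_pos h ⟨i, a3⟩
      exact_mod_cast (by omega : (0 : ℤ) ≤ nm (u (⟨i, a3⟩ : Fin 11)))
    exact mul_le_mul n1 n2 z2 hB0.le
  have h1 : (Dint u : ℝ) ≤ (B * B) ^ 8 := by
    unfold Dint
    push_cast
    calc ∏ i ∈ Icc 2 (10 - 1), (dE u i : ℝ) ≤ ∏ _i ∈ Icc 2 (10 - 1), (B * B) :=
          Finset.prod_le_prod (fun i _ => Nat.cast_nonneg _) key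
      _ = (B * B) ^ 8 := by
          rw [Finset.prod_const]
          rfl
  refine h1.trans ?_
  have h2 : (B * B) ^ 8 = (X : ℝ) ^ (16 / 100 : ℝ) * (1 / p.c1 ^ 16) := by
    have h3 : ((X : ℝ) ^ (1 / 100 : ℝ)) ^ 16 = (X : ℝ) ^ (16 / 100 : ℝ) := by
      rw [← Real.rpow_natCast, ← Real.rpow_mul hXp.le]
      norm_num
    rw [hB, ← h3]
    field_simp
  rw [h2]
  have h4 : (X : ℝ) ^ (16 / 100 : ℝ) ≤ (X : ℝ) ^ (1 / 2 : ℝ) :=
    Real.rpow_le_rpow_of_exponent_le hXr (by norm_num)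
  have h5 : 1 / p.c1 ^ 16 ≤ (X : ℝ) ^ (1 / 2 : ℝ) := by
    have h6 : (1 / p.c1 ^ 16) ^ 2 ≤ ((X : ℝ) ^ (1 / 2 : ℝ)) ^ 2 := by
      rw [← Real.rpow_natCast ((X : ℝ) ^ (1 / 2 : ℝ)), ← Real.rpow_mul hXp.le]
      have h7 : (1 / p.c1 ^ 16) ^ 2 = 1 / p.c1 ^ 32 := by
        rw [div_pow, one_pow, ← pow_mul]
      rw [h7]
      norm_num
      simpa using hX2
    exact le_of_sq_le_sq h6 (by positivity)
  calc (X : ℝ) ^ (16 / 100 : ℝ) * (1 / p.c1 ^ 16) ≤ (X : ℝ) ^ (1 / 2 : ℝ) * (X : ℝ) ^ (1 / 2 : ℝ) :=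
        mul_le_mul h4 h5 (by positivity) (by positivity)
    _ = X := by
        rw [← Real.rpow_add hXp]
        norm_num

theorem uc2_big {p : Prm 10} {X : ℕ} (hX : 2 ≤ X) (hta : 0 < p.ta) {D : ℕ} (hD : D ≠ 0)
    (hDX : (D : ℝ) ≤ X) :
    ((D.primeFactors.filter (fun l : ℕ => ¬ (l : ℝ) ≤ p.Y X)).card : ℝ) ≤ 1 / p.ta := by
  have hXr : (1 : ℝ) < X := by exact_mod_cast (by omega : 1 < X)
  have hXp : (0 : ℝ) < X := by linarith
  set S := D.primeFactors.filter (fun l : ℕ => ¬ (l : ℝ) ≤ p.Y X) with hS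
  have h1 : ∏ l ∈ S, l ≤ D := by
    refine Nat.le_of_dvd (Nat.pos_of_ne_zero hD) ?_
    refine dvd_trans ?_ (Nat.prod_primeFactors_dvd D)
    exact Finset.prod_dvd_prod_of_subset _ _ _ (Finset.filter_subset _ _)
  have h2 : (p.Y X) ^ S.card ≤ (X : ℝ) := by
    calc (p.Y X) ^ S.card = ∏ _l ∈ S, p.Y X := by rw [Finset.prod_const]
      _ ≤ ∏ l ∈ S, (l : ℝ) := by
          refine Finset.prod_le_prod (fun l _ => ?_) (fun l hl => ?_)
          · unfold Prm.Y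
            positivity
          · rw [hS, Finset.mem_filter] at hl
            exact (not_le.1 hl.2).le
      _ = ((∏ l ∈ S, l : ℕ) : ℝ) := by push_cast; rfl
      _ ≤ (D : ℝ) := by exact_mod_cast h1
      _ ≤ X := hDX
  have h3 : (p.Y X) ^ S.card = (X : ℝ) ^ (p.ta * S.card) := by
    unfold Prm.Y
    rw [← Real.rpow_natCast, ← Real.rpow_mul hXp.le]
  rw [h3] at h2
  have h4 : p.ta * S.card ≤ 1 := by
    by_contra hh
    push Not at hh
    have := Real.rpow_lt_rpow_of_exponent_lt hXr hh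
    rw [Real.rpow_one] at this
    linarith
  rw [le_div_iff₀ hta]
  linarith

theorem uc2_gD {p : Prm 10} {X : ℕ} {u : Vec 10} (hsq : Squarefree (Dint u)) :
    0 ≤ gD p X u ∧ gD p X u ≤
      2 ^ ((Dint u).primeFactors.filter (fun l : ℕ => ¬ (l : ℝ) ≤ p.Y X)).card / (Dint u : ℝ) := by
  have hl0 : ∀ l ∈ (Dint u).primeFactors, (0 : ℝ) < l := by
    intro l hl
    exact_mod_cast (Nat.prime_of_mem_primeFactors hl).pos
  constructor
  · unfold gD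
    refine Finset.prod_nonneg (fun l hl => ?_)
    have := hl0 l hl
    split_ifs <;> positivity
  · have h1 : (Dint u : ℝ) = ∏ l ∈ (Dint u).primeFactors, (l : ℝ) := by
      conv_lhs => rw [← Nat.prod_primeFactors_of_squarefree hsq]
      push_cast
      rfl
    have h2 : (2 : ℝ) ^ ((Dint u).primeFactors.filter (fun l : ℕ => ¬ (l : ℝ) ≤ p.Y X)).card =
        ∏ l ∈ (Dint u).primeFactors, (if ¬ (l : ℝ) ≤ p.Y X then (2 : ℝ) else 1) := by
      rw [← Finset.prod_filter, Finset.prod_const]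
    rw [h2]
    conv_rhs => rw [h1]
    rw [← Finset.prod_div_distrib]
    unfold gD
    refine Finset.prod_le_prod (fun l hl => ?_) (fun l hl => ?_)
    · have := hl0 l hl
      split_ifs <;> positivity
    · have h0 := hl0 l hl
      have h3 : 2 / ((l : ℝ) + 1) ≤ 2 / (l : ℝ) :=
        div_le_div_of_nonneg_left (by norm_num) h0 (by linarith)
      by_cases hY : (l : ℝ) ≤ p.Y X
      · rw [if_pos hY, if_neg (not_not.2 hY)]
        have h4 : 1 / (l : ℝ) = 2 / (l : ℝ) * (1 / 2) := by ring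
        rw [h4]
        have h5 : 0 ≤ 2 / (l : ℝ) := by positivity
        nlinarith [show (0 : ℝ) ≤ 2 / ((l : ℝ) + 1) by positivity]
      · rw [if_neg hY, if_pos hY, mul_one]
        exact h3

theorem gk_crude_pr {p : Prm 10} {τ : ℝ} (hp : p.Ok τ) (hτ : τ ≤ 1 / 200) : ∃ C : ℝ, 0 ≤ C ∧
    ∃ X₀ : ℕ, ∀ X ≥ X₀, ∀ (P00 : ℕ) (q : ℤ × ℤ × ℤ) (u : Vec 10), GP p X u →
      0 ≤ gk p X P00 q u ∧ gk p X P00 q u ≤ C / (Dint u : ℝ) := by
  obtain ⟨hta, hep, hep2, hc0, hc1, he⟩ := uc2_exps hp hτ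
  refine ⟨2 ^ (⌊1 / p.ta⌋₊), by positivity, ⌈1 / p.c1 ^ 32⌉₊ + 2, ?_⟩
  intro X hX P00 q u h
  have hX1 : 1 ≤ X := by omega
  have hX2 : 1 / p.c1 ^ 32 ≤ (X : ℝ) := by
    refine (Nat.le_ceil _).trans ?_
    exact_mod_cast (by omega : ⌈1 / p.c1 ^ 32⌉₊ ≤ X)
  have hsq := uc2_sqf h
  have hD := uc2_Dint hp hτ hX1 hX2 h
  have hN := uc2_big (p := p) (by omega : 2 ≤ X) hta hsq.ne_zero hD
  obtain ⟨g0, g1⟩ := uc2_gD (p := p) (X := X) hsq
  obtain ⟨s0, s1⟩ := uc2_gS p X P00 u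
  obtain ⟨o0, o1⟩ := uc2_okf P00 u q
  have hN' := Nat.le_floor hN
  have hDp : (0 : ℝ) < (Dint u : ℝ) := by
    exact_mod_cast Nat.pos_of_ne_zero hsq.ne_zero
  have g2 : gD p X u ≤ 2 ^ (⌊1 / p.ta⌋₊) / (Dint u : ℝ) := by
    refine g1.trans ?_
    exact div_le_div_of_nonneg_right (pow_le_pow_right₀ (by norm_num) hN') hDp.le
  unfold gk
  constructor
  · positivity
  · calc okf P00 u q * (gD p X u * gS p X P00 u) ≤ 1 * (gD p X u * 1) := by
          refine mul_le_mul o1 ?_ (by positivity) zero_le_one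
          exact mul_le_mul_of_nonneg_left s1 g0
      _ = gD p X u := by ring
      _ ≤ _ := g2

end Pool.Agent.AQ.UPA

namespace Pool.Agent.AQ.UPA

theorem gk_crude : type_of% @gk_crude_pr := @gk_crude_pr

end Pool.Agent.AQ.UPA
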