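import Pool.Agent.Lib_helper15.AQ.UP.Facts
import Pool.Agent.Lib_helper15.AQ.UPAF.UC2


/-!
# AQ (MP_892e4c_nt), first moments for the paths: block UC4 (helper84, port by helper8)
-/

set_option autoImplicit false

namespace Pool.Agent.AQ.UPA

open Finset Pool.Agent.PENT Pool.Agent.AQ.NC Pool.Agent.AQ.PFM
open Pool.Agent.PENK (PolyK Wts dl mL ich EquiF PerP prs lw L1 Rf)
open Pool.Agent.PFM (DE ph LocS Bo Un)
open Pool.Agent.UPA (tp exW feD feU vqU cs cr FamO LawO edP mem_feD mem_feU mem_vqU)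
open Pool.Agent.AQ.PENK (nz)

variable [Cst]

/-! ### general lemmas -/

theorem uc4_cov {α κ : Type} [DecidableEq α] [DecidableEq κ] (K : Finset κ) (B : κ → Finset α)
    (F : α → ℝ) (hF : ∀ k ∈ K, ∀ u ∈ B k, 0 ≤ F u) :
    ∀ A : Finset α, (∀ u ∈ A, ∃ k ∈ K, u ∈ B k) → ∑ u ∈ A, F u ≤ ∑ k ∈ K, ∑ u ∈ B k, F u := by
  induction K using Finset.induction_on with
  | empty =>
    intro A hA
    have : A = ∅ := by
      rw [Finset.eq_empty_iff_forall_notMem]
      intro u hu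
      obtain ⟨k, hk, _⟩ := hA u hu
      exact absurd hk (Finset.notMem_empty k)
    rw [this]
    simp
  | insert k K hk ih =>
    intro A hA
    rw [Finset.sum_insert hk, ← Finset.sum_filter_add_sum_filter_not A (fun u => u ∈ B k)]
    apply add_le_add
    · apply Finset.sum_le_sum_of_subset_of_nonneg
      · intro u hu
        exact (Finset.mem_filter.1 hu).2
      · intro u hu _
        exact hF k (Finset.mem_insert_self k K) u hu
    · apply ih (fun k' hk' u hu => hF k' (Finset.mem_insert_of_mem hk') u hu)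
      intro u hu
      obtain ⟨hu1, hu2⟩ := Finset.mem_filter.1 hu
      obtain ⟨k', hk', hu'⟩ := hA u hu1
      rcases Finset.mem_insert.1 hk' with rfl | h
      · exact absurd hu' hu2
      · exact ⟨k', h, hu'⟩

open Classical in
theorem uc4_pi (w : Fin 11 → ℤ × ℤ → ℝ) (S : Fin 11 → Finset (ℤ × ℤ)) (T ε : ℝ)
    (hw : ∀ j v, v ∈ S j → 0 ≤ w j v) (hT : 1 ≤ T) (hS : ∀ j, ∑ v ∈ S j, w j v ≤ T)
    (i i' : Fin 11) (hne : i' ≠ i) (cond : ℤ × ℤ → ℤ × ℤ → Prop) (hε0 : 0 ≤ ε)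
    (hε : ∀ a ∈ S i', ∑ b ∈ (S i).filter (fun b => cond a b), w i b ≤ ε) :
    ∑ u ∈ (Fintype.piFinset S).filter (fun u => cond (u i') (u i)), ∏ j, w j (u j) ≤
      T ^ 12 * ε := by
  have h1 : ∑ u ∈ (Fintype.piFinset S).filter (fun u => cond (u i') (u i)), ∏ j, w j (u j) ≤
      ∑ a ∈ S i', ∑ u ∈ Fintype.piFinset (fun j => if j = i' then {a} else if j = i then
        (S i).filter (fun b => cond a b) else S j), ∏ j, w j (u j) := by
    apply uc4_cov (S i') (fun a => Fintype.piFinset (fun j => if j = i' then {a} else if j = i then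
        (S i).filter (fun b => cond a b) else S j)) (fun u => ∏ j, w j (u j))
    · intro a ha u hu
      apply Finset.prod_nonneg
      intro j _
      apply hw
      have h2 := Fintype.mem_piFinset.1 hu j
      by_cases hj : j = i'
      · rw [if_pos hj, Finset.mem_singleton] at h2
        rw [h2, hj]
        exact ha
      · rw [if_neg hj] at h2
        by_cases hj2 : j = i
        · rw [if_pos hj2] at h2
          rw [hj2]
          rw [hj2] at h2
          exact (Finset.mem_filter.1 h2).1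
        · rw [if_neg hj2] at h2
          exact h2
    · intro u hu
      obtain ⟨hu1, hu2⟩ := Finset.mem_filter.1 hu
      rw [Fintype.mem_piFinset] at hu1
      refine ⟨u i', hu1 i', Fintype.mem_piFinset.2 ?_⟩
      intro j
      by_cases hj : j = i'
      · rw [if_pos hj, Finset.mem_singleton, hj]
      · rw [if_neg hj]
        by_cases hj2 : j = i
        · rw [if_pos hj2, hj2]
          exact Finset.mem_filter.2 ⟨hu1 i, hu2⟩
        · rw [if_neg hj2]
          exact hu1 j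
  refine h1.trans ?_
  have h3 : ∀ a ∈ S i', ∑ u ∈ Fintype.piFinset (fun j => if j = i' then {a} else if j = i then
        (S i).filter (fun b => cond a b) else S j), ∏ j, w j (u j) ≤ w i' a * (T ^ 11 * ε) := by
    intro a ha
    rw [← Finset.prod_univ_sum]
    have h4 : ∀ j ∈ (univ : Finset (Fin 11)), ∑ v ∈ (if j = i' then {a} else if j = i then
        (S i).filter (fun b => cond a b) else S j), w j v ≤
        ((if j = i' then w i' a else 1) * (if j = i then ε else 1)) * T := by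
      intro j _
      by_cases hj : j = i'
      · have hj2 : j ≠ i := fun h => hne (by rw [← hj, h])
        rw [if_pos hj, if_pos hj, if_neg hj2, Finset.sum_singleton, hj, mul_one]
        exact le_mul_of_one_le_right (hw i' a ha) hT
      · rw [if_neg hj, if_neg hj]
        by_cases hj2 : j = i
        · rw [if_pos hj2, if_pos hj2, hj2, one_mul]
          exact (hε a ha).trans (le_mul_of_one_le_right hε0 hT)
        · rw [if_neg hj2, if_neg hj2, one_mul, one_mul]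
          exact hS j
    refine (Finset.prod_le_prod ?_ h4).trans ?_
    · intro j _
      apply Finset.sum_nonneg
      intro v hv
      apply hw
      by_cases hj : j = i'
      · rw [if_pos hj, Finset.mem_singleton] at hv
        rw [hv, hj]
        exact ha
      · rw [if_neg hj] at hv
        by_cases hj2 : j = i
        · rw [if_pos hj2] at hv
          rw [hj2]
          exact (Finset.mem_filter.1 hv).1
        · rw [if_neg hj2] at hv
          exact hv
    · rw [Finset.prod_mul_distrib, Finset.prod_mul_distrib, Finset.prod_ite_eq',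
        Finset.prod_ite_eq', if_pos (Finset.mem_univ _), if_pos (Finset.mem_univ _),
        Finset.prod_const, Finset.card_univ, Fintype.card_fin]
      apply le_of_eq
      ring
  refine (Finset.sum_le_sum h3).trans ?_
  rw [← Finset.sum_mul]
  calc (∑ a ∈ S i', w i' a) * (T ^ 11 * ε) ≤ T * (T ^ 11 * ε) := by
        apply mul_le_mul_of_nonneg_right (hS i')
        positivity
    _ = T ^ 12 * ε := by ring

/-! ### sums over the norm -/

theorem uc4_harm (X : ℕ) : ∑ N ∈ Icc 1 X, (1 : ℝ) / N ≤ 1 + Real.log X := by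
  have h := harmonic_le_one_add_log X
  rw [harmonic_eq_sum_Icc] at h
  push_cast at h
  simpa [one_div] using h

theorem uc4_sq (X : ℕ) (L : ℝ) (hL : 0 < L) :
    ∑ N ∈ (Icc 1 X).filter (fun N : ℕ => L ≤ (N : ℝ)), (1 : ℝ) / (N : ℝ) ^ 2 ≤ 2 / L := by
  have h1 : 1 ≤ ⌈L⌉₊ := Nat.one_le_ceil_iff.2 hL
  have h2 := sum_Ioo_inv_sq_le (α := ℝ) (⌈L⌉₊ - 1) (X + 1)
  have h3 : ((⌈L⌉₊ - 1 : ℕ) : ℝ) + 1 = (⌈L⌉₊ : ℝ) := by
    rw [Nat.cast_sub h1]
    push_cast
    ring
  rw [h3] at h2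
  calc ∑ N ∈ (Icc 1 X).filter (fun N : ℕ => L ≤ (N : ℝ)), (1 : ℝ) / (N : ℝ) ^ 2 ≤
      ∑ i ∈ Ioo (⌈L⌉₊ - 1) (X + 1), ((i : ℝ) ^ 2)⁻¹ := by
        rw [show (∑ i ∈ Ioo (⌈L⌉₊ - 1) (X + 1), ((i : ℝ) ^ 2)⁻¹) =
          ∑ i ∈ Ioo (⌈L⌉₊ - 1) (X + 1), (1 : ℝ) / (i : ℝ) ^ 2 from
          Finset.sum_congr rfl (fun i _ => (one_div _).symm)]
        apply Finset.sum_le_sum_of_subset_of_nonneg
        · intro N hN
          obtain ⟨a, b⟩ := Finset.mem_filter.1 hN
          rw [Finset.mem_Icc] at a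
          rw [Finset.mem_Ioo]
          have := Nat.ceil_le.2 b
          omega
        · intro i _ _
          positivity
    _ ≤ 2 / (⌈L⌉₊ : ℝ) := h2
    _ ≤ 2 / L := div_le_div_of_nonneg_left (by norm_num) hL (Nat.le_ceil L)

/-- multiples of `l` -/
theorem uc4_mul (X l : ℕ) (hl : 0 < l) :
    ∑ N ∈ (Icc 1 X).filter (fun N => l ∣ N), (1 : ℝ) / N ≤ (1 + Real.log X) / l := by
  have hlR : (0 : ℝ) < l := by exact_mod_cast hl
  calc ∑ N ∈ (Icc 1 X).filter (fun N => l ∣ N), (1 : ℝ) / N ≤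
      ∑ N ∈ (Icc 1 X).image (fun m => l * m), (1 : ℝ) / N := by
        apply Finset.sum_le_sum_of_subset_of_nonneg
        · intro N hN
          obtain ⟨a, m, hm⟩ := Finset.mem_filter.1 hN
          rw [Finset.mem_Icc] at a
          rw [Finset.mem_image]
          refine ⟨m, ?_, hm.symm⟩
          rw [Finset.mem_Icc]
          constructor
          · rcases Nat.eq_zero_or_pos m with h | h
            · rw [h, mul_zero] at hm
              omega
            · exact h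
          · calc m ≤ l * m := Nat.le_mul_of_pos_left m hl
              _ = N := hm.symm
              _ ≤ X := a.2
        · intro i _ _
          positivity
    _ = ∑ m ∈ Icc 1 X, (1 : ℝ) / ((l * m : ℕ) : ℝ) := by
        rw [Finset.sum_image]
        intro a _ b _ h
        exact Nat.eq_of_mul_eq_mul_left hl h
    _ = (∑ m ∈ Icc 1 X, (1 : ℝ) / m) / l := by
        rw [Finset.sum_div]
        apply Finset.sum_congr rfl
        intro m _
        push_cast
        rw [one_div, one_div, mul_inv, div_eq_mul_inv, mul_comm]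
    _ ≤ (1 + Real.log X) / l := div_le_div_of_nonneg_right (uc4_harm X) hlR.le

/-- the solutions of a linear congruence -/
theorem uc4_cong (N l : ℕ) (hl : l.Prime) (α β : ℤ) (hα : ¬ (l : ℤ) ∣ α) :
    (((Icc 1 N).filter (fun x : ℕ => (l : ℤ) ∣ β - α * x)).card : ℝ) ≤ N / l + 1 := by
  have hlR : (0 : ℝ) < l := by exact_mod_cast hl.pos
  have h1 : ((Icc 1 N).filter (fun x : ℕ => (l : ℤ) ∣ β - α * x)).card ≤ N / l + 1 := by
    rw [← Finset.card_range (N / l + 1)]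
    apply Finset.card_le_card_of_injOn (fun x => x / l)
    · intro x hx
      obtain ⟨a, _⟩ := Finset.mem_filter.1 hx
      rw [Finset.mem_Icc] at a
      have := Nat.div_le_div_right (c := l) a.2
      exact Finset.mem_coe.2 (Finset.mem_range.2 (show x / l < N / l + 1 by omega))
    · intro x hx y hy hxy
      obtain ⟨_, hx2⟩ := Finset.mem_filter.1 hx
      obtain ⟨_, hy2⟩ := Finset.mem_filter.1 hy
      have h2 : (l : ℤ) ∣ α * ((x : ℤ) - y) := by
        have := dvd_sub hy2 hx2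
        have e : β - α * (y : ℤ) - (β - α * (x : ℤ)) = α * ((x : ℤ) - y) := by ring
        rwa [e] at this
      have h3 : (l : ℤ) ∣ (x : ℤ) - y :=
        ((Nat.prime_iff_prime_int.1 hl).dvd_or_dvd h2).resolve_left hα
      have h4 : (y : ℤ) ≡ x [ZMOD l] := (Int.modEq_iff_dvd).2 h3
      have h5 : y ≡ x [MOD l] := (Int.natCast_modEq_iff).1 h4
      have hxy' : x / l = y / l := hxy
      have e1 := Nat.div_add_mod x l
      have e2 := Nat.div_add_mod y l
      have e3 : y % l = x % l := h5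
      rw [← e1, ← e2, hxy', e3]
  have h2 : ((N / l : ℕ) : ℝ) ≤ (N : ℝ) / l := Nat.cast_div_le
  calc (((Icc 1 N).filter (fun x : ℕ => (l : ℤ) ∣ β - α * x)).card : ℝ) ≤
      ((N / l + 1 : ℕ) : ℝ) := by exact_mod_cast h1
    _ = ((N / l : ℕ) : ℝ) + 1 := by push_cast; ring
    _ ≤ N / l + 1 := by linarith

/-- the vectors of the norm `N` -/
theorem uc4_cardN (Q : ℤ × ℤ → Prop) [DecidablePred Q] (X N : ℕ) :
    (((((Icc (1 : ℤ) X) ×ˢ (Icc (1 : ℤ) X)).filter Q).filter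
      (fun v => (nm v).toNat = N)).card : ℝ) ≤
    (((Icc 1 N).filter (fun x : ℕ => Q ((x : ℤ), (N : ℤ) - x))).card : ℝ) := by
  apply Nat.cast_le.2
  apply Finset.card_le_card_of_injOn (fun v => v.1.toNat)
  · intro v hv
    obtain ⟨hv1, hv2⟩ := Finset.mem_filter.1 hv
    obtain ⟨hv3, hv4⟩ := Finset.mem_filter.1 hv1
    rw [Finset.mem_product, Finset.mem_Icc, Finset.mem_Icc] at hv3
    unfold nm at hv2
    apply Finset.mem_coe.2
    show v.1.toNat ∈ (Icc 1 N).filter (fun x : ℕ => Q ((x : ℤ), (N : ℤ) - x))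
    rw [Finset.mem_filter, Finset.mem_Icc]
    have e1 : ((v.1.toNat : ℕ) : ℤ) = v.1 := Int.toNat_of_nonneg (by omega)
    refine ⟨⟨by omega, by omega⟩, ?_⟩
    rw [e1]
    have e2 : (N : ℤ) - v.1 = v.2 := by omega
    rw [e2]
    exact hv4
  · intro v hv v' hv' h
    obtain ⟨hv1, hv2⟩ := Finset.mem_filter.1 hv
    obtain ⟨hv3, _⟩ := Finset.mem_filter.1 hv1
    obtain ⟨hw1, hw2⟩ := Finset.mem_filter.1 hv'
    obtain ⟨hw3, _⟩ := Finset.mem_filter.1 hw1
    rw [Finset.mem_product, Finset.mem_Icc, Finset.mem_Icc] at hv3 hw3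
    unfold nm at hv2 hw2
    have h' : v.1.toNat = v'.1.toNat := h
    apply Prod.ext <;> omega

/-- sums over vectors as sums over the norm -/
theorem uc4_fib (Q : ℤ × ℤ → Prop) [DecidablePred Q] (X : ℕ) :
    ∑ v ∈ (((Icc (1 : ℤ) X) ×ˢ (Icc (1 : ℤ) X)).filter (fun v => Q v ∧ nm v ≤ X)),
      (1 : ℝ) / (nm v : ℝ) ^ 2 ≤
    ∑ N ∈ Icc 1 X, (((Icc 1 N).filter (fun x : ℕ => Q ((x : ℤ), (N : ℤ) - x))).card : ℝ) /
      (N : ℝ) ^ 2 := by
  rw [← Finset.sum_fiberwise_of_maps_to (t := Icc 1 X) (g := fun v => (nm v).toNat)]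
  · apply Finset.sum_le_sum
    intro N hN
    have h1 : ∀ v ∈ ((((Icc (1 : ℤ) X) ×ˢ (Icc (1 : ℤ) X)).filter
        (fun v => Q v ∧ nm v ≤ X)).filter (fun v => (nm v).toNat = N)),
        (1 : ℝ) / (nm v : ℝ) ^ 2 = 1 / (N : ℝ) ^ 2 := by
      intro v hv
      obtain ⟨hv1, hv2⟩ := Finset.mem_filter.1 hv
      obtain ⟨hv3, _⟩ := Finset.mem_filter.1 hv1
      rw [Finset.mem_product, Finset.mem_Icc, Finset.mem_Icc] at hv3
      have : nm v = (N : ℤ) := by
        unfold nm at hv2 ⊢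
        omega
      rw [this, Int.cast_natCast]
    rw [Finset.sum_congr rfl h1, Finset.sum_const, nsmul_eq_mul, ← div_eq_mul_one_div]
    apply div_le_div_of_nonneg_right _ (by positivity)
    have h2 := uc4_cardN Q X N
    refine le_trans ?_ h2
    apply Nat.cast_le.2
    apply Finset.card_le_card
    intro v hv
    obtain ⟨hv1, hv2⟩ := Finset.mem_filter.1 hv
    obtain ⟨hv3, hv4⟩ := Finset.mem_filter.1 hv1
    exact Finset.mem_filter.2 ⟨Finset.mem_filter.2 ⟨hv3, hv4.1⟩, hv2⟩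
  · intro v hv
    obtain ⟨hv3, hv4⟩ := Finset.mem_filter.1 hv
    rw [Finset.mem_product, Finset.mem_Icc, Finset.mem_Icc] at hv3
    have := hv4.2
    unfold nm at this
    show (nm v).toNat ∈ Icc 1 X
    rw [Finset.mem_Icc]
    unfold nm
    omega

/-- all vectors -/
theorem uc4_all (X : ℕ) (L : ℝ) (R : ℤ × ℤ → Prop) [DecidablePred R] :
    ∑ v ∈ (((Icc (1 : ℤ) X) ×ˢ (Icc (1 : ℤ) X)).filter
      (fun v => (R v ∧ L ≤ (nm v : ℝ)) ∧ nm v ≤ X)), (1 : ℝ) / (nm v : ℝ) ^ 2 ≤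
      1 + Real.log X := by
  classical
  refine (uc4_fib (fun v => R v ∧ L ≤ (nm v : ℝ)) X).trans ((Finset.sum_le_sum ?_).trans
    (uc4_harm X))
  intro N hN
  rw [Finset.mem_Icc] at hN
  have hN0 : (0 : ℝ) < N := by exact_mod_cast hN.1
  have h1 : ((((Icc 1 N).filter (fun x : ℕ => R ((x : ℤ), (N : ℤ) - x) ∧
      L ≤ ((nm ((x : ℤ), (N : ℤ) - x) : ℤ) : ℝ))).card : ℝ)) ≤ N := by
    have := Finset.card_filter_le (Icc 1 N) (fun x : ℕ => R ((x : ℤ), (N : ℤ) - x) ∧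
      L ≤ ((nm ((x : ℤ), (N : ℤ) - x) : ℤ) : ℝ))
    rw [Nat.card_Icc, Nat.add_sub_cancel] at this
    exact_mod_cast this
  rw [div_le_div_iff₀ (by positivity) hN0]
  nlinarith

/-- the vectors on a line modulo `l` -/
theorem uc4_line (X l : ℕ) (hl : l.Prime) (L : ℝ) (hL : 0 < L) (a : ℤ × ℤ)
    (ha : ¬ ((l : ℤ) ∣ a.1 ∧ (l : ℤ) ∣ a.2)) :
    ∑ v ∈ (((Icc (1 : ℤ) X) ×ˢ (Icc (1 : ℤ) X)).filter
      (fun v => ((l : ℤ) ∣ dt a v ∧ L ≤ (nm v : ℝ)) ∧ nm v ≤ X)), (1 : ℝ) / (nm v : ℝ) ^ 2 ≤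
      (1 + Real.log X) / l + 2 / L := by
  classical
  have hlR : (0 : ℝ) < l := by exact_mod_cast hl.pos
  refine (uc4_fib (fun v => (l : ℤ) ∣ dt a v ∧ L ≤ (nm v : ℝ)) X).trans ?_
  by_cases hs : (l : ℤ) ∣ a.1 + a.2
  · have h1 : ¬ (l : ℤ) ∣ a.1 := fun h => ha ⟨h, (dvd_add_right h).1 hs⟩
    have h2 : ∑ N ∈ Icc 1 X, (((Icc 1 N).filter (fun x : ℕ => (l : ℤ) ∣
        dt a ((x : ℤ), (N : ℤ) - x) ∧ L ≤ ((nm ((x : ℤ), (N : ℤ) - x) : ℤ) : ℝ))).card : ℝ) /
        (N : ℝ) ^ 2 ≤ ∑ N ∈ (Icc 1 X).filter (fun N => l ∣ N), (1 : ℝ) / N := by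
      rw [Finset.sum_filter]
      apply Finset.sum_le_sum
      intro N hN
      rw [Finset.mem_Icc] at hN
      have hN0 : (0 : ℝ) < N := by exact_mod_cast hN.1
      split_ifs with h3
      · have h4 : ((((Icc 1 N).filter (fun x : ℕ => (l : ℤ) ∣
            dt a ((x : ℤ), (N : ℤ) - x) ∧
            L ≤ ((nm ((x : ℤ), (N : ℤ) - x) : ℤ) : ℝ))).card : ℝ)) ≤ N := by
          have := Finset.card_filter_le (Icc 1 N) (fun x : ℕ => (l : ℤ) ∣
            dt a ((x : ℤ), (N : ℤ) - x) ∧ L ≤ ((nm ((x : ℤ), (N : ℤ) - x) : ℤ) : ℝ))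
          rw [Nat.card_Icc, Nat.add_sub_cancel] at this
          exact_mod_cast this
        rw [div_le_div_iff₀ (by positivity) hN0]
        nlinarith
      · have h4 : (Icc 1 N).filter (fun x : ℕ => (l : ℤ) ∣
            dt a ((x : ℤ), (N : ℤ) - x) ∧
            L ≤ ((nm ((x : ℤ), (N : ℤ) - x) : ℤ) : ℝ)) = ∅ := by
          rw [Finset.filter_eq_empty_iff]
          rintro x _ ⟨hx, _⟩
          apply h3
          have e : dt a ((x : ℤ), (N : ℤ) - x) = a.1 * N - (a.1 + a.2) * x := by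
            unfold dt
            ring
          rw [e] at hx
          have h5 : (l : ℤ) ∣ a.1 * N := (dvd_sub_left (hs.mul_right _)).1 hx
          exact Int.natCast_dvd_natCast.1
            (((Nat.prime_iff_prime_int.1 hl).dvd_or_dvd h5).resolve_left h1)
        rw [h4]
        simp
    have h3 : 0 ≤ 2 / L := by positivity
    linarith [uc4_mul X l hl.pos]
  · have h2 : ∀ N ∈ Icc 1 X, (((Icc 1 N).filter (fun x : ℕ => (l : ℤ) ∣
        dt a ((x : ℤ), (N : ℤ) - x) ∧ L ≤ ((nm ((x : ℤ), (N : ℤ) - x) : ℤ) : ℝ))).card : ℝ) /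
        (N : ℝ) ^ 2 ≤ (1 : ℝ) / N / l + (if L ≤ (N : ℝ) then (1 : ℝ) / (N : ℝ) ^ 2 else 0) := by
      intro N hN
      rw [Finset.mem_Icc] at hN
      have hN0 : (0 : ℝ) < N := by exact_mod_cast hN.1
      have e0 : ∀ x : ℕ, nm ((x : ℤ), (N : ℤ) - x) = N := fun x => by
        unfold nm
        ring
      split_ifs with h3
      · have h4 := uc4_cong N l hl (a.1 + a.2) (a.1 * N) hs
        have h5 : ((((Icc 1 N).filter (fun x : ℕ => (l : ℤ) ∣
            dt a ((x : ℤ), (N : ℤ) - x) ∧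
            L ≤ ((nm ((x : ℤ), (N : ℤ) - x) : ℤ) : ℝ))).card : ℝ)) ≤ N / l + 1 := by
          refine le_trans ?_ h4
          apply Nat.cast_le.2
          apply Finset.card_le_card
          intro x hx
          obtain ⟨hx1, hx2, _⟩ := Finset.mem_filter.1 hx
          refine Finset.mem_filter.2 ⟨hx1, ?_⟩
          have e : dt a ((x : ℤ), (N : ℤ) - x) = a.1 * N - (a.1 + a.2) * x := by
            unfold dt
            ring
          rwa [e] at hx2
        calc _ ≤ ((N : ℝ) / l + 1) / (N : ℝ) ^ 2 := div_le_div_of_nonneg_right h5 (by positivity)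
          _ = (1 : ℝ) / N / l + (1 : ℝ) / (N : ℝ) ^ 2 := by
            field_simp
      · have h4 : (Icc 1 N).filter (fun x : ℕ => (l : ℤ) ∣
            dt a ((x : ℤ), (N : ℤ) - x) ∧
            L ≤ ((nm ((x : ℤ), (N : ℤ) - x) : ℤ) : ℝ)) = ∅ := by
          rw [Finset.filter_eq_empty_iff]
          rintro x _ ⟨_, hx⟩
          apply h3
          rw [e0] at hx
          exact_mod_cast hx
        rw [h4]
        simp only [Finset.card_empty, Nat.cast_zero, zero_div, add_zero]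
        positivity
    refine (Finset.sum_le_sum h2).trans ?_
    rw [Finset.sum_add_distrib, ← Finset.sum_div, ← Finset.sum_filter]
    exact add_le_add (div_le_div_of_nonneg_right (uc4_harm X) hlR.le) (uc4_sq X L hL)

/-- the sum over a segment -/
theorem uc4_seg (A f : ℕ) (g : ℕ → ℤ × ℤ) (hg : Function.Injective g) (κ : ℝ)
    (P : ℤ × ℤ → Prop) [DecidablePred P]
    (hP : ∀ x : ℕ, P (g x) → (1 : ℝ) / (nm (g x) : ℝ) ≤ κ / f) :
    ∑ v ∈ ((Icc 1 A).image g).filter P, (1 : ℝ) / (nm v : ℝ) ≤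
      (((Icc 1 A).filter (fun x => P (g x))).card : ℝ) * (κ / f) := by
  rw [Finset.filter_image, Finset.sum_image (fun a _ b _ h => hg h), ← nsmul_eq_mul,
    ← Finset.sum_const]
  apply Finset.sum_le_sum
  intro x hx
  exact hP x (Finset.mem_filter.1 hx).2

/-- the constant of the last vertex -/
noncomputable def uc4_K : ℝ := 1 + |(ws.1 : ℝ)|

theorem uc4_K1 : 1 ≤ uc4_K := by
  unfold uc4_K
  linarith [abs_nonneg (ws.1 : ℝ)]

theorem uc4_nmz : (1 : ℝ) ≤ (nm z : ℝ) := by exact_mod_cast nm_z_pos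

/-- the constant of the ends -/
noncomputable def uc4_B (c1 : ℝ) : ℝ := uc4_K * (nm z : ℝ) * (1 / c1) + (nm z : ℝ) + 2

theorem uc4_B2 {c1 : ℝ} (hc0 : 0 < c1) : 2 ≤ uc4_B c1 := by
  have h1 := uc4_K1
  have h2 := uc4_nmz
  unfold uc4_B
  have : 0 ≤ uc4_K * (nm z : ℝ) * (1 / c1) := by positivity
  linarith

theorem uc4_B3 {c1 : ℝ} (hc0 : 0 < c1) : 1 / c1 ≤ uc4_B c1 := by
  have h1 := uc4_K1
  have h2 := uc4_nmz
  unfold uc4_B
  have h3 : 1 ≤ uc4_K * (nm z : ℝ) := by nlinarith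
  have h4 : 0 < 1 / c1 := by positivity
  have : 1 * (1 / c1) ≤ uc4_K * (nm z : ℝ) * (1 / c1) := mul_le_mul_of_nonneg_right h3 h4.le
  linarith

/-- all points of a segment -/
theorem uc4_segT {A f : ℕ} (hf : 1 ≤ f) {g : ℕ → ℤ × ℤ} (hg : Function.Injective g) {κ c1 a : ℝ}
    (hκ : 0 ≤ κ) (hc0 : 0 < c1) (hA : (A : ℝ) ≤ a * f / c1) (P : ℤ × ℤ → Prop) [DecidablePred P]
    (hP : ∀ x : ℕ, P (g x) → (1 : ℝ) / (nm (g x) : ℝ) ≤ κ / f) :
    ∑ v ∈ ((Icc 1 A).image g).filter P, (1 : ℝ) / (nm v : ℝ) ≤ a * κ * (1 / c1) := by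
  have hf0 : (0 : ℝ) < f := by exact_mod_cast hf
  refine (uc4_seg A f g hg κ P hP).trans ?_
  have h1 : (((Icc 1 A).filter (fun x => P (g x))).card : ℝ) ≤ A := by
    have := Finset.card_filter_le (Icc 1 A) (fun x => P (g x))
    rw [Nat.card_Icc, Nat.add_sub_cancel] at this
    exact_mod_cast this
  calc _ ≤ (a * f / c1) * (κ / f) :=
        mul_le_mul_of_nonneg_right (h1.trans hA) (by positivity)
    _ = a * κ * (1 / c1) := by field_simp

/-- the points of a segment in one class -/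
theorem uc4_segL {A f l : ℕ} (hf : 1 ≤ f) (hl : l.Prime) {g : ℕ → ℤ × ℤ}
    (hg : Function.Injective g) {κ c1 a L : ℝ}
    (hκ : 0 ≤ κ) (hc0 : 0 < c1) (hL : 0 < L) (hLf : L ≤ f) (hA : (A : ℝ) ≤ a * f / c1)
    (P : ℤ × ℤ → Prop) [DecidablePred P]
    (hP : ∀ x : ℕ, P (g x) → (1 : ℝ) / (nm (g x) : ℝ) ≤ κ / f) (α β : ℤ) (hα : ¬ (l : ℤ) ∣ α)
    (hQ : ∀ x : ℕ, P (g x) → (l : ℤ) ∣ β - α * x) :
    ∑ v ∈ ((Icc 1 A).image g).filter P, (1 : ℝ) / (nm v : ℝ) ≤
      a * κ * (1 / c1) * (1 / l) + κ * (1 / L) := by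
  have hf0 : (0 : ℝ) < f := by exact_mod_cast hf
  have hlR : (0 : ℝ) < l := by exact_mod_cast hl.pos
  refine (uc4_seg A f g hg κ P hP).trans ?_
  have h1 : (((Icc 1 A).filter (fun x => P (g x))).card : ℝ) ≤ A / l + 1 := by
    refine le_trans ?_ (uc4_cong A l hl α β hα)
    apply Nat.cast_le.2
    apply Finset.card_le_card
    intro x hx
    obtain ⟨b1, b2⟩ := Finset.mem_filter.1 hx
    exact Finset.mem_filter.2 ⟨b1, hQ x b2⟩
  have h2 : (A : ℝ) / l ≤ a * f / c1 / l := div_le_div_of_nonneg_right hA hlR.le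
  calc _ ≤ (a * f / c1 / l + 1) * (κ / f) :=
        mul_le_mul_of_nonneg_right (h1.trans (by linarith)) (by positivity)
    _ = a * κ * (1 / c1) * (1 / l) + κ * (1 / f) := by field_simp
    _ ≤ a * κ * (1 / c1) * (1 / l) + κ * (1 / L) := by
        have := one_div_le_one_div_of_le hL hLf
        have := mul_le_mul_of_nonneg_left this hκ
        linarith

/-- the last vertices -/
noncomputable def uc4_g (d : ℕ) (t : ℕ) : ℤ × ℤ :=
  ((t : ℤ) * z.1 + (d : ℤ) * ws.1, (t : ℤ) * z.2 + (d : ℤ) * ws.2)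

theorem uc4_g_inj (d : ℕ) : Function.Injective (uc4_g d) := by
  intro a b h
  have h1 := congrArg Prod.fst h
  unfold uc4_g at h1
  simp only at h1
  have h2 := z1_pos
  have h3 : (a : ℤ) * z.1 = (b : ℤ) * z.1 := by linarith
  have h4 := mul_right_cancel₀ h2.ne' h3
  exact_mod_cast h4

theorem uc4_g_det (d t : ℕ) : dt z (uc4_g d t) = d := by
  have hw := ws_det
  unfold uc4_g
  unfold dt at hw ⊢
  simp only
  linear_combination (d : ℤ) * hw

theorem uc4_g_nm (d t : ℕ) (hd : 1 ≤ d) (h1 : 0 < (uc4_g d t).1) (h2 : 0 < (uc4_g d t).2) :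
    (1 : ℝ) / (nm (uc4_g d t) : ℝ) ≤ (nm z : ℝ) / d := by
  have h3 := nm_ge_det h1 h2
  rw [uc4_g_det] at h3
  have h4 : (d : ℝ) ≤ (nm z : ℝ) * (nm (uc4_g d t) : ℝ) := by exact_mod_cast h3
  have h5 : 0 < nm (uc4_g d t) := by unfold nm; omega
  have h6 : (0 : ℝ) < (nm (uc4_g d t) : ℝ) := by exact_mod_cast h5
  have h7 : (0 : ℝ) < d := by exact_mod_cast hd
  rw [div_le_div_iff₀ h6 h7]
  linarith

theorem uc4_f_inj (f : ℕ) : Function.Injective (fun x : ℕ => ((x : ℤ), (f : ℤ))) := by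
  intro a b h
  have h' : (a : ℤ) = (b : ℤ) := congrArg Prod.fst h
  exact_mod_cast h'

theorem uc4_f_nm (x f : ℕ) (hf : 1 ≤ f) :
    (1 : ℝ) / (nm ((x : ℤ), (f : ℤ)) : ℝ) ≤ (nm z : ℝ) / f := by
  have h1 : (0 : ℝ) < f := by exact_mod_cast hf
  have h2 := uc4_nmz
  have h3 : (0 : ℝ) ≤ x := Nat.cast_nonneg x
  have h4 : ((nm ((x : ℤ), (f : ℤ)) : ℤ) : ℝ) = (x : ℝ) + f := by unfold nm; push_cast; ring
  rw [h4, div_le_div_iff₀ (by linarith) h1]
  nlinarith

/-! ### the box -/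

open Classical in
noncomputable def uc4_S (X l : ℕ) (f : ℕ × ℕ) (c1 L : ℝ) (j : Fin 11) : Finset (ℤ × ℤ) :=
  (if j = 0 then {((1 : ℤ), (0 : ℤ))} else if j = 10 then {z} else if j = 1 then
    (Icc 1 ⌊(f.1 : ℝ) / c1⌋₊).image (fun x : ℕ => ((x : ℤ), (f.1 : ℤ))) else if j = 9 then
    ((Icc 1 ⌊uc4_K * (f.2 : ℝ) / c1⌋₊).image (uc4_g f.2)).filter (fun v => 0 < v.1 ∧ 0 < v.2) else
    ((Icc (1 : ℤ) X) ×ˢ (Icc (1 : ℤ) X)).filter (fun v => L ≤ (nm v : ℝ) ∧ nm v ≤ X)).filter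
    (fun v => ¬ ((l : ℤ) ∣ v.1 ∧ (l : ℤ) ∣ v.2))

noncomputable def uc4_w (j : Fin 11) (v : ℤ × ℤ) : ℝ :=
  if j = 0 ∨ j = 10 then 1 else if j = 1 ∨ j = 9 then 1 / (nm v : ℝ) else 1 / (nm v : ℝ) ^ 2

theorem uc4_w_nonneg (X l : ℕ) (f : ℕ × ℕ) (c1 L : ℝ) (j : Fin 11) (v : ℤ × ℤ)
    (hv : v ∈ uc4_S X l f c1 L j) : 0 ≤ uc4_w j v := by
  unfold uc4_S at hv
  obtain ⟨hv, _⟩ := Finset.mem_filter.1 hv
  unfold uc4_w
  by_cases h0 : j = 0
  · rw [if_pos (Or.inl h0)]
    norm_num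
  by_cases h10 : j = 10
  · rw [if_pos (Or.inr h10)]
    norm_num
  rw [if_neg (by tauto)]
  rw [if_neg h0, if_neg h10] at hv
  by_cases h1 : j = 1
  · rw [if_pos h1] at hv
    obtain ⟨x, _, hx⟩ := Finset.mem_image.1 hv
    rw [if_pos (Or.inl h1), ← hx]
    unfold nm
    positivity
  rw [if_neg h1] at hv
  by_cases h9 : j = 9
  · rw [if_pos h9] at hv
    obtain ⟨_, hx⟩ := Finset.mem_filter.1 hv
    rw [if_pos (Or.inr h9)]
    have h5 : 0 ≤ nm v := by unfold nm; omega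
    have h6 : (0 : ℝ) ≤ (nm v : ℝ) := by exact_mod_cast h5
    positivity
  rw [if_neg (by tauto)]
  positivity

/-- the parameters -/
theorem uc4_prm {p : Prm 10} {τ : ℝ} (hp : p.Ok τ) (hτ : τ ≤ 1 / 2) :
    0 < p.e 8 ∧ p.e 8 ≤ p.em ∧
      ∀ j : Fin 11, 2 ≤ j.val → j.val ≤ 8 → p.e 8 ≤ p.e j ∧ p.e j + p.ew ≤ 1 := by
  have hτ0 : 0 < τ := hp.c10.trans_le hp.c11
  have hpos : ∀ j : Fin 11, 2 ≤ j.val → j.val ≤ 8 → 0 < p.e j := by
    intro j h2 h8
    have h3 := hp.ew1 j h2 (by omega)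
    have h4 := hp.ew0
    by_contra h
    push Not at h
    nlinarith
  have e8 : 0 < p.e 8 := hpos 8 (by decide) (by decide)
  have h8m := hp.even 8 (by decide) (by decide) (by decide)
  have hem : 0 < p.em := by
    by_contra h
    push Not at h
    nlinarith
  have hta : 0 < p.ta := by
    have := hp.em_ta
    by_contra h
    push Not at h
    nlinarith
  have hep : 0 < p.ep := by
    have := hp.ta_ep
    by_contra h
    push Not at h
    nlinarith
  have g1 : p.ep ≤ 1 / 2 := hp.ep1.trans hτ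
  have g2 : p.ta ≤ p.ep := by nlinarith [hp.ta_ep]
  have g3 : p.em ≤ p.ta := by nlinarith [hp.em_ta]
  refine ⟨e8, by nlinarith, ?_⟩
  intro j h2 h8
  have hj := hpos j h2 h8
  have hew : p.ew ≤ τ * p.e j := hp.ew1 j h2 (by omega)
  by_cases hev : Even j.val
  · have h3 := hp.even j h2 (by omega) hev
    have h4 : p.e j ≤ p.em := by nlinarith
    refine ⟨?_, by nlinarith⟩
    by_cases hj8 : j.val = 8
    · have : j = 8 := Fin.ext hj8
      rw [this]
    · have h5 := hp.low 8 j h2 (by omega) hev (by decide)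
      nlinarith
  · have h3 : p.e j = p.ep := hp.odd j h2 (by omega) hev
    rw [h3] at hew ⊢
    refine ⟨by nlinarith, by nlinarith⟩

theorem uc4_first {p : Prm 10} {X : ℕ} {u : Vec 10} (h : GP p X u) (hc0 : 0 < p.c1) :
    (dE u 1 : ℤ) = (u (1 : Fin 11)).2 ∧ (nm (u (1 : Fin 11)) : ℝ) ≤ (dE u 1 : ℝ) / p.c1 := by
  refine ⟨(gp_u1 h).1.symm, ?_⟩
  have h0 : u (0 : Fin 11) = (1, 0) := h.first
  have h1 := gp_dn_ge h (0 : Fin 11) (by decide)
  rw [dn_dE u 0 (by decide)] at h1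
  have h3 : nm (1, 0) = 1 := by unfold nm; norm_num
  rw [h0, h3, Int.cast_one, one_mul] at h1
  have h4 : p.c1 * (nm (u (1 : Fin 11)) : ℝ) ≤ (dE u 1 : ℝ) := h1
  rw [le_div_iff₀ hc0]
  linarith

theorem uc4_last {p : Prm 10} {X : ℕ} {u : Vec 10} (h : GP p X u) (hc0 : 0 < p.c1) :
    (dE u 10 : ℤ) = dt z (u (9 : Fin 11)) ∧ (nm (u (9 : Fin 11)) : ℝ) ≤ (dE u 10 : ℝ) / p.c1 := by
  refine ⟨(gp_u9 hc0 h).symm, ?_⟩
  have h0 : u (10 : Fin 11) = z := h.last
  have h1 := gp_dn_ge h (9 : Fin 11) (by decide)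
  rw [dn_dE u 9 (by decide)] at h1
  have e : ((9 : Fin 11) + 1 : Fin 11) = 10 := by decide
  rw [e, h0] at h1
  have h2 : (1 : ℝ) ≤ (nm (u (9 : Fin 11)) : ℝ) := by exact_mod_cast nm_pos h (9 : Fin 11)
  have h3 := uc4_nmz
  have h4 : (nm (u (9 : Fin 11)) : ℝ) ≤ (nm (u (9 : Fin 11)) : ℝ) * (nm z : ℝ) := by nlinarith
  have h5 : p.c1 * (nm (u (9 : Fin 11)) : ℝ) ≤ (dE u 10 : ℝ) :=
    (mul_le_mul_of_nonneg_left h4 hc0.le).trans h1
  rw [le_div_iff₀ hc0]
  linarith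

theorem uc4_box {p : Prm 10} {τ : ℝ} (hp : p.Ok τ) (hτ : τ ≤ 1 / 2) {X : ℕ} (hX : 1 ≤ X)
    {u : Vec 10} (hu : GP p X u) {f : ℕ × ℕ} (hf : fE u = f) {l : ℕ} (hl : l.Prime) :
    u ∈ Fintype.piFinset (uc4_S X l f p.c1 ((X : ℝ) ^ p.e 8)) := by
  classical
  have hX1 : (1 : ℝ) ≤ X := by exact_mod_cast hX
  obtain ⟨he8, -, hej⟩ := uc4_prm hp hτ
  have hf1 : dE u 1 = f.1 := by rw [← hf]; rfl
  have hf2 : dE u 10 = f.2 := by rw [← hf]; rfl
  rw [Fintype.mem_piFinset]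
  intro j
  unfold uc4_S
  refine Finset.mem_filter.2 ⟨?_, gp_prim hu j hl⟩
  have hjlt := j.isLt
  by_cases h0 : j = 0
  · rw [if_pos h0, h0, Finset.mem_singleton]
    exact hu.first
  rw [if_neg h0]
  by_cases h10 : j = 10
  · rw [if_pos h10, h10, Finset.mem_singleton]
    exact hu.last
  rw [if_neg h10]
  have hj0 : j.val ≠ 0 := fun h => h0 (Fin.ext h)
  have hj10 : j.val ≠ 10 := fun h => h10 (Fin.ext h)
  obtain ⟨hp1, hp2⟩ := hu.pos j (by omega) (by omega)
  by_cases h1 : j = 1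
  · rw [if_pos h1]
    subst h1
    obtain ⟨a1, a2⟩ := uc4_first hu hp.c10
    rw [hf1] at a1 a2
    rw [Finset.mem_image]
    refine ⟨(u (1 : Fin 11)).1.toNat, ?_, ?_⟩
    · rw [Finset.mem_Icc]
      refine ⟨by omega, ?_⟩
      apply Nat.le_floor
      refine le_trans ?_ a2
      unfold nm
      have : (((u (1 : Fin 11)).1.toNat : ℕ) : ℝ) = ((u (1 : Fin 11)).1 : ℝ) := by
        have : (((u (1 : Fin 11)).1.toNat : ℕ) : ℤ) = (u (1 : Fin 11)).1 :=
          Int.toNat_of_nonneg hp1.le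
        exact_mod_cast this
      rw [this]
      push_cast
      have : (0 : ℝ) < ((u (1 : Fin 11)).2 : ℝ) := by exact_mod_cast hp2
      linarith
    · apply Prod.ext
      · exact Int.toNat_of_nonneg hp1.le
      · exact a1
  rw [if_neg h1]
  by_cases h9 : j = 9
  · rw [if_pos h9]
    subst h9
    obtain ⟨a1, a2⟩ := uc4_last hu hp.c10
    rw [hf2] at a1 a2
    have hd0 : 0 ≤ dt z (u (9 : Fin 11)) := by rw [← a1]; exact Int.natCast_nonneg _
    have ht1 := t_pos hp1 hd0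
    have ht2 := t_le hp1 hp2 hd0
    have hc0 := hp.c10
    have hc1 : p.c1 ≤ 1 := hp.c11.trans (hτ.trans (by norm_num))
    rw [Finset.mem_filter, Finset.mem_image]
    refine ⟨⟨(dt (u (9 : Fin 11)) ws).toNat, ?_, ?_⟩, hp1, hp2⟩
    · rw [Finset.mem_Icc]
      refine ⟨by omega, ?_⟩
      apply Nat.le_floor
      rw [le_div_iff₀ hc0]
      have h5 : ((dt (u (9 : Fin 11)) ws).toNat : ℝ) ≤
          (nm (u (9 : Fin 11)) : ℝ) + |(ws.1 : ℝ)| * (f.2 : ℝ) := by
        have h6 : ((dt (u (9 : Fin 11)) ws).toNat : ℤ) ≤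
            nm (u (9 : Fin 11)) + |ws.1| * (f.2 : ℤ) := by
          rw [Int.toNat_of_nonneg (by omega), a1]
          exact ht2
        exact_mod_cast h6
      have h7 : (0 : ℝ) ≤ |(ws.1 : ℝ)| * (f.2 : ℝ) := by positivity
      have h8 : ((dt (u (9 : Fin 11)) ws).toNat : ℝ) * p.c1 ≤
          ((nm (u (9 : Fin 11)) : ℝ) + |(ws.1 : ℝ)| * (f.2 : ℝ)) * p.c1 :=
        mul_le_mul_of_nonneg_right h5 hc0.le
      rw [le_div_iff₀ hc0] at a2
      unfold uc4_K
      nlinarith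
    · unfold uc4_g
      rw [Int.toNat_of_nonneg (by omega), a1]
      exact (vec_ws (u (9 : Fin 11))).symm
  rw [if_neg h9]
  have hj1 : j.val ≠ 1 := fun h => h1 (Fin.ext h)
  have hj9 : j.val ≠ 9 := fun h => h9 (Fin.ext h)
  obtain ⟨b1, b2⟩ := hej j (by omega) (by omega)
  have hlow := hu.low j (by omega) (by omega)
  have hupp := hu.upp j (by omega) (by omega)
  have hX0 : (0 : ℝ) < X := by linarith
  have c1 : (nm (u j) : ℝ) ≤ X := by
    refine hupp.trans ?_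
    calc (X : ℝ) ^ (p.e j + p.ew) ≤ (X : ℝ) ^ (1 : ℝ) :=
          Real.rpow_le_rpow_of_exponent_le hX1 b2
      _ = X := Real.rpow_one _
  have c2 : nm (u j) ≤ (X : ℤ) := by exact_mod_cast c1
  have c3 : (X : ℝ) ^ p.e 8 ≤ (nm (u j) : ℝ) :=
    (Real.rpow_le_rpow_of_exponent_le hX1 b1).trans hlow
  refine Finset.mem_filter.2 ⟨?_, c3, c2⟩
  unfold nm at c2
  rw [Finset.mem_product, Finset.mem_Icc, Finset.mem_Icc]
  exact ⟨⟨by omega, by omega⟩, ⟨by omega, by omega⟩⟩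

theorem uc4_feU : feU = {1, 2, 3, 4, 5, 6, 7, 8} := by decide

theorem uc4_univ : (univ : Finset (Fin 11)) = {0, 1, 2, 3, 4, 5, 6, 7, 8, 9, 10} := by decide

theorem uc4_prod8 (g : Fin 11 → ℝ) : ∏ j ∈ feU, g j =
    g 1 * (g 2 * (g 3 * (g 4 * (g 5 * (g 6 * (g 7 * g 8)))))) := by
  rw [uc4_feU, Finset.prod_insert (by decide), Finset.prod_insert (by decide),
    Finset.prod_insert (by decide), Finset.prod_insert (by decide), Finset.prod_insert (by decide),
    Finset.prod_insert (by decide), Finset.prod_insert (by decide), Finset.prod_singleton]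

theorem uc4_prod11 (g : Fin 11 → ℝ) : ∏ j, g j =
    g 0 * (g 1 * (g 2 * (g 3 * (g 4 * (g 5 * (g 6 * (g 7 * (g 8 * (g 9 * g 10))))))))) := by
  rw [uc4_univ, Finset.prod_insert (by decide), Finset.prod_insert (by decide),
    Finset.prod_insert (by decide), Finset.prod_insert (by decide), Finset.prod_insert (by decide),
    Finset.prod_insert (by decide), Finset.prod_insert (by decide),
    Finset.prod_insert (by decide), Finset.prod_insert (by decide), Finset.prod_insert (by decide),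
    Finset.prod_singleton]

theorem uc4_ptw {p : Prm 10} {X : ℕ} {u : Vec 10} (hu : GP p X u) (hc0 : 0 < p.c1) :
    1 / (Dint u : ℝ) ≤ p.c1⁻¹ ^ 8 * ∏ j, uc4_w j (u j) := by
  have hn : ∀ j : Fin 11, (0 : ℝ) < (nm (u j) : ℝ) := fun j => by
    have := nm_pos hu j
    exact_mod_cast (by omega : 0 < nm (u j))
  have h1 : ∏ j ∈ feU, (p.c1 * ((nm (u j) : ℝ) * (nm (u (j + 1 : Fin 11)) : ℝ))) ≤
      (Dint u : ℝ) := by
    rw [← DE_feU u]
    unfold DE
    push_cast
    apply Finset.prod_le_prod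
    · intro j _
      have := hn j
      have := hn (j + 1)
      positivity
    · intro j hj
      apply gp_dn_ge hu j
      intro h
      rw [h] at hj
      exact absurd hj (by decide)
  have h2 : 0 < ∏ j ∈ feU, (p.c1 * ((nm (u j) : ℝ) * (nm (u (j + 1 : Fin 11)) : ℝ))) := by
    apply Finset.prod_pos
    intro j _
    have := hn j
    have := hn (j + 1)
    positivity
  refine (one_div_le_one_div_of_le h2 h1).trans (le_of_eq ?_)
  have w0 : uc4_w 0 (u 0) = 1 := by unfold uc4_w; rw [if_pos (by decide)]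
  have w10 : uc4_w 10 (u 10) = 1 := by unfold uc4_w; rw [if_pos (by decide)]
  have w1 : uc4_w 1 (u 1) = 1 / (nm (u 1) : ℝ) := by
    unfold uc4_w; rw [if_neg (by decide), if_pos (by decide)]
  have w9 : uc4_w 9 (u 9) = 1 / (nm (u 9) : ℝ) := by
    unfold uc4_w; rw [if_neg (by decide), if_pos (by decide)]
  have wm : ∀ j : Fin 11, ¬ (j = 0 ∨ j = 10) → ¬ (j = 1 ∨ j = 9) →
      uc4_w j (u j) = 1 / (nm (u j) : ℝ) ^ 2 := by
    intro j ha hb
    unfold uc4_w; rw [if_neg ha, if_neg hb]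
  rw [uc4_prod8, uc4_prod11, w0, w10, w1, w9, wm 2 (by decide) (by decide),
    wm 3 (by decide) (by decide), wm 4 (by decide) (by decide), wm 5 (by decide) (by decide),
    wm 6 (by decide) (by decide), wm 7 (by decide) (by decide), wm 8 (by decide) (by decide)]
  have n1 := hn 1
  have n2 := hn 2
  have n3 := hn 3
  have n4 := hn 4
  have n5 := hn 5
  have n6 := hn 6
  have n7 := hn 7
  have n8 := hn 8
  have n9 := hn 9
  rw [show (1 : Fin 11) + 1 = 2 from rfl, show (2 : Fin 11) + 1 = 3 from rfl,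
    show (3 : Fin 11) + 1 = 4 from rfl, show (4 : Fin 11) + 1 = 5 from rfl,
    show (5 : Fin 11) + 1 = 6 from rfl, show (6 : Fin 11) + 1 = 7 from rfl,
    show (7 : Fin 11) + 1 = 8 from rfl, show (8 : Fin 11) + 1 = 9 from rfl]
  field_simp

/-! ### the sums over the boxes -/

theorem uc4_T {X l : ℕ} {f : ℕ × ℕ} {c1 L : ℝ} (hX : 3 ≤ X) (hf1 : 1 ≤ f.1) (hf2 : 1 ≤ f.2)
    (hc0 : 0 < c1) (j : Fin 11) :
    ∑ v ∈ uc4_S X l f c1 L j, uc4_w j v ≤ uc4_B c1 * Real.log X := by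
  classical
  have hlog : 1 ≤ Real.log X := by
    rw [Real.le_log_iff_exp_le (by positivity)]
    have : (3 : ℝ) ≤ X := by exact_mod_cast hX
    linarith [Real.exp_one_lt_d9]
  have hc : 0 < 1 / c1 := by positivity
  have hB2 := uc4_B2 hc0
  have hK := uc4_K1
  have hz := uc4_nmz
  have hbig : uc4_B c1 ≤ uc4_B c1 * Real.log X := le_mul_of_one_le_right (by linarith) hlog
  by_cases h0 : j = 0
  · have : ∑ v ∈ uc4_S X l f c1 L j, uc4_w j v ≤ 1 := by
      unfold uc4_S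
      rw [if_pos h0]
      calc _ ≤ ∑ v ∈ {((1 : ℤ), (0 : ℤ))}, uc4_w j v := by
            apply Finset.sum_le_sum_of_subset_of_nonneg (Finset.filter_subset _ _)
            intro v _ _
            unfold uc4_w
            rw [if_pos (Or.inl h0)]
            norm_num
        _ = 1 := by
            rw [Finset.sum_singleton]
            unfold uc4_w
            rw [if_pos (Or.inl h0)]
    linarith
  by_cases h10 : j = 10
  · have : ∑ v ∈ uc4_S X l f c1 L j, uc4_w j v ≤ 1 := by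
      unfold uc4_S
      rw [if_neg h0, if_pos h10]
      calc _ ≤ ∑ v ∈ {z}, uc4_w j v := by
            apply Finset.sum_le_sum_of_subset_of_nonneg (Finset.filter_subset _ _)
            intro v _ _
            unfold uc4_w
            rw [if_pos (Or.inr h10)]
            norm_num
        _ = 1 := by
            rw [Finset.sum_singleton]
            unfold uc4_w
            rw [if_pos (Or.inr h10)]
    linarith
  by_cases h1 : j = 1
  · have : ∑ v ∈ uc4_S X l f c1 L j, uc4_w j v ≤ 1 * (nm z : ℝ) * (1 / c1) := by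
      have hw : ∀ v, uc4_w j v = (1 : ℝ) / (nm v : ℝ) := by
        intro v
        unfold uc4_w
        rw [if_neg (by tauto), if_pos (Or.inl h1)]
      rw [Finset.sum_congr rfl (fun v _ => hw v)]
      unfold uc4_S
      rw [if_neg h0, if_neg h10, if_pos h1]
      exact uc4_segT hf1 (uc4_f_inj f.1) (by linarith) hc0
        (by rw [one_mul]; exact Nat.floor_le (by positivity)) _
        (fun x _ => uc4_f_nm x f.1 hf1)
    have h2 : 1 * (nm z : ℝ) * (1 / c1) ≤ uc4_K * (nm z : ℝ) * (1 / c1) :=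
      mul_le_mul_of_nonneg_right (mul_le_mul_of_nonneg_right hK (by linarith)) hc.le
    have h3 : uc4_B c1 = uc4_K * (nm z : ℝ) * (1 / c1) + (nm z : ℝ) + 2 := rfl
    linarith
  by_cases h9 : j = 9
  · have : ∑ v ∈ uc4_S X l f c1 L j, uc4_w j v ≤ uc4_K * (nm z : ℝ) * (1 / c1) := by
      have hw : ∀ v, uc4_w j v = (1 : ℝ) / (nm v : ℝ) := by
        intro v
        unfold uc4_w
        rw [if_neg (by tauto), if_pos (Or.inr h9)]
      rw [Finset.sum_congr rfl (fun v _ => hw v)]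
      unfold uc4_S
      rw [if_neg h0, if_neg h10, if_neg h1, if_pos h9, Finset.filter_filter]
      exact uc4_segT hf2 (uc4_g_inj f.2) (by linarith) hc0
        (Nat.floor_le (by positivity)) _
        (fun x hx => uc4_g_nm f.2 x hf2 hx.1.1 hx.1.2)
    have h3 : uc4_B c1 = uc4_K * (nm z : ℝ) * (1 / c1) + (nm z : ℝ) + 2 := rfl
    linarith
  have : ∑ v ∈ uc4_S X l f c1 L j, uc4_w j v ≤ 1 + Real.log X := by
    refine le_trans (le_of_eq ?_) (uc4_all X L (fun v => ¬ ((l : ℤ) ∣ v.1 ∧ (l : ℤ) ∣ v.2)))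
    unfold uc4_S
    rw [if_neg h0, if_neg h10, if_neg h1, if_neg h9, Finset.filter_filter]
    apply Finset.sum_congr
    · apply Finset.filter_congr
      intro v _
      tauto
    · intro v _
      unfold uc4_w
      rw [if_neg (by tauto), if_neg (by tauto)]
  have h2 : 1 + Real.log X ≤ 2 * Real.log X := by linarith
  have h3 : 2 * Real.log X ≤ uc4_B c1 * Real.log X := by nlinarith
  linarith

/-- one vertex on a line -/
theorem uc4_mid {X l : ℕ} {f : ℕ × ℕ} {c1 L : ℝ} (hX : 3 ≤ X) (hl : l.Prime)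
    (hL : 0 < L) (j : Fin 11) (h2 : 2 ≤ j.val) (h8 : j.val ≤ 8) (a : ℤ × ℤ)
    (ha : ¬ ((l : ℤ) ∣ a.1 ∧ (l : ℤ) ∣ a.2)) (cond : ℤ × ℤ → Prop) [DecidablePred cond]
    (hcond : ∀ b, cond b → (l : ℤ) ∣ dt a b) :
    ∑ b ∈ (uc4_S X l f c1 L j).filter cond, uc4_w j b ≤
      2 * Real.log X * (1 / l + 1 / L) := by
  classical
  have hlog : 1 ≤ Real.log X := by
    rw [Real.le_log_iff_exp_le (by positivity)]
    have : (3 : ℝ) ≤ X := by exact_mod_cast hX
    linarith [Real.exp_one_lt_d9]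
  have hlR : (0 : ℝ) < l := by exact_mod_cast hl.pos
  have h0 : j ≠ 0 := fun h => by rw [h] at h2; exact absurd h2 (by decide)
  have h1 : j ≠ 1 := fun h => by rw [h] at h2; exact absurd h2 (by decide)
  have h9 : j ≠ 9 := fun h => by rw [h] at h8; exact absurd h8 (by decide)
  have h10 : j ≠ 10 := fun h => by rw [h] at h8; exact absurd h8 (by decide)
  have h3 : ∑ b ∈ (uc4_S X l f c1 L j).filter cond, uc4_w j b ≤
      ∑ v ∈ (((Icc (1 : ℤ) X) ×ˢ (Icc (1 : ℤ) X)).filter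
      (fun v => ((l : ℤ) ∣ dt a v ∧ L ≤ (nm v : ℝ)) ∧ nm v ≤ X)), (1 : ℝ) / (nm v : ℝ) ^ 2 := by
    have h4 : ∀ v, uc4_w j v = (1 : ℝ) / (nm v : ℝ) ^ 2 := by
      intro v
      unfold uc4_w
      rw [if_neg (by tauto), if_neg (by tauto)]
    rw [Finset.sum_congr rfl (fun v _ => h4 v)]
    apply Finset.sum_le_sum_of_subset_of_nonneg
    · intro v hv
      obtain ⟨hv1, hv2⟩ := Finset.mem_filter.1 hv
      unfold uc4_S at hv1
      rw [if_neg h0, if_neg h10, if_neg h1, if_neg h9] at hv1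
      obtain ⟨hv3, hv4⟩ := Finset.mem_filter.1 hv1
      obtain ⟨hv5, hv6⟩ := Finset.mem_filter.1 hv3
      exact Finset.mem_filter.2 ⟨hv5, ⟨hcond v hv2, hv6.1⟩, hv6.2⟩
    · intro v _ _
      positivity
  refine h3.trans ((uc4_line X l hl L hL a ha).trans ?_)
  have e1 : (1 + Real.log X) / l ≤ 2 * Real.log X * (1 / l) := by
    rw [mul_one_div]
    apply div_le_div_of_nonneg_right _ hlR.le
    linarith
  have e2 : 2 / L ≤ 2 * Real.log X * (1 / L) := by
    rw [mul_one_div]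
    apply div_le_div_of_nonneg_right _ hL.le
    linarith
  linarith

/-! ### the cases -/

def uc4_gi (k : Fin 11 × Fin 4) : Fin 11 := if k.2 = 0 then k.1 - 1 else if k.2 = 1 then 9 else 0

def uc4_cd (l : ℕ) (k : Fin 11 × Fin 4) (a b : ℤ × ℤ) : Prop :=
  if k.2 = 0 ∨ k.2 = 1 then (l : ℤ) ∣ dt a b else if k.2 = 2 then (l : ℤ) ∣ dt b z else (l : ℤ) ∣ b.2

def uc4_ok (k : Fin 11 × Fin 4) : Prop :=
  (k.2 = 0 ∧ 2 ≤ k.1.val ∧ k.1.val ≤ 8) ∨ (k.2 = 1 ∧ k.1 = 8) ∨
    (k.2 = 2 ∧ 1 ≤ k.1.val ∧ k.1.val ≤ 8) ∨ (k.2 = 3 ∧ 2 ≤ k.1.val ∧ k.1.val ≤ 9)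

instance uc4_dec : DecidablePred uc4_ok := fun k => by unfold uc4_ok; infer_instance

theorem uc4_gi_ne : ∀ k : Fin 11 × Fin 4, uc4_ok k → uc4_gi k ≠ k.1 := by decide

open Classical in
theorem uc4_eps {X l : ℕ} {f : ℕ × ℕ} {c1 L : ℝ} (hX : 3 ≤ X) (hl : l.Prime)
    (hlz : ¬ (l : ℤ) ∣ z.2)
    (hf1 : 1 ≤ f.1) (hf2 : 1 ≤ f.2) (hc0 : 0 < c1) (hL : 0 < L) (hL1 : L ≤ f.1) (hL2 : L ≤ f.2)
    (k : Fin 11 × Fin 4)
    (hk : uc4_ok k) (a : ℤ × ℤ) (ha : a ∈ uc4_S X l f c1 L (uc4_gi k)) :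
    ∑ b ∈ (uc4_S X l f c1 L k.1).filter (fun b => uc4_cd l k a b), uc4_w k.1 b ≤
      uc4_B c1 * Real.log X * (1 / l + 1 / L) := by
  have hlog : 1 ≤ Real.log X := by
    rw [Real.le_log_iff_exp_le (by positivity)]
    have : (3 : ℝ) ≤ X := by exact_mod_cast hX
    linarith [Real.exp_one_lt_d9]
  have hlR : (0 : ℝ) < l := by exact_mod_cast hl.pos
  have hc : 0 < 1 / c1 := by positivity
  have hs : 0 < 1 / (l : ℝ) + 1 / L := by positivity
  have hB2 := uc4_B2 hc0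
  have hK := uc4_K1
  have hz := uc4_nmz
  have hBe : uc4_B c1 = uc4_K * (nm z : ℝ) * (1 / c1) + (nm z : ℝ) + 2 := rfl
  have ha2 : ¬ ((l : ℤ) ∣ a.1 ∧ (l : ℤ) ∣ a.2) := by
    unfold uc4_S at ha
    exact (Finset.mem_filter.1 ha).2
  have g1 : 2 * Real.log X * (1 / l + 1 / L) ≤ uc4_B c1 * Real.log X * (1 / l + 1 / L) := by
    apply mul_le_mul_of_nonneg_right _ hs.le
    nlinarith
  have g2 : uc4_K * (nm z : ℝ) * (1 / c1) * (1 / (l : ℝ)) + (nm z : ℝ) * (1 / L) ≤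
      uc4_B c1 * Real.log X * (1 / l + 1 / L) := by
    have e0 : uc4_B c1 ≤ uc4_B c1 * Real.log X := le_mul_of_one_le_right (by linarith) hlog
    have k1 : 0 ≤ uc4_K * (nm z : ℝ) * (1 / c1) := by positivity
    have e1 : uc4_K * (nm z : ℝ) * (1 / c1) ≤ uc4_B c1 * Real.log X := by linarith
    have e2 : (nm z : ℝ) ≤ uc4_B c1 * Real.log X := by linarith
    have i1 : 0 ≤ 1 / (l : ℝ) := by positivity
    have i2 : 0 ≤ 1 / L := by positivity
    have e3 := mul_le_mul_of_nonneg_right e1 i1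
    have e4 := mul_le_mul_of_nonneg_right e2 i2
    rw [mul_add]
    linarith
  have hl1 : ¬ (l : ℤ) ∣ 1 := by
    intro h
    have := Int.natCast_dvd_natCast.1 (by exact_mod_cast h : ((l : ℕ) : ℤ) ∣ ((1 : ℕ) : ℤ))
    exact hl.one_lt.ne' (Nat.dvd_one.1 this)
  rcases hk with ⟨k2, h2, h8⟩ | ⟨k2, k8⟩ | ⟨k2, h1, h8⟩ | ⟨k2, h2, h9⟩
  · refine (uc4_mid hX hl hL k.1 h2 h8 a ha2 (fun b => uc4_cd l k a b) ?_).trans g1
    intro b hb
    unfold uc4_cd at hb
    rwa [if_pos (Or.inl k2)] at hb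
  · refine (uc4_mid hX hl hL k.1 (by rw [k8]; decide) (by rw [k8]; decide) a ha2
      (fun b => uc4_cd l k a b) ?_).trans g1
    intro b hb
    unfold uc4_cd at hb
    rwa [if_pos (Or.inr k2)] at hb
  · have hcd : ∀ b, uc4_cd l k a b → (l : ℤ) ∣ dt b z := by
      intro b hb
      unfold uc4_cd at hb
      rw [if_neg (by rw [k2]; decide), if_pos k2] at hb
      exact hb
    by_cases hk1 : k.1 = 1
    · refine le_trans ?_ g2
      have hw : ∀ v, uc4_w k.1 v = (1 : ℝ) / (nm v : ℝ) := by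
        intro v
        unfold uc4_w
        rw [hk1, if_neg (by decide), if_pos (by decide)]
      rw [Finset.sum_congr rfl (fun v _ => hw v), hk1]
      unfold uc4_S
      rw [if_neg (by decide), if_neg (by decide), if_pos rfl, Finset.filter_filter]
      have h3 := uc4_segL (A := ⌊(f.1 : ℝ) / c1⌋₊) (a := 1) (κ := (nm z : ℝ)) (c1 := c1) (L := L)
        hf1 hl (uc4_f_inj f.1) (by linarith) hc0 hL hL1
        (by rw [one_mul]; exact Nat.floor_le (by positivity))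
        (fun v => ¬ ((l : ℤ) ∣ v.1 ∧ (l : ℤ) ∣ v.2) ∧ uc4_cd l k a v)
        (fun x _ => uc4_f_nm x f.1 hf1) z.2 ((f.1 : ℤ) * z.1) hlz (by
          intro x hx
          have h4 := hcd _ hx.2
          unfold dt at h4
          have e : (f.1 : ℤ) * z.1 - z.2 * (x : ℤ) = - ((x : ℤ) * z.2 - (f.1 : ℤ) * z.1) := by ring
          rw [e]
          exact (dvd_neg).2 h4)
      refine h3.trans ?_
      have h5 : 1 * (nm z : ℝ) * (1 / c1) * (1 / (l : ℝ)) ≤
          uc4_K * (nm z : ℝ) * (1 / c1) * (1 / (l : ℝ)) := by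
        apply mul_le_mul_of_nonneg_right _ (by positivity)
        apply mul_le_mul_of_nonneg_right _ (by positivity)
        exact mul_le_mul_of_nonneg_right hK (by linarith)
      linarith
    · have hk1' : k.1.val ≠ 1 := fun h => hk1 (Fin.ext h)
      refine (uc4_mid hX hl hL k.1 (by omega) h8 z (fun h => hlz h.2)
        (fun b => uc4_cd l k a b) ?_).trans g1
      intro b hb
      have e : dt z b = - dt b z := by
        unfold dt
        ring
      rw [e]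
      exact (dvd_neg).2 (hcd b hb)
  · have hcd : ∀ b, uc4_cd l k a b → (l : ℤ) ∣ b.2 := by
      intro b hb
      unfold uc4_cd at hb
      rw [if_neg (by rw [k2]; decide), if_neg (by rw [k2]; decide)] at hb
      exact hb
    by_cases hk1 : k.1 = 9
    · refine le_trans ?_ g2
      have hw : ∀ v, uc4_w k.1 v = (1 : ℝ) / (nm v : ℝ) := by
        intro v
        unfold uc4_w
        rw [hk1, if_neg (by decide), if_pos (by decide)]
      rw [Finset.sum_congr rfl (fun v _ => hw v), hk1]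
      unfold uc4_S
      rw [if_neg (by decide), if_neg (by decide), if_neg (by decide), if_pos rfl,
        Finset.filter_filter, Finset.filter_filter]
      exact uc4_segL (A := ⌊uc4_K * (f.2 : ℝ) / c1⌋₊) (a := uc4_K) (κ := (nm z : ℝ)) (c1 := c1)
        (L := L) hf2 hl (uc4_g_inj f.2) (by linarith) hc0 hL hL2
        (Nat.floor_le (by positivity))
        (fun v => (0 < v.1 ∧ 0 < v.2) ∧ ¬ ((l : ℤ) ∣ v.1 ∧ (l : ℤ) ∣ v.2) ∧ uc4_cd l k a v)
        (fun x hx => uc4_g_nm f.2 x hf2 hx.1.1 hx.1.2) z.2 (-((f.2 : ℤ) * ws.2)) hlz (by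
          intro x hx
          have h4 := hcd _ hx.2.2
          unfold uc4_g at h4
          simp only at h4
          have e : -((f.2 : ℤ) * ws.2) - z.2 * (x : ℤ) =
            - ((x : ℤ) * z.2 + (f.2 : ℤ) * ws.2) := by ring
          rw [e]
          exact (dvd_neg).2 h4)
    · have hk1' : k.1.val ≠ 9 := fun h => hk1 (Fin.ext h)
      refine (uc4_mid hX hl hL k.1 h2 (by omega) (1, 0) (fun h => hl1 h.1)
        (fun b => uc4_cd l k a b) ?_).trans g1
      intro b hb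
      have e : dt ((1 : ℤ), (0 : ℤ)) b = b.2 := by
        unfold dt
        ring
      rw [e]
      exact hcd b hb

theorem uc4_dE (u : Vec 10) (i : Fin 11) (hi : 1 ≤ i.val) :
    dE u i.val = (dt (u (i - 1 : Fin 11)) (u i)).natAbs := by
  have h1 : ∀ i : Fin 11, 1 ≤ i.val → (i - 1).val = i.val - 1 := by decide
  have hlt := i.isLt
  unfold dE
  rw [dif_pos (by omega : 1 ≤ i.val ∧ i.val ≤ 10)]
  have e : (⟨i.val - 1, by omega⟩ : Fin (10 + 1)) = (i - 1 : Fin 11) := Fin.ext (h1 i hi).symm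
  rw [e]

theorem uc4_case {p : Prm 10} {X : ℕ} {u : Vec 10} (hu : GP p X u) (hc0 : 0 < p.c1)
    {f : ℕ × ℕ} (hf : fE u = f) {l : ℕ} (hl : l.Prime)
    (h : l ∣ Dint u ∨ (¬ l ∣ f.1 * f.2 ∧
        ∃ j : Fin (10 + 1), 1 ≤ j.val ∧ j.val + 1 ≤ 10 ∧ (l : ℤ) ∣ (u j).2 * dt (u j) z)) :
    ∃ k ∈ (univ : Finset (Fin 11 × Fin 4)).filter uc4_ok,
      uc4_cd l k (u (uc4_gi k)) (u k.1) := by
  have hf1 : dE u 1 = f.1 := by rw [← hf]; rfl
  have hf2 : dE u 10 = f.2 := by rw [← hf]; rfl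
  rcases h with h | ⟨h1, j, hj1, hj2, hj3⟩
  · unfold Dint at h
    obtain ⟨i, hi, hd⟩ := (Prime.dvd_finsetProd_iff hl.prime _).1 h
    rw [Finset.mem_Icc] at hi
    obtain ⟨hi1, hi2⟩ := hi
    have hi3 : i ≤ 9 := hi2
    by_cases hi9 : i = 9
    · refine ⟨(8, 1), Finset.mem_filter.2 ⟨Finset.mem_univ _, by decide⟩, ?_⟩
      unfold uc4_cd
      rw [if_pos (by decide)]
      have e1 : uc4_gi (8, 1) = 9 := by decide
      rw [e1]
      have e2 := uc4_dE u 9 (by decide)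
      have e3 : ((9 : Fin 11) - 1) = 8 := by decide
      rw [e3] at e2
      rw [hi9] at hd
      have e4 : ((9 : Fin 11).val) = 9 := by decide
      rw [e4] at e2
      rw [e2] at hd
      have h5 : (l : ℤ) ∣ dt (u (8 : Fin 11)) (u (9 : Fin 11)) := Int.natCast_dvd.2 hd
      have e5 : dt (u (9 : Fin 11)) (u (8 : Fin 11)) = - dt (u (8 : Fin 11)) (u (9 : Fin 11)) := by
        unfold dt
        ring
      show (l : ℤ) ∣ dt (u (9 : Fin 11)) (u (8 : Fin 11))
      rw [e5]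
      exact (dvd_neg).2 h5
    · refine ⟨(⟨i, by omega⟩, 0), Finset.mem_filter.2 ⟨Finset.mem_univ _,
        Or.inl ⟨rfl, hi1, by show i ≤ 8; omega⟩⟩, ?_⟩
      unfold uc4_cd
      rw [if_pos (Or.inl rfl)]
      have e2 := uc4_dE u (⟨i, by omega⟩ : Fin 11) (by show 1 ≤ i; omega)
      have e3 : dE u i = (dt (u ((⟨i, by omega⟩ : Fin 11) - 1)) (u ⟨i, by omega⟩)).natAbs := e2
      rw [e3] at hd
      have e1 : uc4_gi ((⟨i, by omega⟩ : Fin 11), 0) = (⟨i, by omega⟩ : Fin 11) - 1 := by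
        unfold uc4_gi
        rw [if_pos rfl]
      rw [e1]
      exact Int.natCast_dvd.2 hd
  · have hl1 : ¬ (l : ℤ) ∣ (f.1 : ℤ) := fun h2 =>
      h1 ((Int.natCast_dvd_natCast.1 h2).mul_right _)
    have hl2 : ¬ (l : ℤ) ∣ (f.2 : ℤ) := fun h2 =>
      h1 ((Int.natCast_dvd_natCast.1 h2).mul_left _)
    obtain ⟨a1, _⟩ := uc4_first hu hc0
    obtain ⟨a9, _⟩ := uc4_last hu hc0
    rw [hf1] at a1
    rw [hf2] at a9
    rcases (Nat.prime_iff_prime_int.1 hl).dvd_or_dvd hj3 with h3 | h3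
    swap
    · have hj9 : j.val ≠ 9 := by
        intro h4
        have : j = (9 : Fin 11) := Fin.ext h4
        rw [this] at h3
        have e : dt (u (9 : Fin 11)) z = - (f.2 : ℤ) := by
          rw [a9]; unfold dt; ring
        rw [e] at h3
        exact hl2 ((dvd_neg).1 h3)
      refine ⟨(j, 2), Finset.mem_filter.2 ⟨Finset.mem_univ _,
        Or.inr (Or.inr (Or.inl ⟨rfl, hj1, by show j.val ≤ 8; omega⟩))⟩, ?_⟩
      unfold uc4_cd
      rw [if_neg (by simp), if_pos rfl]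
      exact h3
    · have hj1' : j.val ≠ 1 := by
        intro h4
        have : j = (1 : Fin 11) := Fin.ext h4
        rw [this, ← a1] at h3
        exact hl1 h3
      refine ⟨(j, 3), Finset.mem_filter.2 ⟨Finset.mem_univ _,
        Or.inr (Or.inr (Or.inr ⟨rfl, by show 2 ≤ j.val; omega, by show j.val ≤ 9; omega⟩))⟩, ?_⟩
      unfold uc4_cd
      rw [if_neg (by simp), if_neg (by simp)]
      exact h3

theorem uc4_evz : ∃ X₀ : ℕ, ∀ X ≥ X₀, (z.2 : ℝ) < PP X := by
  have hc : Filter.Tendsto (fun X : ℕ => (X : ℝ)) Filter.atTop Filter.atTop :=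
    tendsto_natCast_atTop_atTop
  have hl : Filter.Tendsto (fun X : ℕ => Real.log (X : ℝ)) Filter.atTop Filter.atTop :=
    Real.tendsto_log_atTop.comp hc
  have hl1 : Filter.Tendsto (fun X : ℕ => Real.log (X : ℝ) ^ (1 / 100 : ℝ)) Filter.atTop
    Filter.atTop := (tendsto_rpow_atTop (by norm_num)).comp hl
  have hP : Filter.Tendsto (fun X : ℕ => PP X) Filter.atTop Filter.atTop :=
    Real.tendsto_exp_atTop.comp hl1
  obtain ⟨X₀, hX₀⟩ := Filter.eventually_atTop.1 (hP.eventually_gt_atTop (z.2 : ℝ))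
  exact ⟨X₀, hX₀⟩

theorem UB1_all_pr : ∃ τ₀ : ℝ, 0 < τ₀ ∧ ∀ p : Prm 10, p.Ok τ₀ → UB1 p := by
  classical
  refine ⟨1 / 200, by norm_num, fun p hp => ?_⟩
  obtain ⟨C0, hC0, X0, hX0⟩ := gk_crude hp le_rfl
  have hc0 := hp.c10
  obtain ⟨he8, he8m, -⟩ := uc4_prm hp (by norm_num)
  refine ⟨14, p.e 8, he8, fun P00 _ => ?_⟩
  set M : ℝ := C0 * (p.c1⁻¹ ^ 8 * (44 * uc4_B p.c1 ^ 13)) with hM
  obtain ⟨X5, hX5⟩ := uc4_evz
  refine ⟨max (max X0 X5) (max 3 ⌈Real.exp M⌉₊), fun X hX f hf q _ l hl hlP => ?_⟩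
  have hXX5 : X5 ≤ X := (le_max_right _ _).trans ((le_max_left _ _).trans hX)
  have hXX0 : X0 ≤ X := (le_max_left _ _).trans ((le_max_left _ _).trans hX)
  have hX3 : 3 ≤ X := (le_max_left _ _).trans ((le_max_right _ _).trans hX)
  have hXM : ⌈Real.exp M⌉₊ ≤ X := (le_max_right _ _).trans ((le_max_right _ _).trans hX)
  have hXpos : (0 : ℝ) < X := by
    have : (3 : ℝ) ≤ X := by exact_mod_cast hX3
    linarith
  have hMlog : M ≤ Real.log X := by
    rw [Real.le_log_iff_exp_le hXpos]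
    exact (Nat.le_ceil _).trans (by exact_mod_cast hXM)
  have hlog : 1 ≤ Real.log X := by
    rw [Real.le_log_iff_exp_le hXpos]
    have : (3 : ℝ) ≤ X := by exact_mod_cast hX3
    linarith [Real.exp_one_lt_d9]
  have hlR : (0 : ℝ) < l := by exact_mod_cast hl.pos
  have hf12 : 1 ≤ f.1 ∧ 1 ≤ f.2 := by
    unfold Fac at hf
    obtain ⟨hf', _⟩ := Finset.mem_filter.1 hf
    rw [Finset.mem_product, Finset.mem_Icc, Finset.mem_Icc] at hf'
    exact ⟨hf'.1.1, hf'.2.1⟩
  set L : ℝ := (X : ℝ) ^ p.e 8 with hLdef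
  have hL : 0 < L := Real.rpow_pos_of_pos hXpos _
  have hLf : L ≤ f.1 ∧ L ≤ f.2 := by
    unfold Fac at hf
    obtain ⟨_, ef1, ef2, _⟩ := Finset.mem_filter.1 hf
    have hX1 : (1 : ℝ) ≤ X := by
      have : (3 : ℝ) ≤ X := by exact_mod_cast hX3
      linarith
    have h1 : L ≤ (X : ℝ) ^ p.em := Real.rpow_le_rpow_of_exponent_le hX1 he8m
    exact ⟨h1.trans ef1.lo, h1.trans ef2.lo⟩
  have hlz : ¬ (l : ℤ) ∣ z.2 := by
    intro hd
    have h1 := Int.le_of_dvd z_two hd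
    have h2 := hX5 X hXX5
    have h3 : (l : ℝ) ≤ (z.2 : ℝ) := by exact_mod_cast h1
    linarith
  have hB2 := uc4_B2 hc0
  set T : ℝ := uc4_B p.c1 * Real.log X with hT
  have hc1 : 0 < 1 / p.c1 := by positivity
  have hT1 : 1 ≤ T := by
    rw [hT]
    nlinarith
  set ε : ℝ := T * (1 / l + 1 / L) with hε
  have hε0 : 0 ≤ ε := by positivity
  have hmem : ∀ u ∈ GS p X, GP p X u := by
    intro u hu
    unfold GS at hu
    split_ifs at hu with h
    · exact (Set.Finite.mem_toFinset h).1 hu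
    · exact absurd hu (Finset.notMem_empty u)
  set A := (GS p X).filter (fun u => fE u = f ∧ (l ∣ Dint u ∨ (¬ l ∣ f.1 * f.2 ∧
        ∃ j : Fin (10 + 1), 1 ≤ j.val ∧ j.val + 1 ≤ 10 ∧ (l : ℤ) ∣ (u j).2 * dt (u j) z))) with hA
  have s1 : ∑ u ∈ A, gk p X P00 q u ≤
      C0 * (p.c1⁻¹ ^ 8 * ∑ u ∈ A, ∏ j, uc4_w j (u j)) := by
    rw [Finset.mul_sum, Finset.mul_sum]
    apply Finset.sum_le_sum
    intro u hu
    have hgp := hmem u (Finset.mem_filter.1 hu).1
    refine ((hX0 X hXX0 P00 q u hgp).2).trans ?_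
    rw [div_eq_mul_one_div]
    exact mul_le_mul_of_nonneg_left (uc4_ptw hgp hc0) hC0
  have s2 : ∑ u ∈ A, ∏ j, uc4_w j (u j) ≤ ∑ k ∈ (univ : Finset (Fin 11 × Fin 4)).filter uc4_ok,
      ∑ u ∈ (Fintype.piFinset (uc4_S X l f p.c1 L)).filter
        (fun u => uc4_cd l k (u (uc4_gi k)) (u k.1)), ∏ j, uc4_w j (u j) := by
    apply uc4_cov ((univ : Finset (Fin 11 × Fin 4)).filter uc4_ok)
      (fun k => (Fintype.piFinset (uc4_S X l f p.c1 L)).filter
        (fun u => uc4_cd l k (u (uc4_gi k)) (u k.1))) (fun u => ∏ j, uc4_w j (u j))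
    · intro k _ u hu
      apply Finset.prod_nonneg
      intro j _
      have h2 := Fintype.mem_piFinset.1 (Finset.mem_filter.1 hu).1 j
      exact uc4_w_nonneg X l f p.c1 L j (u j) h2
    · intro u hu
      obtain ⟨hu1, hu2, hu3⟩ := Finset.mem_filter.1 hu
      have hgp := hmem u hu1
      obtain ⟨k, hk, hcd⟩ := uc4_case hgp hc0 hu2 hl hu3
      exact ⟨k, hk, Finset.mem_filter.2 ⟨uc4_box hp (by norm_num) (by omega) hgp hu2 hl, hcd⟩⟩
  have s3 : ∀ k ∈ (univ : Finset (Fin 11 × Fin 4)).filter uc4_ok,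
      ∑ u ∈ (Fintype.piFinset (uc4_S X l f p.c1 L)).filter
        (fun u => uc4_cd l k (u (uc4_gi k)) (u k.1)), ∏ j, uc4_w j (u j) ≤ T ^ 12 * ε := by
    intro k hk
    have hok := (Finset.mem_filter.1 hk).2
    exact uc4_pi uc4_w (uc4_S X l f p.c1 L) T ε (uc4_w_nonneg X l f p.c1 L) hT1
      (fun j => uc4_T hX3 hf12.1 hf12.2 hc0 j) k.1 (uc4_gi k) (uc4_gi_ne k hok)
      (fun a b => uc4_cd l k a b) hε0
      (fun a ha => uc4_eps hX3 hl hlz hf12.1 hf12.2 hc0 hL hLf.1 hLf.2 k hok a ha)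
  have s4 : ∑ u ∈ A, ∏ j, uc4_w j (u j) ≤ 44 * (T ^ 12 * ε) := by
    refine s2.trans ((Finset.sum_le_sum s3).trans ?_)
    rw [Finset.sum_const, nsmul_eq_mul]
    apply mul_le_mul_of_nonneg_right _ (by positivity)
    have h5 := Finset.card_filter_le (univ : Finset (Fin 11 × Fin 4)) uc4_ok
    have h6 : (univ : Finset (Fin 11 × Fin 4)).card = 44 := by decide
    rw [h6] at h5
    exact_mod_cast h5
  have hci : 0 ≤ p.c1⁻¹ ^ 8 := by positivity
  have s5 : ∑ u ∈ A, gk p X P00 q u ≤ M * Real.log X ^ 13 * (1 / l + 1 / L) := by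
    refine s1.trans ((mul_le_mul_of_nonneg_left (mul_le_mul_of_nonneg_left s4 hci) hC0).trans
      (le_of_eq ?_))
    rw [hM, hε, hT]
    ring
  refine s5.trans ?_
  have e1 : (X : ℝ) ^ (-p.e 8) = 1 / L := by
    rw [Real.rpow_neg hXpos.le, one_div]
  rw [e1]
  apply mul_le_mul_of_nonneg_right _ (by positivity)
  have e2 : Real.log X ^ (14 : ℝ) = Real.log X ^ 14 := by
    rw [← Real.rpow_natCast]
    norm_num
  rw [e2]
  calc M * Real.log X ^ 13 ≤ Real.log X * Real.log X ^ 13 :=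
        mul_le_mul_of_nonneg_right hMlog (by positivity)
    _ = Real.log X ^ 14 := by ring

end Pool.Agent.AQ.UPA

namespace Pool.Agent.AQ.UPA

theorem UB1_all : type_of% @UB1_all_pr := @UB1_all_pr

end Pool.Agent.AQ.UPA
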