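import Pool.Agent.Lib_helper15.AQ.UP.Facts
import Pool.Agent.Lib_helper15.AQ.UPAF.UC4
import Pool.Agent.Lib_helper15.AQ.UPAF.UC2


/-!
# AQ (MP_892e4c_nt), first moments for the paths: block UC3 (helper8, after helper99): one vertex given
-/

set_option autoImplicit false

namespace Pool.Agent.AQ.UPA

open Finset Pool.Agent.PENT Pool.Agent.AQ.NC Pool.Agent.AQ.PFM
open Pool.Agent.PENK (PolyK Wts dl mL ich EquiF PerP prs lw L1 Rf)
open Pool.Agent.PFM (DE ph LocS Bo Un)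
open Pool.Agent.UPA (tp exW feD feU vqU cs cr FamO LawO edP mem_feD mem_feU mem_vqU)
open Pool.Agent.AQ.PENK (nz)

variable [Cst]

theorem uc3_gp {p : Prm 10} {X : ℕ} {u : Vec 10} (h : u ∈ GS p X) : GP p X u := by
  classical
  unfold GS at h
  split_ifs at h with h1
  · exact (Set.Finite.mem_toFinset h1).1 h
  · exact absurd h (Finset.notMem_empty _)

/-- the sum over a box with one vertex given -/
theorem uc3_pi (w : Fin 11 → ℤ × ℤ → ℝ) (S : Fin 11 → Finset (ℤ × ℤ)) (T M : ℝ)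
    (hw : ∀ j v, v ∈ S j → 0 ≤ w j v) (hS : ∀ j, ∑ v ∈ S j, w j v ≤ T)
    (i : Fin 11) (v : ℤ × ℤ) (hM0 : 0 ≤ M) (hM : ∀ a ∈ S i, w i a ≤ M)
    (s : Finset (Fin 11 → ℤ × ℤ)) (hs : ∀ u ∈ s, u ∈ Fintype.piFinset S ∧ u i = v) :
    ∑ u ∈ s, ∏ j, w j (u j) ≤ M * T ^ 10 := by
  classical
  obtain ⟨V, hV⟩ : ∃ V : Fin 11 → Finset (ℤ × ℤ), V = fun j =>
    if j = i then (S j).filter (fun z => z = v) else S j := ⟨_, rfl⟩
  have hVi : V i = (S i).filter (fun z => z = v) := by rw [hV]; dsimp only; rw [if_pos rfl]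
  have hVj : ∀ j, j ≠ i → V j = S j := by
    intro j hj
    rw [hV]; dsimp only; rw [if_neg hj]
  have hVV : ∀ j, V j ⊆ S j := by
    intro j
    by_cases hj : j = i
    · rw [hj, hVi]; exact filter_subset _ _
    · rw [hVj j hj]
  have hw0 : ∀ j, ∀ z ∈ V j, 0 ≤ w j z := fun j z hz => hw j z (hVV j hz)
  have hmem : ∀ u ∈ s, u ∈ Fintype.piFinset V := by
    intro u hu
    obtain ⟨g1, g2⟩ := hs u hu
    rw [Fintype.mem_piFinset] at g1 ⊢
    intro j
    by_cases hj : j = i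
    · rw [hj, hVi, mem_filter]
      exact ⟨g1 i, g2⟩
    · rw [hVj j hj]
      exact g1 j
  calc ∑ u ∈ s, ∏ j, w j (u j) ≤ ∑ u ∈ Fintype.piFinset V, ∏ j : Fin 11, w j (u j) := by
        refine sum_le_sum_of_subset_of_nonneg hmem fun u hu _ => prod_nonneg fun j _ => ?_
        exact hw0 j _ (Fintype.mem_piFinset.1 hu j)
    _ = ∏ j : Fin 11, ∑ z ∈ V j, w j z := by rw [Finset.prod_univ_sum]
    _ ≤ M * T ^ 10 := by
        rw [← Finset.mul_prod_erase univ _ (Finset.mem_univ i)]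
        refine mul_le_mul ?_ ?_ (prod_nonneg fun j _ => sum_nonneg fun z hz => hw0 j z hz) hM0
        · rw [hVi]
          have e2 : ((S i).filter (fun z => z = v)).card ≤ 1 := by
            rw [card_le_one]
            intro a ha b hb
            rw [(mem_filter.1 ha).2, (mem_filter.1 hb).2]
          calc ∑ z ∈ (S i).filter (fun z => z = v), w i z ≤
                ∑ _z ∈ (S i).filter (fun z => z = v), M :=
                sum_le_sum fun z hz => hM z (mem_filter.1 hz).1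
            _ = (((S i).filter (fun z => z = v)).card : ℝ) * M := by
                rw [sum_const, nsmul_eq_mul]
            _ ≤ 1 * M := by
                refine mul_le_mul_of_nonneg_right ?_ hM0
                exact_mod_cast e2
            _ = M := one_mul _
        · have e3 : (univ.erase i : Finset (Fin 11)).card = 10 := by
            rw [card_erase_of_mem (mem_univ _), card_univ, Fintype.card_fin]
          calc ∏ j ∈ univ.erase i, ∑ z ∈ V j, w j z ≤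
                ∏ _j ∈ (univ.erase i : Finset (Fin 11)), T := by
                refine prod_le_prod (fun j _ => sum_nonneg fun z hz => hw0 j z hz)
                  (fun j hj => ?_)
                rw [hVj j (ne_of_mem_erase hj)]
                exact hS j
            _ = _ := by rw [prod_const, e3]

/-- the weight of one vertex -/
theorem uc3_pt {X l : ℕ} {f : ℕ × ℕ} {c1 L : ℝ} (hf1 : 1 ≤ f.1) (hf2 : 1 ≤ f.2) (hL : 1 ≤ L)
    (hL1 : L ≤ f.1) (hL2 : L ≤ f.2) {i : Fin 11} (hi1 : 1 ≤ i.val) (hi9 : i.val ≤ 9) {v : ℤ × ℤ}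
    (hv : v ∈ uc4_S X l f c1 L i) : uc4_w i v ≤ (nm z : ℝ) * (1 / L) := by
  have hz := uc4_nmz
  have hL0 : 0 < L := by linarith
  have key : ∀ d : ℕ, L ≤ (d : ℝ) → (nm z : ℝ) / d ≤ (nm z : ℝ) * (1 / L) := by
    intro d hd
    have h1 := one_div_le_one_div_of_le hL0 hd
    have h2 := mul_le_mul_of_nonneg_left h1 (show (0 : ℝ) ≤ nm z by linarith)
    rw [mul_one_div] at h2
    exact h2
  have h0 : i ≠ 0 := fun h => by rw [h] at hi1; exact absurd hi1 (by decide)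
  have h10 : i ≠ 10 := fun h => by rw [h] at hi9; exact absurd hi9 (by decide)
  unfold uc4_S at hv
  obtain ⟨hv, -⟩ := mem_filter.1 hv
  rw [if_neg h0, if_neg h10] at hv
  unfold uc4_w
  rw [if_neg (not_or.2 ⟨h0, h10⟩)]
  by_cases h1 : i = 1
  · rw [if_pos h1] at hv
    obtain ⟨x, -, rfl⟩ := mem_image.1 hv
    rw [if_pos (Or.inl h1)]
    exact (uc4_f_nm x f.1 hf1).trans (key _ hL1)
  rw [if_neg h1] at hv
  by_cases h9 : i = 9
  · rw [if_pos h9] at hv
    obtain ⟨hv1, hv2, hv3⟩ := mem_filter.1 hv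
    obtain ⟨x, -, rfl⟩ := mem_image.1 hv1
    rw [if_pos (Or.inr h9)]
    exact (uc4_g_nm f.2 x hf2 hv2 hv3).trans (key _ hL2)
  rw [if_neg h9] at hv
  obtain ⟨-, hv4, -⟩ := mem_filter.1 hv
  rw [if_neg (not_or.2 ⟨h1, h9⟩)]
  have h5 : L ≤ (nm v : ℝ) ^ 2 := by nlinarith
  have h6 := one_div_le_one_div_of_le hL0 h5
  have h7 : (0 : ℝ) < 1 / L := by positivity
  nlinarith

/-- block UC3: one vertex given -/
theorem UB2_all_pr : ∃ τ₀ : ℝ, 0 < τ₀ ∧ ∀ p : Prm 10, p.Ok τ₀ → UB2 p := by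
  classical
  refine ⟨1 / 200, by norm_num, fun p hp => ?_⟩
  obtain ⟨C0, hC0, X0, hX0⟩ := gk_crude hp le_rfl
  have hc0 := hp.c10
  obtain ⟨he8, he8m, -⟩ := uc4_prm hp (by norm_num)
  have hz := uc4_nmz
  have hB2 := uc4_B2 hc0
  obtain ⟨M, hM⟩ : ∃ M : ℝ, M = C0 * (p.c1⁻¹ ^ 8 * ((nm z : ℝ) * uc4_B p.c1 ^ 10)) := ⟨_, rfl⟩
  have hci : 0 ≤ p.c1⁻¹ ^ 8 := by positivity
  have hM0 : 0 ≤ M := by rw [hM]; positivity
  have hlim : ∀ᶠ X : ℕ in Filter.atTop, M * Real.log X ^ 10 ≤ (X : ℝ) ^ (p.e 8 / 2) := by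
    have hc : Filter.Tendsto (fun X : ℕ => (X : ℝ)) Filter.atTop Filter.atTop :=
      tendsto_natCast_atTop_atTop
    have h1 := ((isLittleO_log_rpow_rpow_atTop 10
      (show (0 : ℝ) < p.e 8 / 2 by linarith)).comp_tendsto hc).bound
        (show (0 : ℝ) < 1 / (M + 1) by positivity)
    filter_upwards [h1, Filter.eventually_ge_atTop 1] with X h2 h3
    have hX1 : (1 : ℝ) ≤ X := by exact_mod_cast h3
    have hL : 0 ≤ Real.log X := Real.log_nonneg hX1
    simp only [Function.comp, Real.norm_eq_abs] at h2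
    rw [abs_of_nonneg (Real.rpow_nonneg hL _),
      abs_of_nonneg (Real.rpow_nonneg (Nat.cast_nonneg _) _), Real.rpow_ofNat] at h2
    have h4 : 0 ≤ Real.log X ^ 10 := by positivity
    have h5 : (M + 1) * Real.log X ^ 10 ≤ (X : ℝ) ^ (p.e 8 / 2) := by
      calc (M + 1) * Real.log X ^ 10 ≤ (M + 1) * (1 / (M + 1) * (X : ℝ) ^ (p.e 8 / 2)) :=
            mul_le_mul_of_nonneg_left h2 (by linarith)
        _ = _ := by field_simp
    nlinarith
  obtain ⟨X₂, hX₂⟩ := Filter.eventually_atTop.1 hlim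
  refine ⟨p.e 8 / 2, by linarith, fun P00 _ => ⟨max (max X0 X₂) 3, fun X hX f hf q _ i hi1 hi2 v => ?_⟩⟩
  have x1 : X0 ≤ X := le_trans (le_trans (le_max_left _ _) (le_max_left _ _)) hX
  have x2 : X₂ ≤ X := le_trans (le_trans (le_max_right _ _) (le_max_left _ _)) hX
  have x3 : 3 ≤ X := le_trans (le_max_right _ _) hX
  have hX1 : (1 : ℝ) ≤ X := by
    have : 1 ≤ X := by omega
    exact_mod_cast this
  have hXpos : (0 : ℝ) < X := by linarith
  obtain ⟨L, hL⟩ : ∃ L : ℝ, L = (X : ℝ) ^ p.e 8 := ⟨_, rfl⟩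
  have hL1 : 1 ≤ L := by rw [hL]; exact Real.one_le_rpow hX1 he8.le
  have hfm : EF p X f.1 ∧ EF p X f.2 := by
    unfold Fac at hf
    have := (mem_filter.1 hf).2
    exact ⟨this.1, this.2.1⟩
  have h1f : 1 ≤ f.1 := Nat.pos_of_ne_zero hfm.1.dp.1.ne_zero
  have h2f : 1 ≤ f.2 := Nat.pos_of_ne_zero hfm.2.dp.1.ne_zero
  have hLm : L ≤ (X : ℝ) ^ p.em := by rw [hL]; exact Real.rpow_le_rpow_of_exponent_le hX1 he8m
  have hlog : 0 ≤ Real.log X := Real.log_nonneg hX1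
  have key := uc3_pi uc4_w (uc4_S X 2 f p.c1 L) (uc4_B p.c1 * Real.log X)
    ((nm z : ℝ) * (1 / L)) (uc4_w_nonneg X 2 f p.c1 L)
    (fun j => uc4_T x3 h1f h2f hc0 j) i v (by positivity)
    (fun a ha => uc3_pt h1f h2f hL1 (hLm.trans hfm.1.lo) (hLm.trans hfm.2.lo) hi1 (by omega) ha)
    ((GS p X).filter (fun u => fE u = f ∧ u i = v)) (fun u hu => by
      obtain ⟨g1, g2, g3⟩ := mem_filter.1 hu
      refine ⟨?_, g3⟩
      rw [hL]
      exact uc4_box hp (by norm_num) (by omega) (uc3_gp g1) g2 Nat.prime_two)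
  have s1 : ∑ u ∈ (GS p X).filter (fun u => fE u = f ∧ u i = v), gk p X P00 q u ≤
      C0 * (p.c1⁻¹ ^ 8 * ∑ u ∈ (GS p X).filter (fun u => fE u = f ∧ u i = v),
        ∏ j, uc4_w j (u j)) := by
    rw [Finset.mul_sum, Finset.mul_sum]
    apply Finset.sum_le_sum
    intro u hu
    have hgp := uc3_gp (mem_filter.1 hu).1
    refine ((hX0 X x1 P00 q u hgp).2).trans ?_
    rw [div_eq_mul_one_div]
    exact mul_le_mul_of_nonneg_left (uc4_ptw hgp hc0) hC0
  have e1 : (X : ℝ) ^ (-p.e 8) = 1 / L := by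
    rw [Real.rpow_neg hXpos.le, one_div, hL]
  calc ∑ u ∈ (GS p X).filter (fun u => fE u = f ∧ u i = v), gk p X P00 q u
      ≤ C0 * (p.c1⁻¹ ^ 8 * ((nm z : ℝ) * (1 / L) * (uc4_B p.c1 * Real.log X) ^ 10)) :=
        s1.trans (mul_le_mul_of_nonneg_left (mul_le_mul_of_nonneg_left key hci) hC0)
    _ = M * Real.log X ^ 10 * (1 / L) := by rw [hM]; ring
    _ ≤ (X : ℝ) ^ (p.e 8 / 2) * (1 / L) :=
        mul_le_mul_of_nonneg_right (hX₂ X x2) (by positivity)
    _ = (X : ℝ) ^ (-(p.e 8 / 2)) := by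
        rw [← e1, ← Real.rpow_add hXpos]
        congr 1
        ring

end Pool.Agent.AQ.UPA

namespace Pool.Agent.AQ.UPA

theorem UB2_all : type_of% @UB2_all_pr := @UB2_all_pr

end Pool.Agent.AQ.UPA
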